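import Pool.Agent.Helper24.Zono.Setup

/-!
# The random test vectors
-/

open Finset
open scoped BigOperators RealInnerProductSpace

namespace Pool.Agent.Helper24.Zono

variable {n N : ℕ}

/-- The chaos `M(Y) = ∑ w_l (∏ ⟨Y_i, u_l⟩) u_l`. -/
noncomputable def Mv (w : Fin N → ℝ) (u : Fin N → EuclideanSpace ℝ (Fin n)) (d : ℕ)
    (e : OrthonormalBasis (Fin n) ℝ (EuclideanSpace ℝ (Fin n)))
    (Y : Fin d → Fin n → Bool) : EuclideanSpace ℝ (Fin n) :=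
  ∑ l, (w l * ∏ i, ⟪rv e univ (Y i), u l⟫) • u l

/-- The tuple of test directions `(U(Y), Y_1, …, Y_d)`. -/
noncomputable def Dv (w : Fin N → ℝ) (u : Fin N → EuclideanSpace ℝ (Fin n)) (k : ℕ)
    (e : OrthonormalBasis (Fin n) ℝ (EuclideanSpace ℝ (Fin n))) (lam : Fin n → ℝ) (s : ℝ)
    (Y : Fin (2 * k + 1) → Fin n → Bool) : Fin (2 * k + 2) → EuclideanSpace ℝ (Fin n) :=
  Fin.cons (gop e lam s (Mv w u (2 * k + 1) e Y)) (fun i => rv e univ (Y i))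

lemma inner_gop_comm (e : OrthonormalBasis (Fin n) ℝ (EuclideanSpace ℝ (Fin n)))
    (lam : Fin n → ℝ) (s : ℝ) (v x : EuclideanSpace ℝ (Fin n)) :
    ⟪x, gop e lam s v⟫ = ⟪v, gop e lam s x⟫ := by
  rw [inner_gop, inner_gop]
  exact Finset.sum_congr rfl fun a _ => by ring

lemma inner_Dv_zero (w : Fin N → ℝ) (u : Fin N → EuclideanSpace ℝ (Fin n)) (k : ℕ)
    (e : OrthonormalBasis (Fin n) ℝ (EuclideanSpace ℝ (Fin n))) (lam : Fin n → ℝ) (s : ℝ)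
    (Y : Fin (2 * k + 1) → Fin n → Bool) (v : EuclideanSpace ℝ (Fin n)) :
    ⟪v, Dv w u k e lam s Y 0⟫
      = ∑ l, (w l * ⟪u l, gop e lam s v⟫) * ∏ i, ∑ a, sg (Y i a) * ⟪e a, u l⟫ := by
  have h : Dv w u k e lam s Y 0 = gop e lam s (Mv w u (2 * k + 1) e Y) := rfl
  rw [h, inner_gop_comm]
  unfold Mv
  rw [sum_inner]
  refine Finset.sum_congr rfl fun l _ => ?_
  rw [inner_smul_left]
  simp only [inner_rv]
  simp only [conj_trivial]
  ring

lemma inner_Dv_succ (w : Fin N → ℝ) (u : Fin N → EuclideanSpace ℝ (Fin n)) (k : ℕ)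
    (e : OrthonormalBasis (Fin n) ℝ (EuclideanSpace ℝ (Fin n))) (lam : Fin n → ℝ) (s : ℝ)
    (Y : Fin (2 * k + 1) → Fin n → Bool) (v : EuclideanSpace ℝ (Fin n)) (i : Fin (2 * k + 1)) :
    ⟪v, Dv w u k e lam s Y i.succ⟫ = ∑ a, sg (Y i a) * ⟪e a, v⟫ := by
  have h : Dv w u k e lam s Y i.succ = rv e univ (Y i) := rfl
  rw [h, real_inner_comm, inner_rv]

/-- Moments of the coordinates of the test directions. -/
theorem moment_Dv (w : Fin N → ℝ) (u : Fin N → EuclideanSpace ℝ (Fin n)) (k : ℕ)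
    (e : OrthonormalBasis (Fin n) ℝ (EuclideanSpace ℝ (Fin n))) (lam : Fin n → ℝ)
    (hlam : ∀ a, 0 ≤ lam a)
    (he : ∀ a b, form w u (2 * k + 1) (e a) (e b) = if a = b then lam a else 0)
    (s : ℝ) (hs : 0 < s) (v : EuclideanSpace ℝ (Fin n)) (hv : ‖v‖ ≤ 1) (q : ℕ)
    (i : Fin (2 * k + 2)) :
    (𝔼 Y : Fin (2 * k + 1) → Fin n → Bool, ⟪v, Dv w u k e lam s Y i⟫ ^ (2 * q))
      ≤ Kc q ^ (2 * k + 1) := by
  have hv2 : ‖v‖ ^ 2 ≤ 1 := pow_le_one₀ (norm_nonneg _) hv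
  refine Fin.cases ?_ (fun i => ?_) i
  · simp only [inner_Dv_zero]
    refine (chaos_moment_prod (ι := Fin n) (L := Fin N) q (2 * k + 1)
      (fun l => w l * ⟪u l, gop e lam s v⟫) (fun l a => ⟪e a, u l⟫)).trans ?_
    have h1 : ∑ l, ∑ l', (w l * ⟪u l, gop e lam s v⟫) * (w l' * ⟪u l', gop e lam s v⟫)
        * (∑ a, ⟪e a, u l⟫ * ⟪e a, u l'⟫) ^ (2 * k + 1)
        = form w u (2 * k + 1) (gop e lam s v) (gop e lam s v) := by
      unfold form
      refine Finset.sum_congr rfl fun l _ => Finset.sum_congr rfl fun l' _ => ?_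
      have : ∑ a, ⟪e a, u l⟫ * ⟪e a, u l'⟫ = ⟪u l, u l'⟫ := by
        rw [← e.sum_inner_mul_inner (u l) (u l')]
        exact Finset.sum_congr rfl fun a _ => by rw [real_inner_comm (u l) (e a)]
      rw [this]; ring
    rw [h1]
    have h2 := form_gop_le w u (2 * k + 1) e lam hlam he s hs v
    have h3 : 0 ≤ form w u (2 * k + 1) (gop e lam s v) (gop e lam s v) := by
      rw [form_expand w u _ e lam he]
      exact Finset.sum_nonneg fun a _ => mul_nonneg (hlam a) (mul_self_nonneg _)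
    calc Kc q ^ (2 * k + 1) * form w u (2 * k + 1) (gop e lam s v) (gop e lam s v) ^ q
        ≤ Kc q ^ (2 * k + 1) * 1 := by
          refine mul_le_mul_of_nonneg_left ?_ (pow_nonneg (Kc_pos q).le _)
          exact pow_le_one₀ h3 (h2.trans hv2)
      _ = _ := mul_one _
  · simp only [inner_Dv_succ]
    rw [expect_pi_eval (ι := Fin (2 * k + 1)) (Ω := Fin n → Bool) i
      (fun s => (∑ a, sg (s a) * ⟪e a, v⟫) ^ (2 * q))]
    refine (khintchine (fun a => ⟪e a, v⟫) q).trans ?_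
    rw [← norm_sq_eq_sum e]
    calc Kc q * (‖v‖ ^ 2) ^ q ≤ Kc q * 1 := by
          refine mul_le_mul_of_nonneg_left ?_ (Kc_pos q).le
          exact pow_le_one₀ (sq_nonneg _) hv2
      _ = Kc q ^ 1 := by ring
      _ ≤ Kc q ^ (2 * k + 1) := pow_le_pow_right₀ (Kc_one_le q) (by omega)

/-- The main term. -/
noncomputable def Qv (w : Fin N → ℝ) (u : Fin N → EuclideanSpace ℝ (Fin n)) (k : ℕ)
    (e : OrthonormalBasis (Fin n) ℝ (EuclideanSpace ℝ (Fin n))) (lam : Fin n → ℝ) (s : ℝ)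
    (v : EuclideanSpace ℝ (Fin n)) : ℝ :=
  ∑ l, w l * (⟪u l, gop e lam s v⟫ * ⟪u l, v⟫ ^ (2 * k + 1))

theorem expect_prod_Dv (w : Fin N → ℝ) (u : Fin N → EuclideanSpace ℝ (Fin n)) (k : ℕ)
    (e : OrthonormalBasis (Fin n) ℝ (EuclideanSpace ℝ (Fin n))) (lam : Fin n → ℝ)
    (s : ℝ) (v : EuclideanSpace ℝ (Fin n)) :
    (𝔼 Y : Fin (2 * k + 1) → Fin n → Bool, ∏ i, ⟪v, Dv w u k e lam s Y i⟫)
      = Qv w u k e lam s v := by
  have h1 : ∀ Y : Fin (2 * k + 1) → Fin n → Bool, ∏ i, ⟪v, Dv w u k e lam s Y i⟫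
      = ∑ l, (w l * ⟪u l, gop e lam s v⟫) *
        ∏ i : Fin (2 * k + 1), ((∑ a, sg (Y i a) * ⟪e a, u l⟫) * (∑ a, sg (Y i a) * ⟪e a, v⟫)) := by
    intro Y
    have h2 : ∏ i : Fin (2 * k + 2), ⟪v, Dv w u k e lam s Y i⟫
        = ⟪v, Dv w u k e lam s Y 0⟫ * ∏ i : Fin (2 * k + 1), ⟪v, Dv w u k e lam s Y i.succ⟫ :=
      Fin.prod_univ_succ _
    rw [h2, inner_Dv_zero]
    simp only [inner_Dv_succ]
    rw [Finset.sum_mul]
    refine Finset.sum_congr rfl fun l _ => ?_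
    rw [Finset.prod_mul_distrib]; ring
  simp only [h1]
  rw [Finset.expect_sum_comm]
  unfold Qv
  refine Finset.sum_congr rfl fun l _ => ?_
  rw [← Finset.mul_expect, expect_prod_pair]
  have : ∑ a, ⟪e a, u l⟫ * ⟪e a, v⟫ = ⟪u l, v⟫ := by
    rw [← e.sum_inner_mul_inner (u l) v]
    exact Finset.sum_congr rfl fun a _ => by rw [real_inner_comm (u l) (e a)]
  rw [this]; ring

/-- First absolute moment of the norm of the test directions. -/
theorem norm_Dv_le (w : Fin N → ℝ) (u : Fin N → EuclideanSpace ℝ (Fin n)) (k : ℕ)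
    (e : OrthonormalBasis (Fin n) ℝ (EuclideanSpace ℝ (Fin n))) (lam : Fin n → ℝ)
    (hlam : ∀ a, 0 ≤ lam a)
    (he : ∀ a b, form w u (2 * k + 1) (e a) (e b) = if a = b then lam a else 0)
    (s : ℝ) (hs : 0 < s) (hn : 0 < n) (i : Fin (2 * k + 2)) :
    (𝔼 Y : Fin (2 * k + 1) → Fin n → Bool, ‖Dv w u k e lam s Y i‖)
      ≤ Kc 1 ^ (2 * k + 1) * Real.sqrt n := by
  have hnR : (0 : ℝ) < n := by exact_mod_cast hn
  have hsn : 0 < Real.sqrt n := Real.sqrt_pos.2 hnR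
  have h1 : ∀ Y : Fin (2 * k + 1) → Fin n → Bool, ‖Dv w u k e lam s Y i‖
      ≤ ((∑ a, ⟪e a, Dv w u k e lam s Y i⟫ ^ (2 * 1)) / Real.sqrt n + Real.sqrt n) / 2 := by
    intro Y
    simp only [mul_one]
    rw [← norm_sq_eq_sum e]
    set z := ‖Dv w u k e lam s Y i‖
    have h3 : (z ^ 2 / Real.sqrt n + Real.sqrt n) / 2 - z
        = (z - Real.sqrt n) ^ 2 / (2 * Real.sqrt n) := by
      field_simp; ring
    have h4 : 0 ≤ (z - Real.sqrt n) ^ 2 / (2 * Real.sqrt n) := by positivity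
    linarith
  have h2 : (𝔼 Y : Fin (2 * k + 1) → Fin n → Bool, ∑ a, ⟪e a, Dv w u k e lam s Y i⟫ ^ (2 * 1))
      ≤ n * Kc 1 ^ (2 * k + 1) := by
    rw [Finset.expect_sum_comm]
    calc ∑ a, 𝔼 Y : Fin (2 * k + 1) → Fin n → Bool, ⟪e a, Dv w u k e lam s Y i⟫ ^ (2 * 1)
        ≤ ∑ _a : Fin n, Kc 1 ^ (2 * k + 1) := Finset.sum_le_sum fun a _ =>
          moment_Dv w u k e lam hlam he s hs (e a) (by rw [e.norm_eq_one]) 1 i
      _ = n * Kc 1 ^ (2 * k + 1) := by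
          rw [Finset.sum_const, Finset.card_univ, Fintype.card_fin, nsmul_eq_mul]
  have hK : 1 ≤ Kc 1 ^ (2 * k + 1) := one_le_pow₀ (Kc_one_le 1)
  calc (𝔼 Y : Fin (2 * k + 1) → Fin n → Bool, ‖Dv w u k e lam s Y i‖)
      ≤ 𝔼 Y : Fin (2 * k + 1) → Fin n → Bool,
        ((∑ a, ⟪e a, Dv w u k e lam s Y i⟫ ^ (2 * 1)) / Real.sqrt n + Real.sqrt n) / 2 :=
        expect_mono h1
    _ = ((𝔼 Y : Fin (2 * k + 1) → Fin n → Bool, ∑ a, ⟪e a, Dv w u k e lam s Y i⟫ ^ (2 * 1))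
          / Real.sqrt n + Real.sqrt n) / 2 := by
        rw [← Finset.expect_div, Finset.expect_add_distrib, ← Finset.expect_div,
          Fintype.expect_const]
    _ ≤ (n * Kc 1 ^ (2 * k + 1) / Real.sqrt n + Real.sqrt n) / 2 := by gcongr
    _ = (Kc 1 ^ (2 * k + 1) * Real.sqrt n + Real.sqrt n) / 2 := by
        have : (n : ℝ) = Real.sqrt n * Real.sqrt n := (Real.mul_self_sqrt hnR.le).symm
        have h5 : n * Kc 1 ^ (2 * k + 1) / Real.sqrt n = Kc 1 ^ (2 * k + 1) * Real.sqrt n := by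
          rw [div_eq_iff hsn.ne', mul_assoc, ← this]; ring
        rw [h5]
    _ ≤ Kc 1 ^ (2 * k + 1) * Real.sqrt n := by nlinarith

end Pool.Agent.Helper24.Zono
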