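import Mathlib

/-!
# Tensor energies of a weighted point configuration and their robustness
-/

open Finset
open scoped BigOperators RealInnerProductSpace

namespace Pool.Agent.Helper24.Zono

variable {n N : ℕ}

/-- The bilinear form `∑ w_j w_l ⟨u_j,u_l⟩^d ⟨u_j,x⟩ ⟨u_l,y⟩`. -/
noncomputable def form (w : Fin N → ℝ) (u : Fin N → EuclideanSpace ℝ (Fin n)) (d : ℕ)
    (x y : EuclideanSpace ℝ (Fin n)) : ℝ :=
  ∑ j, ∑ l, w j * w l * ⟪u j, u l⟫ ^ d * (⟪u j, x⟫ * ⟪u l, y⟫)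

theorem exists_eigenbasis (w : Fin N → ℝ) (u : Fin N → EuclideanSpace ℝ (Fin n)) (d : ℕ) :
    ∃ (e : OrthonormalBasis (Fin n) ℝ (EuclideanSpace ℝ (Fin n))) (lam : Fin n → ℝ),
      ∀ a b, form w u d (e a) (e b) = if a = b then lam a else 0 := by
  set T : EuclideanSpace ℝ (Fin n) →ₗ[ℝ] EuclideanSpace ℝ (Fin n) :=
    ∑ j, ∑ l, (w j * w l * ⟪u j, u l⟫ ^ d) •
      ((innerSL ℝ (u j)).toLinearMap.smulRight (u l)) with hT
  have hTx : ∀ x y, ⟪T x, y⟫ = form w u d x y := by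
    intro x y
    simp only [hT, LinearMap.sum_apply, LinearMap.smul_apply, LinearMap.smulRight_apply,
      ContinuousLinearMap.coe_coe, innerSL_apply_apply, sum_inner, inner_smul_left, form]
    refine Finset.sum_congr rfl fun j _ => Finset.sum_congr rfl fun l _ => ?_
    simp
  have hsymm : ∀ x y, form w u d x y = form w u d y x := by
    intro x y
    unfold form
    rw [Finset.sum_comm]
    refine Finset.sum_congr rfl fun j _ => Finset.sum_congr rfl fun l _ => ?_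
    rw [real_inner_comm (u l) (u j)]
    ring
  have hS : T.IsSymmetric := by
    intro x y
    rw [hTx, ← real_inner_comm, hTx, hsymm]
  have hn : Module.finrank ℝ (EuclideanSpace ℝ (Fin n)) = n := by simp
  refine ⟨hS.eigenvectorBasis hn, hS.eigenvalues hn, fun a b => ?_⟩
  rw [← hTx, hS.apply_eigenvectorBasis, inner_smul_left,
    orthonormal_iff_ite.1 (hS.eigenvectorBasis hn).orthonormal]
  split_ifs <;> simp

lemma energy_identity {A : Type*} [DecidableEq A] {m : ℕ} (w : Fin N → ℝ) (U : Fin N → A → ℝ)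
    (t : Fin m → Finset A) :
    ∑ j, ∑ l, w j * w l * ∏ i, ∑ a ∈ t i, U j a * U l a
      = ∑ b ∈ Fintype.piFinset t, (∑ j, w j * ∏ i, U j (b i)) ^ 2 := by
  have h1 : ∀ j l, ∏ i, ∑ a ∈ t i, U j a * U l a
      = ∑ b ∈ Fintype.piFinset t, (∏ i, U j (b i)) * ∏ i, U l (b i) := by
    intro j l
    rw [Finset.prod_univ_sum]
    exact Finset.sum_congr rfl fun b _ => Finset.prod_mul_distrib
  calc ∑ j, ∑ l, w j * w l * ∏ i, ∑ a ∈ t i, U j a * U l a
      = ∑ j, ∑ l, ∑ b ∈ Fintype.piFinset t,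
          (w j * ∏ i, U j (b i)) * (w l * ∏ i, U l (b i)) := by
        refine Finset.sum_congr rfl fun j _ => Finset.sum_congr rfl fun l _ => ?_
        rw [h1, Finset.mul_sum]
        exact Finset.sum_congr rfl fun b _ => by ring
    _ = ∑ b ∈ Fintype.piFinset t, ∑ j, ∑ l,
          (w j * ∏ i, U j (b i)) * (w l * ∏ i, U l (b i)) := by
        symm
        rw [Finset.sum_comm]
        exact Finset.sum_congr rfl fun j _ => Finset.sum_comm
    _ = _ := by
        refine Finset.sum_congr rfl fun b _ => ?_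
        rw [sq, Finset.sum_mul_sum]

/-- The part of the energy carried by a coordinate subspace dominates the energy of the
projected configuration. -/
theorem sum_lam_ge (w : Fin N → ℝ) (u : Fin N → EuclideanSpace ℝ (Fin n))
    (k : ℕ) (e : OrthonormalBasis (Fin n) ℝ (EuclideanSpace ℝ (Fin n))) (lam : Fin n → ℝ)
    (hw : ∀ j, 0 ≤ w j)
    (he : ∀ a b, form w u (2 * k + 1) (e a) (e b) = if a = b then lam a else 0)
    (I : Finset (Fin n)) :
    ∑ j, w j ^ 2 * (∑ a ∈ I, ⟪u j, e a⟫ ^ 2) ^ (2 * k + 2) ≤ ∑ a ∈ I, lam a := by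
  classical
  set U : Fin N → Fin n → ℝ := fun j a => ⟪u j, e a⟫ with hU
  have hrho : ∀ j l, ⟪u j, u l⟫ = ∑ a, U j a * U l a := by
    intro j l
    rw [← e.sum_inner_mul_inner (u j) (u l)]
    refine Finset.sum_congr rfl fun a _ => ?_
    simp only [hU]
    rw [real_inner_comm (e a) (u l)]
  have h1 : ∑ a ∈ I, lam a = ∑ j, ∑ l, w j * w l *
      ∏ i, ∑ a ∈ (Fin.cons I (fun _ => univ) : Fin (2 * k + 1 + 1) → Finset (Fin n)) i,
        U j a * U l a := by
    have h2 : ∀ a, lam a = form w u (2 * k + 1) (e a) (e a) := fun a => by rw [he]; simp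
    simp only [h2, form]
    rw [Finset.sum_comm]
    refine Finset.sum_congr rfl fun j _ => ?_
    rw [Finset.sum_comm]
    refine Finset.sum_congr rfl fun l _ => ?_
    rw [Fin.prod_univ_succ]
    simp only [Fin.cons_zero, Fin.cons_succ, Finset.prod_const, Finset.card_univ,
      Fintype.card_fin]
    rw [← hrho, ← Finset.mul_sum]
    simp only [hU]
    ring
  rw [h1, energy_identity]
  have h3 : Fintype.piFinset (fun _ : Fin (2 * k + 1 + 1) => I) ⊆
      Fintype.piFinset (Fin.cons I (fun _ => univ) : Fin (2 * k + 1 + 1) → Finset (Fin n)) := by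
    apply Fintype.piFinset_subset
    intro i
    refine Fin.cases ?_ (fun i => ?_) i
    · simp
    · simp
  refine le_trans ?_ (Finset.sum_le_sum_of_subset_of_nonneg h3 fun _ _ _ => sq_nonneg _)
  rw [← energy_identity]
  refine Finset.sum_le_sum fun j _ => ?_
  have h4 : ∀ l, 0 ≤ w j * w l * ∏ i : Fin (2 * k + 1 + 1), ∑ a ∈ I, U j a * U l a := by
    intro l
    refine mul_nonneg (mul_nonneg (hw j) (hw l)) ?_
    rw [Finset.prod_const, Finset.card_univ, Fintype.card_fin,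
      show 2 * k + 1 + 1 = 2 * (k + 1) by ring, pow_mul]
    positivity
  refine le_trans (le_of_eq ?_) (Finset.single_le_sum (f := fun l => w j * w l *
    ∏ i : Fin (2 * k + 1 + 1), ∑ a ∈ I, U j a * U l a) (fun l _ => h4 l) (Finset.mem_univ j))
  simp only [Finset.prod_const, Finset.card_univ, Fintype.card_fin, ← sq]
  rfl

lemma lam_nonneg (w : Fin N → ℝ) (u : Fin N → EuclideanSpace ℝ (Fin n))
    (k : ℕ) (e : OrthonormalBasis (Fin n) ℝ (EuclideanSpace ℝ (Fin n))) (lam : Fin n → ℝ)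
    (hw : ∀ j, 0 ≤ w j)
    (he : ∀ a b, form w u (2 * k + 1) (e a) (e b) = if a = b then lam a else 0) (a : Fin n) :
    0 ≤ lam a := by
  have h := sum_lam_ge w u k e lam hw he {a}
  rw [Finset.sum_singleton] at h
  refine le_trans (Finset.sum_nonneg fun j _ => ?_) h
  positivity

/-- Bilinear expansion of the form in the eigenbasis. -/
lemma form_expand (w : Fin N → ℝ) (u : Fin N → EuclideanSpace ℝ (Fin n)) (d : ℕ)
    (e : OrthonormalBasis (Fin n) ℝ (EuclideanSpace ℝ (Fin n))) (lam : Fin n → ℝ)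
    (he : ∀ a b, form w u d (e a) (e b) = if a = b then lam a else 0)
    (x y : EuclideanSpace ℝ (Fin n)) :
    form w u d x y = ∑ a, lam a * (⟪e a, x⟫ * ⟪e a, y⟫) := by
  have hx : ∀ z v : EuclideanSpace ℝ (Fin n), ⟪v, z⟫ = ∑ a, ⟪v, e a⟫ * ⟪e a, z⟫ := fun z v =>
    (e.sum_inner_mul_inner v z).symm
  have h1 : form w u d x y = ∑ a, ∑ b, (⟪e a, x⟫ * ⟪e b, y⟫) * form w u d (e a) (e b) := by
    unfold form
    calc ∑ j, ∑ l, w j * w l * ⟪u j, u l⟫ ^ d * (⟪u j, x⟫ * ⟪u l, y⟫)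
        = ∑ j, ∑ l, ∑ a, ∑ b, (⟪e a, x⟫ * ⟪e b, y⟫) *
            (w j * w l * ⟪u j, u l⟫ ^ d * (⟪u j, e a⟫ * ⟪u l, e b⟫)) := by
          refine Finset.sum_congr rfl fun j _ => Finset.sum_congr rfl fun l _ => ?_
          rw [hx x (u j), hx y (u l), Finset.sum_mul_sum, Finset.mul_sum]
          refine Finset.sum_congr rfl fun a _ => ?_
          rw [Finset.mul_sum]
          exact Finset.sum_congr rfl fun b _ => by ring
      _ = ∑ a, ∑ b, ∑ j, ∑ l, (⟪e a, x⟫ * ⟪e b, y⟫) *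
            (w j * w l * ⟪u j, u l⟫ ^ d * (⟪u j, e a⟫ * ⟪u l, e b⟫)) := by
          calc _ = ∑ j, ∑ a, ∑ l, ∑ b, (⟪e a, x⟫ * ⟪e b, y⟫) *
                (w j * w l * ⟪u j, u l⟫ ^ d * (⟪u j, e a⟫ * ⟪u l, e b⟫)) :=
                Finset.sum_congr rfl fun j _ => Finset.sum_comm
            _ = ∑ j, ∑ a, ∑ b, ∑ l, (⟪e a, x⟫ * ⟪e b, y⟫) *
                (w j * w l * ⟪u j, u l⟫ ^ d * (⟪u j, e a⟫ * ⟪u l, e b⟫)) :=
                Finset.sum_congr rfl fun j _ => Finset.sum_congr rfl fun a _ => Finset.sum_comm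
            _ = ∑ a, ∑ j, ∑ b, ∑ l, (⟪e a, x⟫ * ⟪e b, y⟫) *
                (w j * w l * ⟪u j, u l⟫ ^ d * (⟪u j, e a⟫ * ⟪u l, e b⟫)) := Finset.sum_comm
            _ = _ := Finset.sum_congr rfl fun a _ => Finset.sum_comm
      _ = _ := by
          refine Finset.sum_congr rfl fun a _ => Finset.sum_congr rfl fun b _ => ?_
          rw [Finset.mul_sum]
          refine Finset.sum_congr rfl fun j _ => ?_
          rw [Finset.mul_sum]
  rw [h1]
  refine Finset.sum_congr rfl fun a _ => ?_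
  rw [Finset.sum_eq_single a]
  · rw [he]; simp; ring
  · intro b _ hb
    rw [he, if_neg (fun h => hb h.symm), mul_zero]
  · intro h; exact absurd (Finset.mem_univ a) h

/-- The spectral multiplier `(B + s²)^{-1/2}` in the eigenbasis. -/
noncomputable def gop (e : OrthonormalBasis (Fin n) ℝ (EuclideanSpace ℝ (Fin n)))
    (lam : Fin n → ℝ) (s : ℝ) (v : EuclideanSpace ℝ (Fin n)) : EuclideanSpace ℝ (Fin n) :=
  ∑ a, ((Real.sqrt (lam a + s ^ 2))⁻¹ * ⟪e a, v⟫) • e a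

lemma inner_gop (e : OrthonormalBasis (Fin n) ℝ (EuclideanSpace ℝ (Fin n)))
    (lam : Fin n → ℝ) (s : ℝ) (v x : EuclideanSpace ℝ (Fin n)) :
    ⟪x, gop e lam s v⟫ = ∑ a, (Real.sqrt (lam a + s ^ 2))⁻¹ * (⟪e a, x⟫ * ⟪e a, v⟫) := by
  unfold gop
  rw [inner_sum]
  refine Finset.sum_congr rfl fun a _ => ?_
  rw [inner_smul_right, real_inner_comm x (e a)]
  ring

lemma inner_e_gop (e : OrthonormalBasis (Fin n) ℝ (EuclideanSpace ℝ (Fin n)))
    (lam : Fin n → ℝ) (s : ℝ) (v : EuclideanSpace ℝ (Fin n)) (a : Fin n) :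
    ⟪e a, gop e lam s v⟫ = (Real.sqrt (lam a + s ^ 2))⁻¹ * ⟪e a, v⟫ := by
  rw [inner_gop, Finset.sum_eq_single a]
  · have : ⟪e a, e a⟫ = 1 := by rw [real_inner_self_eq_norm_sq, e.norm_eq_one]; norm_num
    rw [this, one_mul]
  · intro b _ hb
    have : ⟪e b, e a⟫ = 0 := by
      rw [orthonormal_iff_ite.1 e.orthonormal, if_neg hb]
    rw [this]; ring
  · intro h; exact absurd (Finset.mem_univ a) h

lemma norm_sq_eq_sum (e : OrthonormalBasis (Fin n) ℝ (EuclideanSpace ℝ (Fin n)))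
    (v : EuclideanSpace ℝ (Fin n)) : ‖v‖ ^ 2 = ∑ a, ⟪e a, v⟫ ^ 2 :=
  (e.sum_sq_inner_right v).symm

lemma norm_gop_le (e : OrthonormalBasis (Fin n) ℝ (EuclideanSpace ℝ (Fin n)))
    (lam : Fin n → ℝ) (hlam : ∀ a, 0 ≤ lam a) (s : ℝ) (hs : 0 < s)
    (v : EuclideanSpace ℝ (Fin n)) : ‖gop e lam s v‖ ≤ s⁻¹ * ‖v‖ := by
  have h : ‖gop e lam s v‖ ^ 2 ≤ (s⁻¹ * ‖v‖) ^ 2 := by
    rw [norm_sq_eq_sum e, mul_pow, norm_sq_eq_sum e v, Finset.mul_sum]
    refine Finset.sum_le_sum fun a _ => ?_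
    rw [inner_e_gop, mul_pow]
    refine mul_le_mul_of_nonneg_right ?_ (sq_nonneg _)
    have h1 : s ≤ Real.sqrt (lam a + s ^ 2) := by
      apply Real.le_sqrt_of_sq_le; linarith [hlam a]
    have h2 : (Real.sqrt (lam a + s ^ 2))⁻¹ ≤ s⁻¹ := inv_anti₀ hs h1
    exact pow_le_pow_left₀ (by positivity) h2 2
  exact le_of_sq_le_sq h (by positivity)

lemma form_gop_le (w : Fin N → ℝ) (u : Fin N → EuclideanSpace ℝ (Fin n)) (d : ℕ)
    (e : OrthonormalBasis (Fin n) ℝ (EuclideanSpace ℝ (Fin n))) (lam : Fin n → ℝ)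
    (hlam : ∀ a, 0 ≤ lam a)
    (he : ∀ a b, form w u d (e a) (e b) = if a = b then lam a else 0)
    (s : ℝ) (hs : 0 < s) (v : EuclideanSpace ℝ (Fin n)) :
    form w u d (gop e lam s v) (gop e lam s v) ≤ ‖v‖ ^ 2 := by
  rw [form_expand w u d e lam he, norm_sq_eq_sum e v]
  refine Finset.sum_le_sum fun a _ => ?_
  rw [inner_e_gop]
  have hpos : 0 < lam a + s ^ 2 := by have := hlam a; positivity
  have h1 : (Real.sqrt (lam a + s ^ 2))⁻¹ ^ 2 = (lam a + s ^ 2)⁻¹ := by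
    rw [inv_pow, Real.sq_sqrt hpos.le]
  calc lam a * ((Real.sqrt (lam a + s ^ 2))⁻¹ * ⟪e a, v⟫ * ((Real.sqrt (lam a + s ^ 2))⁻¹ * ⟪e a, v⟫))
      = (lam a * (Real.sqrt (lam a + s ^ 2))⁻¹ ^ 2) * ⟪e a, v⟫ ^ 2 := by ring
    _ = (lam a / (lam a + s ^ 2)) * ⟪e a, v⟫ ^ 2 := by rw [h1]; ring
    _ ≤ 1 * ⟪e a, v⟫ ^ 2 := by
        refine mul_le_mul_of_nonneg_right ?_ (sq_nonneg _)
        rw [div_le_one hpos]
        nlinarith [sq_nonneg s]
    _ = _ := one_mul _

lemma main_sum_eq (w : Fin N → ℝ) (u : Fin N → EuclideanSpace ℝ (Fin n)) (d : ℕ)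
    (e : OrthonormalBasis (Fin n) ℝ (EuclideanSpace ℝ (Fin n))) (lam : Fin n → ℝ)
    (he : ∀ a b, form w u d (e a) (e b) = if a = b then lam a else 0) (s : ℝ) :
    ∑ j, w j * ∑ l, w l * (⟪u l, gop e lam s (u j)⟫ * ⟪u l, u j⟫ ^ d)
      = ∑ a, lam a * (Real.sqrt (lam a + s ^ 2))⁻¹ := by
  have h1 : ∀ a, lam a = form w u d (e a) (e a) := fun a => by rw [he]; simp
  have h2 : ∑ a, lam a * (Real.sqrt (lam a + s ^ 2))⁻¹
      = ∑ a, ∑ j, ∑ l, (Real.sqrt (lam a + s ^ 2))⁻¹ *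
        (w j * w l * ⟪u j, u l⟫ ^ d * (⟪u j, e a⟫ * ⟪u l, e a⟫)) := by
    refine Finset.sum_congr rfl fun a _ => ?_
    conv_lhs => rw [h1 a]
    unfold form
    rw [Finset.sum_mul]
    have : form w u d (e a) (e a) = lam a := (h1 a).symm
    unfold form at this
    rw [this]
    refine Finset.sum_congr rfl fun j _ => ?_
    rw [Finset.sum_mul]
    exact Finset.sum_congr rfl fun l _ => by ring
  rw [h2, Finset.sum_comm]
  refine Finset.sum_congr rfl fun j _ => ?_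
  rw [Finset.sum_comm, Finset.mul_sum]
  refine Finset.sum_congr rfl fun l _ => ?_
  rw [inner_gop, Finset.sum_mul, Finset.mul_sum, Finset.mul_sum]
  refine Finset.sum_congr rfl fun a _ => ?_
  rw [real_inner_comm (u l) (e a), real_inner_comm (u j) (e a), real_inner_comm (u l) (u j)]
  ring

/-- Robust lower bound for the trace norm. -/
theorem main_lower (w : Fin N → ℝ) (u : Fin N → EuclideanSpace ℝ (Fin n)) (k : ℕ)
    (e : OrthonormalBasis (Fin n) ℝ (EuclideanSpace ℝ (Fin n))) (lam : Fin n → ℝ)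
    (hw : ∀ j, 0 ≤ w j) (hu : ∀ j, w j = 0 ∨ ‖u j‖ = 1)
    (he : ∀ a b, form w u (2 * k + 1) (e a) (e b) = if a = b then lam a else 0)
    (hn : 0 < n) (hN : 0 < N) (c₀ : ℝ) (hc₀ : 0 < c₀) (W η s : ℝ) (hW : W = ∑ j, w j) (hWpos : 0 < W)
    (hη : η = W / Real.sqrt N) (hs : s = η / Real.sqrt n)
    (hcap : ∀ H : Finset (Fin n), (H.card : ℝ) ≤ c₀ * n →
      ∑ j, w j * ∑ a ∈ H, ⟪u j, e a⟫ ^ 2 ≤ W / 2) :
    min c₀ (1 / 2 ^ (2 * k + 2)) / 2 * (Real.sqrt n * η)
      ≤ ∑ a, lam a * (Real.sqrt (lam a + s ^ 2))⁻¹ := by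
  classical
  have hlam := lam_nonneg w u k e lam hw he
  have hnR : (0 : ℝ) < n := by exact_mod_cast hn
  have hNR : (0 : ℝ) < N := by exact_mod_cast hN
  have hsn : 0 < Real.sqrt n := Real.sqrt_pos.2 hnR
  have hsN : 0 < Real.sqrt N := Real.sqrt_pos.2 hNR
  have hη0 : 0 < η := by rw [hη]; positivity
  have hs0 : 0 < s := by rw [hs]; positivity
  set H : Finset (Fin n) := univ.filter fun a => s ^ 2 < lam a with hH
  have hterm : ∀ a, 0 ≤ lam a * (Real.sqrt (lam a + s ^ 2))⁻¹ := fun a =>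
    mul_nonneg (hlam a) (inv_nonneg.2 (Real.sqrt_nonneg _))
  have hsq2 : Real.sqrt 2 ≤ 2 := by
    rw [show (2 : ℝ) = Real.sqrt 4 by
      rw [show (4 : ℝ) = 2 ^ 2 by norm_num]; exact (Real.sqrt_sq (by norm_num)).symm]
    exact Real.sqrt_le_sqrt (by
      rw [show Real.sqrt 4 = 2 by
        rw [show (4 : ℝ) = 2 ^ 2 by norm_num]; exact Real.sqrt_sq (by norm_num)]
      norm_num)
  by_cases hcard : (H.card : ℝ) ≤ c₀ * n
  · -- few large eigenvalues
    have h1 := hcap H hcard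
    set I : Finset (Fin n) := univ.filter fun a => ¬ s ^ 2 < lam a with hI
    set P : Fin N → ℝ := fun j => ∑ a ∈ I, ⟪u j, e a⟫ ^ 2 with hP
    have hP0 : ∀ j, 0 ≤ P j := fun j => Finset.sum_nonneg fun a _ => sq_nonneg _
    have hsplit : ∀ j, w j * P j + w j * ∑ a ∈ H, ⟪u j, e a⟫ ^ 2 = w j := by
      intro j
      rcases hu j with h0 | h0
      · rw [h0]; ring
      · have h2 : ∑ a ∈ H, ⟪u j, e a⟫ ^ 2 + P j = ∑ a, ⟪u j, e a⟫ ^ 2 :=
          Finset.sum_filter_add_sum_filter_not _ _ _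
        have h3 : ∑ a, ⟪u j, e a⟫ ^ 2 = 1 := by
          have h4 := norm_sq_eq_sum e (u j)
          rw [h0, one_pow] at h4
          rw [h4]
          exact Finset.sum_congr rfl fun a _ => by rw [real_inner_comm]
        rw [h3] at h2
        rw [← mul_add, add_comm, h2, mul_one]
    have hPsum : W / 2 ≤ ∑ j, w j * P j := by
      have h2 : ∑ j, w j * P j + ∑ j, w j * ∑ a ∈ H, ⟪u j, e a⟫ ^ 2 = W := by
        rw [← Finset.sum_add_distrib, hW]
        exact Finset.sum_congr rfl fun j _ => hsplit j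
      linarith
    -- Jensen
    have hJ : W * (1 / 2) ^ (k + 1) ≤ ∑ j, w j * P j ^ (k + 1) := by
      have h2 := Real.pow_arith_mean_le_arith_mean_pow (univ : Finset (Fin N))
        (fun j => w j / W) P (fun j _ => div_nonneg (hw j) hWpos.le)
        (by rw [← Finset.sum_div, ← hW, div_self hWpos.ne']) (fun j _ => hP0 j) (k + 1)
      have h3 : (1 / 2 : ℝ) ≤ ∑ j, w j / W * P j := by
        have : ∑ j, w j / W * P j = (∑ j, w j * P j) / W := by
          rw [Finset.sum_div]; exact Finset.sum_congr rfl fun j _ => by ring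
        rw [this, le_div_iff₀ hWpos]; linarith
      have h4 : (1 / 2 : ℝ) ^ (k + 1) ≤ ∑ j, w j / W * P j ^ (k + 1) :=
        (pow_le_pow_left₀ (by norm_num) h3 _).trans h2
      have h5 : ∑ j, w j / W * P j ^ (k + 1) = (∑ j, w j * P j ^ (k + 1)) / W := by
        rw [Finset.sum_div]; exact Finset.sum_congr rfl fun j _ => by ring
      rw [h5, le_div_iff₀ hWpos] at h4
      linarith
    have hCS : (∑ j, w j * P j ^ (k + 1)) ^ 2 ≤ N * ∑ j, w j ^ 2 * P j ^ (2 * k + 2) := by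
      have h2 := sq_sum_le_card_mul_sum_sq (s := (univ : Finset (Fin N)))
        (f := fun j => w j * P j ^ (k + 1))
      rw [Finset.card_univ, Fintype.card_fin] at h2
      refine h2.trans (le_of_eq ?_)
      congr 1
      refine Finset.sum_congr rfl fun j _ => ?_
      rw [mul_pow, ← pow_mul]
      congr 2; ring
    have hE : η ^ 2 * (1 / 2) ^ (2 * k + 2) ≤ ∑ a ∈ I, lam a := by
      refine le_trans ?_ (sum_lam_ge w u k e lam hw he I)
      have h2 : (W * (1 / 2) ^ (k + 1)) ^ 2 ≤ N * ∑ j, w j ^ 2 * P j ^ (2 * k + 2) :=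
        (pow_le_pow_left₀ (by positivity) hJ 2).trans hCS
      have h3 : η ^ 2 = W ^ 2 / N := by
        rw [hη, div_pow, Real.sq_sqrt hNR.le]
      rw [h3, div_mul_eq_mul_div, div_le_iff₀ hNR]
      calc W ^ 2 * (1 / 2) ^ (2 * k + 2) = (W * (1 / 2) ^ (k + 1)) ^ 2 := by
            rw [mul_pow, ← pow_mul]; congr 2; ring
        _ ≤ _ := h2
        _ = _ := by rw [mul_comm]
    -- conclude
    have h5 : ∀ a ∈ I, lam a * (2 * s)⁻¹ ≤ lam a * (Real.sqrt (lam a + s ^ 2))⁻¹ := by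
      intro a ha
      have ha' : lam a ≤ s ^ 2 := by
        have := (Finset.mem_filter.1 ha).2; exact not_lt.1 this
      refine mul_le_mul_of_nonneg_left ?_ (hlam a)
      have h6 : 0 < Real.sqrt (lam a + s ^ 2) := Real.sqrt_pos.2 (by have := hlam a; positivity)
      refine inv_anti₀ h6 ?_
      have h7 : Real.sqrt (lam a + s ^ 2) ≤ Real.sqrt ((2 * s) ^ 2) :=
        Real.sqrt_le_sqrt (by nlinarith)
      rwa [Real.sqrt_sq (by positivity)] at h7
    calc min c₀ (1 / 2 ^ (2 * k + 2)) / 2 * (Real.sqrt n * η)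
        ≤ (1 / 2 ^ (2 * k + 2)) / 2 * (Real.sqrt n * η) := by
          gcongr; exact min_le_right _ _
      _ = (η ^ 2 * (1 / 2) ^ (2 * k + 2)) * (2 * s)⁻¹ := by
          rw [hs, one_div_pow]; field_simp
      _ ≤ (∑ a ∈ I, lam a) * (2 * s)⁻¹ := by gcongr
      _ = ∑ a ∈ I, lam a * (2 * s)⁻¹ := by rw [Finset.sum_mul]
      _ ≤ ∑ a ∈ I, lam a * (Real.sqrt (lam a + s ^ 2))⁻¹ := Finset.sum_le_sum h5
      _ ≤ ∑ a, lam a * (Real.sqrt (lam a + s ^ 2))⁻¹ :=
          Finset.sum_le_sum_of_subset_of_nonneg (Finset.subset_univ _) fun a _ _ => hterm a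
  · push Not at hcard
    have h5 : ∀ a ∈ H, s / 2 ≤ lam a * (Real.sqrt (lam a + s ^ 2))⁻¹ := by
      intro a ha
      have ha' : s ^ 2 < lam a := (Finset.mem_filter.1 ha).2
      have hl : 0 < lam a := lt_trans (by positivity) ha'
      have h6 : Real.sqrt (lam a + s ^ 2) ≤ 2 * Real.sqrt (lam a) := by
        have : Real.sqrt (lam a + s ^ 2) ≤ Real.sqrt (2 ^ 2 * lam a) :=
          Real.sqrt_le_sqrt (by nlinarith)
        rwa [Real.sqrt_mul (by norm_num), Real.sqrt_sq (by norm_num)] at this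
      have h7 : 0 < Real.sqrt (lam a + s ^ 2) := Real.sqrt_pos.2 (by positivity)
      have h8 : s ≤ Real.sqrt (lam a) := Real.le_sqrt_of_sq_le ha'.le
      rw [← div_eq_mul_inv, le_div_iff₀ h7]
      have h9 : Real.sqrt (lam a) * Real.sqrt (lam a) = lam a := Real.mul_self_sqrt hl.le
      have h10 : 0 < Real.sqrt (lam a) := Real.sqrt_pos.2 hl
      calc s / 2 * Real.sqrt (lam a + s ^ 2) ≤ s / 2 * (2 * Real.sqrt (lam a)) := by gcongr
        _ = s * Real.sqrt (lam a) := by ring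
        _ ≤ Real.sqrt (lam a) * Real.sqrt (lam a) := by gcongr
        _ = lam a := h9
    calc min c₀ (1 / 2 ^ (2 * k + 2)) / 2 * (Real.sqrt n * η)
        ≤ c₀ / 2 * (Real.sqrt n * η) := by gcongr; exact min_le_left _ _
      _ = c₀ * n * (s / 2) := by
          rw [hs]
          have : Real.sqrt n * Real.sqrt n = n := Real.mul_self_sqrt hnR.le
          field_simp
          rw [sq, this]
      _ ≤ H.card * (s / 2) := by gcongr
      _ = ∑ a ∈ H, s / 2 := by rw [Finset.sum_const, nsmul_eq_mul]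
      _ ≤ ∑ a ∈ H, lam a * (Real.sqrt (lam a + s ^ 2))⁻¹ := Finset.sum_le_sum h5
      _ ≤ ∑ a, lam a * (Real.sqrt (lam a + s ^ 2))⁻¹ :=
          Finset.sum_le_sum_of_subset_of_nonneg (Finset.subset_univ _) fun a _ _ => hterm a

end Pool.Agent.Helper24.Zono
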