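import Mathlib

/-!
# A finite sine sum that is the identity near zero

For every `δ > 0` there is a finite real measure `∑ α_j δ_{τ_j}` on the line, with total mass and
first absolute moment bounded independently of `δ`, whose Fourier transform is `i S(θ)` with
`S(θ) = θ` up to relative error `δ` on `[-1,1]`.
-/

namespace Pool.Agent.Helper24.Zono

open Real Set Filter Topology

/-- the third Bernoulli polynomial -/
theorem Sine_bern (x : ℝ) :
    (Polynomial.map (algebraMap ℚ ℝ) (Polynomial.bernoulli (2 * 1 + 1))).eval x =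
      x ^ 3 - 3 / 2 * x ^ 2 + 1 / 2 * x := by
  have h3 : _root_.bernoulli 3 = 0 := by
    rw [bernoulli_eq_bernoulli'_of_ne_one (by decide), bernoulli'_three]
  have h2 : _root_.bernoulli 2 = 1 / 6 := by
    rw [bernoulli_eq_bernoulli'_of_ne_one (by decide), bernoulli'_two]
  simp [Polynomial.bernoulli_def, Finset.sum_range_succ, bernoulli_one, h2, h3]
  ring

/-- the coefficients -/
noncomputable def Sine_c (n : ℕ) : ℝ :=
  16 / π ^ 3 * ((-1) ^ n * (2 * cos (π * n / 2) - 2)) * (1 / (n : ℝ) ^ 3)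

theorem Sine_abs_c (n : ℕ) : |Sine_c n| ≤ 64 / π ^ 3 * (1 / (n : ℝ) ^ 3) := by
  unfold Sine_c
  rw [abs_mul, abs_mul, abs_of_nonneg (show (0 : ℝ) ≤ 16 / π ^ 3 by positivity),
    abs_of_nonneg (show (0 : ℝ) ≤ 1 / (n : ℝ) ^ 3 by positivity)]
  apply mul_le_mul_of_nonneg_right _ (by positivity)
  rw [abs_mul, abs_pow, abs_neg, abs_one, one_pow, one_mul]
  have h1 := neg_one_le_cos (π * n / 2)
  have h2 := cos_le_one (π * n / 2)
  have h3 : |2 * cos (π * n / 2) - 2| ≤ 4 := by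
    rw [abs_le]; constructor <;> linarith
  have h4 : (64 : ℝ) / π ^ 3 = 16 / π ^ 3 * 4 := by ring
  rw [h4]
  exact mul_le_mul_of_nonneg_left h3 (by positivity)

theorem Sine_hasSum (θ : ℝ) (hθ : |θ| ≤ 1) :
    HasSum (fun n : ℕ => Sine_c n * sin (π * n / 2 * θ)) θ := by
  rw [abs_le] at hθ
  have hx : 1 / 2 + θ / 4 ∈ Icc (0 : ℝ) 1 := ⟨by linarith, by linarith⟩
  have hx1 : 1 / 2 + θ / 4 + 1 / 4 ∈ Icc (0 : ℝ) 1 := ⟨by linarith, by linarith⟩
  have hx2 : 1 / 2 + θ / 4 - 1 / 4 ∈ Icc (0 : ℝ) 1 := ⟨by linarith, by linarith⟩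
  have s0 := hasSum_one_div_nat_pow_mul_sin one_ne_zero hx
  have s1 := hasSum_one_div_nat_pow_mul_sin one_ne_zero hx1
  have s2 := hasSum_one_div_nat_pow_mul_sin one_ne_zero hx2
  rw [Sine_bern] at s0 s1 s2
  have s := (((s1.add s2).sub (s0.mul_left 2)).mul_left (16 / π ^ 3))
  have e : 16 / π ^ 3 * ((-1 : ℝ) ^ (1 + 1) * (2 * π) ^ (2 * 1 + 1) / 2 / ((2 * 1 + 1).factorial : ℕ) *
        ((1 / 2 + θ / 4 + 1 / 4) ^ 3 - 3 / 2 * (1 / 2 + θ / 4 + 1 / 4) ^ 2 +
          1 / 2 * (1 / 2 + θ / 4 + 1 / 4)) +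
      (-1 : ℝ) ^ (1 + 1) * (2 * π) ^ (2 * 1 + 1) / 2 / ((2 * 1 + 1).factorial : ℕ) *
        ((1 / 2 + θ / 4 - 1 / 4) ^ 3 - 3 / 2 * (1 / 2 + θ / 4 - 1 / 4) ^ 2 +
          1 / 2 * (1 / 2 + θ / 4 - 1 / 4)) -
      2 * ((-1 : ℝ) ^ (1 + 1) * (2 * π) ^ (2 * 1 + 1) / 2 / ((2 * 1 + 1).factorial : ℕ) *
        ((1 / 2 + θ / 4) ^ 3 - 3 / 2 * (1 / 2 + θ / 4) ^ 2 + 1 / 2 * (1 / 2 + θ / 4)))) = θ := by
    have hf : (((2 * 1 + 1).factorial : ℕ) : ℝ) = 6 := by norm_num [Nat.factorial]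
    rw [hf]
    have hpi : π ≠ 0 := pi_ne_zero
    field_simp
    ring
  rw [e] at s
  have hfun : (fun n : ℕ => Sine_c n * sin (π * n / 2 * θ)) = fun n : ℕ =>
      16 / π ^ 3 * (1 / (n : ℝ) ^ (2 * 1 + 1) * sin (2 * π * n * (1 / 2 + θ / 4 + 1 / 4)) +
        1 / (n : ℝ) ^ (2 * 1 + 1) * sin (2 * π * n * (1 / 2 + θ / 4 - 1 / 4)) -
        2 * (1 / (n : ℝ) ^ (2 * 1 + 1) * sin (2 * π * n * (1 / 2 + θ / 4)))) := by
    funext n
    have a1 : 2 * π * n * (1 / 2 + θ / 4 + 1 / 4) = (π * n / 2 * θ + n * π) + π * n / 2 := by ring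
    have a2 : 2 * π * n * (1 / 2 + θ / 4 - 1 / 4) = (π * n / 2 * θ + n * π) - π * n / 2 := by ring
    have a3 : 2 * π * n * (1 / 2 + θ / 4) = π * n / 2 * θ + n * π := by ring
    rw [a1, a2, a3, sin_add (π * n / 2 * θ + n * π) (π * n / 2),
      sin_sub (π * n / 2 * θ + n * π) (π * n / 2), sin_add_nat_mul_pi, Sine_c]
    ring
  rw [hfun]
  exact s

/-- The cut-off sine sums, with the additional property that they vanish at `2`. -/
theorem exists_sine_cutoff2 : ∃ C : ℝ, 1 ≤ C ∧ ∀ δ : ℝ, 0 < δ →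
    ∃ (J : Type) (_ : Fintype J) (α τ : J → ℝ),
      (∀ θ : ℝ, ∑ j, α j * Real.cos (τ j * θ) = 0) ∧
      (∀ θ : ℝ, |θ| ≤ 1 → |∑ j, α j * Real.sin (τ j * θ) - θ| ≤ δ * |θ|) ∧
      ∑ j, |α j| ≤ C ∧ ∑ j, |α j| * |τ j| ≤ C ∧
      ∑ j, α j * Real.sin (τ j * 2) = 0 := by
  have hc : Summable (fun n : ℕ => |Sine_c n|) := by
    refine Summable.of_nonneg_of_le (fun n => abs_nonneg _) Sine_abs_c ?_
    exact ((summable_one_div_nat_pow (p := 3)).2 (by norm_num)).mul_left _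
  have hd : Summable (fun n : ℕ => |Sine_c n| * (π * n / 2)) := by
    refine Summable.of_nonneg_of_le (fun n => by positivity) (fun n => ?_)
      (((summable_one_div_nat_pow (p := 2)).2 (by norm_num)).mul_left (32 / π ^ 2))
    have h1 := mul_le_mul_of_nonneg_right (Sine_abs_c n)
      (show (0 : ℝ) ≤ π * n / 2 by positivity)
    refine h1.trans (le_of_eq ?_)
    rcases Nat.eq_zero_or_pos n with hn | hn
    · subst hn; norm_num
    · have hn' : (n : ℝ) ≠ 0 := by positivity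
      have hpi : π ≠ 0 := pi_ne_zero
      field_simp
      norm_num
  set A := ∑' n : ℕ, |Sine_c n| with hA
  set B := ∑' n : ℕ, |Sine_c n| * (π * n / 2) with hB
  have hA0 : 0 ≤ A := tsum_nonneg fun n => abs_nonneg _
  have hB0 : 0 ≤ B := tsum_nonneg fun n => by positivity
  refine ⟨1 + A + B, by linarith, fun δ hδ => ?_⟩
  obtain ⟨P, hP⟩ : ∃ P : ℕ, ∑' k : ℕ, |Sine_c (k + P)| * (π * (k + P : ℕ) / 2) ≤ δ := by
    have ht := _root_.tendsto_sum_nat_add (fun n : ℕ => |Sine_c n| * (π * n / 2))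
    exact (ht.eventually (ge_mem_nhds hδ)).exists
  have hsum : ∀ f : ℕ → Bool → ℝ, ∑ j : Fin P × Bool, f j.1 j.2 =
      ∑ n ∈ Finset.range P, (f n true + f n false) := by
    intro f
    rw [Fintype.sum_prod_type, Finset.sum_range]
    refine Finset.sum_congr rfl fun n _ => ?_
    rw [Fintype.sum_bool]
  have hsinall : ∀ θ : ℝ, ∑ j : Fin P × Bool, (if j.2 then (1 : ℝ) else -1) * (Sine_c j.1 / 2) *
      Real.sin ((if j.2 then 1 else -1) * (π * (j.1 : ℕ) / 2) * θ) =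
      ∑ n ∈ Finset.range P, Sine_c n * sin (π * n / 2 * θ) := by
    intro θ
    rw [hsum (fun n b => (if b then 1 else -1) * (Sine_c n / 2) *
      Real.sin ((if b then 1 else -1) * (π * n / 2) * θ))]
    refine Finset.sum_congr rfl fun n _ => ?_
    have : (-1 : ℝ) * (π * n / 2) * θ = -(π * n / 2 * θ) := by ring
    simp only [if_true, Bool.false_eq_true, if_false, this, sin_neg, one_mul]
    ring
  refine ⟨Fin P × Bool, inferInstance,
    fun j => (if j.2 then 1 else -1) * (Sine_c j.1 / 2),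
    fun j => (if j.2 then 1 else -1) * (π * (j.1 : ℕ) / 2), ?_, ?_, ?_, ?_, ?_⟩
  · intro θ
    rw [hsum (fun n b => (if b then 1 else -1) * (Sine_c n / 2) *
      Real.cos ((if b then 1 else -1) * (π * n / 2) * θ))]
    refine Finset.sum_eq_zero fun n _ => ?_
    have : (-1 : ℝ) * (π * n / 2) * θ = -(1 * (π * n / 2) * θ) := by ring
    simp only [if_true, Bool.false_eq_true, if_false, this, cos_neg]
    ring
  · intro θ hθ
    rw [hsum (fun n b => (if b then 1 else -1) * (Sine_c n / 2) *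
      Real.sin ((if b then 1 else -1) * (π * n / 2) * θ))]
    have e1 : ∑ n ∈ Finset.range P, ((if true = true then (1 : ℝ) else -1) * (Sine_c n / 2) *
        Real.sin ((if true = true then 1 else -1) * (π * n / 2) * θ) +
        (if false = true then (1 : ℝ) else -1) * (Sine_c n / 2) *
        Real.sin ((if false = true then 1 else -1) * (π * n / 2) * θ)) =
        ∑ n ∈ Finset.range P, Sine_c n * sin (π * n / 2 * θ) := by
      refine Finset.sum_congr rfl fun n _ => ?_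
      have : (-1 : ℝ) * (π * n / 2) * θ = -(π * n / 2 * θ) := by ring
      simp only [if_true, Bool.false_eq_true, if_false, this, sin_neg, one_mul]
      ring
    rw [e1]
    have hs := Sine_hasSum θ hθ
    have h1 := hs.summable.sum_add_tsum_nat_add P
    rw [hs.tsum_eq] at h1
    have h2 : ∑ n ∈ Finset.range P, Sine_c n * sin (π * n / 2 * θ) - θ =
        - ∑' k : ℕ, Sine_c (k + P) * sin (π * (k + P : ℕ) / 2 * θ) := by
      linarith
    rw [h2, abs_neg]
    have hs' : Summable (fun k : ℕ => |Sine_c (k + P)| * (π * (k + P : ℕ) / 2) * |θ|) :=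
      (((summable_nat_add_iff P).2 hd)).mul_right _
    have hb : ∀ k : ℕ, ‖Sine_c (k + P) * sin (π * (k + P : ℕ) / 2 * θ)‖ ≤
        |Sine_c (k + P)| * (π * (k + P : ℕ) / 2) * |θ| := by
      intro k
      rw [norm_mul, Real.norm_eq_abs, Real.norm_eq_abs, mul_assoc]
      apply mul_le_mul_of_nonneg_left _ (abs_nonneg _)
      refine abs_sin_le_abs.trans (le_of_eq ?_)
      rw [abs_mul, abs_of_nonneg (show (0 : ℝ) ≤ π * (k + P : ℕ) / 2 by positivity)]
    have h3 := tsum_of_norm_bounded hs'.hasSum hb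
    rw [Real.norm_eq_abs] at h3
    refine h3.trans ?_
    rw [tsum_mul_right]
    exact mul_le_mul_of_nonneg_right hP (abs_nonneg _)
  · have e : ∀ j : Fin P × Bool, |(if j.2 then (1 : ℝ) else -1) * (Sine_c j.1 / 2)| =
        |Sine_c j.1| / 2 := by
      rintro ⟨n, b⟩
      rw [abs_mul, abs_div, abs_two]
      cases b <;> simp
    simp only [e]
    rw [hsum (fun n _ => |Sine_c n| / 2)]
    have h1 : ∑ n ∈ Finset.range P, (|Sine_c n| / 2 + |Sine_c n| / 2) =
        ∑ n ∈ Finset.range P, |Sine_c n| := Finset.sum_congr rfl fun n _ => by ring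
    rw [h1]
    have h2 := hc.sum_le_tsum (Finset.range P) (fun n _ => abs_nonneg _)
    linarith
  · have e : ∀ j : Fin P × Bool, |(if j.2 then (1 : ℝ) else -1) * (Sine_c j.1 / 2)| *
        |(if j.2 then (1 : ℝ) else -1) * (π * (j.1 : ℕ) / 2)| =
        |Sine_c j.1| * (π * (j.1 : ℕ) / 2) / 2 := by
      rintro ⟨n, b⟩
      rw [abs_mul, abs_div, abs_two, abs_mul,
        abs_of_nonneg (show (0 : ℝ) ≤ π * (n : ℕ) / 2 by positivity)]
      cases b <;> simp <;> ring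
    simp only [e]
    rw [hsum (fun n _ => |Sine_c n| * (π * n / 2) / 2)]
    have h1 : ∑ n ∈ Finset.range P, (|Sine_c n| * (π * n / 2) / 2 +
        |Sine_c n| * (π * n / 2) / 2) =
        ∑ n ∈ Finset.range P, |Sine_c n| * (π * n / 2) :=
      Finset.sum_congr rfl fun n _ => by ring
    rw [h1]
    have h2 := hd.sum_le_tsum (Finset.range P) (fun n _ => by positivity)
    linarith
  · rw [hsinall 2]
    refine Finset.sum_eq_zero fun n _ => ?_
    have : π * n / 2 * 2 = n * π := by ring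
    rw [this, sin_nat_mul_pi, mul_zero]

theorem exists_sine_cutoff : ∃ C : ℝ, 1 ≤ C ∧ ∀ δ : ℝ, 0 < δ →
    ∃ (J : Type) (_ : Fintype J) (α τ : J → ℝ),
      (∀ θ : ℝ, ∑ j, α j * Real.cos (τ j * θ) = 0) ∧
      (∀ θ : ℝ, |θ| ≤ 1 → |∑ j, α j * Real.sin (τ j * θ) - θ| ≤ δ * |θ|) ∧
      ∑ j, |α j| ≤ C ∧ ∑ j, |α j| * |τ j| ≤ C := by
  obtain ⟨C, hC, h⟩ := exists_sine_cutoff2
  refine ⟨C, hC, fun δ hδ => ?_⟩
  obtain ⟨J, i, α, τ, h1, h2, h3, h4, _⟩ := h δ hδ
  exact ⟨J, i, α, τ, h1, h2, h3, h4⟩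

end Pool.Agent.Helper24.Zono
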