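import Pool.Agent.Helper24.Zono.Grad2
import Pool.Agent.Helper24.Zono.Sine

/-!
# The gradient bound
-/

open Finset MeasureTheory ProbabilityTheory
open scoped BigOperators RealInnerProductSpace Nat

namespace Pool.Agent.Helper24.Zono

lemma mu_le' (r : ℕ) : mu r ≤ (4 * ((r + 1 : ℕ) : ℝ)) ^ (r + 1) := by
  refine (mu_le r).trans ?_
  rw [mul_pow]
  refine mul_le_mul_of_nonneg_left ?_ (by positivity)
  have h1 : r ! ≤ (r + 1) ^ (r + 1) :=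
    (Nat.factorial_le (Nat.le_succ r)).trans (Nat.factorial_le_pow (r + 1))
  exact_mod_cast h1

lemma small_pow (t : ℝ) (h0 : 0 ≤ t) (h : t ≤ 1 / 3) (p : ℕ) (ε : ℝ)
    (hp : Real.exp (-(p : ℝ)) ≤ ε) : t ^ p ≤ ε := by
  refine le_trans ?_ hp
  have h1 : Real.exp (-(p : ℝ)) = (Real.exp (-1)) ^ p := by
    rw [← Real.exp_nat_mul]; congr 1; ring
  rw [h1]
  refine pow_le_pow_left₀ h0 (h.trans ?_) _
  rw [Real.exp_neg, one_div]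
  exact inv_anti₀ (Real.exp_pos 1) (by linarith [Real.exp_one_lt_d9])

variable {n N : ℕ}

lemma isoI_pow_le (hn : 0 < n) (p : ℕ) (hp : 1 ≤ p) (v : EuclideanSpace ℝ (Fin n))
    (hv : ‖v‖ = 1) (κ : ℝ) (ε : ℝ) (hε : Real.exp (-(p : ℝ)) ≤ ε)
    (h24 : 24 * κ ^ 2 * (p : ℝ) ^ 2 ≤ 1 / 3) (m : ℝ)
    (hm : m ≤ (4 * (p : ℝ)) ^ p) :
    (κ * Real.sqrt n) ^ (2 * p) * m * isoI (fun u => |⟪u, v⟫| ^ (2 * p))
      ≤ 2 * (Psi 0)⁻¹ * ε * Real.sqrt n := by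
  have hnR : (0 : ℝ) < n := by exact_mod_cast hn
  have hP : 0 < (Psi 0)⁻¹ := inv_pos.2 Psi_zero_pos
  have h1 : isoI (fun u => |⟪u, v⟫| ^ (2 * p))
      ≤ (Psi 0)⁻¹ * (2 * (6 * (p : ℝ)) ^ p * ((n : ℝ) ^ p)⁻¹ * Real.sqrt n) := by
    unfold isoI
    exact mul_le_mul_of_nonneg_left (angular_moment_sharp hn p hp v hv) hP.le
  have h2 : (κ * Real.sqrt n) ^ (2 * p) = (κ ^ 2) ^ p * (n : ℝ) ^ p := by
    rw [pow_mul, mul_pow, Real.sq_sqrt hnR.le, mul_pow]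
  have h3 : (24 * κ ^ 2 * (p : ℝ) ^ 2) ^ p ≤ ε := small_pow _ (by positivity) h24 p ε hε
  calc (κ * Real.sqrt n) ^ (2 * p) * m * isoI (fun u => |⟪u, v⟫| ^ (2 * p))
      ≤ ((κ ^ 2) ^ p * (n : ℝ) ^ p) * (4 * (p : ℝ)) ^ p *
          ((Psi 0)⁻¹ * (2 * (6 * (p : ℝ)) ^ p * ((n : ℝ) ^ p)⁻¹ * Real.sqrt n)) := by
        rw [h2]
        have h4 : 0 ≤ isoI (n := n) (fun u => |⟪u, v⟫| ^ (2 * p)) := by
          unfold isoI
          exact mul_nonneg hP.le (integral_nonneg fun z => by positivity)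
        gcongr
    _ = 2 * (Psi 0)⁻¹ * ((κ ^ 2) ^ p * (4 * (p : ℝ)) ^ p * (6 * (p : ℝ)) ^ p) * Real.sqrt n := by
        field_simp
    _ = 2 * (Psi 0)⁻¹ * (24 * κ ^ 2 * (p : ℝ) ^ 2) ^ p * Real.sqrt n := by
        rw [← mul_pow, ← mul_pow]; ring
    _ ≤ _ := by gcongr

section

variable {J : Type} [Fintype J] (α τ : J → ℝ)

/-- The error function of the finite difference. -/
noncomputable def eE (c : ℝ) (y v u : EuclideanSpace ℝ (Fin n)) : ℝ :=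
  ∑ j, α j * Psi (⟪u, y⟫ + τ j * (c * ⟪u, v⟫)) - (c * ⟪u, v⟫) * dPsi ⟪u, y⟫

lemma eE_le (C δ : ℝ) (hC : 1 ≤ C) (hδ0 : 0 ≤ δ)
    (hcos : ∀ θ : ℝ, ∑ j, α j * Real.cos (τ j * θ) = 0)
    (hsin : ∀ θ : ℝ, |θ| ≤ 1 → |sS α τ θ - θ| ≤ δ * |θ|)
    (hτ : ∑ j, |α j| * |τ j| ≤ C) (r : ℕ) (c : ℝ) (hc : 0 ≤ c)
    (y v u : EuclideanSpace ℝ (Fin n)) (hu : ‖u‖ ≤ 1) :
    |eE α τ c y v u| ≤ cst⁻¹ * δ * ‖y‖ * c * mu 0 * |⟪u, v⟫|
      + cst⁻¹ * (C + 1) * (c ^ (2 * (r + 1)) * mu r * |⟪u, v⟫| ^ (2 * (r + 1))) := by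
  have hcst : 0 < cst⁻¹ := inv_pos.2 cst_pos
  have h := diff_error1 α τ C δ hC hδ0 hcos hsin hτ r ⟪u, y⟫ (c * ⟪u, v⟫)
  refine h.trans ?_
  have h1 : |⟪u, y⟫| ≤ ‖y‖ := by
    refine (abs_real_inner_le_norm _ _).trans ?_
    calc ‖u‖ * ‖y‖ ≤ 1 * ‖y‖ := by gcongr
      _ = ‖y‖ := one_mul _
  have h2 : (c * ⟪u, v⟫) ^ (2 * (r + 1)) = c ^ (2 * (r + 1)) * |⟪u, v⟫| ^ (2 * (r + 1)) := by
    rw [mul_pow, pow_mul |⟪u, v⟫|, sq_abs, ← pow_mul]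
  rw [h2, abs_mul, abs_of_nonneg hc]
  have h3 := (mu_pos 0).le
  calc cst⁻¹ * (δ * |⟪u, y⟫| * (c * |⟪u, v⟫|) * mu 0
        + (C + 1) * (c ^ (2 * (r + 1)) * |⟪u, v⟫| ^ (2 * (r + 1))) * mu r)
      ≤ cst⁻¹ * (δ * ‖y‖ * (c * |⟪u, v⟫|) * mu 0
        + (C + 1) * (c ^ (2 * (r + 1)) * |⟪u, v⟫| ^ (2 * (r + 1))) * mu r) := by
        gcongr
    _ = _ := by ring

lemma eE_le' (C δ : ℝ) (hC : 1 ≤ C) (hδ0 : 0 ≤ δ) (hδ : δ ≤ 1 / 2)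
    (hcos : ∀ θ : ℝ, ∑ j, α j * Real.cos (τ j * θ) = 0)
    (hsin : ∀ θ : ℝ, |θ| ≤ 1 → |sS α τ θ - θ| ≤ δ * |θ|)
    (hτ : ∑ j, |α j| * |τ j| ≤ C) (hs2 : sS α τ 2 = 0) (r : ℕ) (c b₀ : ℝ) (hc : 0 ≤ c)
    (hb : 0 < b₀) (hb1 : b₀ ≤ 1) (ε : ℝ) (hbε : b₀ ^ (2 * (r + 1)) * mu r ≤ ε)
    (y v u : EuclideanSpace ℝ (Fin n)) (hu : ‖u‖ ≤ 1) :
    |eE α τ c y v u| ≤ cst⁻¹ * δ * ‖y‖ * c * mu 0 * |⟪u, v⟫|
      + cst⁻¹ * (C + 1) * ε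
      + (C + 1) * (cst⁻¹ * (Real.exp (-9 / 2) / (144 * C)))⁻¹ * tT α τ (c / b₀ * ⟪u, v⟫) := by
  have hcst : 0 < cst⁻¹ := inv_pos.2 cst_pos
  have hC0 : 0 < C := by linarith
  set cT : ℝ := cst⁻¹ * (Real.exp (-9 / 2) / (144 * C)) with hcT
  have hcT0 : 0 < cT := by positivity
  have hT0 := tT_nonneg α τ (c / b₀ * ⟪u, v⟫)
  have hmu0 := (mu_pos 0).le
  have hmur := (mu_pos r).le
  have hε0 : 0 ≤ ε := le_trans (by positivity) hbε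
  by_cases hcase : |c * ⟪u, v⟫| ≤ b₀
  · refine (eE_le α τ C δ hC hδ0 hcos hsin hτ r c hc y v u hu).trans ?_
    have h1 : c ^ (2 * (r + 1)) * mu r * |⟪u, v⟫| ^ (2 * (r + 1)) ≤ ε := by
      refine le_trans (le_of_eq ?_) ((mul_le_mul_of_nonneg_right
        (pow_le_pow_left₀ (abs_nonneg _) hcase (2 * (r + 1))) hmur).trans hbε)
      rw [abs_mul, abs_of_nonneg hc, mul_pow]; ring
    have h2 : cst⁻¹ * (C + 1) * (c ^ (2 * (r + 1)) * mu r * |⟪u, v⟫| ^ (2 * (r + 1)))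
        ≤ cst⁻¹ * (C + 1) * ε := by gcongr
    have h3 : 0 ≤ (C + 1) * cT⁻¹ * tT α τ (c / b₀ * ⟪u, v⟫) := by positivity
    linarith
  · push Not at hcase
    have h1 := diff_error2 α τ C hcos hτ ⟪u, y⟫ (c * ⟪u, v⟫)
    have h2 : c / b₀ * ⟪u, v⟫ = (c * ⟪u, v⟫) / b₀ := by ring
    have h3 : 1 ≤ |c / b₀ * ⟪u, v⟫| := by
      rw [h2, abs_div, abs_of_pos hb, le_div_iff₀ hb]; linarith
    have h4 := tT_lower α τ C δ hC hδ hsin hτ hs2 _ h3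
    rw [← hcT] at h4
    have h5 : |c * ⟪u, v⟫| ≤ cT⁻¹ * tT α τ (c / b₀ * ⟪u, v⟫) := by
      have h6 : |c * ⟪u, v⟫| ≤ |c / b₀ * ⟪u, v⟫| := by
        rw [h2, abs_div, abs_of_pos hb, le_div_iff₀ hb]
        nlinarith [abs_nonneg (c * ⟪u, v⟫)]
      calc |c * ⟪u, v⟫| ≤ |c / b₀ * ⟪u, v⟫| := h6
        _ = cT⁻¹ * (cT * |c / b₀ * ⟪u, v⟫|) := by field_simp
        _ ≤ _ := by gcongr
    calc |eE α τ c y v u| ≤ (C + 1) * |c * ⟪u, v⟫| := h1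
      _ ≤ (C + 1) * (cT⁻¹ * tT α τ (c / b₀ * ⟪u, v⟫)) := by gcongr
      _ = (C + 1) * cT⁻¹ * tT α τ (c / b₀ * ⟪u, v⟫) := by ring
      _ ≤ _ := by
        have h7 : 0 ≤ cst⁻¹ * δ * ‖y‖ * c * mu 0 * |⟪u, v⟫| := by positivity
        have h8 : 0 ≤ cst⁻¹ * (C + 1) * ε := by positivity
        linarith

lemma measurable_Psi : Measurable Psi := continuous_Psi.measurable

lemma nice_pow (v : EuclideanSpace ℝ (Fin n)) (hv : ‖v‖ = 1) (m : ℕ) :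
    Nice (fun u : EuclideanSpace ℝ (Fin n) => |⟪u, v⟫| ^ m) := integrable_pow v hv.le m

lemma nice_abs (v : EuclideanSpace ℝ (Fin n)) (hv : ‖v‖ = 1) :
    Nice (fun u : EuclideanSpace ℝ (Fin n) => |⟪u, v⟫|) := by
  simpa using nice_pow v hv 1

lemma nice_dPsi (y v : EuclideanSpace ℝ (Fin n)) :
    Nice (fun u : EuclideanSpace ℝ (Fin n) => dPsi ⟪u, y⟫ * ⟪u, v⟫) := by
  refine nice_of_bdd _ ?_ ‖v‖ ?_
  · exact (measurable_dPsi.comp (by fun_prop)).mul (by fun_prop)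
  · intro u hu
    rw [abs_mul]
    calc |dPsi ⟪u, y⟫| * |⟪u, v⟫| ≤ 1 * (‖u‖ * ‖v‖) := by
          gcongr
          · exact abs_dPsi_le _
          · exact abs_real_inner_le_norm _ _
      _ ≤ 1 * (1 * ‖v‖) := by gcongr
      _ = ‖v‖ := by ring

lemma nice_comb (c : ℝ) (y v : EuclideanSpace ℝ (Fin n)) :
    Nice (fun u : EuclideanSpace ℝ (Fin n) => ∑ j, α j * Psi (⟪u, y⟫ + τ j * (c * ⟪u, v⟫))) := by
  refine Nice.sum fun j => Nice.const_mul ?_ _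
  have h0 : (fun u : EuclideanSpace ℝ (Fin n) => Psi (⟪u, y⟫ + τ j * (c * ⟪u, v⟫)))
      = fun u => Psi ⟪u, y + (τ j * c) • v⟫ := by
    funext u
    rw [inner_add_right, inner_smul_right, mul_assoc]
  rw [h0]
  exact nice_Psi _

lemma nice_tT (c : ℝ) (v : EuclideanSpace ℝ (Fin n)) :
    Nice (fun u : EuclideanSpace ℝ (Fin n) => tT α τ (c * ⟪u, v⟫)) := by
  have h := nice_comb (bb α) (tt τ) c (0 : EuclideanSpace ℝ (Fin n)) v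
  simp only [inner_zero_right, zero_add] at h
  simp only [tT_eq]
  exact h

lemma isoI_tT_le (hn : 0 < n) (C δ : ℝ) (hC : 1 ≤ C) (hδ0 : 0 ≤ δ)
    (hsin : ∀ θ : ℝ, |θ| ≤ 1 → |sS α τ θ - θ| ≤ δ * |θ|)
    (hτ : ∑ j, |α j| * |τ j| ≤ C) (r : ℕ) (v : EuclideanSpace ℝ (Fin n)) (hv : ‖v‖ = 1)
    (κ : ℝ) (hκ : 0 ≤ κ) (ε : ℝ) (hε : Real.exp (-((r + 1 : ℕ) : ℝ)) ≤ ε)
    (h24 : 24 * κ ^ 2 * ((r + 1 : ℕ) : ℝ) ^ 2 ≤ 1 / 3)
    (hδκ : 4 * δ ^ 2 * (κ * Real.sqrt n) ^ 2 ≤ ε * Real.sqrt n) :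
    isoI (fun u => tT α τ (κ * Real.sqrt n * ⟪u, v⟫))
      ≤ cst⁻¹ * (mu 0 + 8 * C ^ 2 * (Psi 0)⁻¹) * (ε * Real.sqrt n) := by
  have hcst : 0 < cst⁻¹ := inv_pos.2 cst_pos
  have hmu0 := (mu_pos 0).le
  have hmur := (mu_pos r).le
  set c : ℝ := κ * Real.sqrt n with hc
  have hc0 : 0 ≤ c := by positivity
  have hpt : ∀ u : EuclideanSpace ℝ (Fin n), ‖u‖ ≤ 1 → tT α τ (c * ⟪u, v⟫)
      ≤ cst⁻¹ * (ε * Real.sqrt n) * mu 0 * |⟪u, v⟫|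
        + cst⁻¹ * 4 * C ^ 2 * (c ^ (2 * (r + 1)) * mu r) * |⟪u, v⟫| ^ (2 * (r + 1)) := by
    intro u hu
    refine (tT_upper α τ C δ hC hδ0 hsin hτ r _).trans ?_
    have h1 : (c * ⟪u, v⟫) ^ (2 * (r + 1)) = c ^ (2 * (r + 1)) * |⟪u, v⟫| ^ (2 * (r + 1)) := by
      rw [mul_pow, pow_mul |⟪u, v⟫|, sq_abs, ← pow_mul]
    have h2 : |⟪u, v⟫| ≤ 1 := by
      refine (abs_real_inner_le_norm _ _).trans ?_
      rw [hv, mul_one]; exact hu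
    have h3 : ⟪u, v⟫ ^ 2 ≤ |⟪u, v⟫| := by
      rw [← sq_abs]; nlinarith [abs_nonneg ⟪u, v⟫]
    have h4 : 4 * δ ^ 2 * (c * ⟪u, v⟫) ^ 2 ≤ ε * Real.sqrt n * |⟪u, v⟫| := by
      calc 4 * δ ^ 2 * (c * ⟪u, v⟫) ^ 2 = (4 * δ ^ 2 * c ^ 2) * ⟪u, v⟫ ^ 2 := by ring
        _ ≤ (4 * δ ^ 2 * c ^ 2) * |⟪u, v⟫| := by gcongr
        _ ≤ _ := by gcongr
    rw [h1]
    calc cst⁻¹ * (4 * δ ^ 2 * (c * ⟪u, v⟫) ^ 2 * mu 0
          + 4 * C ^ 2 * (c ^ (2 * (r + 1)) * |⟪u, v⟫| ^ (2 * (r + 1))) * mu r)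
        ≤ cst⁻¹ * (ε * Real.sqrt n * |⟪u, v⟫| * mu 0
          + 4 * C ^ 2 * (c ^ (2 * (r + 1)) * |⟪u, v⟫| ^ (2 * (r + 1))) * mu r) := by gcongr
      _ = _ := by ring
  have hN1 : Nice (fun u : EuclideanSpace ℝ (Fin n) =>
      cst⁻¹ * (ε * Real.sqrt n) * mu 0 * |⟪u, v⟫|) := (nice_abs v hv).const_mul _
  have hN2 : Nice (fun u : EuclideanSpace ℝ (Fin n) =>
      cst⁻¹ * 4 * C ^ 2 * (c ^ (2 * (r + 1)) * mu r) * |⟪u, v⟫| ^ (2 * (r + 1))) :=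
    (nice_pow v hv _).const_mul _
  refine (isoI_mono (nice_tT α τ c v) (hN1.add hN2) hpt).trans ?_
  rw [isoI_add hN1 hN2, isoI_const_mul, isoI_const_mul, isoI_abs_inner v hv]
  have h5 := isoI_pow_le hn (r + 1) (by omega) v hv κ ε hε h24 (mu r) (mu_le' r)
  rw [← hc] at h5
  calc cst⁻¹ * (ε * Real.sqrt n) * mu 0 * 1
        + cst⁻¹ * 4 * C ^ 2 * (c ^ (2 * (r + 1)) * mu r) * isoI (fun u => |⟪u, v⟫| ^ (2 * (r + 1)))
      = cst⁻¹ * (ε * Real.sqrt n) * mu 0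
        + cst⁻¹ * 4 * C ^ 2 * (c ^ (2 * (r + 1)) * mu r *
          isoI (fun u => |⟪u, v⟫| ^ (2 * (r + 1)))) := by ring
    _ ≤ cst⁻¹ * (ε * Real.sqrt n) * mu 0
        + cst⁻¹ * 4 * C ^ 2 * (2 * (Psi 0)⁻¹ * ε * Real.sqrt n) := by gcongr
    _ = _ := by ring

end

/-- The constant in the gradient bound. -/
noncomputable def Cfin (C : ℝ) : ℝ :=
  2 * C + 3 * (cst⁻¹ * mu 0) + 20 * (cst⁻¹ * (C + 1))
    + (C + 1) * (cst⁻¹ * (Real.exp (-9 / 2) / (144 * C)))⁻¹ *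
      (21 * C ^ 2 + cst⁻¹ * (mu 0 + 8 * C ^ 2 * (Psi 0)⁻¹))
    + cst⁻¹ * (C + 1) * (2 * (Psi 0)⁻¹)

lemma Cfin_pos (C : ℝ) (hC : 1 ≤ C) : 0 < Cfin C := by
  have hcst : 0 < cst⁻¹ := inv_pos.2 cst_pos
  have hmu0 := mu_pos 0
  have hP : 0 < (Psi 0)⁻¹ := inv_pos.2 Psi_zero_pos
  have hC0 : 0 < C := by linarith
  unfold Cfin
  positivity

theorem grad_core {J : Type} [Fintype J] (α τ : J → ℝ) (C : ℝ) (hC : 1 ≤ C)
    (hn : 0 < n) (ε : ℝ) (hε0 : 0 < ε) (hε1 : ε ≤ 1)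
    (hcos : ∀ θ : ℝ, ∑ j, α j * Real.cos (τ j * θ) = 0)
    (hsin : ∀ θ : ℝ, |θ| ≤ 1 → |sS α τ θ - θ| ≤ ε / (2 * Real.sqrt n) * |θ|)
    (hα : ∑ j, |α j| ≤ C) (hτ : ∑ j, |α j| * |τ j| ≤ C) (hs2 : sS α τ 2 = 0)
    (x : Fin N → EuclideanSpace ℝ (Fin n))
    (hlow : ∀ y, (1 - ε) * ‖y‖ ≤ ∑ j, |⟪y, x j⟫|)
    (hup : ∀ y, ∑ j, |⟪y, x j⟫| ≤ (1 + ε) * ‖y‖) (r : ℕ)
    (hp : Real.exp (-((r + 1 : ℕ) : ℝ)) ≤ ε)
    (y v : EuclideanSpace ℝ (Fin n)) (hv : ‖v‖ = 1) :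
    |DD x (fun u => dPsi ⟪u, y⟫ * ⟪u, v⟫)|
      ≤ (40 * Cfin C) * (ε * (((r + 1 : ℕ) : ℝ) * Real.sqrt ((r + 1 : ℕ) : ℝ)))
        * (1 + ‖y‖ / Real.sqrt n) := by
  have hcst : 0 < cst⁻¹ := inv_pos.2 cst_pos
  have hmu0 := (mu_pos 0).le
  have hmur := (mu_pos r).le
  have hP : 0 < (Psi 0)⁻¹ := inv_pos.2 Psi_zero_pos
  have hnR : (1 : ℝ) ≤ n := by exact_mod_cast hn
  set S := Real.sqrt n with hS
  have hS1 : 1 ≤ S := by rw [hS]; exact Real.one_le_sqrt.2 hnR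
  have hS0 : 0 < S := by linarith
  have hC0 : 0 < C := by linarith
  set p : ℝ := ((r + 1 : ℕ) : ℝ) with hpdef
  have hp1 : 1 ≤ p := by rw [hpdef]; push_cast; linarith [(Nat.cast_nonneg r : (0 : ℝ) ≤ r)]
  have hp0 : 0 < p := by linarith
  have hsp1 : 1 ≤ Real.sqrt p := Real.one_le_sqrt.2 hp1
  have hsp : Real.sqrt p ^ 2 = p := Real.sq_sqrt hp0.le
  set b₀ : ℝ := 1 / (4 * Real.sqrt p) with hb₀
  have hb0 : 0 < b₀ := by positivity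
  have hb1 : b₀ ≤ 1 := by
    rw [hb₀, div_le_one (by positivity)]; linarith
  set κ : ℝ := 1 / (40 * (p * Real.sqrt p)) with hκ
  have hκ0 : 0 < κ := by positivity
  have hκ1 : κ ≤ 1 := by
    rw [hκ, div_le_one (by positivity)]
    have : 1 ≤ p * Real.sqrt p := one_le_mul_of_one_le_of_one_le hp1 hsp1
    linarith
  have hκb : κ / b₀ = 1 / (10 * p) := by
    rw [hκ, hb₀]; field_simp; norm_num
  set δ : ℝ := ε / (2 * S) with hδ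
  have hδ0 : 0 ≤ δ := by positivity
  have hδ2 : δ ≤ 1 / 2 := by
    rw [hδ, div_le_div_iff₀ (by positivity) (by norm_num)]; linarith
  set c : ℝ := κ * S with hc
  have hc0 : 0 < c := by positivity
  have hcS : c ≤ S := by
    rw [hc]
    calc κ * S ≤ 1 * S := mul_le_mul_of_nonneg_right hκ1 hS0.le
      _ = S := one_mul _
  -- numerical facts
  have hbε : b₀ ^ (2 * (r + 1)) * mu r ≤ ε := by
    have h1 : b₀ ^ 2 = 1 / (16 * p) := by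
      rw [hb₀, div_pow, mul_pow, hsp]; norm_num
    calc b₀ ^ (2 * (r + 1)) * mu r ≤ b₀ ^ (2 * (r + 1)) * (4 * p) ^ (r + 1) := by
          refine mul_le_mul_of_nonneg_left (mu_le' r) (by positivity)
      _ = (1 / 4) ^ (r + 1) := by
          rw [pow_mul, h1, ← mul_pow]; congr 1; field_simp; norm_num
      _ ≤ ε := small_pow _ (by norm_num) (by norm_num) _ _ hp
  have h24κ : 24 * κ ^ 2 * p ^ 2 ≤ 1 / 3 := by
    have h1 : 24 * κ ^ 2 * p ^ 2 = 24 / (1600 * p) := by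
      rw [hκ, div_pow, mul_pow, mul_pow, hsp]; field_simp; norm_num
    rw [h1, div_le_div_iff₀ (by positivity) (by norm_num)]; linarith
  have h24κb : 24 * (κ / b₀) ^ 2 * p ^ 2 ≤ 1 / 3 := by
    rw [hκb]
    have h1 : 24 * (1 / (10 * p)) ^ 2 * p ^ 2 = 24 / 100 := by field_simp; norm_num
    rw [h1]; norm_num
  have hκb1 : κ / b₀ ≤ 1 := by
    rw [hκb, div_le_one (by positivity)]; linarith
  have hκb0 : 0 ≤ κ / b₀ := by positivity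
  have hδκ : 4 * δ ^ 2 * (κ / b₀ * S) ^ 2 ≤ ε * S := by
    have h1 : 4 * δ ^ 2 * (κ / b₀ * S) ^ 2 = ε ^ 2 * (κ / b₀) ^ 2 := by
      rw [hδ]; field_simp; norm_num
    rw [h1]
    have h2 : (κ / b₀) ^ 2 ≤ 1 := pow_le_one₀ hκb0 hκb1
    calc ε ^ 2 * (κ / b₀) ^ 2 ≤ ε ^ 2 * 1 := mul_le_mul_of_nonneg_left h2 (sq_nonneg _)
      _ = ε * ε := by ring
      _ ≤ ε * S := mul_le_mul_of_nonneg_left (hε1.trans hS1) hε0.le
  have hδc : δ * c ≤ ε := by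
    calc δ * c ≤ δ * S := by gcongr
      _ = ε / 2 := by rw [hδ]; field_simp
      _ ≤ ε := by linarith
  -- sums over the atoms
  have hW : ∑ j, wt x j ≤ 20 * S := by
    refine (W_le x ε hup).trans ?_
    rw [← hS]
    have h1 : (1 + ε) * S ≤ 2 * S := mul_le_mul_of_nonneg_right (by linarith) hS0.le
    linarith
  have hV : ∑ j, wt x j * |⟪dir x j, v⟫| ≤ 2 := by
    have h1 : ∑ j, wt x j * |⟪dir x j, v⟫| = ∑ j, |⟪v, x j⟫| :=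
      Finset.sum_congr rfl fun j _ => (abs_inner_eq x j v).symm
    rw [h1]
    refine (hup v).trans ?_
    rw [hv]; linarith
  -- the test function
  have hc' : c / b₀ = κ / b₀ * S := by rw [hc]; ring
  set QT := cst⁻¹ * (mu 0 + 8 * C ^ 2 * (Psi 0)⁻¹) with hQT
  have hT : ∑ j, wt x j * tT α τ (c / b₀ * ⟪dir x j, v⟫) ≤ (21 * C ^ 2 + QT) * (ε * S) := by
    have h1 := tT_test α τ C hC hα hτ x ε hε0.le hlow hup v hv (κ / b₀ * S) (by positivity)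
      (by rw [← hS]
          calc κ / b₀ * S ≤ 1 * S := mul_le_mul_of_nonneg_right hκb1 hS0.le
            _ = S := one_mul _)
    have h2 := isoI_tT_le α τ hn C δ hC hδ0 hsin hτ r v hv (κ / b₀) hκb0 ε hp h24κb hδκ
    rw [← hS, ← hQT] at h2
    rw [← hS] at h1
    unfold DD at h1
    rw [hc']
    have h3 := (abs_le.1 h1).2
    linarith
  set K3 := (C + 1) * (cst⁻¹ * (Real.exp (-9 / 2) / (144 * C)))⁻¹ with hK3
  have hK30 : 0 ≤ K3 := by positivity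
  set E : EuclideanSpace ℝ (Fin n) → ℝ := fun u => eE α τ c y v u with hE
  -- error, atoms
  have hEat : |∑ j, wt x j * E (dir x j)|
      ≤ 2 * (cst⁻¹ * mu 0 * (ε * ‖y‖)) + cst⁻¹ * (C + 1) * (20 * (ε * S))
        + K3 * ((21 * C ^ 2 + QT) * (ε * S)) := by
    calc |∑ j, wt x j * E (dir x j)| ≤ ∑ j, |wt x j * E (dir x j)| :=
          Finset.abs_sum_le_sum_abs _ _
      _ ≤ ∑ j, wt x j * (cst⁻¹ * δ * ‖y‖ * c * mu 0 * |⟪dir x j, v⟫|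
            + cst⁻¹ * (C + 1) * ε + K3 * tT α τ (c / b₀ * ⟪dir x j, v⟫)) := by
          refine Finset.sum_le_sum fun j _ => ?_
          rw [abs_mul, abs_of_nonneg (wt_nonneg x j)]
          exact mul_le_mul_of_nonneg_left (eE_le' α τ C δ hC hδ0 hδ2 hcos hsin hτ hs2 r c b₀
            hc0.le hb0 hb1 ε hbε y v _ (norm_dir_le x j)) (wt_nonneg x j)
      _ = cst⁻¹ * mu 0 * (δ * c * ‖y‖) * (∑ j, wt x j * |⟪dir x j, v⟫|)
            + cst⁻¹ * (C + 1) * ε * (∑ j, wt x j)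
            + K3 * ∑ j, wt x j * tT α τ (c / b₀ * ⟪dir x j, v⟫) := by
          rw [Finset.mul_sum, Finset.mul_sum, Finset.mul_sum, ← Finset.sum_add_distrib,
            ← Finset.sum_add_distrib]
          exact Finset.sum_congr rfl fun j _ => by ring
      _ ≤ cst⁻¹ * mu 0 * (ε * ‖y‖) * 2 + cst⁻¹ * (C + 1) * ε * (20 * S)
            + K3 * ((21 * C ^ 2 + QT) * (ε * S)) := by
          have h6 : 0 ≤ ∑ j, wt x j * |⟪dir x j, v⟫| :=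
            Finset.sum_nonneg fun j _ => mul_nonneg (wt_nonneg x j) (abs_nonneg _)
          have h7 : δ * c * ‖y‖ ≤ ε * ‖y‖ := mul_le_mul_of_nonneg_right hδc (norm_nonneg _)
          have h8 : 0 ≤ ε * ‖y‖ := mul_nonneg hε0.le (norm_nonneg _)
          have h9 : 0 ≤ cst⁻¹ * mu 0 := mul_nonneg hcst.le hmu0
          have h10 : 0 ≤ cst⁻¹ * (C + 1) * ε := by positivity
          refine add_le_add (add_le_add ?_ ?_) ?_
          · exact mul_le_mul (mul_le_mul_of_nonneg_left h7 h9) hV h6 (mul_nonneg h9 h8)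
          · exact mul_le_mul_of_nonneg_left hW h10
          · exact mul_le_mul_of_nonneg_left hT hK30
      _ = _ := by ring
  -- error, isotropic part
  have hEiso : |isoI E| ≤ cst⁻¹ * mu 0 * (ε * ‖y‖) + cst⁻¹ * (C + 1) * (2 * (Psi 0)⁻¹ * (ε * S)) := by
    have hN1 : Nice (fun u : EuclideanSpace ℝ (Fin n) =>
        cst⁻¹ * δ * ‖y‖ * c * mu 0 * |⟪u, v⟫|) := (nice_abs v hv).const_mul _
    have hN2 : Nice (fun u : EuclideanSpace ℝ (Fin n) =>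
        cst⁻¹ * (C + 1) * (c ^ (2 * (r + 1)) * mu r * |⟪u, v⟫| ^ (2 * (r + 1)))) :=
      ((nice_pow v hv _).const_mul _).const_mul _
    refine (abs_isoI_le (hN1.add hN2) (fun u hu => eE_le α τ C δ hC hδ0 hcos hsin hτ r c
      hc0.le y v u hu)).trans ?_
    rw [isoI_add hN1 hN2, isoI_const_mul, isoI_const_mul, isoI_const_mul, isoI_abs_inner v hv]
    have h5 := isoI_pow_le hn (r + 1) (by omega) v hv κ ε hp h24κ (mu r) (mu_le' r)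
    rw [← hS, ← hc] at h5
    calc cst⁻¹ * δ * ‖y‖ * c * mu 0 * 1 + cst⁻¹ * (C + 1) *
          (c ^ (2 * (r + 1)) * mu r * isoI (fun u => |⟪u, v⟫| ^ (2 * (r + 1))))
        = cst⁻¹ * mu 0 * (δ * c * ‖y‖) + cst⁻¹ * (C + 1) *
          (c ^ (2 * (r + 1)) * mu r * isoI (fun u => |⟪u, v⟫| ^ (2 * (r + 1)))) := by ring
      _ ≤ cst⁻¹ * mu 0 * (ε * ‖y‖) + cst⁻¹ * (C + 1) * (2 * (Psi 0)⁻¹ * ε * S) := by
          gcongr
      _ = _ := by ring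
  have hDE : |DD x E| ≤ 3 * (cst⁻¹ * mu 0 * (ε * ‖y‖)) + cst⁻¹ * (C + 1) * (20 * (ε * S))
        + K3 * ((21 * C ^ 2 + QT) * (ε * S)) + cst⁻¹ * (C + 1) * (2 * (Psi 0)⁻¹ * (ε * S)) := by
    unfold DD
    refine (abs_sub _ _).trans ?_
    linarith
  -- main term
  have hmain := DD_comb x ε hε0.le hlow hup y v hv α τ c C C hc0.le hα hτ
  rw [← hS] at hmain
  have hF : DD x (fun u => (c * ⟪u, v⟫) * dPsi ⟪u, y⟫)
      = DD x (fun u => ∑ s, α s * Psi (⟪u, y⟫ + τ s * (c * ⟪u, v⟫))) - DD x E := by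
    have hN3 : Nice (fun u : EuclideanSpace ℝ (Fin n) => (c * ⟪u, v⟫) * dPsi ⟪u, y⟫) := by
      have := (nice_dPsi y v).const_mul c
      refine this.congr (Filter.Eventually.of_forall fun z => ?_)
      simp only; ring
    have hNE : Nice E := (nice_comb α τ c y v).sub hN3
    rw [← DD_sub x (nice_comb α τ c y v) hNE]
    congr 1
    funext u
    simp only [hE, eE]; ring
  have hG : DD x (fun u => (c * ⟪u, v⟫) * dPsi ⟪u, y⟫)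
      = c * DD x (fun u => dPsi ⟪u, y⟫ * ⟪u, v⟫) := by
    rw [← DD_const_mul]
    congr 1
    funext u; ring
  have htot : c * |DD x (fun u => dPsi ⟪u, y⟫ * ⟪u, v⟫)| ≤ Cfin C * (ε * (S + ‖y‖)) := by
    have h1 : c * |DD x (fun u => dPsi ⟪u, y⟫ * ⟪u, v⟫)|
        = |DD x (fun u => (c * ⟪u, v⟫) * dPsi ⟪u, y⟫)| := by
      rw [hG, abs_mul, abs_of_pos hc0]
    rw [h1, hF]
    refine (abs_sub _ _).trans ?_
    have hy0 := norm_nonneg y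
    have h2 : ε * (C * (S + ‖y‖) + C * c) ≤ 2 * C * (ε * (S + ‖y‖)) := by
      have h5 : C * c ≤ C * (S + ‖y‖) := mul_le_mul_of_nonneg_left (by linarith) hC0.le
      calc ε * (C * (S + ‖y‖) + C * c) ≤ ε * (C * (S + ‖y‖) + C * (S + ‖y‖)) :=
            mul_le_mul_of_nonneg_left (by linarith) hε0.le
        _ = _ := by ring
    have h3 : ε * ‖y‖ ≤ ε * (S + ‖y‖) := mul_le_mul_of_nonneg_left (by linarith) hε0.le
    have h4 : ε * S ≤ ε * (S + ‖y‖) := mul_le_mul_of_nonneg_left (by linarith) hε0.le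
    have hQT0 : 0 ≤ QT := by positivity
    calc |DD x (fun u => ∑ s, α s * Psi (⟪u, y⟫ + τ s * (c * ⟪u, v⟫)))| + |DD x E|
        ≤ ε * (C * (S + ‖y‖) + C * c) + (3 * (cst⁻¹ * mu 0 * (ε * ‖y‖))
          + cst⁻¹ * (C + 1) * (20 * (ε * S))
          + K3 * ((21 * C ^ 2 + QT) * (ε * S)) + cst⁻¹ * (C + 1) * (2 * (Psi 0)⁻¹ * (ε * S))) :=
          add_le_add hmain hDE
      _ ≤ 2 * C * (ε * (S + ‖y‖)) + (3 * (cst⁻¹ * mu 0 * (ε * (S + ‖y‖)))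
          + cst⁻¹ * (C + 1) * (20 * (ε * (S + ‖y‖)))
          + K3 * ((21 * C ^ 2 + QT) * (ε * (S + ‖y‖)))
          + cst⁻¹ * (C + 1) * (2 * (Psi 0)⁻¹ * (ε * (S + ‖y‖)))) := by
          gcongr
      _ = Cfin C * (ε * (S + ‖y‖)) := by
          unfold Cfin; ring
  have hfin : |DD x (fun u => dPsi ⟪u, y⟫ * ⟪u, v⟫)| ≤ Cfin C * (ε * (S + ‖y‖)) / c := by
    rw [le_div_iff₀ hc0]; linarith
  refine hfin.trans (le_of_eq ?_)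
  rw [hc, hκ]
  field_simp

/-- The gradient bound. -/
theorem grad_bound : ∃ Cg : ℝ, 0 < Cg ∧ ∀ (n N : ℕ) (x : Fin N → EuclideanSpace ℝ (Fin n))
    (ε : ℝ), 0 < n → 0 < ε → ε ≤ 1 →
    (∀ y, (1 - ε) * ‖y‖ ≤ ∑ j, |⟪y, x j⟫|) →
    (∀ y, ∑ j, |⟪y, x j⟫| ≤ (1 + ε) * ‖y‖) →
    ∀ p : ℕ, 1 ≤ p → Real.exp (-(p : ℝ)) ≤ ε → ∀ y v : EuclideanSpace ℝ (Fin n),
      |DD x (fun u => dPsi ⟪u, y⟫ * ⟪u, v⟫)|
        ≤ Cg * (ε * ((p : ℝ) * Real.sqrt p)) * ‖v‖ * (1 + ‖y‖ / Real.sqrt n) := by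
  obtain ⟨C, hC, hsc⟩ := exists_sine_cutoff2
  refine ⟨40 * Cfin C, by linarith [Cfin_pos C hC], ?_⟩
  intro n N x ε hn hε0 hε1 hlow hup p hp1 hp y v
  have hnR : (0 : ℝ) < n := by exact_mod_cast hn
  have hS0 : 0 < Real.sqrt n := Real.sqrt_pos.2 hnR
  obtain ⟨J, hJ, α, τ, hcos, hsin, hα, hτ, hs2⟩ := hsc (ε / (2 * Real.sqrt n)) (by positivity)
  obtain ⟨r, rfl⟩ : ∃ r, p = r + 1 := ⟨p - 1, by omega⟩
  rcases eq_or_ne v 0 with h0 | h0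
  · subst h0
    have h1 : DD x (fun u => dPsi ⟪u, y⟫ * ⟪u, (0 : EuclideanSpace ℝ (Fin n))⟫) = 0 := by
      simp [DD, isoI]
    rw [h1]; simp
  · have hvn : 0 < ‖v‖ := norm_pos_iff.2 h0
    set w : EuclideanSpace ℝ (Fin n) := ‖v‖⁻¹ • v with hw
    have hw1 : ‖w‖ = 1 := by
      rw [hw, norm_smul, norm_inv, norm_norm, inv_mul_cancel₀ hvn.ne']
    have hvw : v = ‖v‖ • w := by
      rw [hw, smul_smul, mul_inv_cancel₀ hvn.ne', one_smul]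
    have h2 := grad_core α τ C hC hn ε hε0 hε1 hcos hsin hα hτ hs2 x hlow hup r hp y w hw1
    have h3 : (fun u : EuclideanSpace ℝ (Fin n) => dPsi ⟪u, y⟫ * ⟪u, v⟫)
        = fun u => ‖v‖ * (dPsi ⟪u, y⟫ * ⟪u, w⟫) := by
      funext u
      conv_lhs => rw [hvw, inner_smul_right]
      ring
    rw [h3, DD_const_mul, abs_mul, abs_of_pos hvn]
    calc ‖v‖ * |DD x (fun u => dPsi ⟪u, y⟫ * ⟪u, w⟫)|
        ≤ ‖v‖ * ((40 * Cfin C) * (ε * (((r + 1 : ℕ) : ℝ) * Real.sqrt ((r + 1 : ℕ) : ℝ)))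
          * (1 + ‖y‖ / Real.sqrt n)) := mul_le_mul_of_nonneg_left h2 hvn.le
      _ = _ := by ring

end Pool.Agent.Helper24.Zono
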