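import Pool.Agent.Helper24.Zono.Pair3
import Pool.Agent.Helper24.Zono.Grad3

/-!
# The lower bound for the number of segments
-/

open Finset MeasureTheory ProbabilityTheory
open scoped BigOperators RealInnerProductSpace Nat

namespace Pool.Agent.Helper24.Zono

theorem pair_bound : ∃ C : ℝ, 0 < C ∧ ∀ (n N : ℕ) (x : Fin N → EuclideanSpace ℝ (Fin n))
    (ε lam Γ : ℝ), 0 < n → 1 ≤ lam → lam ^ 2 ≤ n / 4 → 0 < ε → ε ≤ 1 / 2 → 0 < Γ →
    (∀ y, (1 - ε) * ‖y‖ ≤ ∑ j, |⟪y, x j⟫|) →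
    (∀ y, ∑ j, |⟪y, x j⟫| ≤ (1 + ε) * ‖y‖) →
    (∀ y v : EuclideanSpace ℝ (Fin n), |DD x (fun u => dPsi ⟪u, y⟫ * ⟪u, v⟫)|
      ≤ Γ * ‖v‖ * (1 + ‖y‖ / Real.sqrt n)) →
    (n : ℝ) ≤ C * N * (lam ^ 4 * Real.exp (-lam ^ 2 / 2) + Γ ^ 2 * lam ^ 6) := by
  obtain ⟨c₀, hc₀, hkk⟩ := kk_lower
  obtain ⟨C₀, hC₀, hiso⟩ := iso_kk
  have hP : 0 < (Psi 0)⁻¹ := inv_pos.2 Psi_zero_pos
  set P := (Psi 0)⁻¹ with hPdef
  refine ⟨16 * (30 * P * C₀ / c₀ + 4 / c₀ ^ 2), by positivity, ?_⟩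
  intro n N x ε lam Γ hn hlam hlamn hε0 hε1 hΓ hlow hup hgrad
  have hnR : (0 : ℝ) < n := by exact_mod_cast hn
  set S := Real.sqrt n with hS
  have hS0 : 0 < S := Real.sqrt_pos.2 hnR
  have hS2 : S ^ 2 = n := Real.sq_sqrt hnR.le
  have hlam0 : 0 < lam := by linarith
  set W := ∑ j, wt x j with hW
  have hW1 : W ≤ 15 * S := by
    refine (W_le x ε hup).trans ?_
    rw [← hS]
    have h1 : (1 + ε) * S ≤ (3 / 2) * S := mul_le_mul_of_nonneg_right (by linarith) hS0.le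
    linarith
  have hW2 : S / 2 ≤ W := by
    refine le_trans ?_ (W_ge x ε hlow)
    rw [← hS]
    have h1 : (1 / 2) * S ≤ (1 - ε) * S := mul_le_mul_of_nonneg_right (by linarith) hS0.le
    linarith
  set B : ℝ := C₀ * lam ^ 2 * Real.exp (-lam ^ 2 / 2) / S with hB
  -- the two parts
  set F : EuclideanSpace ℝ (Fin n) → ℝ := fun Y =>
    ∑ j, wt x j * (dPsi ⟪dir x j, lam • Y⟫ * ⟪dir x j, vf x lam Y⟫) with hF
  set G : EuclideanSpace ℝ (Fin n) → ℝ := fun Y =>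
    isoI (fun u => dPsi ⟪u, lam • Y⟫ * ⟪u, vf x lam Y⟫) with hG
  have hFint : Integrable F (stdGaussian _) := by
    refine integrable_of_cont_bdd F ?_ (W * W) ?_
    · refine Finset.measurable_fun_sum _ fun j _ => Measurable.const_mul ?_ _
      refine (measurable_dPsi.comp (by fun_prop)).mul ?_
      exact (by have := continuous_vf x lam; fun_prop :
        Continuous fun Y => ⟪dir x j, vf x lam Y⟫).measurable
    · intro Y
      refine (Finset.abs_sum_le_sum_abs _ _).trans ?_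
      rw [hW, Finset.sum_mul]
      refine Finset.sum_le_sum fun j _ => ?_
      rw [abs_mul, abs_of_nonneg (wt_nonneg x j), abs_mul]
      refine mul_le_mul_of_nonneg_left ?_ (wt_nonneg x j)
      have h1 : |⟪dir x j, vf x lam Y⟫| ≤ ∑ j, wt x j := by
        refine (abs_real_inner_le_norm _ _).trans ?_
        calc ‖dir x j‖ * ‖vf x lam Y‖ ≤ 1 * ∑ j, wt x j := by
              gcongr
              · exact norm_dir_le x j
              · exact norm_vf_le x lam Y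
          _ = _ := one_mul _
      calc |dPsi ⟪dir x j, lam • Y⟫| * |⟪dir x j, vf x lam Y⟫| ≤ 1 * ∑ j, wt x j := by
            gcongr
            exact abs_dPsi_le _
        _ = _ := one_mul _
  have hGint : Integrable G (stdGaussian _) := by
    simp only [hG, isoI_vf]
    refine Integrable.const_mul (integrable_finsetSum _ fun l _ => Integrable.const_mul ?_ _) _
    have h := (integrable_iso_kernel lam (dir x l) (norm_dir_le x l)).integral_prod_left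
    refine h.congr (Filter.Eventually.of_forall fun Y => ?_)
    simp only
    rw [integral_const_mul]
  have hA : c₀ * (lam ^ 2)⁻¹ * QQ x lam ≤ ∫ Y, F Y ∂(stdGaussian _) := by
    rw [hF, integral_atoms]
    exact AA_ge x lam c₀ fun ρ hρ => hkk lam ρ hlam hρ
  have hBB : ∫ Y, G Y ∂(stdGaussian _) ≤ P * (W * B) :=
    integral_iso x lam B fun u hu => hiso n hn lam hlam hlamn u hu
  -- the upper bound
  set Q := QQ x lam with hQ
  set t : ℝ := c₀ / (Γ * lam ^ 2) with ht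
  have ht0 : 0 < t := by positivity
  set U : EuclideanSpace ℝ (Fin n) → ℝ := fun Y =>
    Γ * t / 2 * ‖vf x lam Y‖ ^ 2 + Γ / t * (1 + lam ^ 2 / n * ‖Y‖ ^ 2) with hU
  have hvfint : Integrable (fun Y => ‖vf x lam Y‖ ^ 2) (stdGaussian _) := by
    refine integrable_of_cont_bdd _ ?_ (W ^ 2) ?_
    · exact (by have := continuous_vf x lam; fun_prop :
        Continuous fun Y => ‖vf x lam Y‖ ^ 2).measurable
    · intro Y
      rw [abs_of_nonneg (by positivity)]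
      exact pow_le_pow_left₀ (norm_nonneg _) (norm_vf_le x lam Y) 2
  have hI2 : Integrable (fun Y : EuclideanSpace ℝ (Fin n) => 1 + lam ^ 2 / n * ‖Y‖ ^ 2)
      (stdGaussian _) := (integrable_const _).add (integrable_norm_sq.const_mul _)
  have hUint : Integrable U (stdGaussian _) := (hvfint.const_mul _).add (hI2.const_mul _)
  have hUval : ∫ Y, U Y ∂(stdGaussian _) = Γ * t / 2 * Q + Γ / t * (1 + lam ^ 2) := by
    rw [hU, integral_add (hvfint.const_mul _) (hI2.const_mul _), integral_const_mul,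
      integral_const_mul, integral_norm_vf_sq, integral_add (integrable_const _)
      (integrable_norm_sq.const_mul _), integral_const_mul, integral_norm_sq]
    congr 2
    simp
    field_simp
  have hpt : ∀ Y, F Y - G Y ≤ U Y := by
    intro Y
    have h1 := (abs_le.1 (hgrad (lam • Y) (vf x lam Y))).2
    have h2 : DD x (fun u => dPsi ⟪u, lam • Y⟫ * ⟪u, vf x lam Y⟫) = F Y - G Y := rfl
    rw [h2] at h1
    refine h1.trans ?_
    rw [norm_smul, Real.norm_of_nonneg hlam0.le]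
    set a := ‖vf x lam Y‖
    set b := 1 + lam * ‖Y‖ / S with hb
    have h3 : b ^ 2 ≤ 2 * (1 + lam ^ 2 / n * ‖Y‖ ^ 2) := by
      have h4 : lam ^ 2 / n * ‖Y‖ ^ 2 = (lam * ‖Y‖ / S) ^ 2 := by
        rw [← hS2]; field_simp
      rw [h4, hb]
      nlinarith [sq_nonneg (1 - lam * ‖Y‖ / S)]
    have h5 : a * b ≤ t / 2 * a ^ 2 + 1 / (2 * t) * b ^ 2 := by
      have h6 : t / 2 * a ^ 2 + 1 / (2 * t) * b ^ 2 - a * b = (t * a - b) ^ 2 / (2 * t) := by
        field_simp; ring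
      have h7 : 0 ≤ (t * a - b) ^ 2 / (2 * t) := by positivity
      linarith
    calc Γ * a * b = Γ * (a * b) := by ring
      _ ≤ Γ * (t / 2 * a ^ 2 + 1 / (2 * t) * b ^ 2) := by gcongr
      _ ≤ Γ * (t / 2 * a ^ 2 + 1 / (2 * t) * (2 * (1 + lam ^ 2 / n * ‖Y‖ ^ 2))) := by gcongr
      _ = Γ * t / 2 * a ^ 2 + Γ / t * (1 + lam ^ 2 / n * ‖Y‖ ^ 2) := by
          field_simp
  have hcomp : c₀ * (lam ^ 2)⁻¹ * Q - P * (W * B) ≤ Γ * t / 2 * Q + Γ / t * (1 + lam ^ 2) := by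
    rw [← hUval]
    calc c₀ * (lam ^ 2)⁻¹ * Q - P * (W * B)
        ≤ ∫ Y, F Y ∂(stdGaussian _) - ∫ Y, G Y ∂(stdGaussian _) := by linarith
      _ = ∫ Y, (F Y - G Y) ∂(stdGaussian _) := (integral_sub hFint hGint).symm
      _ ≤ ∫ Y, U Y ∂(stdGaussian _) := integral_mono (hFint.sub hGint) hUint hpt
  -- algebra
  have hΓt : Γ * t / 2 = c₀ * (lam ^ 2)⁻¹ / 2 := by
    rw [ht]; field_simp
  have hΓt2 : Γ / t * (1 + lam ^ 2) ≤ 2 * Γ ^ 2 * lam ^ 4 / c₀ := by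
    have h1 : Γ / t = Γ ^ 2 * lam ^ 2 / c₀ := by rw [ht]; field_simp
    rw [h1]
    have h2 : 1 + lam ^ 2 ≤ 2 * lam ^ 2 := by nlinarith
    calc Γ ^ 2 * lam ^ 2 / c₀ * (1 + lam ^ 2) ≤ Γ ^ 2 * lam ^ 2 / c₀ * (2 * lam ^ 2) := by gcongr
      _ = _ := by ring
  have hPWB : P * (W * B) ≤ 15 * P * C₀ * (lam ^ 2 * Real.exp (-lam ^ 2 / 2)) := by
    have hB0 : 0 ≤ B := by positivity
    calc P * (W * B) ≤ P * ((15 * S) * B) := by gcongr
      _ = _ := by rw [hB]; field_simp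
  have hQ1 : Q ≤ 30 * P * C₀ / c₀ * (lam ^ 4 * Real.exp (-lam ^ 2 / 2))
      + 4 / c₀ ^ 2 * (Γ ^ 2 * lam ^ 6) := by
    rw [hΓt] at hcomp
    have h1 : c₀ * (lam ^ 2)⁻¹ / 2 * Q ≤ 15 * P * C₀ * (lam ^ 2 * Real.exp (-lam ^ 2 / 2))
        + 2 * Γ ^ 2 * lam ^ 4 / c₀ := by linarith
    have h2 : 0 < 2 * lam ^ 2 / c₀ := by positivity
    have h3 := mul_le_mul_of_nonneg_left h1 h2.le
    have h4 : 2 * lam ^ 2 / c₀ * (c₀ * (lam ^ 2)⁻¹ / 2 * Q) = Q := by field_simp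
    rw [h4] at h3
    refine h3.trans (le_of_eq ?_)
    field_simp
    ring
  have hQ2 : (n : ℝ) ≤ 16 * N * Q := by
    have h1 : W ^ 2 ≤ N * ∑ j, wt x j ^ 2 := by
      have := sq_sum_le_card_mul_sum_sq (s := (univ : Finset (Fin N))) (f := fun j => wt x j)
      rwa [Finset.card_univ, Fintype.card_fin] at this
    have h2 := QQ_ge x lam hlam
    have h3 : (S / 2) ^ 2 ≤ W ^ 2 := pow_le_pow_left₀ (by positivity) hW2 2
    have h4 : (S / 2) ^ 2 = n / 4 := by rw [div_pow, hS2]; norm_num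
    have h5 : (0 : ℝ) ≤ N := Nat.cast_nonneg N
    have h6 : (N : ℝ) * ∑ j, wt x j ^ 2 ≤ N * (4 * Q) := by
      refine mul_le_mul_of_nonneg_left ?_ h5
      linarith
    nlinarith
  have hN0 : (0 : ℝ) ≤ N := Nat.cast_nonneg N
  have hE0 : 0 ≤ lam ^ 4 * Real.exp (-lam ^ 2 / 2) := by positivity
  have hG0 : 0 ≤ Γ ^ 2 * lam ^ 6 := by positivity
  calc (n : ℝ) ≤ 16 * N * Q := hQ2
    _ ≤ 16 * N * ((30 * P * C₀ / c₀ + 4 / c₀ ^ 2) * (lam ^ 4 * Real.exp (-lam ^ 2 / 2)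
        + Γ ^ 2 * lam ^ 6)) := by
        refine mul_le_mul_of_nonneg_left ?_ (by positivity)
        refine hQ1.trans ?_
        have h7 : 0 ≤ 30 * P * C₀ / c₀ := by positivity
        have h8 : 0 ≤ 4 / c₀ ^ 2 := by positivity
        have h9 := mul_nonneg h7 hG0
        have h10 := mul_nonneg h8 hE0
        have h11 : (30 * P * C₀ / c₀ + 4 / c₀ ^ 2) * (lam ^ 4 * Real.exp (-lam ^ 2 / 2)
            + Γ ^ 2 * lam ^ 6) = 30 * P * C₀ / c₀ * (lam ^ 4 * Real.exp (-lam ^ 2 / 2))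
            + 4 / c₀ ^ 2 * (Γ ^ 2 * lam ^ 6) + 30 * P * C₀ / c₀ * (Γ ^ 2 * lam ^ 6)
            + 4 / c₀ ^ 2 * (lam ^ 4 * Real.exp (-lam ^ 2 / 2)) := by ring
        rw [h11]; linarith
    _ = _ := by ring

/-- Main lower bound with `1 + log (1/ε)`. -/
theorem near_sharp : ∃ c : ℝ, 0 < c ∧ ∀ (n N : ℕ) (x : Fin N → EuclideanSpace ℝ (Fin n))
    (ε : ℝ), 0 < n → Real.exp (-(c * n)) ≤ ε → ε ≤ 1 / 2 →
    (∀ y, (1 - ε) * ‖y‖ ≤ ∑ j, |⟪y, x j⟫|) →
    (∀ y, ∑ j, |⟪y, x j⟫| ≤ (1 + ε) * ‖y‖) →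
    c * n / (ε ^ 2 * Real.log (1 / ε) ^ 6) ≤ N := by
  obtain ⟨C, hC, hpair⟩ := pair_bound
  obtain ⟨Cg, hCg, hgrad⟩ := grad_bound
  -- constants
  set D : ℝ := C * (160 + 13824 * Cg ^ 2) with hD
  have hD0 : 0 < D := by positivity
  refine ⟨min (1 / 100) (1 / D), by positivity, ?_⟩
  intro n N x ε hn hεn hε1 hlow hup
  set c : ℝ := min (1 / 100) (1 / D) with hc
  have hc0 : 0 < c := by positivity
  have hc1 : c ≤ 1 / 100 := min_le_left _ _
  have hc2 : c ≤ 1 / D := min_le_right _ _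
  have hnR : (0 : ℝ) < n := by exact_mod_cast hn
  have hε0 : 0 < ε := lt_of_lt_of_le (Real.exp_pos _) hεn
  set L : ℝ := Real.log (1 / ε) with hL
  have hLexp : Real.exp (-L) = ε := by
    rw [hL, one_div, Real.log_inv, neg_neg, Real.exp_log hε0]
  have hL1 : (0.69 : ℝ) ≤ L := by
    have h1 : Real.log 2 ≤ L := by
      rw [hL]
      apply Real.log_le_log (by norm_num)
      rw [le_div_iff₀ hε0]; linarith
    linarith [Real.log_two_gt_d9]
  have hL0 : 0 < L := by linarith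
  have hLn : L ≤ c * n := by
    have h1 : -(c * n) ≤ Real.log ε := by
      rw [← Real.log_exp (-(c * n))]
      exact Real.log_le_log (Real.exp_pos _) hεn
    rw [hL, one_div, Real.log_inv]; linarith
  -- the parameters
  set lam : ℝ := Real.sqrt (4 * L + 1) with hlam
  have hlam2 : lam ^ 2 = 4 * L + 1 := Real.sq_sqrt (by positivity)
  have hlam1 : 1 ≤ lam := Real.one_le_sqrt.2 (by linarith)
  have hlam0 : 0 < lam := by linarith
  have hlamL : lam ^ 2 ≤ 6 * L := by rw [hlam2]; linarith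
  have hlamn : lam ^ 2 ≤ n / 4 := by
    have h1 : c * n ≤ 1 / 100 * n := mul_le_mul_of_nonneg_right hc1 hnR.le
    linarith
  set p : ℕ := ⌈L⌉₊ + 1 with hp
  have hp1 : 1 ≤ p := by omega
  have hpL : L ≤ p := by
    rw [hp]; push_cast; linarith [Nat.le_ceil L]
  have hpU : (p : ℝ) ≤ 4 * L := by
    rw [hp]; push_cast
    have := Nat.ceil_lt_add_one hL0.le
    linarith
  have hpε : Real.exp (-(p : ℝ)) ≤ ε := by
    rw [← hLexp]
    exact Real.exp_le_exp.2 (by linarith)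
  have hp0 : (0 : ℝ) < p := by exact_mod_cast hp1
  set Γ : ℝ := Cg * (ε * ((p : ℝ) * Real.sqrt p)) with hΓ
  have hsp0 : 0 < Real.sqrt p := Real.sqrt_pos.2 hp0
  have hΓ0 : 0 < Γ := by positivity
  have h := hpair n N x ε lam Γ hn hlam1 hlamn hε0 hε1 hΓ0 hlow hup
    (fun y v => hgrad n N x ε hn hε0 (by linarith) hlow hup p hp1 hpε y v)
  -- estimate
  have hΓ2 : Γ ^ 2 = Cg ^ 2 * ε ^ 2 * (p : ℝ) ^ 3 := by
    rw [hΓ, mul_pow, mul_pow, mul_pow, Real.sq_sqrt hp0.le]; ring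
  have hexp : Real.exp (-lam ^ 2 / 2) ≤ ε ^ 2 := by
    have h1 : ε ^ 2 = Real.exp (-(2 * L)) := by
      rw [← hLexp, ← Real.exp_nat_mul]; congr 1; push_cast; ring
    rw [h1]
    apply Real.exp_le_exp.2
    rw [neg_div, hlam2]; linarith
  have hL4 : L ^ 2 ≤ 160 / 36 * L ^ 6 := by
    have h1 : (0.69 : ℝ) ^ 4 ≤ L ^ 4 := pow_le_pow_left₀ (by norm_num) hL1 4
    have h2 : (1 : ℝ) ≤ 160 / 36 * L ^ 4 := by
      refine le_trans ?_ (mul_le_mul_of_nonneg_left h1 (by norm_num))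
      norm_num
    calc L ^ 2 = L ^ 2 * 1 := by ring
      _ ≤ L ^ 2 * (160 / 36 * L ^ 4) := by gcongr
      _ = _ := by ring
  have hE : lam ^ 4 * Real.exp (-lam ^ 2 / 2) + Γ ^ 2 * lam ^ 6
      ≤ (160 + 13824 * Cg ^ 2) * (ε ^ 2 * L ^ 6) := by
    have h1 : lam ^ 4 ≤ 36 * L ^ 2 := by
      calc lam ^ 4 = (lam ^ 2) ^ 2 := by ring
        _ ≤ (6 * L) ^ 2 := pow_le_pow_left₀ (sq_nonneg _) hlamL 2
        _ = _ := by ring
    have h2 : lam ^ 6 ≤ 216 * L ^ 3 := by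
      calc lam ^ 6 = (lam ^ 2) ^ 3 := by ring
        _ ≤ (6 * L) ^ 3 := pow_le_pow_left₀ (sq_nonneg _) hlamL 3
        _ = _ := by ring
    have h3 : (p : ℝ) ^ 3 ≤ 64 * L ^ 3 := by
      calc (p : ℝ) ^ 3 ≤ (4 * L) ^ 3 := pow_le_pow_left₀ hp0.le hpU 3
        _ = _ := by ring
    calc lam ^ 4 * Real.exp (-lam ^ 2 / 2) + Γ ^ 2 * lam ^ 6
        ≤ (36 * L ^ 2) * ε ^ 2 + (Cg ^ 2 * ε ^ 2 * (64 * L ^ 3)) * (216 * L ^ 3) := by
          rw [hΓ2]; gcongr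
      _ ≤ (36 * (160 / 36 * L ^ 6)) * ε ^ 2 + (Cg ^ 2 * ε ^ 2 * (64 * L ^ 3)) * (216 * L ^ 3) := by
          gcongr
      _ = _ := by ring
  have hN0 : (0 : ℝ) ≤ N := Nat.cast_nonneg N
  have hfin : (n : ℝ) ≤ D * (N * (ε ^ 2 * L ^ 6)) := by
    calc (n : ℝ) ≤ C * N * (lam ^ 4 * Real.exp (-lam ^ 2 / 2) + Γ ^ 2 * lam ^ 6) := h
      _ ≤ C * N * ((160 + 13824 * Cg ^ 2) * (ε ^ 2 * L ^ 6)) := by gcongr
      _ = _ := by rw [hD]; ring
  rw [div_le_iff₀ (by positivity)]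
  calc c * n ≤ 1 / D * (D * (N * (ε ^ 2 * L ^ 6))) := by gcongr
    _ = _ := by field_simp

end Pool.Agent.Helper24.Zono
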