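import Pool.Agent.Helper24.Zono.Psi

/-!
# The mixed difference functional applied to `Psi`
-/

open MeasureTheory Finset
open scoped BigOperators

namespace Pool.Agent.Helper24.Zono

lemma mixed_cos {J : Type*} [Fintype J] (α τ : J → ℝ)
    (hcos : ∀ θ : ℝ, ∑ j, α j * Real.cos (τ j * θ) = 0) (k : ℕ) (y : Fin (2 * k + 2) → ℝ) :
    ∑ p : Fin (2 * k + 2) → J, (∏ i, α (p i)) * Real.cos (∑ i, τ (p i) * y i)
      = (-1) ^ (k + 1) * ∏ i, ∑ j, α j * Real.sin (τ j * y i) := by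
  classical
  have hfac : ∀ i, (∑ j, (α j : ℂ) * Complex.exp (((τ j * y i : ℝ) : ℂ) * Complex.I))
      = Complex.I * ((∑ j, α j * Real.sin (τ j * y i) : ℝ) : ℂ) := by
    intro i
    have h1 : ∀ j, (α j : ℂ) * Complex.exp (((τ j * y i : ℝ) : ℂ) * Complex.I)
        = ((α j * Real.cos (τ j * y i) : ℝ) : ℂ)
          + Complex.I * ((α j * Real.sin (τ j * y i) : ℝ) : ℂ) := by
      intro j
      rw [Complex.exp_mul_I, ← Complex.ofReal_cos, ← Complex.ofReal_sin]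
      push_cast
      ring
    simp only [h1]
    rw [Finset.sum_add_distrib, ← Finset.mul_sum, ← Complex.ofReal_sum, ← Complex.ofReal_sum,
      hcos (y i)]
    simp
  have hprod : (∏ i, ∑ j, (α j : ℂ) * Complex.exp (((τ j * y i : ℝ) : ℂ) * Complex.I))
      = ∑ p : Fin (2 * k + 2) → J, ((∏ i, α (p i) : ℝ) : ℂ)
        * Complex.exp (((∑ i, τ (p i) * y i : ℝ) : ℂ) * Complex.I) := by
    rw [Finset.prod_univ_sum, Fintype.piFinset_univ]
    refine Finset.sum_congr rfl fun p _ => ?_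
    rw [Finset.prod_mul_distrib, Complex.ofReal_prod, ← Complex.exp_sum, Complex.ofReal_sum,
      Finset.sum_mul]
  simp only [hfac] at hprod
  have hI : Complex.I ^ (2 * k + 2) = (-1) ^ (k + 1) := by
    rw [show 2 * k + 2 = 2 * (k + 1) by ring, pow_mul, Complex.I_sq]
  rw [Finset.prod_mul_distrib, Finset.prod_const, Finset.card_univ, Fintype.card_fin,
    hI, ← Complex.ofReal_prod] at hprod
  have hre := congrArg Complex.re hprod
  rw [Complex.re_sum] at hre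
  have h2 : ((-1 : ℂ) ^ (k + 1) * ((∏ i, ∑ j, α j * Real.sin (τ j * y i) : ℝ) : ℂ)).re
      = (-1) ^ (k + 1) * ∏ i, ∑ j, α j * Real.sin (τ j * y i) := by
    have : ((-1 : ℂ) ^ (k + 1)) = (((-1 : ℝ) ^ (k + 1) : ℝ) : ℂ) := by push_cast; rfl
    rw [this, ← Complex.ofReal_mul, Complex.ofReal_re]
  rw [← h2, hre]
  refine Finset.sum_congr rfl fun p _ => ?_
  rw [Complex.re_ofReal_mul, Complex.exp_ofReal_mul_I_re]

/-- Gaussian moments. -/
noncomputable def mu (k : ℕ) : ℝ := ∫ ω : ℝ, ω ^ (2 * k) * Real.exp (-ω ^ 2 / 2)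

lemma mu_bound_pt (k : ℕ) (ω : ℝ) :
    ω ^ (2 * k) * Real.exp (-ω ^ 2 / 2) ≤ 4 ^ k * (k.factorial : ℝ) * Real.exp (-(1/4) * ω ^ 2) := by
  have h1 : (ω ^ 2 / 4) ^ k / (k.factorial : ℝ) ≤ Real.exp (ω ^ 2 / 4) :=
    Real.pow_div_factorial_le_exp _ (by positivity) _
  have hf : (0 : ℝ) < (k.factorial : ℝ) := by exact_mod_cast Nat.factorial_pos k
  have h2 : ω ^ (2 * k) ≤ 4 ^ k * (k.factorial : ℝ) * Real.exp (ω ^ 2 / 4) := by
    rw [div_le_iff₀ hf, div_pow, div_le_iff₀ (by positivity)] at h1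
    rw [pow_mul]
    linarith
  calc ω ^ (2 * k) * Real.exp (-ω ^ 2 / 2)
      ≤ (4 ^ k * (k.factorial : ℝ) * Real.exp (ω ^ 2 / 4)) * Real.exp (-ω ^ 2 / 2) := by gcongr
    _ = 4 ^ k * (k.factorial : ℝ) * Real.exp (-(1/4) * ω ^ 2) := by
        rw [mul_assoc, ← Real.exp_add]; congr 2; ring

lemma mu_nonneg_pt (k : ℕ) (ω : ℝ) : 0 ≤ ω ^ (2 * k) * Real.exp (-ω ^ 2 / 2) := by
  have : 0 ≤ ω ^ (2 * k) := by rw [pow_mul]; positivity
  positivity

lemma mu_integrable (k : ℕ) : Integrable (fun ω : ℝ => ω ^ (2 * k) * Real.exp (-ω ^ 2 / 2)) := by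
  refine Integrable.mono' (g := fun ω => 4 ^ k * (k.factorial : ℝ) * Real.exp (-(1/4) * ω ^ 2))
    ((integrable_exp_neg_mul_sq (by norm_num)).const_mul _) ?_ ?_
  · exact (Continuous.mul (by fun_prop) (by fun_prop)).aestronglyMeasurable
  · refine Filter.Eventually.of_forall fun ω => ?_
    rw [Real.norm_of_nonneg (mu_nonneg_pt k ω)]
    exact mu_bound_pt k ω

lemma mu_le (k : ℕ) : mu k ≤ 4 ^ (k + 1) * (k.factorial : ℝ) := by
  have h1 : mu k ≤ ∫ ω : ℝ, 4 ^ k * (k.factorial : ℝ) * Real.exp (-(1/4) * ω ^ 2) := by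
    refine integral_mono (mu_integrable k) ((integrable_exp_neg_mul_sq (by norm_num)).const_mul _) ?_
    intro ω
    exact mu_bound_pt k ω
  rw [integral_const_mul, integral_gaussian] at h1
  have h2 : Real.sqrt (Real.pi / (1 / 4)) ≤ 4 := by
    rw [show (4 : ℝ) = Real.sqrt 16 by
      rw [show (16 : ℝ) = 4 ^ 2 by norm_num]; exact (Real.sqrt_sq (by norm_num)).symm]
    apply Real.sqrt_le_sqrt
    have := Real.pi_le_four
    rw [div_le_iff₀ (by norm_num)]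
    linarith
  calc mu k ≤ _ := h1
    _ ≤ 4 ^ k * (k.factorial : ℝ) * 4 := by gcongr
    _ = _ := by ring

lemma mu_pos (k : ℕ) : 0 < mu k := by
  unfold mu
  rw [integral_pos_iff_support_of_nonneg (fun ω => mu_nonneg_pt k ω) (mu_integrable k)]
  have : Set.Ioi (0 : ℝ) ⊆ Function.support (fun ω : ℝ => ω ^ (2 * k) * Real.exp (-ω ^ 2 / 2)) := by
    intro ω hω
    have : 0 < ω := hω
    simp only [Function.mem_support]
    positivity
  refine lt_of_lt_of_le ?_ (measure_mono this)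
  simp

/-- Telescoping estimate for products. -/
lemma prod_sub_prod_le {ι : Type*} [DecidableEq ι] (s : Finset ι) (A B : ι → ℝ) (δ : ℝ)
    (hδ0 : 0 ≤ δ) (h1 : ∀ i, |A i - B i| ≤ δ * |B i|) (h2 : ∀ i, |A i| ≤ 2 * |B i|) :
    |∏ i ∈ s, A i - ∏ i ∈ s, B i| ≤ δ * (s.card * 2 ^ s.card) * ∏ i ∈ s, |B i| := by
  induction s using Finset.induction_on with
  | empty => simp
  | insert i s hi ih =>
    rw [Finset.prod_insert hi, Finset.prod_insert hi, Finset.prod_insert hi,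
      Finset.card_insert_of_notMem hi]
    have hA : |∏ i ∈ s, A i| ≤ 2 ^ s.card * ∏ i ∈ s, |B i| := by
      rw [Finset.abs_prod]
      calc ∏ i ∈ s, |A i| ≤ ∏ i ∈ s, (2 * |B i|) :=
            Finset.prod_le_prod (fun i _ => abs_nonneg _) (fun i _ => h2 i)
        _ = _ := by rw [Finset.prod_mul_distrib, Finset.prod_const]
    have hP : 0 ≤ ∏ i ∈ s, |B i| := Finset.prod_nonneg fun i _ => abs_nonneg _
    have hdecomp : A i * ∏ i ∈ s, A i - B i * ∏ i ∈ s, B i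
        = (A i - B i) * ∏ i ∈ s, A i + B i * (∏ i ∈ s, A i - ∏ i ∈ s, B i) := by ring
    rw [hdecomp]
    calc |(A i - B i) * ∏ i ∈ s, A i + B i * (∏ i ∈ s, A i - ∏ i ∈ s, B i)|
        ≤ |A i - B i| * |∏ i ∈ s, A i| + |B i| * |∏ i ∈ s, A i - ∏ i ∈ s, B i| := by
          refine (abs_add_le _ _).trans ?_
          rw [abs_mul, abs_mul]
      _ ≤ (δ * |B i|) * (2 ^ s.card * ∏ i ∈ s, |B i|)
          + |B i| * (δ * (s.card * 2 ^ s.card) * ∏ i ∈ s, |B i|) := by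
          gcongr
          · exact h1 i
      _ = δ * (2 ^ s.card + s.card * 2 ^ s.card) * (|B i| * ∏ i ∈ s, |B i|) := by ring
      _ ≤ δ * (((s.card + 1 : ℕ) : ℝ) * 2 ^ (s.card + 1)) * (|B i| * ∏ i ∈ s, |B i|) := by
          have : (2 : ℝ) ^ s.card + s.card * 2 ^ s.card ≤ ((s.card + 1 : ℕ) : ℝ) * 2 ^ (s.card + 1) := by
            push_cast
            rw [pow_succ]
            have h3 : (0 : ℝ) < 2 ^ s.card := by positivity
            have h4 : (0 : ℝ) ≤ s.card := by positivity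
            nlinarith [mul_nonneg h4 h3.le]
          have h5 : 0 ≤ |B i| * ∏ i ∈ s, |B i| := mul_nonneg (abs_nonneg _) hP
          gcongr

lemma prod_cutoff {m : ℕ} (S : ℝ → ℝ) (C δ : ℝ) (hC : 1 ≤ C) (hδ0 : 0 ≤ δ) (hδ1 : δ ≤ 1)
    (h1 : ∀ θ : ℝ, |θ| ≤ 1 → |S θ - θ| ≤ δ * |θ|) (h2 : ∀ θ : ℝ, |S θ| ≤ C * |θ|)
    (θ : Fin m → ℝ) (q : ℕ) :
    |∏ i, S (θ i) - ∏ i, θ i|
      ≤ (∏ i, |θ i|) * (δ * (m * 2 ^ m) + 2 * C ^ m * ∑ i, θ i ^ (2 * q)) := by
  have hP : 0 ≤ ∏ i, |θ i| := Finset.prod_nonneg fun i _ => abs_nonneg _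
  have hsum : 0 ≤ ∑ i, θ i ^ (2 * q) :=
    Finset.sum_nonneg fun i _ => by rw [pow_mul]; positivity
  by_cases hall : ∀ i, |θ i| ≤ 1
  · have h3 := prod_sub_prod_le (univ : Finset (Fin m)) (fun i => S (θ i)) θ δ hδ0
      (fun i => h1 _ (hall i)) (fun i => by
        have := h1 _ (hall i)
        have h4 : |S (θ i)| ≤ |S (θ i) - θ i| + |θ i| := by
          have := abs_add_le (S (θ i) - θ i) (θ i); simpa using this
        nlinarith [abs_nonneg (θ i)])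
    rw [Finset.card_univ, Fintype.card_fin] at h3
    calc _ ≤ _ := h3
      _ = (∏ i, |θ i|) * (δ * (m * 2 ^ m)) := by ring
      _ ≤ _ := by
          refine mul_le_mul_of_nonneg_left ?_ hP
          have : 0 ≤ 2 * C ^ m * ∑ i, θ i ^ (2 * q) := by positivity
          linarith
  · push Not at hall
    obtain ⟨k, hk⟩ := hall
    have h3 : (1 : ℝ) ≤ ∑ i, θ i ^ (2 * q) := by
      have h4 : (1 : ℝ) ≤ θ k ^ (2 * q) := by
        rw [pow_mul, ← sq_abs]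
        exact one_le_pow₀ (by nlinarith)
      exact h4.trans (Finset.single_le_sum (f := fun i => θ i ^ (2 * q))
        (fun i _ => by rw [pow_mul]; positivity) (Finset.mem_univ k))
    have h5 : |∏ i, S (θ i)| ≤ C ^ m * ∏ i, |θ i| := by
      rw [Finset.abs_prod]
      calc ∏ i, |S (θ i)| ≤ ∏ i, (C * |θ i|) :=
            Finset.prod_le_prod (fun i _ => abs_nonneg _) (fun i _ => h2 _)
        _ = _ := by rw [Finset.prod_mul_distrib, Finset.prod_const, Finset.card_univ,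
                      Fintype.card_fin]
    have h6 : |∏ i, θ i| = ∏ i, |θ i| := Finset.abs_prod _ _
    have hCm : (1 : ℝ) ≤ C ^ m := one_le_pow₀ hC
    calc |∏ i, S (θ i) - ∏ i, θ i| ≤ |∏ i, S (θ i)| + |∏ i, θ i| := abs_sub _ _
      _ ≤ C ^ m * ∏ i, |θ i| + ∏ i, |θ i| := by rw [h6]; linarith
      _ ≤ (∏ i, |θ i|) * (2 * C ^ m) := by nlinarith
      _ ≤ (∏ i, |θ i|) * (δ * (m * 2 ^ m) + 2 * C ^ m * ∑ i, θ i ^ (2 * q)) := by
          refine mul_le_mul_of_nonneg_left ?_ hP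
          have : 0 ≤ δ * (m * 2 ^ m) := by positivity
          nlinarith

/-- A zero-sum combination of values of `Psi` in Fourier form. -/
lemma Psi_combination {S : Type*} [Fintype S] (β t : S → ℝ) (hβ : ∑ s, β s = 0) :
    ∑ s, β s * Psi (t s)
      = -(cst⁻¹ * ∫ ω : ℝ, Real.exp (-ω ^ 2 / 2) * (∑ s, β s * Real.cos (ω * t s)) / ω ^ 2) := by
  have h1 : ∑ s, β s * Psi (t s) = cst⁻¹ * ∫ ω : ℝ, ∑ s, β s *
      ((1 - Real.exp (-ω ^ 2 / 2) * Real.cos (ω * t s)) / ω ^ 2) := by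
    rw [integral_finsetSum _ (fun s _ => (integrable_Psi (t s)).const_mul _), Finset.mul_sum]
    refine Finset.sum_congr rfl fun s _ => ?_
    rw [integral_const_mul]; unfold Psi; ring
  rw [h1, ← mul_neg, ← integral_neg]
  congr 1
  refine integral_congr_ae (Filter.Eventually.of_forall fun ω => ?_)
  simp only
  have h2 : ∑ s, β s * ((1 - Real.exp (-ω ^ 2 / 2) * Real.cos (ω * t s)) / ω ^ 2)
      = (∑ s, β s) / ω ^ 2
        - Real.exp (-ω ^ 2 / 2) * (∑ s, β s * Real.cos (ω * t s)) / ω ^ 2 := by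
    rw [Finset.sum_div, Finset.mul_sum, Finset.sum_div, ← Finset.sum_sub_distrib]
    refine Finset.sum_congr rfl fun s _ => ?_
    ring
  rw [h2, hβ]; ring

/-- The mixed difference functional of order `2k+2` applied to `Psi`. -/
theorem Psi_mixed {J : Type*} [Fintype J] (α τ : J → ℝ) (C δ : ℝ) (hC : 1 ≤ C) (hδ0 : 0 ≤ δ)
    (hδ1 : δ ≤ 1)
    (hcos : ∀ θ : ℝ, ∑ j, α j * Real.cos (τ j * θ) = 0)
    (hsin : ∀ θ : ℝ, |θ| ≤ 1 → |∑ j, α j * Real.sin (τ j * θ) - θ| ≤ δ * |θ|)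
    (hτ : ∑ j, |α j| * |τ j| ≤ C) (k q : ℕ) (y : Fin (2 * k + 2) → ℝ) :
    |∑ p : Fin (2 * k + 2) → J, (∏ i, α (p i)) * Psi (∑ i, τ (p i) * y i)
        - (-1) ^ k * (cst⁻¹ * mu k * ∏ i, y i)|
      ≤ cst⁻¹ * (∏ i, |y i|) * (δ * (((2 * k + 2 : ℕ) : ℝ) * 2 ^ (2 * k + 2)) * mu k
          + 2 * C ^ (2 * k + 2) * mu (k + q) * ∑ i, y i ^ (2 * q)) := by
  classical
  set S : ℝ → ℝ := fun θ => ∑ j, α j * Real.sin (τ j * θ) with hS
  have h2 : ∀ θ : ℝ, |S θ| ≤ C * |θ| := by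
    intro θ
    calc |S θ| ≤ ∑ j, |α j * Real.sin (τ j * θ)| := Finset.abs_sum_le_sum_abs _ _
      _ ≤ ∑ j, |α j| * |τ j| * |θ| := by
          refine Finset.sum_le_sum fun j _ => ?_
          rw [abs_mul, mul_assoc, ← abs_mul (τ j) θ]
          exact mul_le_mul_of_nonneg_left Real.abs_sin_le_abs (abs_nonneg _)
      _ = (∑ j, |α j| * |τ j|) * |θ| := by rw [Finset.sum_mul]
      _ ≤ C * |θ| := by gcongr
  have hβ : ∑ p : Fin (2 * k + 2) → J, ∏ i, α (p i) = 0 := by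
    have h3 := hcos 0
    simp only [mul_zero, Real.cos_zero, mul_one] at h3
    have h4 := Finset.prod_univ_sum (fun _ : Fin (2 * k + 2) => (univ : Finset J))
      (fun _ j => α j)
    rw [Fintype.piFinset_univ] at h4
    rw [← h4, h3, Finset.prod_const, Finset.card_univ, Fintype.card_fin, zero_pow (by omega)]
  rw [Psi_combination _ _ hβ]
  have h5 : ∀ ω : ℝ, ∑ p : Fin (2 * k + 2) → J, (∏ i, α (p i))
      * Real.cos (ω * ∑ i, τ (p i) * y i) = (-1) ^ (k + 1) * ∏ i, S (ω * y i) := by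
    intro ω
    rw [hS, ← mixed_cos α τ hcos k (fun i => ω * y i)]
    refine Finset.sum_congr rfl fun p _ => ?_
    rw [Finset.mul_sum]
    congr 2
    exact Finset.sum_congr rfl fun i _ => by ring
  simp only [h5]
  have hk1 : ((-1 : ℝ)) ^ (k + 1) = -(-1) ^ k := by rw [pow_succ]; ring
  have h6 : -(cst⁻¹ * ∫ ω : ℝ, Real.exp (-ω ^ 2 / 2) * ((-1) ^ (k + 1) * ∏ i, S (ω * y i)) / ω ^ 2)
      = (-1) ^ k * (cst⁻¹ * ∫ ω : ℝ, Real.exp (-ω ^ 2 / 2) * (∏ i, S (ω * y i)) / ω ^ 2) := by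
    have : ∀ ω : ℝ, Real.exp (-ω ^ 2 / 2) * ((-1) ^ (k + 1) * ∏ i, S (ω * y i)) / ω ^ 2
        = (-(-1) ^ k) * (Real.exp (-ω ^ 2 / 2) * (∏ i, S (ω * y i)) / ω ^ 2) := by
      intro ω; rw [hk1]; ring
    simp only [this]
    rw [integral_const_mul]; ring
  rw [h6]
  -- pointwise bound
  have hP : 0 ≤ ∏ i, |y i| := Finset.prod_nonneg fun i _ => abs_nonneg _
  set A1 : ℝ := (∏ i, |y i|) * (δ * (((2 * k + 2 : ℕ) : ℝ) * 2 ^ (2 * k + 2))) with hA1
  set A2 : ℝ := (∏ i, |y i|) * (2 * C ^ (2 * k + 2) * ∑ i, y i ^ (2 * q)) with hA2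
  have hpt : ∀ ω : ℝ, ω ≠ 0 → ‖Real.exp (-ω ^ 2 / 2) * (∏ i, S (ω * y i)) / ω ^ 2
      - (∏ i, y i) * (ω ^ (2 * k) * Real.exp (-ω ^ 2 / 2))‖
      ≤ A1 * (ω ^ (2 * k) * Real.exp (-ω ^ 2 / 2))
        + A2 * (ω ^ (2 * (k + q)) * Real.exp (-ω ^ 2 / 2)) := by
    intro ω hω
    have hc := prod_cutoff S C δ hC hδ0 hδ1 hsin h2 (fun i => ω * y i) q
    have h7 : ∏ i : Fin (2 * k + 2), (ω * y i) = ω ^ (2 * k + 2) * ∏ i, y i := by
      rw [Finset.prod_mul_distrib, Finset.prod_const, Finset.card_univ, Fintype.card_fin]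
    have h8 : ∏ i : Fin (2 * k + 2), |ω * y i| = ω ^ (2 * k + 2) * ∏ i, |y i| := by
      simp only [abs_mul]
      rw [Finset.prod_mul_distrib, Finset.prod_const, Finset.card_univ, Fintype.card_fin]
      congr 1
      rw [show 2 * k + 2 = 2 * (k + 1) by ring, pow_mul, sq_abs, ← pow_mul]
    have h9 : ∑ i : Fin (2 * k + 2), (ω * y i) ^ (2 * q) = ω ^ (2 * q) * ∑ i, y i ^ (2 * q) := by
      rw [Finset.mul_sum]; exact Finset.sum_congr rfl fun i _ => by rw [mul_pow]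
    rw [h7, h8, h9] at hc
    have hω2 : (0 : ℝ) < ω ^ 2 := by positivity
    have h10 : Real.exp (-ω ^ 2 / 2) * (∏ i, S (ω * y i)) / ω ^ 2
        - (∏ i, y i) * (ω ^ (2 * k) * Real.exp (-ω ^ 2 / 2))
        = Real.exp (-ω ^ 2 / 2) / ω ^ 2 * (∏ i, S (ω * y i) - ω ^ (2 * k + 2) * ∏ i, y i) := by
      rw [pow_add]; field_simp
    rw [h10, norm_mul, Real.norm_of_nonneg (by positivity), Real.norm_eq_abs]
    calc Real.exp (-ω ^ 2 / 2) / ω ^ 2 * |∏ i, S (ω * y i) - ω ^ (2 * k + 2) * ∏ i, y i|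
        ≤ Real.exp (-ω ^ 2 / 2) / ω ^ 2 * (ω ^ (2 * k + 2) * (∏ i, |y i|)
          * (δ * (((2 * k + 2 : ℕ) : ℝ) * 2 ^ (2 * k + 2))
            + 2 * C ^ (2 * k + 2) * (ω ^ (2 * q) * ∑ i, y i ^ (2 * q)))) := by
          refine mul_le_mul_of_nonneg_left hc (by positivity)
      _ = _ := by
          rw [hA1, hA2, show 2 * (k + q) = 2 * k + 2 * q by ring, pow_add, pow_add]
          field_simp
          ring
  have hint1 := mu_integrable k
  have hint2 := mu_integrable (k + q)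
  have hbd : Integrable (fun ω : ℝ => A1 * (ω ^ (2 * k) * Real.exp (-ω ^ 2 / 2))
        + A2 * (ω ^ (2 * (k + q)) * Real.exp (-ω ^ 2 / 2))) :=
    (hint1.const_mul _).add (hint2.const_mul _)
  have hae : ∀ᵐ ω : ℝ, ω ≠ 0 := by simp [ae_iff]
  have hpt' : ∀ᵐ ω : ℝ, ‖Real.exp (-ω ^ 2 / 2) * (∏ i, S (ω * y i)) / ω ^ 2
      - (∏ i, y i) * (ω ^ (2 * k) * Real.exp (-ω ^ 2 / 2))‖
      ≤ A1 * (ω ^ (2 * k) * Real.exp (-ω ^ 2 / 2))
        + A2 * (ω ^ (2 * (k + q)) * Real.exp (-ω ^ 2 / 2)) := by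
    filter_upwards [hae] with ω hω using hpt ω hω
  have hmeas : AEStronglyMeasurable (fun ω : ℝ => Real.exp (-ω ^ 2 / 2) * (∏ i, S (ω * y i)) / ω ^ 2
      - (∏ i, y i) * (ω ^ (2 * k) * Real.exp (-ω ^ 2 / 2))) volume := by
    apply Measurable.aestronglyMeasurable
    have hSm : Measurable S := by
      rw [hS]; exact Finset.measurable_sum _ fun j _ => by fun_prop
    have : Measurable (fun ω : ℝ => ∏ i, S (ω * y i)) :=
      Finset.measurable_prod _ fun i _ => hSm.comp (by fun_prop)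
    fun_prop
  have hsubint : Integrable (fun ω : ℝ => Real.exp (-ω ^ 2 / 2) * (∏ i, S (ω * y i)) / ω ^ 2
      - (∏ i, y i) * (ω ^ (2 * k) * Real.exp (-ω ^ 2 / 2))) := hbd.mono' hmeas hpt'
  have hGint : Integrable (fun ω : ℝ => (∏ i, y i) * (ω ^ (2 * k) * Real.exp (-ω ^ 2 / 2))) :=
    hint1.const_mul _
  have hFint : Integrable (fun ω : ℝ => Real.exp (-ω ^ 2 / 2) * (∏ i, S (ω * y i)) / ω ^ 2) := by
    have := hsubint.add hGint
    refine this.congr (Filter.Eventually.of_forall fun ω => ?_)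
    simp
  have hfin := norm_integral_le_of_norm_le hbd hpt'
  rw [integral_sub hFint hGint, integral_const_mul, integral_add (hint1.const_mul _)
    (hint2.const_mul _), integral_const_mul, integral_const_mul, Real.norm_eq_abs] at hfin
  have hcst : 0 < cst⁻¹ := inv_pos.2 cst_pos
  have h11 : (-1 : ℝ) ^ k * (cst⁻¹ * ∫ ω : ℝ, Real.exp (-ω ^ 2 / 2) * (∏ i, S (ω * y i)) / ω ^ 2)
      - (-1) ^ k * (cst⁻¹ * mu k * ∏ i, y i)
      = (-1) ^ k * (cst⁻¹ * ((∫ ω : ℝ, Real.exp (-ω ^ 2 / 2) * (∏ i, S (ω * y i)) / ω ^ 2)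
        - (∏ i, y i) * mu k)) := by ring
  rw [h11, abs_mul, abs_pow, abs_neg, abs_one, one_pow, one_mul, abs_mul, abs_of_pos hcst]
  calc cst⁻¹ * |(∫ ω : ℝ, Real.exp (-ω ^ 2 / 2) * (∏ i, S (ω * y i)) / ω ^ 2) - (∏ i, y i) * mu k|
      ≤ cst⁻¹ * (A1 * mu k + A2 * mu (k + q)) := mul_le_mul_of_nonneg_left hfin hcst.le
    _ = _ := by rw [hA1, hA2]; ring

end Pool.Agent.Helper24.Zono
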