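import Pool.Agent.Helper24.Zono.Chaos
import Pool.Agent.Helper24.Zono.Fun

/-!
# The averaged mixed functional applied to one direction
-/

open Finset
open scoped BigOperators RealInnerProductSpace

namespace Pool.Agent.Helper24.Zono

variable {n N : ℕ}

/-- The averaged mixed difference functional, applied to the smoothed absolute value in the
direction `v`. -/
noncomputable def Rv {J : Type} [Fintype J] (α τ : J → ℝ) (κ : ℝ) (k : ℕ)
    (D : (Fin (2 * k + 1) → Fin n → Bool) → Fin (2 * k + 2) → EuclideanSpace ℝ (Fin n))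
    (v : EuclideanSpace ℝ (Fin n)) : ℝ :=
  𝔼 Y : Fin (2 * k + 1) → Fin n → Bool, ∑ p : Fin (2 * k + 2) → J,
    (∏ i, α (p i)) * Psi ⟪v, κ • ∑ i, τ (p i) • D Y i⟫

lemma prod_abs_le {k : ℕ} (b : Fin (2 * k + 2) → ℝ) :
    ∏ i, |b i| ≤ ∑ i, b i ^ (2 * (k + 1)) := by
  obtain ⟨i₀, _, hi₀⟩ := Finset.exists_max_image (univ : Finset (Fin (2 * k + 2)))
    (fun i => |b i|) ⟨0, Finset.mem_univ _⟩
  calc ∏ i, |b i| ≤ ∏ _i : Fin (2 * k + 2), |b i₀| :=
        Finset.prod_le_prod (fun i _ => abs_nonneg _) (fun i hi => hi₀ i hi)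
    _ = b i₀ ^ (2 * (k + 1)) := by
        rw [Finset.prod_const, Finset.card_univ, Fintype.card_fin,
          show 2 * k + 2 = 2 * (k + 1) by ring, pow_mul, sq_abs, ← pow_mul]
    _ ≤ _ := Finset.single_le_sum (f := fun i => b i ^ (2 * (k + 1)))
        (fun i _ => by rw [pow_mul]; positivity) (Finset.mem_univ i₀)

lemma prod_abs_mul_le {k : ℕ} (q : ℕ) (b : Fin (2 * k + 2) → ℝ) :
    (∏ i, |b i|) * ∑ i, b i ^ (2 * q)
      ≤ ((2 * k + 2 : ℕ) : ℝ) * ∑ i, b i ^ (2 * (k + 1 + q)) := by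
  obtain ⟨i₀, _, hi₀⟩ := Finset.exists_max_image (univ : Finset (Fin (2 * k + 2)))
    (fun i => |b i|) ⟨0, Finset.mem_univ _⟩
  have h1 : ∏ i, |b i| ≤ b i₀ ^ (2 * (k + 1)) := by
    calc ∏ i, |b i| ≤ ∏ _i : Fin (2 * k + 2), |b i₀| :=
        Finset.prod_le_prod (fun i _ => abs_nonneg _) (fun i hi => hi₀ i hi)
    _ = b i₀ ^ (2 * (k + 1)) := by
        rw [Finset.prod_const, Finset.card_univ, Fintype.card_fin,
          show 2 * k + 2 = 2 * (k + 1) by ring, pow_mul, sq_abs, ← pow_mul]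
  have h2 : ∑ i, b i ^ (2 * q) ≤ ((2 * k + 2 : ℕ) : ℝ) * b i₀ ^ (2 * q) := by
    calc ∑ i, b i ^ (2 * q) ≤ ∑ _i : Fin (2 * k + 2), b i₀ ^ (2 * q) := by
          refine Finset.sum_le_sum fun i hi => ?_
          rw [pow_mul, pow_mul, ← sq_abs (b i), ← sq_abs (b i₀)]
          have := hi₀ i hi
          exact pow_le_pow_left₀ (sq_nonneg _) (pow_le_pow_left₀ (abs_nonneg _) this 2) q
      _ = _ := by rw [Finset.sum_const, Finset.card_univ, Fintype.card_fin, nsmul_eq_mul]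
  have h0 : 0 ≤ ∑ i, b i ^ (2 * q) := Finset.sum_nonneg fun i _ => by rw [pow_mul]; positivity
  have h00 : 0 ≤ b i₀ ^ (2 * (k + 1)) := by rw [pow_mul]; positivity
  calc (∏ i, |b i|) * ∑ i, b i ^ (2 * q)
      ≤ b i₀ ^ (2 * (k + 1)) * (((2 * k + 2 : ℕ) : ℝ) * b i₀ ^ (2 * q)) :=
        mul_le_mul h1 h2 h0 h00
    _ = ((2 * k + 2 : ℕ) : ℝ) * b i₀ ^ (2 * (k + 1 + q)) := by
        rw [show 2 * (k + 1 + q) = 2 * (k + 1) + 2 * q by ring, pow_add]; ring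
    _ ≤ _ := by
        refine mul_le_mul_of_nonneg_left ?_ (by positivity)
        exact Finset.single_le_sum (f := fun i => b i ^ (2 * (k + 1 + q)))
          (fun i _ => by rw [pow_mul]; positivity) (Finset.mem_univ i₀)

/-- The error term. -/
noncomputable def Er (k q : ℕ) (C δ κ : ℝ) : ℝ :=
  cst⁻¹ * κ ^ (2 * k + 2) * (δ * (((2 * k + 2 : ℕ) : ℝ) * 2 ^ (2 * k + 2)) * mu k
      * (((2 * k + 2 : ℕ) : ℝ) * Kc (k + 1) ^ (2 * k + 1))
    + 2 * C ^ (2 * k + 2) * mu (k + q) * κ ^ (2 * q)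
      * (((2 * k + 2 : ℕ) : ℝ) ^ 2 * Kc (k + 1 + q) ^ (2 * k + 1)))

theorem Rv_error {J : Type} [Fintype J] (α τ : J → ℝ) (C δ κ : ℝ) (hC : 1 ≤ C) (hδ0 : 0 ≤ δ)
    (hδ1 : δ ≤ 1) (hκ : 0 ≤ κ)
    (hcos : ∀ θ : ℝ, ∑ j, α j * Real.cos (τ j * θ) = 0)
    (hsin : ∀ θ : ℝ, |θ| ≤ 1 → |∑ j, α j * Real.sin (τ j * θ) - θ| ≤ δ * |θ|)
    (hτ : ∑ j, |α j| * |τ j| ≤ C) (k q : ℕ)
    (w : Fin N → ℝ) (u : Fin N → EuclideanSpace ℝ (Fin n))
    (e : OrthonormalBasis (Fin n) ℝ (EuclideanSpace ℝ (Fin n))) (lam : Fin n → ℝ)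
    (hlam : ∀ a, 0 ≤ lam a)
    (he : ∀ a b, form w u (2 * k + 1) (e a) (e b) = if a = b then lam a else 0)
    (s : ℝ) (hs : 0 < s) (v : EuclideanSpace ℝ (Fin n)) (hv : ‖v‖ ≤ 1) :
    |Rv α τ κ k (Dv w u k e lam s) v
        - (-1) ^ k * (cst⁻¹ * mu k * κ ^ (2 * k + 2) * Qv w u k e lam s v)|
      ≤ Er k q C δ κ := by
  have hcst : 0 < cst⁻¹ := inv_pos.2 cst_pos
  set a : (Fin (2 * k + 1) → Fin n → Bool) → Fin (2 * k + 2) → ℝ :=
    fun Y i => ⟪v, Dv w u k e lam s Y i⟫ with ha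
  have hinner : ∀ (Y : Fin (2 * k + 1) → Fin n → Bool) (p : Fin (2 * k + 2) → J),
      ⟪v, κ • ∑ i, τ (p i) • Dv w u k e lam s Y i⟫ = ∑ i, τ (p i) * (κ * a Y i) := by
    intro Y p
    rw [inner_smul_right, inner_sum, Finset.mul_sum]
    refine Finset.sum_congr rfl fun i _ => ?_
    rw [inner_smul_right]; simp only [ha]; ring
  have hQ : (-1) ^ k * (cst⁻¹ * mu k * κ ^ (2 * k + 2) * Qv w u k e lam s v)
      = 𝔼 Y : Fin (2 * k + 1) → Fin n → Bool,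
        (-1) ^ k * (cst⁻¹ * mu k * ∏ i, (κ * a Y i)) := by
    rw [← expect_prod_Dv w u k e lam s v, Finset.mul_expect, Finset.mul_expect]
    refine Finset.expect_congr rfl fun Y _ => ?_
    rw [Finset.prod_mul_distrib, Finset.prod_const, Finset.card_univ, Fintype.card_fin]
    simp only [ha]; ring
  rw [hQ]
  unfold Rv
  rw [← Finset.expect_sub_distrib]
  refine (abs_expect_le _).trans ?_
  have hpt : ∀ Y : Fin (2 * k + 1) → Fin n → Bool,
      |(∑ p : Fin (2 * k + 2) → J, (∏ i, α (p i)) *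
          Psi ⟪v, κ • ∑ i, τ (p i) • Dv w u k e lam s Y i⟫)
        - (-1) ^ k * (cst⁻¹ * mu k * ∏ i, (κ * a Y i))|
      ≤ cst⁻¹ * κ ^ (2 * k + 2) * (δ * (((2 * k + 2 : ℕ) : ℝ) * 2 ^ (2 * k + 2)) * mu k
          * (∑ i, a Y i ^ (2 * (k + 1)))
        + 2 * C ^ (2 * k + 2) * mu (k + q) * κ ^ (2 * q)
          * (((2 * k + 2 : ℕ) : ℝ) * ∑ i, a Y i ^ (2 * (k + 1 + q)))) := by
    intro Y
    simp only [hinner]
    refine (Psi_mixed α τ C δ hC hδ0 hδ1 hcos hsin hτ k q (fun i => κ * a Y i)).trans ?_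
    have h1 : ∏ i, |κ * a Y i| = κ ^ (2 * k + 2) * ∏ i, |a Y i| := by
      simp only [abs_mul]
      rw [Finset.prod_mul_distrib, Finset.prod_const, Finset.card_univ, Fintype.card_fin,
        abs_of_nonneg hκ]
    have h2 : ∑ i, (κ * a Y i) ^ (2 * q) = κ ^ (2 * q) * ∑ i, a Y i ^ (2 * q) := by
      rw [Finset.mul_sum]; exact Finset.sum_congr rfl fun i _ => by rw [mul_pow]
    rw [h1, h2]
    have h3 := prod_abs_le (k := k) (a Y)
    have h4 := prod_abs_mul_le (k := k) q (a Y)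
    have hmu := (mu_pos k).le
    have hmu2 := (mu_pos (k + q)).le
    have hC0 : 0 ≤ C := by linarith
    calc cst⁻¹ * (κ ^ (2 * k + 2) * ∏ i, |a Y i|) *
          (δ * (((2 * k + 2 : ℕ) : ℝ) * 2 ^ (2 * k + 2)) * mu k
            + 2 * C ^ (2 * k + 2) * mu (k + q) * (κ ^ (2 * q) * ∑ i, a Y i ^ (2 * q)))
        = cst⁻¹ * κ ^ (2 * k + 2) * (δ * (((2 * k + 2 : ℕ) : ℝ) * 2 ^ (2 * k + 2)) * mu k
            * (∏ i, |a Y i|)
          + 2 * C ^ (2 * k + 2) * mu (k + q) * κ ^ (2 * q)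
            * ((∏ i, |a Y i|) * ∑ i, a Y i ^ (2 * q))) := by ring
      _ ≤ _ := by
          refine mul_le_mul_of_nonneg_left ?_ (by positivity)
          refine add_le_add ?_ ?_
          · exact mul_le_mul_of_nonneg_left h3 (by positivity)
          · exact mul_le_mul_of_nonneg_left h4 (by positivity)
  refine (expect_mono hpt).trans ?_
  rw [← Finset.mul_expect, Finset.expect_add_distrib, ← Finset.mul_expect, ← Finset.mul_expect,
    ← Finset.mul_expect, Finset.expect_sum_comm, Finset.expect_sum_comm]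
  have hm : ∀ r : ℕ, ∑ i, (𝔼 Y : Fin (2 * k + 1) → Fin n → Bool, a Y i ^ (2 * r))
      ≤ ((2 * k + 2 : ℕ) : ℝ) * Kc r ^ (2 * k + 1) := by
    intro r
    calc ∑ i, (𝔼 Y : Fin (2 * k + 1) → Fin n → Bool, a Y i ^ (2 * r))
        ≤ ∑ _i : Fin (2 * k + 2), Kc r ^ (2 * k + 1) := Finset.sum_le_sum fun i _ =>
          moment_Dv w u k e lam hlam he s hs v hv r i
      _ = _ := by rw [Finset.sum_const, Finset.card_univ, Fintype.card_fin, nsmul_eq_mul]
  have h5 := hm (k + 1)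
  have h6 := hm (k + 1 + q)
  have hmu := (mu_pos k).le
  have hmu2 := (mu_pos (k + q)).le
  have hC0 : 0 ≤ C := by linarith
  unfold Er
  refine mul_le_mul_of_nonneg_left ?_ (by positivity)
  refine add_le_add ?_ ?_
  · exact mul_le_mul_of_nonneg_left h5 (by positivity)
  · refine mul_le_mul_of_nonneg_left ?_ (by positivity)
    calc ((2 * k + 2 : ℕ) : ℝ) * ∑ i, (𝔼 Y : Fin (2 * k + 1) → Fin n → Bool,
          a Y i ^ (2 * (k + 1 + q)))
        ≤ ((2 * k + 2 : ℕ) : ℝ) * (((2 * k + 2 : ℕ) : ℝ) * Kc (k + 1 + q) ^ (2 * k + 1)) := by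
          gcongr
      _ = _ := by ring

end Pool.Agent.Helper24.Zono
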