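import Pool.Agent.Helper24.Zono.Pair1
import Pool.Agent.Helper24.Zono.Fun

/-!
# One-dimensional kernels for the extraction of the gradient
-/

open MeasureTheory ProbabilityTheory Finset
open scoped RealInnerProductSpace BigOperators

namespace Pool.Agent.Helper24.Zono

section

variable {J : Type} [Fintype J] (α τ : J → ℝ)

/-- The sine sum. -/
noncomputable def sS (θ : ℝ) : ℝ := ∑ j, α j * Real.sin (τ j * θ)

lemma sS_lipschitz (C : ℝ) (hτ : ∑ j, |α j| * |τ j| ≤ C) (s t : ℝ) :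
    |sS α τ s - sS α τ t| ≤ C * |s - t| := by
  unfold sS
  rw [← Finset.sum_sub_distrib]
  calc |∑ j, (α j * Real.sin (τ j * s) - α j * Real.sin (τ j * t))|
      ≤ ∑ j, |α j * Real.sin (τ j * s) - α j * Real.sin (τ j * t)| :=
        Finset.abs_sum_le_sum_abs _ _
    _ ≤ ∑ j, |α j| * |τ j| * |s - t| := by
        refine Finset.sum_le_sum fun j _ => ?_
        rw [← mul_sub, abs_mul, mul_assoc]
        refine mul_le_mul_of_nonneg_left ?_ (abs_nonneg _)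
        have h := Real.abs_sin_sub_sin_le (τ j * s) (τ j * t)
        rwa [← mul_sub, abs_mul] at h
    _ = (∑ j, |α j| * |τ j|) * |s - t| := by rw [Finset.sum_mul]
    _ ≤ C * |s - t| := by gcongr

lemma abs_sS_le (C : ℝ) (hτ : ∑ j, |α j| * |τ j| ≤ C) (θ : ℝ) : |sS α τ θ| ≤ C * |θ| := by
  have h := sS_lipschitz α τ C hτ θ 0
  have h0 : sS α τ 0 = 0 := by simp [sS]
  rwa [h0, sub_zero, sub_zero] at h

lemma continuous_sS : Continuous (sS α τ) := by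
  unfold sS; fun_prop

lemma sS_error (C δ : ℝ) (hC : 1 ≤ C) (hδ0 : 0 ≤ δ)
    (hsin : ∀ θ : ℝ, |θ| ≤ 1 → |sS α τ θ - θ| ≤ δ * |θ|)
    (hτ : ∑ j, |α j| * |τ j| ≤ C) (r : ℕ) (θ : ℝ) :
    |sS α τ θ - θ| ≤ δ * |θ| + (C + 1) * θ ^ (2 * (r + 1)) := by
  have hp : 0 ≤ θ ^ (2 * (r + 1)) := by rw [pow_mul]; positivity
  by_cases h : |θ| ≤ 1
  · have := hsin θ h
    nlinarith
  · push Not at h
    have h1 : |θ| ≤ θ ^ (2 * (r + 1)) := by
      rw [pow_mul, ← sq_abs, ← pow_mul]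
      exact le_self_pow₀ h.le (by omega)
    calc |sS α τ θ - θ| ≤ |sS α τ θ| + |θ| := abs_sub _ _
      _ ≤ C * |θ| + |θ| := by linarith [abs_sS_le α τ C hτ θ]
      _ = (C + 1) * |θ| := by ring
      _ ≤ (C + 1) * θ ^ (2 * (r + 1)) := by gcongr
      _ ≤ _ := by have : 0 ≤ δ * |θ| := by positivity
                  linarith

/-- Difference functional applied to `Psi`, Fourier form. -/
lemma Psi_diff (hcos : ∀ θ : ℝ, ∑ j, α j * Real.cos (τ j * θ) = 0) (a b : ℝ) :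
    ∑ j, α j * Psi (a + τ j * b)
      = cst⁻¹ * ∫ ω : ℝ, Real.exp (-ω ^ 2 / 2) * (Real.sin (ω * a) * sS α τ (ω * b)) / ω ^ 2 := by
  have hα : ∑ j, α j = 0 := by simpa using hcos 0
  rw [Psi_combination α (fun j => a + τ j * b) hα, ← mul_neg, ← integral_neg]
  congr 1
  refine integral_congr_ae (Filter.Eventually.of_forall fun ω => ?_)
  simp only
  have h1 : ∑ j, α j * Real.cos (ω * (a + τ j * b)) = -(Real.sin (ω * a) * sS α τ (ω * b)) := by
    have h2 : ∀ j, α j * Real.cos (ω * (a + τ j * b))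
        = Real.cos (ω * a) * (α j * Real.cos (τ j * (ω * b)))
          - Real.sin (ω * a) * (α j * Real.sin (τ j * (ω * b))) := by
      intro j
      rw [mul_add, Real.cos_add, show ω * (τ j * b) = τ j * (ω * b) by ring]; ring
    simp only [h2]
    rw [Finset.sum_sub_distrib, ← Finset.mul_sum, ← Finset.mul_sum, hcos (ω * b)]
    unfold sS; ring
  rw [h1]; ring

lemma integrable_diff_kernel (a b : ℝ)
    (C : ℝ) (hτ : ∑ j, |α j| * |τ j| ≤ C) :
    Integrable (fun ω : ℝ => Real.exp (-ω ^ 2 / 2) * (Real.sin (ω * a) * sS α τ (ω * b)) / ω ^ 2) := by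
  have hC0 : 0 ≤ C := le_trans (Finset.sum_nonneg fun j _ => by positivity) hτ
  have hg : Integrable (fun ω : ℝ => C * |a| * |b| * (ω ^ (2 * 0) * Real.exp (-ω ^ 2 / 2))) :=
    (mu_integrable 0).const_mul _
  refine hg.mono' ?_ ?_
  · apply Measurable.aestronglyMeasurable
    have := (continuous_sS α τ).measurable
    fun_prop
  · refine Filter.Eventually.of_forall fun ω => ?_
    rcases eq_or_ne ω 0 with h0 | h0
    · subst h0
      simp
      positivity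
    · have hω2 : (0 : ℝ) < ω ^ 2 := by positivity
      rw [norm_div, norm_mul, Real.norm_of_nonneg (Real.exp_pos _).le, norm_mul,
        Real.norm_of_nonneg hω2.le, Real.norm_eq_abs, Real.norm_eq_abs, div_le_iff₀ hω2]
      have h1 : |Real.sin (ω * a)| ≤ |ω| * |a| := by
        rw [← abs_mul]; exact Real.abs_sin_le_abs
      have h2 : |sS α τ (ω * b)| ≤ C * (|ω| * |b|) := by
        rw [← abs_mul]; exact abs_sS_le α τ C hτ _
      calc Real.exp (-ω ^ 2 / 2) * (|Real.sin (ω * a)| * |sS α τ (ω * b)|)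
          ≤ Real.exp (-ω ^ 2 / 2) * ((|ω| * |a|) * (C * (|ω| * |b|))) := by gcongr
        _ = C * |a| * |b| * (ω ^ (2 * 0) * Real.exp (-ω ^ 2 / 2)) * ω ^ 2 := by
            rw [← sq_abs ω]; ring

/-- First error estimate. -/
lemma diff_error1 (C δ : ℝ) (hC : 1 ≤ C) (hδ0 : 0 ≤ δ)
    (hcos : ∀ θ : ℝ, ∑ j, α j * Real.cos (τ j * θ) = 0)
    (hsin : ∀ θ : ℝ, |θ| ≤ 1 → |sS α τ θ - θ| ≤ δ * |θ|)
    (hτ : ∑ j, |α j| * |τ j| ≤ C) (r : ℕ) (a b : ℝ) :
    |∑ j, α j * Psi (a + τ j * b) - b * dPsi a|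
      ≤ cst⁻¹ * (δ * |a| * |b| * mu 0 + (C + 1) * b ^ (2 * (r + 1)) * mu r) := by
  have hcst : 0 < cst⁻¹ := inv_pos.2 cst_pos
  rw [Psi_diff α τ hcos a b]
  have h1 : b * dPsi a = cst⁻¹ * ∫ ω : ℝ, b * (Real.exp (-ω ^ 2 / 2) * (Real.sin (ω * a) / ω)) := by
    unfold dPsi; rw [integral_const_mul]; ring
  rw [h1, ← mul_sub, ← integral_sub (integrable_diff_kernel α τ a b C hτ)
    ((integrable_dPsi a).const_mul b), abs_mul, abs_of_pos hcst]
  refine mul_le_mul_of_nonneg_left ?_ hcst.le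
  have hg : Integrable (fun ω : ℝ => δ * |a| * |b| * (ω ^ (2 * 0) * Real.exp (-ω ^ 2 / 2))
      + (C + 1) * b ^ (2 * (r + 1)) * (ω ^ (2 * r) * Real.exp (-ω ^ 2 / 2))) :=
    ((mu_integrable 0).const_mul _).add ((mu_integrable r).const_mul _)
  have hae : ∀ᵐ ω : ℝ, ω ≠ 0 := by simp [ae_iff]
  have h2 := norm_integral_le_of_norm_le (f := fun ω : ℝ =>
    Real.exp (-ω ^ 2 / 2) * (Real.sin (ω * a) * sS α τ (ω * b)) / ω ^ 2
      - b * (Real.exp (-ω ^ 2 / 2) * (Real.sin (ω * a) / ω))) hg (by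
    filter_upwards [hae] with ω h0
    have hω2 : (0 : ℝ) < ω ^ 2 := by positivity
    have h3 : Real.exp (-ω ^ 2 / 2) * (Real.sin (ω * a) * sS α τ (ω * b)) / ω ^ 2
      - b * (Real.exp (-ω ^ 2 / 2) * (Real.sin (ω * a) / ω))
      = Real.exp (-ω ^ 2 / 2) * (Real.sin (ω * a) * (sS α τ (ω * b) - ω * b)) / ω ^ 2 := by
      field_simp
    rw [h3, norm_div, norm_mul, Real.norm_of_nonneg (Real.exp_pos _).le, norm_mul,
        Real.norm_of_nonneg hω2.le, Real.norm_eq_abs, Real.norm_eq_abs, div_le_iff₀ hω2]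
    have h4 : |Real.sin (ω * a)| ≤ |ω| * |a| := by
      rw [← abs_mul]; exact Real.abs_sin_le_abs
    have h5 : |Real.sin (ω * a)| ≤ 1 := Real.abs_sin_le_one _
    have h6 := sS_error α τ C δ hC hδ0 hsin hτ r (ω * b)
    have hpow : 0 ≤ (ω * b) ^ (2 * (r + 1)) := by rw [pow_mul]; positivity
    calc Real.exp (-ω ^ 2 / 2) * (|Real.sin (ω * a)| * |sS α τ (ω * b) - ω * b|)
        ≤ Real.exp (-ω ^ 2 / 2) * (|Real.sin (ω * a)| *
          (δ * |ω * b| + (C + 1) * (ω * b) ^ (2 * (r + 1)))) := by gcongr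
      _ = Real.exp (-ω ^ 2 / 2) * (|Real.sin (ω * a)| * (δ * |ω * b|)
          + |Real.sin (ω * a)| * ((C + 1) * (ω * b) ^ (2 * (r + 1)))) := by ring
      _ ≤ Real.exp (-ω ^ 2 / 2) * ((|ω| * |a|) * (δ * |ω * b|)
          + 1 * ((C + 1) * (ω * b) ^ (2 * (r + 1)))) := by gcongr
      _ = (δ * |a| * |b| * (ω ^ (2 * 0) * Real.exp (-ω ^ 2 / 2))
          + (C + 1) * b ^ (2 * (r + 1)) * (ω ^ (2 * r) * Real.exp (-ω ^ 2 / 2))) * ω ^ 2 := by
          rw [abs_mul, mul_pow, show 2 * (r + 1) = 2 * r + 2 by ring, pow_add ω]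
          have : |ω| * |ω| = ω ^ 2 := by rw [← sq, sq_abs]
          linear_combination (Real.exp (-ω ^ 2 / 2) * |a| * δ * |b|) * this)
  rw [Real.norm_eq_abs] at h2
  refine h2.trans (le_of_eq ?_)
  rw [integral_add ((mu_integrable 0).const_mul _) ((mu_integrable r).const_mul _),
    integral_const_mul, integral_const_mul]
  rfl

/-- Second error estimate. -/
lemma diff_error2 (C : ℝ) (hcos : ∀ θ : ℝ, ∑ j, α j * Real.cos (τ j * θ) = 0)
    (hτ : ∑ j, |α j| * |τ j| ≤ C) (a b : ℝ) :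
    |∑ j, α j * Psi (a + τ j * b) - b * dPsi a| ≤ (C + 1) * |b| := by
  have hα : ∑ j, α j = 0 := by simpa using hcos 0
  have h1 : ∑ j, α j * Psi (a + τ j * b) = ∑ j, α j * (Psi (a + τ j * b) - Psi a) := by
    simp only [mul_sub]
    rw [Finset.sum_sub_distrib, ← Finset.sum_mul, hα]; ring
  have h2 : |∑ j, α j * (Psi (a + τ j * b) - Psi a)| ≤ C * |b| := by
    calc |∑ j, α j * (Psi (a + τ j * b) - Psi a)|
        ≤ ∑ j, |α j * (Psi (a + τ j * b) - Psi a)| := Finset.abs_sum_le_sum_abs _ _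
      _ ≤ ∑ j, |α j| * |τ j| * |b| := by
          refine Finset.sum_le_sum fun j _ => ?_
          rw [abs_mul, mul_assoc]
          refine mul_le_mul_of_nonneg_left ?_ (abs_nonneg _)
          have := Psi_lipschitz (a + τ j * b) a
          rwa [add_sub_cancel_left, abs_mul] at this
      _ = (∑ j, |α j| * |τ j|) * |b| := by rw [Finset.sum_mul]
      _ ≤ C * |b| := by gcongr
  have h3 : |b * dPsi a| ≤ |b| := by
    rw [abs_mul]
    have := abs_dPsi_le a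
    nlinarith [abs_nonneg b]
  rw [h1]
  calc |∑ j, α j * (Psi (a + τ j * b) - Psi a) - b * dPsi a|
      ≤ |∑ j, α j * (Psi (a + τ j * b) - Psi a)| + |b * dPsi a| := abs_sub _ _
    _ ≤ C * |b| + |b| := add_le_add h2 h3
    _ = _ := by ring

/-- The odd function `D(θ) = 2 S(θ/2) - S(θ)` vanishing (approximately) on `[-1,1]`. -/
noncomputable def dD (θ : ℝ) : ℝ := 2 * sS α τ (θ / 2) - sS α τ θ

lemma continuous_dD : Continuous (dD α τ) := by
  unfold dD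
  have := continuous_sS α τ
  fun_prop

lemma dD_sq_le (C δ : ℝ) (hC : 1 ≤ C) (hδ0 : 0 ≤ δ)
    (hsin : ∀ θ : ℝ, |θ| ≤ 1 → |sS α τ θ - θ| ≤ δ * |θ|)
    (hτ : ∑ j, |α j| * |τ j| ≤ C) (r : ℕ) (θ : ℝ) :
    dD α τ θ ^ 2 ≤ 4 * δ ^ 2 * θ ^ 2 + 4 * C ^ 2 * θ ^ (2 * (r + 1)) := by
  have hp : 0 ≤ θ ^ (2 * (r + 1)) := by rw [pow_mul]; positivity
  by_cases h : |θ| ≤ 1
  · have h1 := hsin θ h
    have h2 := hsin (θ / 2) (by rw [abs_div, abs_two]; linarith)
    have h3 : |dD α τ θ| ≤ 2 * δ * |θ| := by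
      have h4 : dD α τ θ = 2 * (sS α τ (θ / 2) - θ / 2) - (sS α τ θ - θ) := by
        unfold dD; ring
      rw [h4]
      calc |2 * (sS α τ (θ / 2) - θ / 2) - (sS α τ θ - θ)|
          ≤ |2 * (sS α τ (θ / 2) - θ / 2)| + |sS α τ θ - θ| := abs_sub _ _
        _ ≤ 2 * (δ * |θ / 2|) + δ * |θ| := by
            rw [abs_mul, abs_two]; gcongr
        _ = 2 * δ * |θ| := by rw [abs_div, abs_two]; ring
    have h5 : dD α τ θ ^ 2 ≤ (2 * δ * |θ|) ^ 2 := by
      rw [← sq_abs (dD α τ θ)]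
      exact pow_le_pow_left₀ (abs_nonneg _) h3 2
    have h6 : (2 * δ * |θ|) ^ 2 = 4 * δ ^ 2 * θ ^ 2 := by rw [mul_pow, sq_abs]; ring
    have h7 : 0 ≤ 4 * C ^ 2 * θ ^ (2 * (r + 1)) := by positivity
    linarith
  · push Not at h
    have h1 : θ ^ 2 ≤ θ ^ (2 * (r + 1)) := by
      rw [pow_mul]
      exact le_self_pow₀ (by rw [← sq_abs]; exact one_le_pow₀ h.le) (by omega)
    have h3 : |dD α τ θ| ≤ 2 * C * |θ| := by
      unfold dD
      have h4 := abs_sS_le α τ C hτ (θ / 2)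
      have h5 := abs_sS_le α τ C hτ θ
      calc |2 * sS α τ (θ / 2) - sS α τ θ| ≤ |2 * sS α τ (θ / 2)| + |sS α τ θ| := abs_sub _ _
        _ ≤ 2 * (C * |θ / 2|) + C * |θ| := by rw [abs_mul, abs_two]; gcongr
        _ = 2 * C * |θ| := by rw [abs_div, abs_two]; ring
    have h5 : dD α τ θ ^ 2 ≤ (2 * C * |θ|) ^ 2 := by
      rw [← sq_abs (dD α τ θ)]
      exact pow_le_pow_left₀ (abs_nonneg _) h3 2
    have h6 : (2 * C * |θ|) ^ 2 = 4 * C ^ 2 * θ ^ 2 := by rw [mul_pow, sq_abs]; ring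
    have h7 : 0 ≤ 4 * δ ^ 2 * θ ^ 2 := by positivity
    have h8 : 4 * C ^ 2 * θ ^ 2 ≤ 4 * C ^ 2 * θ ^ (2 * (r + 1)) := by gcongr
    linarith

lemma dD_odd (θ : ℝ) : dD α τ (-θ) = - dD α τ θ := by
  unfold dD sS
  have h1 : ∀ j, α j * Real.sin (τ j * (-θ / 2)) = -(α j * Real.sin (τ j * (θ / 2))) := by
    intro j
    rw [show τ j * (-θ / 2) = -(τ j * (θ / 2)) by ring, Real.sin_neg]; ring
  have h2 : ∀ j, α j * Real.sin (τ j * -θ) = -(α j * Real.sin (τ j * θ)) := by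
    intro j
    rw [show τ j * -θ = -(τ j * θ) by ring, Real.sin_neg]; ring
  simp only [h1, h2, Finset.sum_neg_distrib]; ring

lemma dD_lower (C δ : ℝ) (hC : 1 ≤ C) (hδ : δ ≤ 1 / 2)
    (hsin : ∀ θ : ℝ, |θ| ≤ 1 → |sS α τ θ - θ| ≤ δ * |θ|)
    (hτ : ∑ j, |α j| * |τ j| ≤ C) (h2 : sS α τ 2 = 0) (θ : ℝ)
    (hθ1 : 2 ≤ θ) (hθ2 : θ ≤ 2 + 1 / (4 * C)) : 1 / 4 ≤ dD α τ θ ^ 2 := by
  have hC0 : 0 < C := by linarith
  have h3 : 1 ≤ dD α τ 2 := by
    unfold dD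
    rw [h2]
    have := hsin 1 (by norm_num)
    rw [abs_one, mul_one, abs_le] at this
    norm_num
    linarith [this.1]
  have h4 : |dD α τ θ - dD α τ 2| ≤ 2 * C * |θ - 2| := by
    have h5 := sS_lipschitz α τ C hτ (θ / 2) (2 / 2)
    have h6 := sS_lipschitz α τ C hτ θ 2
    have h7 : dD α τ θ - dD α τ 2 = 2 * (sS α τ (θ / 2) - sS α τ (2 / 2))
        - (sS α τ θ - sS α τ 2) := by unfold dD; ring
    rw [h7]
    calc _ ≤ |2 * (sS α τ (θ / 2) - sS α τ (2 / 2))| + |sS α τ θ - sS α τ 2| := abs_sub _ _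
      _ ≤ 2 * (C * |θ / 2 - 2 / 2|) + C * |θ - 2| := by rw [abs_mul, abs_two]; gcongr
      _ = 2 * C * |θ - 2| := by
          rw [← sub_div, abs_div, abs_two]; ring
  have h5 : 2 * C * |θ - 2| ≤ 1 / 2 := by
    rw [abs_of_nonneg (by linarith)]
    have : θ - 2 ≤ 1 / (4 * C) := by linarith
    calc 2 * C * (θ - 2) ≤ 2 * C * (1 / (4 * C)) := by gcongr
      _ = 1 / 2 := by field_simp; norm_num
  have h6 : 1 / 2 ≤ dD α τ θ := by
    have := (abs_le.1 (h4.trans h5)).1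
    linarith
  nlinarith

/-- The even test function. -/
noncomputable def tT (b : ℝ) : ℝ :=
  cst⁻¹ * ∫ ω : ℝ, Real.exp (-ω ^ 2 / 2) * dD α τ (ω * b) ^ 2 / ω ^ 2

lemma integrable_tT (C : ℝ) (hτ : ∑ j, |α j| * |τ j| ≤ C) (b : ℝ) :
    Integrable (fun ω : ℝ => Real.exp (-ω ^ 2 / 2) * dD α τ (ω * b) ^ 2 / ω ^ 2) := by
  have hC0 : 0 ≤ C := le_trans (Finset.sum_nonneg fun j _ => by positivity) hτ
  have hg : Integrable (fun ω : ℝ => 4 * C ^ 2 * b ^ 2 * (ω ^ (2 * 0) * Real.exp (-ω ^ 2 / 2))) :=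
    (mu_integrable 0).const_mul _
  have hD : ∀ θ : ℝ, dD α τ θ ^ 2 ≤ 4 * C ^ 2 * θ ^ 2 := by
    intro θ
    have h3 : |dD α τ θ| ≤ 2 * C * |θ| := by
      unfold dD
      have h4 := abs_sS_le α τ C hτ (θ / 2)
      have h5 := abs_sS_le α τ C hτ θ
      calc |2 * sS α τ (θ / 2) - sS α τ θ| ≤ |2 * sS α τ (θ / 2)| + |sS α τ θ| := abs_sub _ _
        _ ≤ 2 * (C * |θ / 2|) + C * |θ| := by rw [abs_mul, abs_two]; gcongr
        _ = 2 * C * |θ| := by rw [abs_div, abs_two]; ring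
    have h5 : dD α τ θ ^ 2 ≤ (2 * C * |θ|) ^ 2 := by
      rw [← sq_abs (dD α τ θ)]
      exact pow_le_pow_left₀ (abs_nonneg _) h3 2
    have h6 : (2 * C * |θ|) ^ 2 = 4 * C ^ 2 * θ ^ 2 := by rw [mul_pow, sq_abs]; ring
    linarith
  refine hg.mono' ?_ ?_
  · apply Measurable.aestronglyMeasurable
    have := (continuous_dD α τ).measurable
    fun_prop
  · refine Filter.Eventually.of_forall fun ω => ?_
    rcases eq_or_ne ω 0 with h0 | h0
    · subst h0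
      simp
      positivity
    · have hω2 : (0 : ℝ) < ω ^ 2 := by positivity
      rw [Real.norm_of_nonneg (by positivity), div_le_iff₀ hω2]
      calc Real.exp (-ω ^ 2 / 2) * dD α τ (ω * b) ^ 2
          ≤ Real.exp (-ω ^ 2 / 2) * (4 * C ^ 2 * (ω * b) ^ 2) := by gcongr; exact hD _
        _ = _ := by ring

lemma tT_nonneg (b : ℝ) : 0 ≤ tT α τ b := by
  have hcst : 0 < cst⁻¹ := inv_pos.2 cst_pos
  refine mul_nonneg hcst.le (integral_nonneg fun ω => ?_)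
  positivity

lemma tT_upper (C δ : ℝ) (hC : 1 ≤ C) (hδ0 : 0 ≤ δ)
    (hsin : ∀ θ : ℝ, |θ| ≤ 1 → |sS α τ θ - θ| ≤ δ * |θ|)
    (hτ : ∑ j, |α j| * |τ j| ≤ C) (r : ℕ) (b : ℝ) :
    tT α τ b ≤ cst⁻¹ * (4 * δ ^ 2 * b ^ 2 * mu 0 + 4 * C ^ 2 * b ^ (2 * (r + 1)) * mu r) := by
  have hcst : 0 < cst⁻¹ := inv_pos.2 cst_pos
  refine mul_le_mul_of_nonneg_left ?_ hcst.le
  have hg : Integrable (fun ω : ℝ => 4 * δ ^ 2 * b ^ 2 * (ω ^ (2 * 0) * Real.exp (-ω ^ 2 / 2))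
      + 4 * C ^ 2 * b ^ (2 * (r + 1)) * (ω ^ (2 * r) * Real.exp (-ω ^ 2 / 2))) :=
    ((mu_integrable 0).const_mul _).add ((mu_integrable r).const_mul _)
  have hae : ∀ᵐ ω : ℝ, ω ≠ 0 := by simp [ae_iff]
  calc ∫ ω : ℝ, Real.exp (-ω ^ 2 / 2) * dD α τ (ω * b) ^ 2 / ω ^ 2
      ≤ ∫ ω : ℝ, (4 * δ ^ 2 * b ^ 2 * (ω ^ (2 * 0) * Real.exp (-ω ^ 2 / 2))
      + 4 * C ^ 2 * b ^ (2 * (r + 1)) * (ω ^ (2 * r) * Real.exp (-ω ^ 2 / 2))) := by
        refine integral_mono_ae (integrable_tT α τ C hτ b) hg ?_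
        filter_upwards [hae] with ω h0
        have hω2 : (0 : ℝ) < ω ^ 2 := by positivity
        rw [div_le_iff₀ hω2]
        have h1 := dD_sq_le α τ C δ hC hδ0 hsin hτ r (ω * b)
        calc Real.exp (-ω ^ 2 / 2) * dD α τ (ω * b) ^ 2
            ≤ Real.exp (-ω ^ 2 / 2) * (4 * δ ^ 2 * (ω * b) ^ 2
              + 4 * C ^ 2 * (ω * b) ^ (2 * (r + 1))) := by gcongr
          _ = _ := by
              rw [mul_pow, mul_pow, show 2 * (r + 1) = 2 * r + 2 by ring, pow_add ω]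
              ring
    _ = _ := by
        rw [integral_add ((mu_integrable 0).const_mul _) ((mu_integrable r).const_mul _),
          integral_const_mul, integral_const_mul]
        rfl

/-- Linear lower bound for the test function. -/
lemma tT_lower (C δ : ℝ) (hC : 1 ≤ C) (hδ : δ ≤ 1 / 2)
    (hsin : ∀ θ : ℝ, |θ| ≤ 1 → |sS α τ θ - θ| ≤ δ * |θ|)
    (hτ : ∑ j, |α j| * |τ j| ≤ C) (h2 : sS α τ 2 = 0) (b : ℝ) (hb : 1 ≤ |b|) :
    cst⁻¹ * (Real.exp (-9 / 2) / (144 * C)) * |b| ≤ tT α τ b := by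
  have hC0 : 0 < C := by linarith
  have hcst : 0 < cst⁻¹ := inv_pos.2 cst_pos
  have hb0 : 0 < |b| := by linarith
  unfold tT
  rw [mul_assoc]
  refine mul_le_mul_of_nonneg_left ?_ hcst.le
  have habs : ∀ ω : ℝ, Real.exp (-ω ^ 2 / 2) * dD α τ (ω * b) ^ 2 / ω ^ 2
      = Real.exp (-ω ^ 2 / 2) * dD α τ (ω * |b|) ^ 2 / ω ^ 2 := by
    intro ω
    rcases abs_choice b with h | h
    · rw [h]
    · rw [h, mul_neg, dD_odd, neg_sq]
  simp only [habs]
  have hint : Integrable (fun ω : ℝ => Real.exp (-ω ^ 2 / 2) * dD α τ (ω * |b|) ^ 2 / ω ^ 2) :=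
    integrable_tT α τ C hτ |b|
  set I : Set ℝ := Set.Icc (2 / |b|) ((2 + 1 / (4 * C)) / |b|) with hI
  have hle : 2 / |b| ≤ (2 + 1 / (4 * C)) / |b| := by
    gcongr
    have : 0 < 1 / (4 * C) := by positivity
    linarith
  have h4C : 1 / (4 * C) ≤ 1 := by
    rw [div_le_one (by positivity)]; linarith
  calc Real.exp (-9 / 2) / (144 * C) * |b|
      = (((2 + 1 / (4 * C)) / |b|) - 2 / |b|) * (Real.exp (-9 / 2) * (1 / 4) * (|b| ^ 2 / 9)) := by
        field_simp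
        ring
    _ = ∫ ω in I, Real.exp (-9 / 2) * (1 / 4) * (|b| ^ 2 / 9) := by
        rw [setIntegral_const, hI, Real.volume_real_Icc_of_le hle, smul_eq_mul]
    _ ≤ ∫ ω in I, Real.exp (-ω ^ 2 / 2) * dD α τ (ω * |b|) ^ 2 / ω ^ 2 := by
        refine setIntegral_mono_on (by rw [hI]; exact continuous_const.integrableOn_Icc) hint.integrableOn measurableSet_Icc ?_
        intro ω hω
        have h3 : 2 ≤ ω * |b| := by
          have := hω.1; rwa [div_le_iff₀ hb0] at this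
        have h4 : ω * |b| ≤ 2 + 1 / (4 * C) := by
          have := hω.2; rwa [le_div_iff₀ hb0] at this
        have hωpos : 0 < ω := by
          by_contra hneg
          push Not at hneg
          nlinarith
        have h5 : ω * |b| ≤ 3 := by linarith
        have hω3 : ω ≤ 3 := by nlinarith
        have h6 := dD_lower α τ C δ hC hδ hsin hτ h2 (ω * |b|) h3 h4
        have h7 : Real.exp (-9 / 2) ≤ Real.exp (-ω ^ 2 / 2) := by
          apply Real.exp_le_exp.2; nlinarith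
        have h8 : |b| ^ 2 / 9 ≤ 1 / ω ^ 2 := by
          rw [div_le_div_iff₀ (by norm_num) (by positivity)]
          have : (ω * |b|) ^ 2 ≤ 3 ^ 2 := pow_le_pow_left₀ (by positivity) h5 2
          nlinarith
        calc Real.exp (-9 / 2) * (1 / 4) * (|b| ^ 2 / 9)
            ≤ Real.exp (-ω ^ 2 / 2) * dD α τ (ω * |b|) ^ 2 * (1 / ω ^ 2) := by
              gcongr
          _ = _ := by ring
    _ ≤ ∫ ω, Real.exp (-ω ^ 2 / 2) * dD α τ (ω * |b|) ^ 2 / ω ^ 2 :=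
        setIntegral_le_integral hint (Filter.Eventually.of_forall fun ω => by positivity)

end

end Pool.Agent.Helper24.Zono
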