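import Pool.Agent.Helper24.Zono.Smooth

/-!
# The isotropic part
-/

open Finset MeasureTheory ProbabilityTheory
open scoped BigOperators RealInnerProductSpace

namespace Pool.Agent.Helper24.Zono

variable {n N : ℕ}

lemma norm_hat_le (z : EuclideanSpace ℝ (Fin n)) : ‖‖z‖⁻¹ • z‖ ≤ 1 := by
  rcases eq_or_ne z 0 with h | h
  · simp [h]
  · rw [norm_smul, norm_inv, norm_norm, inv_mul_cancel₀ (norm_ne_zero_iff.2 h)]

lemma measurable_hat : Measurable (fun z : EuclideanSpace ℝ (Fin n) => ‖z‖⁻¹ • z) :=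
  (measurable_norm.inv).smul measurable_id

lemma integrable_norm' : Integrable (fun z : EuclideanSpace ℝ (Fin n) => ‖z‖) (stdGaussian _) := by
  simpa using integrable_norm_add (0 : EuclideanSpace ℝ (Fin n))

/-- Any measurable function bounded on the sphere gives an integrable function. -/
lemma integrable_norm_mul (F : EuclideanSpace ℝ (Fin n) → ℝ) (hF : Measurable F) (B : ℝ)
    (hB : ∀ v, ‖v‖ ≤ 1 → |F v| ≤ B) :
    Integrable (fun z : EuclideanSpace ℝ (Fin n) => ‖z‖ * F (‖z‖⁻¹ • z)) (stdGaussian _) := by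
  refine Integrable.mono' (integrable_norm'.const_mul B) ?_ ?_
  · exact (measurable_norm.mul (hF.comp measurable_hat)).aestronglyMeasurable
  · refine Filter.Eventually.of_forall fun z => ?_
    rw [norm_mul, norm_norm, Real.norm_eq_abs, mul_comm]
    exact mul_le_mul_of_nonneg_right (hB _ (norm_hat_le z)) (norm_nonneg _)

lemma integral_norm_le' : ∫ z : EuclideanSpace ℝ (Fin n), ‖z‖ ∂(stdGaussian _) ≤ Real.sqrt n := by
  have := integral_norm_le (E := EuclideanSpace ℝ (Fin n))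
  rwa [finrank_euclideanSpace_fin] at this

lemma integrable_pow (u : EuclideanSpace ℝ (Fin n)) (hu : ‖u‖ ≤ 1) (m : ℕ) :
    Integrable (fun z : EuclideanSpace ℝ (Fin n) => ‖z‖ * |⟪‖z‖⁻¹ • z, u⟫| ^ m)
      (stdGaussian _) := by
  refine integrable_norm_mul (fun v => |⟪v, u⟫| ^ m) ?_ 1 ?_
  · exact (by fun_prop : Continuous fun v : EuclideanSpace ℝ (Fin n) => |⟪v, u⟫| ^ m).measurable
  · intro v hv
    rw [abs_pow, abs_abs]
    refine pow_le_one₀ (abs_nonneg _) ((abs_real_inner_le_norm _ _).trans ?_)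
    exact mul_le_one₀ hv (norm_nonneg _) hu

/-- The angular moments are small. -/
theorem angular_moment (hn : 0 < n) (k : ℕ) (u : EuclideanSpace ℝ (Fin n)) (hu : ‖u‖ = 1) :
    ∫ z, ‖z‖ * |⟪‖z‖⁻¹ • z, u⟫| ^ (2 * (k + 1)) ∂(stdGaussian (EuclideanSpace ℝ (Fin n)))
      ≤ Kc (k + 1) * ((n : ℝ) ^ (k + 1))⁻¹ * Real.sqrt n := by
  have hnR : (0 : ℝ) < n := by exact_mod_cast hn
  have hsn : 0 < Real.sqrt n := Real.sqrt_pos.2 hnR
  set e := EuclideanSpace.basisFun (Fin n) ℝ with he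
  set vs : (Fin n → Bool) → EuclideanSpace ℝ (Fin n) :=
    fun s => (Real.sqrt n)⁻¹ • rv e univ s with hvs
  have hvs1 : ∀ s, ‖vs s‖ = 1 := by
    intro s
    simp only [hvs]
    rw [norm_smul, norm_rv, Finset.card_univ, Fintype.card_fin, Real.norm_of_nonneg (by positivity),
      inv_mul_cancel₀ hsn.ne']
  have h1 : ∫ z, ‖z‖ * |⟪‖z‖⁻¹ • z, u⟫| ^ (2 * (k + 1)) ∂(stdGaussian (EuclideanSpace ℝ (Fin n)))
      = 𝔼 s : Fin n → Bool, ∫ z, ‖z‖ * |⟪‖z‖⁻¹ • z, vs s⟫| ^ (2 * (k + 1))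
        ∂(stdGaussian (EuclideanSpace ℝ (Fin n))) := by
    have h2 : ∀ s, ∫ z, ‖z‖ * |⟪‖z‖⁻¹ • z, vs s⟫| ^ (2 * (k + 1))
        ∂(stdGaussian (EuclideanSpace ℝ (Fin n)))
        = ∫ z, ‖z‖ * |⟪‖z‖⁻¹ • z, u⟫| ^ (2 * (k + 1))
          ∂(stdGaussian (EuclideanSpace ℝ (Fin n))) := fun s =>
      integral_norm_mul_pow_eq _ _ _ (hvs1 s) hu
    simp only [h2]
    rw [Fintype.expect_const]
  have h3 : (𝔼 s : Fin n → Bool, ∫ z, ‖z‖ * |⟪‖z‖⁻¹ • z, vs s⟫| ^ (2 * (k + 1))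
        ∂(stdGaussian (EuclideanSpace ℝ (Fin n))))
      = ∫ z, 𝔼 s : Fin n → Bool, ‖z‖ * |⟪‖z‖⁻¹ • z, vs s⟫| ^ (2 * (k + 1))
        ∂(stdGaussian (EuclideanSpace ℝ (Fin n))) := by
    simp only [Fintype.expect_eq_sum_div_card]
    rw [integral_div, integral_finsetSum]
    exact fun s _ => integrable_pow _ (hvs1 s).le _
  have h4 : ∀ z : EuclideanSpace ℝ (Fin n),
      (𝔼 s : Fin n → Bool, ‖z‖ * |⟪‖z‖⁻¹ • z, vs s⟫| ^ (2 * (k + 1)))
        ≤ (Kc (k + 1) * ((n : ℝ) ^ (k + 1))⁻¹) * ‖z‖ := by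
    intro z
    rw [← Finset.mul_expect, mul_comm ‖z‖]
    refine mul_le_mul_of_nonneg_right ?_ (norm_nonneg _)
    have h5 : ∀ s : Fin n → Bool, |⟪‖z‖⁻¹ • z, vs s⟫| ^ (2 * (k + 1))
        = ((n : ℝ) ^ (k + 1))⁻¹ * (∑ a, sg (s a) * ⟪e a, ‖z‖⁻¹ • z⟫) ^ (2 * (k + 1)) := by
      intro s
      have h6 : ⟪‖z‖⁻¹ • z, vs s⟫ = (Real.sqrt n)⁻¹ * ∑ a, sg (s a) * ⟪e a, ‖z‖⁻¹ • z⟫ := by
        simp only [hvs]
        rw [inner_smul_right, real_inner_comm, inner_rv]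
      rw [h6, pow_mul, sq_abs, mul_pow, mul_pow, ← pow_mul (∑ a, sg (s a) * ⟪e a, ‖z‖⁻¹ • z⟫)]
      congr 1
      rw [inv_pow, Real.sq_sqrt hnR.le, inv_pow]
    simp only [h5]
    rw [← Finset.mul_expect, mul_comm (Kc (k + 1))]
    refine mul_le_mul_of_nonneg_left ?_ (by positivity)
    refine (khintchine (fun a => ⟪e a, ‖z‖⁻¹ • z⟫) (k + 1)).trans ?_
    rw [← norm_sq_eq_sum e]
    have h7 : (‖‖z‖⁻¹ • z‖ ^ 2) ^ (k + 1) ≤ 1 :=
      pow_le_one₀ (sq_nonneg _) (pow_le_one₀ (norm_nonneg _) (norm_hat_le z))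
    nlinarith [Kc_pos (k + 1)]
  rw [h1, h3]
  calc ∫ z, 𝔼 s : Fin n → Bool, ‖z‖ * |⟪‖z‖⁻¹ • z, vs s⟫| ^ (2 * (k + 1))
        ∂(stdGaussian (EuclideanSpace ℝ (Fin n)))
      ≤ ∫ z : EuclideanSpace ℝ (Fin n), (Kc (k + 1) * ((n : ℝ) ^ (k + 1))⁻¹) * ‖z‖
        ∂(stdGaussian (EuclideanSpace ℝ (Fin n))) := by
        refine integral_mono ?_ (integrable_norm'.const_mul _) h4
        simp only [Fintype.expect_eq_sum_div_card]
        exact (integrable_finsetSum _ fun s _ => integrable_pow _ (hvs1 s).le _).div_const _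
    _ = (Kc (k + 1) * ((n : ℝ) ^ (k + 1))⁻¹) * ∫ z : EuclideanSpace ℝ (Fin n), ‖z‖
        ∂(stdGaussian (EuclideanSpace ℝ (Fin n))) := integral_const_mul _ _
    _ ≤ _ := by
        refine mul_le_mul_of_nonneg_left integral_norm_le' ?_
        have := Kc_pos (k + 1)
        positivity

lemma mul_pow_le_add (k : ℕ) (a b : ℝ) (ha : 0 ≤ a) (hb : 0 ≤ b) :
    a * b ^ (2 * k + 1) ≤ a ^ (2 * (k + 1)) + b ^ (2 * (k + 1)) := by
  have h1 : 2 * (k + 1) = (2 * k + 1) + 1 := by ring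
  rcases le_total a b with h | h
  · calc a * b ^ (2 * k + 1) ≤ b * b ^ (2 * k + 1) := by gcongr
      _ = b ^ (2 * (k + 1)) := by rw [h1, pow_succ]; ring
      _ ≤ _ := by have : 0 ≤ a ^ (2 * (k + 1)) := by positivity
                  linarith
  · calc a * b ^ (2 * k + 1) ≤ a * a ^ (2 * k + 1) := by gcongr
      _ = a ^ (2 * (k + 1)) := by rw [h1, pow_succ]; ring
      _ ≤ _ := by have : 0 ≤ b ^ (2 * (k + 1)) := by positivity
                  linarith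

theorem iso_bound (hn : 0 < n) (k : ℕ) (w : Fin N → ℝ) (hw : ∀ j, 0 ≤ w j)
    (u : Fin N → EuclideanSpace ℝ (Fin n)) (hu : ∀ j, w j = 0 ∨ ‖u j‖ = 1)
    (e : OrthonormalBasis (Fin n) ℝ (EuclideanSpace ℝ (Fin n))) (lam : Fin n → ℝ)
    (hlam : ∀ a, 0 ≤ lam a) (s : ℝ) (hs : 0 < s) :
    |∫ z, ‖z‖ * Qv w u k e lam s (‖z‖⁻¹ • z) ∂(stdGaussian (EuclideanSpace ℝ (Fin n)))|
      ≤ (∑ j, w j) * (s⁻¹ * (2 * (Kc (k + 1) * ((n : ℝ) ^ (k + 1))⁻¹ * Real.sqrt n))) := by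
  set Jb : ℝ := Kc (k + 1) * ((n : ℝ) ^ (k + 1))⁻¹ * Real.sqrt n with hJb
  have hJb0 : 0 ≤ Jb := by
    have := Kc_pos (k + 1)
    positivity
  -- pointwise for one index
  have hl : ∀ l, w l ≠ 0 → ∀ z : EuclideanSpace ℝ (Fin n),
      |‖z‖ * (w l * (⟪u l, gop e lam s (‖z‖⁻¹ • z)⟫ * ⟪u l, ‖z‖⁻¹ • z⟫ ^ (2 * k + 1)))|
      ≤ w l * s⁻¹ * (‖z‖ * |⟪‖z‖⁻¹ • z, (‖gop e lam s (u l)‖)⁻¹ • gop e lam s (u l)⟫| ^ (2 * (k + 1))
        + ‖z‖ * |⟪‖z‖⁻¹ • z, u l⟫| ^ (2 * (k + 1))) := by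
    intro l hwl z
    have hul : ‖u l‖ = 1 := (hu l).resolve_left hwl
    set zh := ‖z‖⁻¹ • z with hzh
    set g := gop e lam s (u l) with hg
    have hgn : ‖g‖ ≤ s⁻¹ := by
      have := norm_gop_le e lam hlam s hs (u l)
      rwa [hul, mul_one] at this
    have h1 : |⟪u l, gop e lam s zh⟫| ≤ s⁻¹ * |⟪zh, ‖g‖⁻¹ • g⟫| := by
      rw [inner_gop_comm]
      rcases eq_or_ne g 0 with h0 | h0
      · rw [← hg, h0]; simp
      · have h2 : ⟪zh, g⟫ = ‖g‖ * ⟪zh, ‖g‖⁻¹ • g⟫ := by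
          rw [inner_smul_right, ← mul_assoc, mul_inv_cancel₀ (norm_ne_zero_iff.2 h0), one_mul]
        rw [← hg, h2, abs_mul, abs_of_nonneg (norm_nonneg g)]
        exact mul_le_mul_of_nonneg_right hgn (abs_nonneg _)
    have h3 : |⟪u l, zh⟫| = |⟪zh, u l⟫| := by rw [real_inner_comm]
    rw [abs_mul, abs_of_nonneg (norm_nonneg z), abs_mul, abs_of_nonneg (hw l), abs_mul, abs_pow, h3]
    calc ‖z‖ * (w l * (|⟪u l, gop e lam s zh⟫| * |⟪zh, u l⟫| ^ (2 * k + 1)))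
        ≤ ‖z‖ * (w l * ((s⁻¹ * |⟪zh, ‖g‖⁻¹ • g⟫|) * |⟪zh, u l⟫| ^ (2 * k + 1))) := by
          have := hw l
          gcongr
      _ = ‖z‖ * (w l * s⁻¹) * (|⟪zh, ‖g‖⁻¹ • g⟫| * |⟪zh, u l⟫| ^ (2 * k + 1)) := by ring
      _ ≤ ‖z‖ * (w l * s⁻¹) * (|⟪zh, ‖g‖⁻¹ • g⟫| ^ (2 * (k + 1)) + |⟪zh, u l⟫| ^ (2 * (k + 1))) := by
          refine mul_le_mul_of_nonneg_left (mul_pow_le_add k _ _ (abs_nonneg _) (abs_nonneg _)) ?_
          have := hw l
          positivity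
      _ = _ := by ring
  have hgh : ∀ l, ‖(‖gop e lam s (u l)‖)⁻¹ • gop e lam s (u l)‖ ≤ 1 := fun l => norm_hat_le _
  -- moment bound for vectors of norm at most one of the form `ĝ`
  have hJ : ∀ v : EuclideanSpace ℝ (Fin n), ∫ z, ‖z‖ * |⟪‖z‖⁻¹ • z, ‖v‖⁻¹ • v⟫| ^ (2 * (k + 1))
      ∂(stdGaussian (EuclideanSpace ℝ (Fin n))) ≤ Jb := by
    intro v
    rcases eq_or_ne v 0 with h0 | h0
    · rw [h0]; simp; exact hJb0
    · refine angular_moment hn k _ ?_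
      rw [norm_smul, norm_inv, norm_norm, inv_mul_cancel₀ (norm_ne_zero_iff.2 h0)]
  have hterm : ∀ l, |∫ z, ‖z‖ * (w l * (⟪u l, gop e lam s (‖z‖⁻¹ • z)⟫
      * ⟪u l, ‖z‖⁻¹ • z⟫ ^ (2 * k + 1))) ∂(stdGaussian (EuclideanSpace ℝ (Fin n)))|
      ≤ w l * (s⁻¹ * (2 * Jb)) := by
    intro l
    by_cases hwl : w l = 0
    · simp [hwl]
    · have hul : ‖u l‖ = 1 := (hu l).resolve_left hwl
      have hI1 := integrable_pow (n := n) ((‖gop e lam s (u l)‖)⁻¹ • gop e lam s (u l)) (hgh l)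
        (2 * (k + 1))
      have hI2 := integrable_pow (n := n) (u l) hul.le (2 * (k + 1))
      have hI3 : Integrable (fun z : EuclideanSpace ℝ (Fin n) => w l * s⁻¹ *
          (‖z‖ * |⟪‖z‖⁻¹ • z, (‖gop e lam s (u l)‖)⁻¹ • gop e lam s (u l)⟫| ^ (2 * (k + 1))
            + ‖z‖ * |⟪‖z‖⁻¹ • z, u l⟫| ^ (2 * (k + 1)))) (stdGaussian _) :=
        (hI1.add hI2).const_mul (w l * s⁻¹)
      have h1 := norm_integral_le_of_norm_le hI3
        (Filter.Eventually.of_forall fun z => by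
          rw [Real.norm_eq_abs]; exact hl l hwl z)
      rw [Real.norm_eq_abs] at h1
      refine h1.trans ?_
      rw [integral_const_mul, integral_add hI1 hI2]
      have h2 := hJ (gop e lam s (u l))
      have h4 := angular_moment hn k (u l) hul
      have h3 : 0 ≤ w l * s⁻¹ := by have := hw l; positivity
      calc _ ≤ w l * s⁻¹ * (Jb + Jb) := mul_le_mul_of_nonneg_left (add_le_add h2 h4) h3
        _ = w l * (s⁻¹ * (2 * Jb)) := by ring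
  have hQint : ∀ l, Integrable (fun z : EuclideanSpace ℝ (Fin n) =>
      ‖z‖ * (w l * (⟪u l, gop e lam s (‖z‖⁻¹ • z)⟫ * ⟪u l, ‖z‖⁻¹ • z⟫ ^ (2 * k + 1))))
      (stdGaussian _) := by
    intro l
    by_cases hwl : w l = 0
    · simp [hwl]
    · have hul : ‖u l‖ = 1 := (hu l).resolve_left hwl
      have hI1 := integrable_pow (n := n) ((‖gop e lam s (u l)‖)⁻¹ • gop e lam s (u l)) (hgh l)
        (2 * (k + 1))
      have hI2 := integrable_pow (n := n) (u l) hul.le (2 * (k + 1))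
      refine Integrable.mono' ((hI1.add hI2).const_mul (w l * s⁻¹)) ?_
        (Filter.Eventually.of_forall fun z => by rw [Real.norm_eq_abs]; exact hl l hwl z)
      apply Measurable.aestronglyMeasurable
      have hm : Measurable (fun v : EuclideanSpace ℝ (Fin n) =>
          w l * (⟪u l, gop e lam s v⟫ * ⟪u l, v⟫ ^ (2 * k + 1))) := by
        simp only [inner_gop_comm e lam s _ (u l)]
        exact (by fun_prop : Continuous fun v : EuclideanSpace ℝ (Fin n) =>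
          w l * (⟪v, gop e lam s (u l)⟫ * ⟪u l, v⟫ ^ (2 * k + 1))).measurable
      exact measurable_norm.mul (hm.comp measurable_hat)
  have hsum : ∫ z, ‖z‖ * Qv w u k e lam s (‖z‖⁻¹ • z) ∂(stdGaussian (EuclideanSpace ℝ (Fin n)))
      = ∑ l, ∫ z, ‖z‖ * (w l * (⟪u l, gop e lam s (‖z‖⁻¹ • z)⟫
      * ⟪u l, ‖z‖⁻¹ • z⟫ ^ (2 * k + 1))) ∂(stdGaussian (EuclideanSpace ℝ (Fin n))) := by
    rw [← integral_finsetSum _ (fun l _ => hQint l)]
    refine integral_congr_ae (Filter.Eventually.of_forall fun z => ?_)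
    simp only [Qv]
    rw [Finset.mul_sum]
  rw [hsum]
  calc _ ≤ ∑ l, |∫ z, ‖z‖ * (w l * (⟪u l, gop e lam s (‖z‖⁻¹ • z)⟫
      * ⟪u l, ‖z‖⁻¹ • z⟫ ^ (2 * k + 1))) ∂(stdGaussian (EuclideanSpace ℝ (Fin n)))| :=
        Finset.abs_sum_le_sum_abs _ _
    _ ≤ ∑ l, w l * (s⁻¹ * (2 * Jb)) := Finset.sum_le_sum fun l _ => hterm l
    _ = _ := by rw [Finset.sum_mul]

end Pool.Agent.Helper24.Zono
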