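import Pool.Agent.Helper24.Zono.Grad1
import Pool.Agent.Helper24.Zono.Iso

/-!
# Extraction of the gradient
-/

open Finset MeasureTheory ProbabilityTheory
open scoped BigOperators RealInnerProductSpace Nat

namespace Pool.Agent.Helper24.Zono

/-- Khintchine inequality with a constant of the right order. -/
lemma khintchine_sharp {ι : Type*} [Fintype ι] [DecidableEq ι] (c : ι → ℝ) (q : ℕ) (hq : 1 ≤ q) :
    (𝔼 s : ι → Bool, (∑ a, sg (s a) * c a) ^ (2 * q))
      ≤ 2 * (6 * (q : ℝ)) ^ q * (∑ a, c a ^ 2) ^ q := by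
  set S : ℝ := ∑ a, c a ^ 2 with hS
  have hS0 : 0 ≤ S := Finset.sum_nonneg fun a _ => sq_nonneg _
  have hqR : (0 : ℝ) < q := by exact_mod_cast hq
  rcases hS0.eq_or_lt with h0 | hpos
  · have hc : ∀ a, c a = 0 := by
      intro a
      have h1 := (Finset.sum_eq_zero_iff_of_nonneg (fun a _ => sq_nonneg (c a))).1
        (hS ▸ h0.symm) a (Finset.mem_univ a)
      exact pow_eq_zero_iff (two_ne_zero) |>.1 h1
    have h2 : ∀ s : ι → Bool, (∑ a, sg (s a) * c a) ^ (2 * q) = 0 := by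
      intro s
      simp only [hc, mul_zero, Finset.sum_const_zero]
      exact zero_pow (by omega)
    simp only [h2]
    rw [Finset.expect_const_zero]
    positivity
  · set L : ℝ := Real.sqrt (2 * q / S) with hL
    have hL2 : L ^ 2 = 2 * q / S := Real.sq_sqrt (by positivity)
    have hfac : ((2 * q)! : ℝ) ≤ (2 * (q : ℝ)) ^ (2 * q) := by
      have := Nat.factorial_le_pow (2 * q)
      calc ((2 * q)! : ℝ) ≤ (((2 * q) ^ (2 * q) : ℕ) : ℝ) := by exact_mod_cast this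
        _ = _ := by push_cast; ring
    have hfpos : (0 : ℝ) < ((2 * q)! : ℝ) := by exact_mod_cast Nat.factorial_pos _
    have h1 : ∀ s : ι → Bool, (L ^ 2) ^ q * (∑ a, sg (s a) * c a) ^ (2 * q)
        ≤ ((2 * q)! : ℝ) * (Real.exp (∑ a, sg (s a) * (L * c a))
          + Real.exp (∑ a, sg (s a) * (-(L * c a)))) := by
      intro s
      set X := ∑ a, sg (s a) * c a with hX
      have h2 : ∑ a, sg (s a) * (L * c a) = L * X := by
        rw [hX, Finset.mul_sum]; exact Finset.sum_congr rfl fun a _ => by ring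
      have h3 : ∑ a, sg (s a) * (-(L * c a)) = -(L * X) := by
        rw [hX, Finset.mul_sum, ← Finset.sum_neg_distrib]
        exact Finset.sum_congr rfl fun a _ => by ring
      rw [h2, h3]
      have h4 := Real.pow_div_factorial_le_exp |L * X| (abs_nonneg _) (2 * q)
      rw [div_le_iff₀ hfpos] at h4
      have h5 : |L * X| ^ (2 * q) = (L ^ 2) ^ q * X ^ (2 * q) := by
        rw [pow_mul, sq_abs, mul_pow, mul_pow, ← pow_mul X]
      rw [h5] at h4
      have h6 : Real.exp |L * X| ≤ Real.exp (L * X) + Real.exp (-(L * X)) := by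
        rcases abs_choice (L * X) with h | h
        · rw [h]; linarith [Real.exp_pos (-(L * X))]
        · rw [h]; linarith [Real.exp_pos (L * X)]
      calc (L ^ 2) ^ q * X ^ (2 * q) ≤ Real.exp |L * X| * ((2 * q)! : ℝ) := h4
        _ ≤ (Real.exp (L * X) + Real.exp (-(L * X))) * ((2 * q)! : ℝ) := by gcongr
        _ = _ := by ring
    have h2 := expect_mono h1
    rw [← Finset.mul_expect, ← Finset.mul_expect, Finset.expect_add_distrib] at h2
    have h3 := expect_exp_le (fun a => L * c a)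
    have h4 := expect_exp_le (fun a => -(L * c a))
    have h5 : (∑ a, (L * c a) ^ 2) / 2 = q := by
      have : ∑ a, (L * c a) ^ 2 = L ^ 2 * S := by
        rw [hS, Finset.mul_sum]; exact Finset.sum_congr rfl fun a _ => by ring
      rw [this, hL2]; field_simp
    have h6 : (∑ a, (-(L * c a)) ^ 2) / 2 = q := by
      rw [← h5]; congr 1; exact Finset.sum_congr rfl fun a _ => by ring
    rw [h5] at h3
    rw [h6] at h4
    set M := 𝔼 s : ι → Bool, (∑ a, sg (s a) * c a) ^ (2 * q) with hM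
    have h7 : (L ^ 2) ^ q * M ≤ (2 * (q : ℝ)) ^ (2 * q) * (2 * Real.exp q) := by
      calc (L ^ 2) ^ q * M ≤ _ := h2
        _ ≤ ((2 * q)! : ℝ) * (Real.exp q + Real.exp q) := by gcongr
        _ = ((2 * q)! : ℝ) * (2 * Real.exp q) := by ring
        _ ≤ _ := by gcongr
    have h8 : Real.exp (q : ℝ) ≤ 3 ^ q := by
      have : Real.exp (q : ℝ) = (Real.exp 1) ^ q := by rw [← Real.exp_nat_mul, mul_one]
      rw [this]
      exact pow_le_pow_left₀ (Real.exp_pos _).le (by linarith [Real.exp_one_lt_d9]) _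
    have h9 : (0 : ℝ) < (2 * q / S) ^ q := by positivity
    rw [hL2] at h7
    have h10 : (2 * (q : ℝ)) ^ (2 * q) * (2 * 3 ^ q) = (2 * q / S) ^ q * (2 * (6 * (q : ℝ)) ^ q * S ^ q) := by
      rw [div_pow, two_mul q, pow_add]
      have : (6 * (q : ℝ)) ^ q = (2 * (q : ℝ)) ^ q * 3 ^ q := by
        rw [← mul_pow]; congr 1; ring
      rw [this]
      field_simp
    have h11 : (2 * q / S) ^ q * M ≤ (2 * q / S) ^ q * (2 * (6 * (q : ℝ)) ^ q * S ^ q) := by
      rw [← h10]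
      refine h7.trans ?_
      gcongr
    exact le_of_mul_le_mul_left h11 h9

variable {n N : ℕ}

theorem angular_moment' (hn : 0 < n) (q : ℕ) (K : ℝ) (hK0 : 0 ≤ K)
    (hK : ∀ c : Fin n → ℝ, (𝔼 s : Fin n → Bool, (∑ a, sg (s a) * c a) ^ (2 * q))
      ≤ K * (∑ a, c a ^ 2) ^ q) (u : EuclideanSpace ℝ (Fin n)) (hu : ‖u‖ = 1) :
    ∫ z, ‖z‖ * |⟪‖z‖⁻¹ • z, u⟫| ^ (2 * q) ∂(stdGaussian (EuclideanSpace ℝ (Fin n)))
      ≤ K * ((n : ℝ) ^ q)⁻¹ * Real.sqrt n := by
  have hnR : (0 : ℝ) < n := by exact_mod_cast hn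
  have hsn : 0 < Real.sqrt n := Real.sqrt_pos.2 hnR
  set e := EuclideanSpace.basisFun (Fin n) ℝ with he
  set vs : (Fin n → Bool) → EuclideanSpace ℝ (Fin n) :=
    fun s => (Real.sqrt n)⁻¹ • rv e univ s with hvs
  have hvs1 : ∀ s, ‖vs s‖ = 1 := by
    intro s
    simp only [hvs]
    rw [norm_smul, norm_rv, Finset.card_univ, Fintype.card_fin, Real.norm_of_nonneg (by positivity),
      inv_mul_cancel₀ hsn.ne']
  have h1 : ∫ z, ‖z‖ * |⟪‖z‖⁻¹ • z, u⟫| ^ (2 * q) ∂(stdGaussian (EuclideanSpace ℝ (Fin n)))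
      = 𝔼 s : Fin n → Bool, ∫ z, ‖z‖ * |⟪‖z‖⁻¹ • z, vs s⟫| ^ (2 * q)
        ∂(stdGaussian (EuclideanSpace ℝ (Fin n))) := by
    have h2 : ∀ s, ∫ z, ‖z‖ * |⟪‖z‖⁻¹ • z, vs s⟫| ^ (2 * q)
        ∂(stdGaussian (EuclideanSpace ℝ (Fin n)))
        = ∫ z, ‖z‖ * |⟪‖z‖⁻¹ • z, u⟫| ^ (2 * q)
          ∂(stdGaussian (EuclideanSpace ℝ (Fin n))) := fun s =>
      integral_norm_mul_pow_eq _ _ _ (hvs1 s) hu
    simp only [h2]
    rw [Fintype.expect_const]
  have h3 : (𝔼 s : Fin n → Bool, ∫ z, ‖z‖ * |⟪‖z‖⁻¹ • z, vs s⟫| ^ (2 * q)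
        ∂(stdGaussian (EuclideanSpace ℝ (Fin n))))
      = ∫ z, 𝔼 s : Fin n → Bool, ‖z‖ * |⟪‖z‖⁻¹ • z, vs s⟫| ^ (2 * q)
        ∂(stdGaussian (EuclideanSpace ℝ (Fin n))) := by
    simp only [Fintype.expect_eq_sum_div_card]
    rw [integral_div, integral_finsetSum]
    exact fun s _ => integrable_pow _ (hvs1 s).le _
  have h4 : ∀ z : EuclideanSpace ℝ (Fin n),
      (𝔼 s : Fin n → Bool, ‖z‖ * |⟪‖z‖⁻¹ • z, vs s⟫| ^ (2 * q))
        ≤ (K * ((n : ℝ) ^ q)⁻¹) * ‖z‖ := by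
    intro z
    rw [← Finset.mul_expect, mul_comm ‖z‖]
    refine mul_le_mul_of_nonneg_right ?_ (norm_nonneg _)
    have h5 : ∀ s : Fin n → Bool, |⟪‖z‖⁻¹ • z, vs s⟫| ^ (2 * q)
        = ((n : ℝ) ^ q)⁻¹ * (∑ a, sg (s a) * ⟪e a, ‖z‖⁻¹ • z⟫) ^ (2 * q) := by
      intro s
      have h6 : ⟪‖z‖⁻¹ • z, vs s⟫ = (Real.sqrt n)⁻¹ * ∑ a, sg (s a) * ⟪e a, ‖z‖⁻¹ • z⟫ := by
        simp only [hvs]
        rw [inner_smul_right, real_inner_comm, inner_rv]
      rw [h6, pow_mul, sq_abs, mul_pow, mul_pow, ← pow_mul (∑ a, sg (s a) * ⟪e a, ‖z‖⁻¹ • z⟫)]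
      congr 1
      rw [inv_pow, Real.sq_sqrt hnR.le, inv_pow]
    simp only [h5]
    rw [← Finset.mul_expect, mul_comm K]
    refine mul_le_mul_of_nonneg_left ?_ (by positivity)
    refine (hK (fun a => ⟪e a, ‖z‖⁻¹ • z⟫)).trans ?_
    rw [← norm_sq_eq_sum e]
    have h7 : (‖‖z‖⁻¹ • z‖ ^ 2) ^ q ≤ 1 :=
      pow_le_one₀ (sq_nonneg _) (pow_le_one₀ (norm_nonneg _) (norm_hat_le z))
    nlinarith
  rw [h1, h3]
  calc ∫ z, 𝔼 s : Fin n → Bool, ‖z‖ * |⟪‖z‖⁻¹ • z, vs s⟫| ^ (2 * q)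
        ∂(stdGaussian (EuclideanSpace ℝ (Fin n)))
      ≤ ∫ z : EuclideanSpace ℝ (Fin n), (K * ((n : ℝ) ^ q)⁻¹) * ‖z‖
        ∂(stdGaussian (EuclideanSpace ℝ (Fin n))) := by
        refine integral_mono ?_ (integrable_norm'.const_mul _) h4
        simp only [Fintype.expect_eq_sum_div_card]
        exact (integrable_finsetSum _ fun s _ => integrable_pow _ (hvs1 s).le _).div_const _
    _ = (K * ((n : ℝ) ^ q)⁻¹) * ∫ z : EuclideanSpace ℝ (Fin n), ‖z‖
        ∂(stdGaussian (EuclideanSpace ℝ (Fin n))) := integral_const_mul _ _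
    _ ≤ _ := by
        refine mul_le_mul_of_nonneg_left integral_norm_le' ?_
        positivity

theorem angular_moment_sharp (hn : 0 < n) (q : ℕ) (hq : 1 ≤ q)
    (u : EuclideanSpace ℝ (Fin n)) (hu : ‖u‖ = 1) :
    ∫ z, ‖z‖ * |⟪‖z‖⁻¹ • z, u⟫| ^ (2 * q) ∂(stdGaussian (EuclideanSpace ℝ (Fin n)))
      ≤ 2 * (6 * (q : ℝ)) ^ q * ((n : ℝ) ^ q)⁻¹ * Real.sqrt n :=
  angular_moment' hn q _ (by positivity) (fun c => khintchine_sharp c q hq) u hu

/-- Integration against the isotropic measure on the sphere. -/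
noncomputable def isoI (Φ : EuclideanSpace ℝ (Fin n) → ℝ) : ℝ :=
  (Psi 0)⁻¹ * ∫ z, ‖z‖ * Φ (‖z‖⁻¹ • z) ∂(stdGaussian (EuclideanSpace ℝ (Fin n)))

/-- Integrability. -/
def Nice (Φ : EuclideanSpace ℝ (Fin n) → ℝ) : Prop :=
  Integrable (fun z : EuclideanSpace ℝ (Fin n) => ‖z‖ * Φ (‖z‖⁻¹ • z)) (stdGaussian _)

lemma nice_of_bdd (F : EuclideanSpace ℝ (Fin n) → ℝ) (hF : Measurable F) (B : ℝ)
    (hB : ∀ v, ‖v‖ ≤ 1 → |F v| ≤ B) : Nice F := integrable_norm_mul F hF B hB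

lemma Nice.const_mul {F : EuclideanSpace ℝ (Fin n) → ℝ} (hF : Nice F) (c : ℝ) :
    Nice (fun u => c * F u) := by
  have h := Integrable.const_mul hF c
  refine h.congr (Filter.Eventually.of_forall fun z => ?_)
  simp only; ring

lemma Nice.add {F G : EuclideanSpace ℝ (Fin n) → ℝ} (hF : Nice F) (hG : Nice G) :
    Nice (fun u => F u + G u) := by
  have h := Integrable.add hF hG
  refine h.congr (Filter.Eventually.of_forall fun z => ?_)
  simp only [Pi.add_apply]; ring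

lemma Nice.sub {F G : EuclideanSpace ℝ (Fin n) → ℝ} (hF : Nice F) (hG : Nice G) :
    Nice (fun u => F u - G u) := by
  have h := Integrable.sub hF hG
  refine h.congr (Filter.Eventually.of_forall fun z => ?_)
  simp only [Pi.sub_apply]; ring

lemma Nice.sum {J : Type*} [Fintype J] {F : J → EuclideanSpace ℝ (Fin n) → ℝ}
    (hF : ∀ j, Nice (F j)) : Nice (fun u => ∑ j, F j u) := by
  have h := integrable_finsetSum univ (fun j _ => hF j)
  refine h.congr (Filter.Eventually.of_forall fun z => ?_)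
  simp only [Finset.mul_sum]

lemma isoI_const_mul (F : EuclideanSpace ℝ (Fin n) → ℝ) (c : ℝ) :
    isoI (fun u => c * F u) = c * isoI F := by
  unfold isoI
  have h : ∀ z : EuclideanSpace ℝ (Fin n), ‖z‖ * (c * F (‖z‖⁻¹ • z))
      = c * (‖z‖ * F (‖z‖⁻¹ • z)) := fun z => by ring
  simp only [h]
  rw [integral_const_mul]; ring

lemma isoI_add {F G : EuclideanSpace ℝ (Fin n) → ℝ} (hF : Nice F) (hG : Nice G) :
    isoI (fun u => F u + G u) = isoI F + isoI G := by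
  unfold isoI
  rw [← mul_add, ← integral_add hF hG]
  congr 1
  exact integral_congr_ae (Filter.Eventually.of_forall fun z => by simp only; ring)

lemma isoI_sub {F G : EuclideanSpace ℝ (Fin n) → ℝ} (hF : Nice F) (hG : Nice G) :
    isoI (fun u => F u - G u) = isoI F - isoI G := by
  unfold isoI
  rw [← mul_sub, ← integral_sub hF hG]
  congr 1
  exact integral_congr_ae (Filter.Eventually.of_forall fun z => by simp only; ring)

lemma isoI_sum {J : Type*} [Fintype J] {F : J → EuclideanSpace ℝ (Fin n) → ℝ}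
    (hF : ∀ j, Nice (F j)) : isoI (fun u => ∑ j, F j u) = ∑ j, isoI (F j) := by
  unfold isoI
  rw [← Finset.mul_sum, ← integral_finsetSum _ (fun j _ => hF j)]
  congr 1
  exact integral_congr_ae (Filter.Eventually.of_forall fun z => by simp only [Finset.mul_sum])

lemma isoI_mono {F G : EuclideanSpace ℝ (Fin n) → ℝ} (hF : Nice F) (hG : Nice G)
    (h : ∀ u, ‖u‖ ≤ 1 → F u ≤ G u) : isoI F ≤ isoI G := by
  unfold isoI
  refine mul_le_mul_of_nonneg_left ?_ (inv_pos.2 Psi_zero_pos).le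
  exact integral_mono hF hG fun z => mul_le_mul_of_nonneg_left (h _ (norm_hat_le z)) (norm_nonneg _)

lemma abs_isoI_le {F G : EuclideanSpace ℝ (Fin n) → ℝ} (hG : Nice G)
    (h : ∀ u, ‖u‖ ≤ 1 → |F u| ≤ G u) : |isoI F| ≤ isoI G := by
  unfold isoI
  rw [abs_mul, abs_of_pos (inv_pos.2 Psi_zero_pos)]
  refine mul_le_mul_of_nonneg_left ?_ (inv_pos.2 Psi_zero_pos).le
  rw [← Real.norm_eq_abs]
  refine norm_integral_le_of_norm_le hG (Filter.Eventually.of_forall fun z => ?_)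
  rw [norm_mul, norm_norm, Real.norm_eq_abs]
  exact mul_le_mul_of_nonneg_left (h _ (norm_hat_le z)) (norm_nonneg _)

lemma isoI_abs_inner (v : EuclideanSpace ℝ (Fin n)) (hv : ‖v‖ = 1) :
    isoI (fun u => |⟪u, v⟫|) = 1 := by
  unfold isoI
  have h1 := integral_abs_inner_add v hv (0 : EuclideanSpace ℝ (Fin n))
  rw [inner_zero_right] at h1
  have h2 : ∀ z : EuclideanSpace ℝ (Fin n), ‖z‖ * |⟪‖z‖⁻¹ • z, v⟫| = |⟪v, z + 0⟫| := by
    intro z
    rcases eq_or_ne z 0 with h | h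
    · subst h; simp
    · rw [add_zero, inner_smul_left, abs_mul, real_inner_comm]
      have h3 : ‖z‖ ≠ 0 := norm_ne_zero_iff.2 h
      simp only [map_inv₀, conj_trivial, abs_inv, abs_norm]
      rw [← mul_assoc, mul_inv_cancel₀ h3, one_mul]
  simp only [h2]
  rw [h1, inv_mul_cancel₀ Psi_zero_pos.ne']

lemma continuous_Psi : Continuous Psi := by
  have : LipschitzWith 1 Psi := LipschitzWith.of_dist_le_mul fun s t => by
    rw [Real.dist_eq, Real.dist_eq]
    simpa using Psi_lipschitz s t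
  exact this.continuous

lemma nice_Psi (y : EuclideanSpace ℝ (Fin n)) : Nice (fun u => Psi ⟪u, y⟫) :=
  integrable_norm_mul_Psi y

/-- The discrepancy functional. -/
noncomputable def DD (x : Fin N → EuclideanSpace ℝ (Fin n))
    (Φ : EuclideanSpace ℝ (Fin n) → ℝ) : ℝ :=
  ∑ j, wt x j * Φ (dir x j) - isoI Φ

lemma DD_const_mul (x : Fin N → EuclideanSpace ℝ (Fin n))
    (F : EuclideanSpace ℝ (Fin n) → ℝ) (c : ℝ) :
    DD x (fun u => c * F u) = c * DD x F := by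
  unfold DD
  rw [isoI_const_mul, mul_sub, Finset.mul_sum]
  congr 1
  exact Finset.sum_congr rfl fun j _ => by ring

lemma DD_sub (x : Fin N → EuclideanSpace ℝ (Fin n))
    {F G : EuclideanSpace ℝ (Fin n) → ℝ} (hF : Nice F) (hG : Nice G) :
    DD x (fun u => F u - G u) = DD x F - DD x G := by
  unfold DD
  rw [isoI_sub hF hG]
  have : ∑ j, wt x j * (F (dir x j) - G (dir x j))
      = ∑ j, wt x j * F (dir x j) - ∑ j, wt x j * G (dir x j) := by
    rw [← Finset.sum_sub_distrib]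
    exact Finset.sum_congr rfl fun j _ => by ring
  rw [this]; ring

lemma DD_sum {J : Type*} [Fintype J] (x : Fin N → EuclideanSpace ℝ (Fin n))
    {F : J → EuclideanSpace ℝ (Fin n) → ℝ} (hF : ∀ j, Nice (F j)) :
    DD x (fun u => ∑ j, F j u) = ∑ j, DD x (F j) := by
  unfold DD
  rw [isoI_sum hF, Finset.sum_sub_distrib, Finset.sum_comm]
  congr 1
  exact Finset.sum_congr rfl fun j _ => by rw [Finset.mul_sum]

lemma DD_Psi (x : Fin N → EuclideanSpace ℝ (Fin n)) (ε : ℝ) (hε : 0 ≤ ε)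
    (hlow : ∀ y, (1 - ε) * ‖y‖ ≤ ∑ j, |⟪y, x j⟫|)
    (hup : ∀ y, ∑ j, |⟪y, x j⟫| ≤ (1 + ε) * ‖y‖) (y : EuclideanSpace ℝ (Fin n)) :
    |DD x (fun u => Psi ⟪u, y⟫)| ≤ ε * (Real.sqrt n + ‖y‖) :=
  smooth_ineq x ε hε hlow hup y

/-- A finite combination of smoothed values. -/
lemma DD_comb {S : Type*} [Fintype S] (x : Fin N → EuclideanSpace ℝ (Fin n)) (ε : ℝ) (hε : 0 ≤ ε)
    (hlow : ∀ y, (1 - ε) * ‖y‖ ≤ ∑ j, |⟪y, x j⟫|)
    (hup : ∀ y, ∑ j, |⟪y, x j⟫| ≤ (1 + ε) * ‖y‖) (y v : EuclideanSpace ℝ (Fin n))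
    (hv : ‖v‖ = 1) (β t : S → ℝ) (c A B : ℝ) (hc : 0 ≤ c)
    (hA : ∑ s, |β s| ≤ A) (hB : ∑ s, |β s| * |t s| ≤ B) :
    |DD x (fun u => ∑ s, β s * Psi (⟪u, y⟫ + t s * (c * ⟪u, v⟫)))|
      ≤ ε * (A * (Real.sqrt n + ‖y‖) + B * c) := by
  have h0 : ∀ s, (fun u : EuclideanSpace ℝ (Fin n) => β s * Psi (⟪u, y⟫ + t s * (c * ⟪u, v⟫)))
      = fun u => β s * Psi ⟪u, y + (t s * c) • v⟫ := by
    intro s
    funext u
    rw [inner_add_right, inner_smul_right, mul_assoc]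
  have h1 : DD x (fun u => ∑ s, β s * Psi (⟪u, y⟫ + t s * (c * ⟪u, v⟫)))
      = ∑ s, β s * DD x (fun u => Psi ⟪u, y + (t s * c) • v⟫) := by
    rw [DD_sum (F := fun s u => β s * Psi (⟪u, y⟫ + t s * (c * ⟪u, v⟫)))]
    · refine Finset.sum_congr rfl fun s _ => ?_
      rw [h0 s, DD_const_mul]
    · intro s
      have h2 := (nice_Psi (n := n) (y + (t s * c) • v)).const_mul (β s)
      rw [← h0 s] at h2
      exact h2
  rw [h1]
  calc |∑ s, β s * DD x (fun u => Psi ⟪u, y + (t s * c) • v⟫)|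
      ≤ ∑ s, |β s * DD x (fun u => Psi ⟪u, y + (t s * c) • v⟫)| := Finset.abs_sum_le_sum_abs _ _
    _ ≤ ∑ s, |β s| * (ε * ((Real.sqrt n + ‖y‖) + |t s| * c)) := by
        refine Finset.sum_le_sum fun s _ => ?_
        rw [abs_mul]
        refine mul_le_mul_of_nonneg_left ?_ (abs_nonneg _)
        refine (DD_Psi x ε hε hlow hup _).trans (mul_le_mul_of_nonneg_left ?_ hε)
        have h3 : ‖y + (t s * c) • v‖ ≤ ‖y‖ + |t s| * c := by
          refine (norm_add_le _ _).trans ?_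
          rw [norm_smul, hv, mul_one, Real.norm_eq_abs, abs_mul, abs_of_nonneg hc]
        linarith
    _ = ε * ((∑ s, |β s|) * (Real.sqrt n + ‖y‖) + (∑ s, |β s| * |t s|) * c) := by
        rw [Finset.sum_mul, Finset.sum_mul, ← Finset.sum_add_distrib, Finset.mul_sum]
        exact Finset.sum_congr rfl fun s _ => by ring
    _ ≤ ε * (A * (Real.sqrt n + ‖y‖) + B * c) := by
        refine mul_le_mul_of_nonneg_left ?_ hε
        have : 0 ≤ Real.sqrt n + ‖y‖ := by positivity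
        gcongr

section

variable {I : Type} [Fintype I]

lemma sq_sin_expand (a σ : I → ℝ) (θ : ℝ) :
    (∑ i, a i * Real.sin (σ i * θ)) ^ 2
      = -∑ s : (I × I) × Bool, (sg s.2 * (a s.1.1 * a s.1.2 / 2)) *
        Real.cos ((σ s.1.1 + sg s.2 * σ s.1.2) * θ) := by
  rw [Fintype.sum_prod_type]
  simp only [Fintype.sum_bool, sg_true, sg_false]
  rw [Fintype.sum_prod_type, sq, Finset.sum_mul_sum, ← Finset.sum_neg_distrib]
  refine Finset.sum_congr rfl fun i _ => ?_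
  rw [← Finset.sum_neg_distrib]
  refine Finset.sum_congr rfl fun i' _ => ?_
  have h1 : (σ i + 1 * σ i') * θ = σ i * θ + σ i' * θ := by ring
  have h2 : (σ i + -1 * σ i') * θ = σ i * θ - σ i' * θ := by ring
  rw [h1, h2, Real.cos_add, Real.cos_sub]
  ring

lemma sum_abs_pair (a : I → ℝ) :
    ∑ s : (I × I) × Bool, |sg s.2 * (a s.1.1 * a s.1.2 / 2)| = (∑ i, |a i|) ^ 2 := by
  rw [Fintype.sum_prod_type]
  simp only [Fintype.sum_bool, abs_mul, abs_sg, one_mul]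
  rw [Fintype.sum_prod_type, sq, Finset.sum_mul_sum]
  refine Finset.sum_congr rfl fun i _ => Finset.sum_congr rfl fun i' _ => ?_
  rw [abs_div, abs_two, abs_mul]; ring

lemma sum_abs_pair_mul_le (a σ : I → ℝ) :
    ∑ s : (I × I) × Bool, |sg s.2 * (a s.1.1 * a s.1.2 / 2)| * |σ s.1.1 + sg s.2 * σ s.1.2|
      ≤ 2 * (∑ i, |a i|) * (∑ i, |a i| * |σ i|) := by
  calc ∑ s : (I × I) × Bool, |sg s.2 * (a s.1.1 * a s.1.2 / 2)| * |σ s.1.1 + sg s.2 * σ s.1.2|
      ≤ ∑ s : (I × I) × Bool, (|a s.1.1| * |a s.1.2| / 2) * (|σ s.1.1| + |σ s.1.2|) := by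
        refine Finset.sum_le_sum fun s _ => ?_
        rw [abs_mul, abs_sg, one_mul, abs_div, abs_two, abs_mul]
        refine mul_le_mul_of_nonneg_left ?_ (by positivity)
        refine (abs_add_le _ _).trans ?_
        rw [abs_mul, abs_sg, one_mul]
    _ = ∑ p : I × I, (|a p.1| * |σ p.1| * |a p.2| + |a p.1| * (|a p.2| * |σ p.2|)) := by
        rw [Fintype.sum_prod_type]
        simp only [Fintype.sum_bool]
        exact Finset.sum_congr rfl fun p _ => by ring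
    _ = _ := by
        rw [Finset.sum_add_distrib, Fintype.sum_prod_type, Fintype.sum_prod_type]
        simp only [← Finset.mul_sum, ← Finset.sum_mul]
        ring

end

section

variable {J : Type} [Fintype J] (α τ : J → ℝ)

/-- Coefficients of `dD` as a sine sum. -/
noncomputable def aa (i : J × Bool) : ℝ := if i.2 then 2 * α i.1 else -α i.1
/-- Frequencies of `dD` as a sine sum. -/
noncomputable def ss (i : J × Bool) : ℝ := if i.2 then τ i.1 / 2 else τ i.1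

lemma dD_eq (θ : ℝ) : dD α τ θ = ∑ i : J × Bool, aa α i * Real.sin (ss τ i * θ) := by
  rw [Fintype.sum_prod_type]
  simp only [Fintype.sum_bool, aa, ss, if_true, Bool.false_eq_true, if_false]
  unfold dD sS
  rw [Finset.mul_sum, ← Finset.sum_sub_distrib]
  refine Finset.sum_congr rfl fun j _ => ?_
  rw [show τ j * (θ / 2) = τ j / 2 * θ by ring]; ring

lemma sum_abs_aa : ∑ i : J × Bool, |aa α i| = 3 * ∑ j, |α j| := by
  rw [Fintype.sum_prod_type]
  simp only [Fintype.sum_bool, aa, if_true, Bool.false_eq_true, if_false, abs_neg, abs_mul, abs_two]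
  rw [Finset.mul_sum]
  exact Finset.sum_congr rfl fun j _ => by ring

lemma sum_abs_aa_mul : ∑ i : J × Bool, |aa α i| * |ss τ i| = 2 * ∑ j, |α j| * |τ j| := by
  rw [Fintype.sum_prod_type]
  simp only [Fintype.sum_bool, aa, ss, if_true, Bool.false_eq_true, if_false, abs_neg, abs_mul,
    abs_two, abs_div]
  rw [Finset.mul_sum]
  exact Finset.sum_congr rfl fun j _ => by ring

/-- Coefficients of the test function. -/
noncomputable def bb (s : ((J × Bool) × (J × Bool)) × Bool) : ℝ :=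
  sg s.2 * (aa α s.1.1 * aa α s.1.2 / 2)
/-- Nodes of the test function. -/
noncomputable def tt (s : ((J × Bool) × (J × Bool)) × Bool) : ℝ :=
  ss τ s.1.1 + sg s.2 * ss τ s.1.2

lemma sum_bb : ∑ s, bb α s = 0 := by
  have h := sq_sin_expand (aa α) (fun _ => 0) 0
  simp only [mul_zero, Real.sin_zero, Real.cos_zero, mul_one, Finset.sum_const_zero] at h
  unfold bb
  norm_num at h
  exact h

lemma tT_eq (b : ℝ) : tT α τ b = ∑ s, bb α s * Psi (tt τ s * b) := by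
  rw [Psi_combination (bb α) (fun s => tt τ s * b) (sum_bb α), ← mul_neg, ← integral_neg]
  unfold tT
  congr 1
  refine integral_congr_ae (Filter.Eventually.of_forall fun ω => ?_)
  simp only
  have h := sq_sin_expand (aa α) (ss τ) (ω * b)
  rw [← dD_eq] at h
  rw [h]
  have h2 : ∑ s, bb α s * Real.cos (ω * (tt τ s * b))
      = ∑ s : ((J × Bool) × (J × Bool)) × Bool, (sg s.2 * (aa α s.1.1 * aa α s.1.2 / 2)) *
        Real.cos ((ss τ s.1.1 + sg s.2 * ss τ s.1.2) * (ω * b)) := by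
    refine Finset.sum_congr rfl fun s _ => ?_
    unfold bb tt
    congr 2; ring
  rw [h2]; ring

lemma continuous_tT : Continuous (tT α τ) := by
  have h : tT α τ = fun b => ∑ s, bb α s * Psi (tt τ s * b) := funext (tT_eq α τ)
  rw [h]
  refine continuous_finsetSum _ fun s _ => ?_
  exact continuous_const.mul (continuous_Psi.comp (by fun_prop))

lemma tT_test (C : ℝ) (hC : 1 ≤ C) (hα : ∑ j, |α j| ≤ C) (hτ : ∑ j, |α j| * |τ j| ≤ C)
    (x : Fin N → EuclideanSpace ℝ (Fin n)) (ε : ℝ) (hε : 0 ≤ ε)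
    (hlow : ∀ y, (1 - ε) * ‖y‖ ≤ ∑ j, |⟪y, x j⟫|)
    (hup : ∀ y, ∑ j, |⟪y, x j⟫| ≤ (1 + ε) * ‖y‖) (v : EuclideanSpace ℝ (Fin n))
    (hv : ‖v‖ = 1) (c : ℝ) (hc : 0 ≤ c) (hc1 : c ≤ Real.sqrt n) :
    |DD x (fun u => tT α τ (c * ⟪u, v⟫))| ≤ 21 * C ^ 2 * ε * Real.sqrt n := by
  have hA : ∑ s, |bb α s| ≤ 9 * C ^ 2 := by
    unfold bb
    rw [sum_abs_pair (aa α), sum_abs_aa]
    have h0 : 0 ≤ ∑ j, |α j| := Finset.sum_nonneg fun j _ => abs_nonneg _
    nlinarith
  have hB : ∑ s, |bb α s| * |tt τ s| ≤ 12 * C ^ 2 := by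
    unfold bb tt
    refine (sum_abs_pair_mul_le (aa α) (ss τ)).trans ?_
    rw [sum_abs_aa, sum_abs_aa_mul]
    have h0 : 0 ≤ ∑ j, |α j| := Finset.sum_nonneg fun j _ => abs_nonneg _
    have h1 : 0 ≤ ∑ j, |α j| * |τ j| := Finset.sum_nonneg fun j _ => by positivity
    nlinarith [mul_le_mul hα hτ h1 (by linarith)]
  have h := DD_comb x ε hε hlow hup 0 v hv (bb α) (tt τ) c (9 * C ^ 2) (12 * C ^ 2) hc hA hB
  simp only [inner_zero_right, zero_add, norm_zero, add_zero] at h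
  simp only [tT_eq]
  refine h.trans ?_
  have h1 : 12 * C ^ 2 * c ≤ 12 * C ^ 2 * Real.sqrt n := by gcongr
  nlinarith

end

end Pool.Agent.Helper24.Zono
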