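import Pool.Agent.Helper24.Zono.Psi

/-!
# Gaussian pairings of the smoothed sign function with a sine
-/

open MeasureTheory ProbabilityTheory
open scoped RealInnerProductSpace

namespace Pool.Agent.Helper24.Zono

/-- `Ψ'` (the smoothed sign function) in Fourier form. -/
noncomputable def dPsi (s : ℝ) : ℝ :=
  cst⁻¹ * ∫ ω : ℝ, Real.exp (-ω ^ 2 / 2) * (Real.sin (ω * s) / ω)

lemma integrable_exp_half : Integrable (fun ω : ℝ => Real.exp (-ω ^ 2 / 2)) := by
  have h := integrable_exp_neg_mul_sq (b := 1 / 2) (by norm_num)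
  refine h.congr (Filter.Eventually.of_forall fun ω => ?_)
  simp only; congr 1; ring

lemma abs_sin_div_le (ω s : ℝ) : |Real.sin (ω * s) / ω| ≤ |s| := by
  rcases eq_or_ne ω 0 with h | h
  · subst h; simp
  · rw [abs_div, div_le_iff₀ (abs_pos.2 h), mul_comm |s|, ← abs_mul]
    exact Real.abs_sin_le_abs

lemma integrable_dPsi (s : ℝ) :
    Integrable (fun ω : ℝ => Real.exp (-ω ^ 2 / 2) * (Real.sin (ω * s) / ω)) := by
  refine (integrable_exp_half.mul_const |s|).mono' ?_ ?_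
  · exact (by fun_prop : Measurable fun ω : ℝ =>
      Real.exp (-ω ^ 2 / 2) * (Real.sin (ω * s) / ω)).aestronglyMeasurable
  · refine Filter.Eventually.of_forall fun ω => ?_
    rw [norm_mul, Real.norm_of_nonneg (Real.exp_pos _).le, Real.norm_eq_abs]
    exact mul_le_mul_of_nonneg_left (abs_sin_div_le ω s) (Real.exp_pos _).le

lemma measurable_dPsi : Measurable dPsi := by
  unfold dPsi
  refine Measurable.const_mul ?_ _
  have h : StronglyMeasurable (Function.uncurry fun (s ω : ℝ) =>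
      Real.exp (-ω ^ 2 / 2) * (Real.sin (ω * s) / ω)) := by
    apply Measurable.stronglyMeasurable
    unfold Function.uncurry
    fun_prop
  exact h.integral_prod_right.measurable

lemma Psi_lipschitz (s t : ℝ) : |Psi s - Psi t| ≤ |s - t| := by
  set v : EuclideanSpace ℝ (Fin 1) := EuclideanSpace.basisFun (Fin 1) ℝ 0 with hv
  have hv1 : ‖v‖ = 1 := (EuclideanSpace.basisFun (Fin 1) ℝ).norm_eq_one 0
  have hvv : ⟪v, v⟫ = 1 := by rw [real_inner_self_eq_norm_sq, hv1]; norm_num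
  have h1 : ∀ r : ℝ, Psi r = ∫ g, |⟪v, g + r • v⟫| ∂(stdGaussian (EuclideanSpace ℝ (Fin 1))) := by
    intro r
    rw [integral_abs_inner_add v hv1, inner_smul_right, hvv, mul_one]
  have hint : ∀ r : ℝ, Integrable (fun g : EuclideanSpace ℝ (Fin 1) => |⟪v, g + r • v⟫|)
      (stdGaussian _) := by
    intro r
    refine Integrable.mono' (integrable_norm_add (r • v)) ?_ ?_
    · exact (by fun_prop : Continuous fun g : EuclideanSpace ℝ (Fin 1) =>
        |⟪v, g + r • v⟫|).aestronglyMeasurable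
    · refine Filter.Eventually.of_forall fun g => ?_
      rw [Real.norm_of_nonneg (abs_nonneg _)]
      have := abs_real_inner_le_norm v (g + r • v)
      rwa [hv1, one_mul] at this
  rw [h1, h1, ← integral_sub (hint s) (hint t), ← Real.norm_eq_abs]
  have h2 := norm_integral_le_of_norm_le (μ := stdGaussian (EuclideanSpace ℝ (Fin 1)))
    (f := fun g => |⟪v, g + s • v⟫| - |⟪v, g + t • v⟫|) (g := fun _ => |s - t|)
    (integrable_const _) (Filter.Eventually.of_forall fun g => by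
      rw [Real.norm_eq_abs]
      refine (abs_abs_sub_abs_le _ _).trans ?_
      rw [← inner_sub_right]
      have : g + s • v - (g + t • v) = (s - t) • v := by rw [sub_smul]; abel
      rw [this, inner_smul_right, hvv, mul_one])
  simpa using h2

lemma hasDerivAt_Psi (s : ℝ) : HasDerivAt Psi (dPsi s) s := by
  unfold Psi dPsi
  refine HasDerivAt.const_mul _ ?_
  have h := hasDerivAt_integral_of_dominated_loc_of_deriv_le (μ := (volume : Measure ℝ))
    (F := fun s ω => (1 - Real.exp (-ω ^ 2 / 2) * Real.cos (ω * s)) / ω ^ 2)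
    (F' := fun s ω => Real.exp (-ω ^ 2 / 2) * (Real.sin (ω * s) / ω))
    (x₀ := s) (s := Metric.ball s 1) (bound := fun ω => Real.exp (-ω ^ 2 / 2) * (|s| + 1))
    (Metric.ball_mem_nhds s one_pos) ?_ (integrable_Psi s) ?_ ?_
    (integrable_exp_half.mul_const _) ?_
  · exact h.2
  · exact Filter.Eventually.of_forall fun t => (integrable_Psi t).aestronglyMeasurable
  · exact (integrable_dPsi s).aestronglyMeasurable
  · refine Filter.Eventually.of_forall fun ω t ht => ?_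
    rw [norm_mul, Real.norm_of_nonneg (Real.exp_pos _).le, Real.norm_eq_abs]
    refine mul_le_mul_of_nonneg_left ((abs_sin_div_le ω t).trans ?_) (Real.exp_pos _).le
    have h1 : |t - s| < 1 := by rwa [Metric.mem_ball, Real.dist_eq] at ht
    have h2 : |t| ≤ |s| + |t - s| := by
      have := abs_add_le s (t - s)
      rwa [add_sub_cancel] at this
    linarith
  · have hae : ∀ᵐ ω : ℝ, ω ≠ 0 := by simp [ae_iff]
    filter_upwards [hae] with ω hω t ht
    have h1 : HasDerivAt (fun t => Real.cos (ω * t)) (-Real.sin (ω * t) * ω) t := by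
      have h3 := (Real.hasDerivAt_cos (ω * t)).comp t ((hasDerivAt_id t).const_mul ω)
      rw [mul_one] at h3
      exact h3
    have h2 := ((h1.const_mul (Real.exp (-ω ^ 2 / 2))).const_sub 1).div_const (ω ^ 2)
    refine h2.congr_deriv ?_
    field_simp

/-- `dPsi` is bounded. -/
lemma abs_dPsi_le (s : ℝ) : |dPsi s| ≤ 1 := by
  have hL : LipschitzWith 1 Psi := LipschitzWith.of_dist_le_mul fun s t => by
    rw [Real.dist_eq, Real.dist_eq]
    simpa using Psi_lipschitz s t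
  have h := norm_deriv_le_of_lipschitz (x₀ := s) hL
  rw [(hasDerivAt_Psi s).deriv] at h
  simpa using h

/-- The pairing kernel. -/
noncomputable def kk (lam ρ : ℝ) : ℝ :=
  cst⁻¹ * ∫ ω : ℝ, Real.exp (-ω ^ 2 / 2) * (Real.exp (-(lam ^ 2 * (ω ^ 2 + 1)) / 2)
    * (Real.sinh (lam ^ 2 * ω * ρ) / ω))

lemma abs_sinh_le (x : ℝ) : |Real.sinh x| ≤ |x| * Real.cosh x := by
  have h1 : Real.sinh |x| ≤ |x| * Real.cosh |x| := by
    have hx : 0 ≤ |x| := abs_nonneg x
    rcases hx.eq_or_lt with h0 | h0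
    · rw [← h0]; simp
    · obtain ⟨c, hc, hc2⟩ := exists_deriv_eq_slope Real.sinh h0 Real.continuous_sinh.continuousOn
        Real.differentiable_sinh.differentiableOn
      rw [Real.deriv_sinh, Real.sinh_zero, sub_zero, sub_zero, eq_div_iff h0.ne'] at hc2
      rw [← hc2, mul_comm]
      refine mul_le_mul_of_nonneg_left ?_ h0.le
      exact Real.cosh_le_cosh.2 (by rw [abs_of_pos hc.1, abs_of_pos h0]; exact hc.2.le)
  rw [Real.cosh_abs] at h1
  rcases abs_choice x with h | h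
  · have h2 : 0 ≤ Real.sinh x := Real.sinh_nonneg_iff.2 (h ▸ abs_nonneg x)
    rw [abs_of_nonneg h2]
    rwa [h] at h1 ⊢
  · have h2 : Real.sinh x ≤ 0 := Real.sinh_nonpos_iff.2 (by linarith [abs_nonneg x])
    rw [abs_of_nonpos h2]
    rw [h, Real.sinh_neg] at h1
    rw [h]
    exact h1

lemma integrable_kk (lam ρ : ℝ) (hρ : |ρ| ≤ 1) :
    Integrable (fun ω : ℝ => Real.exp (-ω ^ 2 / 2) * (Real.exp (-(lam ^ 2 * (ω ^ 2 + 1)) / 2)
    * (Real.sinh (lam ^ 2 * ω * ρ) / ω))) := by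
  refine (integrable_exp_half.mul_const (lam ^ 2)).mono' ?_ ?_
  · exact (by fun_prop : Measurable fun ω : ℝ =>
      Real.exp (-ω ^ 2 / 2) * (Real.exp (-(lam ^ 2 * (ω ^ 2 + 1)) / 2)
    * (Real.sinh (lam ^ 2 * ω * ρ) / ω))).aestronglyMeasurable
  · refine Filter.Eventually.of_forall fun ω => ?_
    rw [norm_mul, Real.norm_of_nonneg (Real.exp_pos _).le, norm_mul,
      Real.norm_of_nonneg (Real.exp_pos _).le, Real.norm_eq_abs]
    refine mul_le_mul_of_nonneg_left ?_ (Real.exp_pos _).le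
    rcases eq_or_ne ω 0 with h | h
    · subst h; simp; positivity
    · have hω : 0 < |ω| := abs_pos.2 h
      rw [abs_div, ← mul_div_assoc, div_le_iff₀ hω]
      have h1 := abs_sinh_le (lam ^ 2 * ω * ρ)
      have h2 : |lam ^ 2 * ω * ρ| ≤ lam ^ 2 * |ω| := by
        rw [abs_mul, abs_mul, abs_of_nonneg (sq_nonneg lam)]
        calc lam ^ 2 * |ω| * |ρ| ≤ lam ^ 2 * |ω| * 1 := by gcongr
          _ = _ := mul_one _
      have h3 : Real.cosh (lam ^ 2 * ω * ρ) ≤ Real.exp (lam ^ 2 * |ω|) := by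
        have h6 : Real.cosh (lam ^ 2 * ω * ρ) ≤ Real.exp |lam ^ 2 * ω * ρ| := by
          rw [Real.cosh_eq]
          have h7 := Real.exp_le_exp.2 (le_abs_self (lam ^ 2 * ω * ρ))
          have h8 := Real.exp_le_exp.2 (neg_le_abs (lam ^ 2 * ω * ρ))
          linarith
        exact h6.trans (Real.exp_le_exp.2 h2)
      have h4 : Real.exp (-(lam ^ 2 * (ω ^ 2 + 1)) / 2) * Real.exp (lam ^ 2 * |ω|) ≤ 1 := by
        rw [← Real.exp_add, Real.exp_le_one_iff]
        have h5 : -(lam ^ 2 * (ω ^ 2 + 1)) / 2 + lam ^ 2 * |ω| = -(lam ^ 2 * (|ω| - 1) ^ 2) / 2 := by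
          rw [← sq_abs ω]; ring
        rw [h5]
        have : 0 ≤ lam ^ 2 * (|ω| - 1) ^ 2 := by positivity
        linarith
      calc Real.exp (-(lam ^ 2 * (ω ^ 2 + 1)) / 2) * |Real.sinh (lam ^ 2 * ω * ρ)|
          ≤ Real.exp (-(lam ^ 2 * (ω ^ 2 + 1)) / 2) *
            ((lam ^ 2 * |ω|) * Real.exp (lam ^ 2 * |ω|)) := by
            refine mul_le_mul_of_nonneg_left (h1.trans ?_) (Real.exp_pos _).le
            gcongr
        _ = (lam ^ 2 * |ω|) * (Real.exp (-(lam ^ 2 * (ω ^ 2 + 1)) / 2)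
            * Real.exp (lam ^ 2 * |ω|)) := by ring
        _ ≤ (lam ^ 2 * |ω|) * 1 := by gcongr
        _ = _ := mul_one _

variable {E : Type*} [NormedAddCommGroup E] [InnerProductSpace ℝ E] [FiniteDimensional ℝ E]
  [MeasurableSpace E] [BorelSpace E]

lemma integral_sin_mul_sin' (a b : ℝ) (u v : E) (hu : ‖u‖ = 1) (hv : ‖v‖ = 1) :
    ∫ Y, Real.sin (a * ⟪u, Y⟫) * Real.sin (b * ⟪v, Y⟫) ∂(stdGaussian E)
      = Real.exp (-(a ^ 2 + b ^ 2) / 2) * Real.sinh (a * b * ⟪u, v⟫) := by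
  have h1 : ∀ Y : E, Real.sin (a * ⟪u, Y⟫) * Real.sin (b * ⟪v, Y⟫)
      = (Real.cos (⟪Y, a • u - b • v⟫ + 0) - Real.cos (⟪Y, a • u + b • v⟫ + 0)) / 2 := by
    intro Y
    rw [add_zero, add_zero, inner_sub_right, inner_add_right, inner_smul_right, inner_smul_right,
      Real.cos_sub, Real.cos_add, real_inner_comm u Y, real_inner_comm v Y]
    ring
  have hint : ∀ t : E, Integrable (fun Y : E => Real.cos (⟪Y, t⟫ + 0)) (stdGaussian E) := by
    intro t
    refine Integrable.mono' (integrable_const (1 : ℝ))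
      (Measurable.aestronglyMeasurable (by fun_prop)) (Filter.Eventually.of_forall fun g => ?_)
    rw [Real.norm_eq_abs]; exact Real.abs_cos_le_one _
  simp only [h1]
  rw [integral_div, integral_sub (hint _) (hint _), integral_cos, integral_cos, Real.cos_zero,
    mul_one, mul_one]
  have h2 : ‖a • u - b • v‖ ^ 2 = a ^ 2 + b ^ 2 - 2 * (a * b * ⟪u, v⟫) := by
    rw [norm_sub_sq_real, norm_smul, norm_smul, hu, hv, inner_smul_left, inner_smul_right]
    simp; ring
  have h3 : ‖a • u + b • v‖ ^ 2 = a ^ 2 + b ^ 2 + 2 * (a * b * ⟪u, v⟫) := by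
    rw [norm_add_sq_real, norm_smul, norm_smul, hu, hv, inner_smul_left, inner_smul_right]
    simp; ring
  rw [h2, h3, Real.sinh_eq, ← mul_div_assoc, mul_sub, ← Real.exp_add, ← Real.exp_add]
  congr 3 <;> ring

theorem integral_sin_mul_sin (lam : ℝ) (u v : E) (hu : ‖u‖ = 1) (hv : ‖v‖ = 1) :
    ∫ Y, Real.sin (lam * ⟪u, Y⟫) * Real.sin (lam * ⟪v, Y⟫) ∂(stdGaussian E)
      = Real.exp (-lam ^ 2) * Real.sinh (lam ^ 2 * ⟪u, v⟫) := by
  rw [integral_sin_mul_sin' lam lam u v hu hv]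
  congr 2 <;> ring

theorem integral_dPsi_mul_sin (lam : ℝ) (u v : E) (hu : ‖u‖ = 1) (hv : ‖v‖ = 1) :
    ∫ Y, dPsi (lam * ⟪u, Y⟫) * Real.sin (lam * ⟪v, Y⟫) ∂(stdGaussian E)
      = kk lam ⟪u, v⟫ := by
  have h1 : ∀ Y : E, dPsi (lam * ⟪u, Y⟫) * Real.sin (lam * ⟪v, Y⟫)
      = cst⁻¹ * ∫ ω : ℝ, Real.exp (-ω ^ 2 / 2) * (Real.sin (ω * (lam * ⟪u, Y⟫)) / ω)
        * Real.sin (lam * ⟪v, Y⟫) := by
    intro Y
    unfold dPsi
    rw [integral_mul_const]; ring
  simp only [h1]
  rw [integral_const_mul]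
  unfold kk
  congr 1
  have hint : Integrable (fun q : E × ℝ =>
      Real.exp (-q.2 ^ 2 / 2) * (Real.sin (q.2 * (lam * ⟪u, q.1⟫)) / q.2)
        * Real.sin (lam * ⟪v, q.1⟫)) ((stdGaussian E).prod volume) := by
    have h2 : Integrable (fun q : E × ℝ => (|lam| * ‖q.1 + 0‖) * Real.exp (-q.2 ^ 2 / 2))
        ((stdGaussian E).prod volume) :=
      ((integrable_norm_add (0 : E)).const_mul |lam|).mul_prod integrable_exp_half
    refine h2.mono' (Measurable.aestronglyMeasurable (by fun_prop))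
      (Filter.Eventually.of_forall fun q => ?_)
    rw [norm_mul, norm_mul, Real.norm_of_nonneg (Real.exp_pos _).le, Real.norm_eq_abs,
      Real.norm_eq_abs]
    have h3 := abs_sin_div_le q.2 (lam * ⟪u, q.1⟫)
    have h4 : |lam * ⟪u, q.1⟫| ≤ |lam| * ‖q.1 + 0‖ := by
      rw [abs_mul, add_zero]
      refine mul_le_mul_of_nonneg_left ?_ (abs_nonneg _)
      have := abs_real_inner_le_norm u q.1
      rwa [hu, one_mul] at this
    calc Real.exp (-q.2 ^ 2 / 2) * |Real.sin (q.2 * (lam * ⟪u, q.1⟫)) / q.2|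
          * |Real.sin (lam * ⟪v, q.1⟫)|
        ≤ Real.exp (-q.2 ^ 2 / 2) * (|lam| * ‖q.1 + 0‖) * 1 := by
          gcongr
          · exact h3.trans h4
          · exact Real.abs_sin_le_one _
      _ = _ := by ring
  rw [integral_integral_swap hint]
  refine integral_congr_ae (Filter.Eventually.of_forall fun ω => ?_)
  simp only
  have h5 : ∀ Y : E, Real.exp (-ω ^ 2 / 2) * (Real.sin (ω * (lam * ⟪u, Y⟫)) / ω)
        * Real.sin (lam * ⟪v, Y⟫)
      = (Real.exp (-ω ^ 2 / 2) / ω) * (Real.sin ((ω * lam) * ⟪u, Y⟫) * Real.sin (lam * ⟪v, Y⟫)) := by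
    intro Y
    rw [← mul_assoc ω lam]; ring
  simp only [h5]
  rw [integral_const_mul, integral_sin_mul_sin' (ω * lam) lam u v hu hv]
  have h6 : -((ω * lam) ^ 2 + lam ^ 2) / 2 = -(lam ^ 2 * (ω ^ 2 + 1)) / 2 := by ring
  have h7 : ω * lam * lam * ⟪u, v⟫ = lam ^ 2 * ω * ⟪u, v⟫ := by ring
  rw [h6, h7]; ring

end Pool.Agent.Helper24.Zono
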