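import Pool.Agent.Helper24.Zono.Rad
import Pool.Agent.Helper24.Zono.Energy

/-!
# Zonotopes close to the ball: first consequences (Rademacher averages)
-/

open Finset
open scoped BigOperators RealInnerProductSpace

namespace Pool.Agent.Helper24.Zono

variable {n N : ℕ}

/-- Weights (half lengths of the segments). -/
noncomputable def wt (x : Fin N → EuclideanSpace ℝ (Fin n)) (j : Fin N) : ℝ := ‖x j‖

/-- Directions of the segments. -/
noncomputable def dir (x : Fin N → EuclideanSpace ℝ (Fin n)) (j : Fin N) :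
    EuclideanSpace ℝ (Fin n) := ‖x j‖⁻¹ • x j

lemma wt_nonneg (x : Fin N → EuclideanSpace ℝ (Fin n)) (j : Fin N) : 0 ≤ wt x j := norm_nonneg _

lemma wt_or (x : Fin N → EuclideanSpace ℝ (Fin n)) (j : Fin N) : wt x j = 0 ∨ ‖dir x j‖ = 1 := by
  rcases eq_or_ne (x j) 0 with h | h
  · left; simp [wt, h]
  · right
    unfold dir
    rw [norm_smul, norm_inv, norm_norm, inv_mul_cancel₀ (norm_ne_zero_iff.2 h)]

lemma norm_dir_le (x : Fin N → EuclideanSpace ℝ (Fin n)) (j : Fin N) : ‖dir x j‖ ≤ 1 := by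
  rcases eq_or_ne (x j) 0 with h | h
  · simp [dir, h]
  · unfold dir
    rw [norm_smul, norm_inv, norm_norm, inv_mul_cancel₀ (norm_ne_zero_iff.2 h)]

lemma wt_smul_dir (x : Fin N → EuclideanSpace ℝ (Fin n)) (j : Fin N) : wt x j • dir x j = x j := by
  rcases eq_or_ne (x j) 0 with h | h
  · simp [dir, wt, h]
  · unfold dir wt
    rw [smul_smul, mul_inv_cancel₀ (norm_ne_zero_iff.2 h), one_smul]

lemma abs_inner_eq (x : Fin N → EuclideanSpace ℝ (Fin n)) (j : Fin N)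
    (y : EuclideanSpace ℝ (Fin n)) : |⟪y, x j⟫| = wt x j * |⟪dir x j, y⟫| := by
  conv_lhs => rw [← wt_smul_dir x j, inner_smul_right, abs_mul, abs_of_nonneg (wt_nonneg x j)]
  rw [real_inner_comm]

/-- Rademacher vector supported on the coordinates in `H`. -/
noncomputable def rv (e : OrthonormalBasis (Fin n) ℝ (EuclideanSpace ℝ (Fin n)))
    (H : Finset (Fin n)) (s : Fin n → Bool) : EuclideanSpace ℝ (Fin n) :=
  ∑ a ∈ H, sg (s a) • e a

lemma inner_rv (e : OrthonormalBasis (Fin n) ℝ (EuclideanSpace ℝ (Fin n)))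
    (H : Finset (Fin n)) (s : Fin n → Bool) (v : EuclideanSpace ℝ (Fin n)) :
    ⟪rv e H s, v⟫ = ∑ a ∈ H, sg (s a) * ⟪e a, v⟫ := by
  unfold rv
  rw [sum_inner]
  exact Finset.sum_congr rfl fun a _ => by rw [inner_smul_left]; rfl

lemma norm_rv (e : OrthonormalBasis (Fin n) ℝ (EuclideanSpace ℝ (Fin n)))
    (H : Finset (Fin n)) (s : Fin n → Bool) : ‖rv e H s‖ = Real.sqrt H.card := by
  have h : ‖rv e H s‖ ^ 2 = H.card := by
    rw [← real_inner_self_eq_norm_sq]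
    conv_lhs => rw [inner_rv]
    have h1 : ∀ a ∈ H, sg (s a) * ⟪e a, rv e H s⟫ = 1 := by
      intro a ha
      rw [real_inner_comm, inner_rv, Finset.sum_eq_single_of_mem a ha]
      · have : ⟪e a, e a⟫ = 1 := by rw [real_inner_self_eq_norm_sq, e.norm_eq_one]; norm_num
        rw [this, mul_one, sg_mul_self]
      · intro b _ hb
        have : ⟪e b, e a⟫ = 0 := by rw [orthonormal_iff_ite.1 e.orthonormal, if_neg hb]
        rw [this, mul_zero]
    rw [Finset.sum_congr rfl h1]; simp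
  rw [← h, Real.sqrt_sq (norm_nonneg _)]

lemma sqrt_sum_le (x : Fin N → EuclideanSpace ℝ (Fin n)) (ε : ℝ)
    (hup : ∀ y, ∑ j, |⟪y, x j⟫| ≤ (1 + ε) * ‖y‖)
    (e : OrthonormalBasis (Fin n) ℝ (EuclideanSpace ℝ (Fin n))) (H : Finset (Fin n)) :
    ∑ j, Real.sqrt (∑ a ∈ H, ⟪e a, x j⟫ ^ 2) ≤ 10 * ((1 + ε) * Real.sqrt H.card) := by
  have h1 : ∀ j, Real.sqrt (∑ a ∈ H, ⟪e a, x j⟫ ^ 2)
      ≤ 10 * 𝔼 s : Fin n → Bool, |⟪rv e H s, x j⟫| := by
    intro j
    have h := khintchine_L1 (fun a => if a ∈ H then ⟪e a, x j⟫ else 0)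
    have h2 : ∑ a, (if a ∈ H then ⟪e a, x j⟫ else 0) ^ 2 = ∑ a ∈ H, ⟪e a, x j⟫ ^ 2 := by
      rw [← Finset.sum_filter_add_sum_filter_not univ (fun a => a ∈ H)]
      rw [Finset.sum_congr rfl (g := fun a => ⟪e a, x j⟫ ^ 2) (fun a ha => by
        rw [if_pos (Finset.mem_filter.1 ha).2])]
      rw [Finset.sum_eq_zero (s := univ.filter fun a => ¬ a ∈ H) (fun a ha => by
        rw [if_neg (Finset.mem_filter.1 ha).2]; ring)]
      simp
    have h3 : ∀ s : Fin n → Bool, ∑ a, sg (s a) * (if a ∈ H then ⟪e a, x j⟫ else 0)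
        = ⟪rv e H s, x j⟫ := by
      intro s
      rw [inner_rv]
      simp only [mul_ite, mul_zero]
      rw [← Finset.sum_filter]
      simp
    rw [h2] at h
    simpa only [h3] using h
  calc ∑ j, Real.sqrt (∑ a ∈ H, ⟪e a, x j⟫ ^ 2)
      ≤ ∑ j, 10 * 𝔼 s : Fin n → Bool, |⟪rv e H s, x j⟫| := Finset.sum_le_sum fun j _ => h1 j
    _ = 10 * 𝔼 s : Fin n → Bool, ∑ j, |⟪rv e H s, x j⟫| := by
        rw [← Finset.mul_sum, Finset.expect_sum_comm]
    _ ≤ 10 * 𝔼 _s : Fin n → Bool, (1 + ε) * Real.sqrt H.card := by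
        refine mul_le_mul_of_nonneg_left (expect_mono fun s => ?_) (by norm_num)
        have := hup (rv e H s)
        rwa [norm_rv] at this
    _ = _ := by rw [Fintype.expect_const]

lemma cap (x : Fin N → EuclideanSpace ℝ (Fin n)) (ε : ℝ)
    (hup : ∀ y, ∑ j, |⟪y, x j⟫| ≤ (1 + ε) * ‖y‖)
    (e : OrthonormalBasis (Fin n) ℝ (EuclideanSpace ℝ (Fin n))) (H : Finset (Fin n)) :
    ∑ j, wt x j * ∑ a ∈ H, ⟪dir x j, e a⟫ ^ 2 ≤ 10 * ((1 + ε) * Real.sqrt H.card) := by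
  refine le_trans (Finset.sum_le_sum fun j _ => ?_) (sqrt_sum_le x ε hup e H)
  have h1 : ∑ a ∈ H, ⟪e a, x j⟫ ^ 2 = wt x j ^ 2 * ∑ a ∈ H, ⟪dir x j, e a⟫ ^ 2 := by
    rw [Finset.mul_sum]
    refine Finset.sum_congr rfl fun a _ => ?_
    conv_lhs => rw [← wt_smul_dir x j, inner_smul_right]
    rw [real_inner_comm]; ring
  have h0 : 0 ≤ ∑ a ∈ H, ⟪dir x j, e a⟫ ^ 2 := Finset.sum_nonneg fun a _ => sq_nonneg _
  have h2 : ∑ a ∈ H, ⟪dir x j, e a⟫ ^ 2 ≤ 1 := by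
    calc ∑ a ∈ H, ⟪dir x j, e a⟫ ^ 2 ≤ ∑ a, ⟪dir x j, e a⟫ ^ 2 :=
          Finset.sum_le_sum_of_subset_of_nonneg (Finset.subset_univ _) fun a _ _ => sq_nonneg _
      _ = ‖dir x j‖ ^ 2 := by
          rw [norm_sq_eq_sum e]
          exact Finset.sum_congr rfl fun a _ => by rw [real_inner_comm]
      _ ≤ 1 := pow_le_one₀ (norm_nonneg _) (norm_dir_le x j)
  rw [h1, Real.sqrt_mul (sq_nonneg _), Real.sqrt_sq (wt_nonneg x j)]
  refine mul_le_mul_of_nonneg_left ?_ (wt_nonneg x j)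
  apply Real.le_sqrt_of_sq_le
  nlinarith

lemma W_le (x : Fin N → EuclideanSpace ℝ (Fin n)) (ε : ℝ)
    (hup : ∀ y, ∑ j, |⟪y, x j⟫| ≤ (1 + ε) * ‖y‖) :
    ∑ j, wt x j ≤ 10 * ((1 + ε) * Real.sqrt n) := by
  set e := EuclideanSpace.basisFun (Fin n) ℝ with he
  have h := sqrt_sum_le x ε hup e univ
  rw [Finset.card_univ, Fintype.card_fin] at h
  refine le_trans (le_of_eq (Finset.sum_congr rfl fun j _ => ?_)) h
  rw [← norm_sq_eq_sum e, Real.sqrt_sq (norm_nonneg _)]; rfl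

lemma W_ge (x : Fin N → EuclideanSpace ℝ (Fin n)) (ε : ℝ)
    (hlow : ∀ y, (1 - ε) * ‖y‖ ≤ ∑ j, |⟪y, x j⟫|) :
    (1 - ε) * Real.sqrt n ≤ ∑ j, wt x j := by
  set e := EuclideanSpace.basisFun (Fin n) ℝ with he
  have h1 : ∀ j, (𝔼 s : Fin n → Bool, |⟪rv e univ s, x j⟫|) ≤ wt x j := by
    intro j
    rcases (wt_nonneg x j).eq_or_lt with h0 | h0
    · have hx : x j = 0 := norm_eq_zero.1 h0.symm
      rw [← h0, hx]
      simp
    · have h2 : ∀ s : Fin n → Bool, |⟪rv e univ s, x j⟫|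
          ≤ (⟪rv e univ s, x j⟫ ^ 2 / wt x j + wt x j) / 2 := by
        intro s
        rw [← sq_abs ⟪rv e univ s, x j⟫]
        have h3 : (|⟪rv e univ s, x j⟫| ^ 2 / wt x j + wt x j) / 2 - |⟪rv e univ s, x j⟫|
            = (|⟪rv e univ s, x j⟫| - wt x j) ^ 2 / (2 * wt x j) := by
          field_simp; ring
        have h4 : 0 ≤ (|⟪rv e univ s, x j⟫| - wt x j) ^ 2 / (2 * wt x j) := by positivity
        linarith
      have h5 : (𝔼 s : Fin n → Bool, ⟪rv e univ s, x j⟫ ^ 2) = wt x j ^ 2 := by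
        have h6 := expect_sq (fun a => ⟪e a, x j⟫)
        simp only [← inner_rv e univ] at h6
        rw [h6, ← norm_sq_eq_sum e]; rfl
      calc (𝔼 s : Fin n → Bool, |⟪rv e univ s, x j⟫|)
          ≤ 𝔼 s : Fin n → Bool, (⟪rv e univ s, x j⟫ ^ 2 / wt x j + wt x j) / 2 := expect_mono h2
        _ = ((𝔼 s : Fin n → Bool, ⟪rv e univ s, x j⟫ ^ 2) / wt x j + wt x j) / 2 := by
            rw [← Finset.expect_div, Finset.expect_add_distrib, ← Finset.expect_div,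
              Fintype.expect_const]
        _ = wt x j := by rw [h5]; field_simp; ring
  calc (1 - ε) * Real.sqrt n = 𝔼 s : Fin n → Bool, (1 - ε) * ‖rv e univ s‖ := by
        simp only [norm_rv, Finset.card_univ, Fintype.card_fin]
        rw [Fintype.expect_const]
    _ ≤ 𝔼 s : Fin n → Bool, ∑ j, |⟪rv e univ s, x j⟫| := expect_mono fun s => hlow _
    _ = ∑ j, 𝔼 s : Fin n → Bool, |⟪rv e univ s, x j⟫| := by rw [Finset.expect_sum_comm]
    _ ≤ ∑ j, wt x j := Finset.sum_le_sum fun j _ => h1 j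

end Pool.Agent.Helper24.Zono
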