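import Pool.Agent.Helper24.Zono.Pair1
import Pool.Agent.Helper24.Zono.Setup

/-!
# Lower bound and isotropic average of the pairing kernel
-/

open MeasureTheory ProbabilityTheory Finset
open scoped RealInnerProductSpace BigOperators

namespace Pool.Agent.Helper24.Zono

lemma sinh_le_mul_cosh {x : ℝ} (hx : 0 ≤ x) : Real.sinh x ≤ x * Real.cosh x := by
  have hmono : MonotoneOn (fun y : ℝ => y * Real.cosh y - Real.sinh y) (Set.Ici 0) := by
    apply monotoneOn_of_deriv_nonneg (convex_Ici 0)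
    · fun_prop
    · fun_prop
    · intro y hy
      rw [interior_Ici, Set.mem_Ioi] at hy
      have h1 : HasDerivAt (fun y : ℝ => y * Real.cosh y - Real.sinh y)
          ((1 * Real.cosh y + y * Real.sinh y) - Real.cosh y) y :=
        ((hasDerivAt_id y).mul (Real.hasDerivAt_cosh y)).sub (Real.hasDerivAt_sinh y)
      rw [h1.deriv]
      have h2 : 0 ≤ y * Real.sinh y := mul_nonneg hy.le (Real.sinh_nonneg_iff.2 hy.le)
      linarith
  have h1 := hmono (Set.mem_Ici.2 le_rfl) (Set.mem_Ici.2 hx) hx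
  simp only [Real.cosh_zero, Real.sinh_zero, zero_mul, sub_zero] at h1
  linarith

lemma mul_sinh_le (x : ℝ) : x * Real.sinh x ≤ x ^ 2 * Real.cosh x := by
  rcases le_total 0 x with h | h
  · have := mul_le_mul_of_nonneg_left (sinh_le_mul_cosh h) h
    linarith [this, sq x]
  · have h1 : 0 ≤ -x := by linarith
    have := mul_le_mul_of_nonneg_left (sinh_le_mul_cosh h1) h1
    rw [Real.sinh_neg, Real.cosh_neg] at this
    nlinarith

lemma mul_sinh_nonneg (a x : ℝ) (ha : 0 ≤ a) : 0 ≤ x * Real.sinh (a * x) := by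
  rcases le_total 0 x with h | h
  · exact mul_nonneg h (Real.sinh_nonneg_iff.2 (mul_nonneg ha h))
  · exact mul_nonneg_of_nonpos_of_nonpos h
      (Real.sinh_nonpos_iff.2 (mul_nonpos_of_nonneg_of_nonpos ha h))

/-- the integrand of the kernel -/
noncomputable def kint (lam ρ ω : ℝ) : ℝ :=
  Real.exp (-ω ^ 2 / 2) * (Real.exp (-(lam ^ 2 * (ω ^ 2 + 1)) / 2)
    * (Real.sinh (lam ^ 2 * ω * ρ) / ω))

lemma kk_eq (lam ρ : ℝ) : kk lam ρ = cst⁻¹ * ∫ ω : ℝ, kint lam ρ ω := rfl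

lemma rho_sinh_div_nonneg (lam ρ ω : ℝ) : 0 ≤ ρ * (Real.sinh (lam ^ 2 * ω * ρ) / ω) := by
  rcases lt_trichotomy ω 0 with h | h | h
  · have h1 := mul_sinh_nonneg (lam ^ 2 * -ω) ρ (mul_nonneg (sq_nonneg _) (by linarith))
    have h2 : lam ^ 2 * ω * ρ = -(lam ^ 2 * -ω * ρ) := by ring
    rw [h2, Real.sinh_neg]
    have h3 : ρ * (-Real.sinh (lam ^ 2 * -ω * ρ) / ω) = (ρ * Real.sinh (lam ^ 2 * -ω * ρ)) / (-ω) := by
      field_simp
    rw [h3]
    exact div_nonneg h1 (by linarith)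
  · subst h
    simp
  · have h1 := mul_sinh_nonneg (lam ^ 2 * ω) ρ (mul_nonneg (sq_nonneg _) h.le)
    have h3 : ρ * (Real.sinh (lam ^ 2 * ω * ρ) / ω) = (ρ * Real.sinh (lam ^ 2 * ω * ρ)) / ω := by
      field_simp
    rw [h3]
    exact div_nonneg h1 h.le

lemma rho_kint_nonneg (lam ρ ω : ℝ) : 0 ≤ ρ * kint lam ρ ω := by
  have h1 := rho_sinh_div_nonneg lam ρ ω
  have h2 : ρ * kint lam ρ ω = Real.exp (-ω ^ 2 / 2) * Real.exp (-(lam ^ 2 * (ω ^ 2 + 1)) / 2) *
      (ρ * (Real.sinh (lam ^ 2 * ω * ρ) / ω)) := by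
    unfold kint
    ring
  rw [h2]
  positivity

/-- Lower bound for the kernel. -/
theorem kk_lower : ∃ c : ℝ, 0 < c ∧ ∀ lam ρ : ℝ, 1 ≤ lam → |ρ| ≤ 1 →
    c * (lam ^ 2)⁻¹ * (Real.exp (-lam ^ 2) * (ρ * Real.sinh (lam ^ 2 * ρ))) ≤ ρ * kk lam ρ := by
  have hc := cst_pos
  refine ⟨cst⁻¹ * (Real.exp (-(7 / 2)) / 2), by positivity, fun lam ρ hlam hρ => ?_⟩
  set δ : ℝ := (lam ^ 2)⁻¹ with hδ
  have hlam2 : 1 ≤ lam ^ 2 := by nlinarith
  have hδ0 : 0 < δ := by positivity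
  have hδ1 : δ ≤ 1 := inv_le_one_of_one_le₀ hlam2
  have hδl : lam ^ 2 * δ = 1 := mul_inv_cancel₀ (by positivity)
  set A : ℝ := ρ * Real.sinh (lam ^ 2 * ρ) with hA
  have hA0 : 0 ≤ A := mul_sinh_nonneg _ _ (by positivity)
  set K : ℝ := Real.exp (-(7 / 2)) / 2 * (Real.exp (-lam ^ 2) * A) with hK
  have hK0 : 0 ≤ K := by positivity
  have hpt : ∀ ω : ℝ, (Set.Icc 1 (1 + δ)).indicator (fun _ => K) ω ≤ ρ * kint lam ρ ω := by
    intro ω
    by_cases hω : ω ∈ Set.Icc 1 (1 + δ)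
    · rw [Set.indicator_of_mem hω]
      obtain ⟨h1, h2⟩ := hω
      have hω0 : 0 < ω := by linarith
      have hω2 : ω ≤ 2 := by linarith
      have e1 : Real.exp (-2) ≤ Real.exp (-ω ^ 2 / 2) := by
        apply Real.exp_le_exp.2
        nlinarith
      have e2 : Real.exp (-lam ^ 2 - 3 / 2) ≤ Real.exp (-(lam ^ 2 * (ω ^ 2 + 1)) / 2) := by
        apply Real.exp_le_exp.2
        have h3 : ω ^ 2 ≤ (1 + δ) ^ 2 := by nlinarith
        have h4 : lam ^ 2 * (ω ^ 2 + 1) ≤ lam ^ 2 * ((1 + δ) ^ 2 + 1) := by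
          apply mul_le_mul_of_nonneg_left _ (by positivity)
          linarith
        have h5 : lam ^ 2 * ((1 + δ) ^ 2 + 1) = 2 * lam ^ 2 + 2 * (lam ^ 2 * δ) + (lam ^ 2 * δ) * δ := by
          ring
        rw [h5, hδl] at h4
        linarith
      have e3 : A / 2 ≤ ρ * (Real.sinh (lam ^ 2 * ω * ρ) / ω) := by
        have h3 : A ≤ ρ * Real.sinh (lam ^ 2 * ω * ρ) := by
          rw [hA]
          rcases le_total 0 ρ with h | h
          · apply mul_le_mul_of_nonneg_left _ h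
            apply Real.sinh_le_sinh.2
            have : 0 ≤ lam ^ 2 * ρ := by positivity
            nlinarith
          · apply mul_le_mul_of_nonpos_left _ h
            apply Real.sinh_le_sinh.2
            have : lam ^ 2 * ρ ≤ 0 := mul_nonpos_of_nonneg_of_nonpos (by positivity) h
            nlinarith
        have h4 : ρ * (Real.sinh (lam ^ 2 * ω * ρ) / ω) = (ρ * Real.sinh (lam ^ 2 * ω * ρ)) / ω := by
          ring
        rw [h4, div_le_div_iff₀ (by norm_num) hω0]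
        have h5 : A * ω ≤ A * 2 := mul_le_mul_of_nonneg_left hω2 hA0
        linarith
      have h6 : ρ * kint lam ρ ω = Real.exp (-ω ^ 2 / 2) *
          Real.exp (-(lam ^ 2 * (ω ^ 2 + 1)) / 2) * (ρ * (Real.sinh (lam ^ 2 * ω * ρ) / ω)) := by
        unfold kint
        ring
      rw [h6]
      have h7 : K = Real.exp (-2) * Real.exp (-lam ^ 2 - 3 / 2) * (A / 2) := by
        have h8 : Real.exp (-2) * Real.exp (-lam ^ 2 - 3 / 2) =
            Real.exp (-(7 / 2)) * Real.exp (-lam ^ 2) := by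
          rw [← Real.exp_add, ← Real.exp_add]
          congr 1
          ring
        rw [h8, hK]
        ring
      rw [h7]
      have h9 : Real.exp (-2) * Real.exp (-lam ^ 2 - 3 / 2) ≤ Real.exp (-ω ^ 2 / 2) *
          Real.exp (-(lam ^ 2 * (ω ^ 2 + 1)) / 2) :=
        mul_le_mul e1 e2 (Real.exp_pos _).le (Real.exp_pos _).le
      exact mul_le_mul h9 e3 (by positivity) (by positivity)
    · rw [Set.indicator_of_notMem hω]
      exact rho_kint_nonneg lam ρ ω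
  have hint : Integrable (fun ω : ℝ => ρ * kint lam ρ ω) := (integrable_kk lam ρ hρ).const_mul ρ
  have hind : Integrable ((Set.Icc 1 (1 + δ)).indicator (fun _ : ℝ => K)) := by
    apply IntegrableOn.integrable_indicator _ measurableSet_Icc
    exact integrableOn_const (by simp) (by simp)
  have h1 := integral_mono hind hint hpt
  rw [integral_indicator measurableSet_Icc, setIntegral_const, integral_const_mul] at h1
  have h2 : volume.real (Set.Icc (1 : ℝ) (1 + δ)) = δ := by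
    rw [Real.volume_real_Icc_of_le (by linarith)]
    ring
  rw [h2, smul_eq_mul] at h1
  have h3 : ρ * kk lam ρ = cst⁻¹ * (ρ * ∫ ω : ℝ, kint lam ρ ω) := by
    rw [kk_eq]
    ring
  rw [h3]
  have h4 := mul_le_mul_of_nonneg_left h1 (inv_pos.2 hc).le
  refine le_trans (le_of_eq ?_) h4
  rw [hK]
  ring

/-- Rotation invariance for a general even/odd function of the angle. -/
theorem integral_norm_mul_comp_eq {n : ℕ} (F : ℝ → ℝ) (u v : EuclideanSpace ℝ (Fin n))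
    (hu : ‖u‖ = 1) (hv : ‖v‖ = 1) :
    ∫ z, ‖z‖ * F ⟪‖z‖⁻¹ • z, u⟫ ∂(stdGaussian (EuclideanSpace ℝ (Fin n))) =
      ∫ z, ‖z‖ * F ⟪‖z‖⁻¹ • z, v⟫ ∂(stdGaussian (EuclideanSpace ℝ (Fin n))) := by
  obtain ⟨f, hf⟩ : ∃ f : EuclideanSpace ℝ (Fin n) ≃ₗᵢ[ℝ] EuclideanSpace ℝ (Fin n), f u = v :=
    ⟨((ℝ ∙ (u - v))ᗮ).reflection, Submodule.reflection_sub (hu.trans hv.symm)⟩
  have h1 := stdGaussian_map f
  have hme : MeasurableEmbedding f := f.toHomeomorph.measurableEmbedding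
  conv_rhs => rw [← h1]
  rw [hme.integral_map]
  refine integral_congr_ae (Filter.Eventually.of_forall fun z => ?_)
  simp only
  rw [f.norm_map, ← hf, ← map_smul, f.inner_map_map]

/-- Rotation invariance of integrability. -/
theorem integrable_norm_mul_comp {n : ℕ} (F : ℝ → ℝ) (u v : EuclideanSpace ℝ (Fin n))
    (hu : ‖u‖ = 1) (hv : ‖v‖ = 1)
    (h : Integrable (fun z => ‖z‖ * F ⟪‖z‖⁻¹ • z, u⟫) (stdGaussian (EuclideanSpace ℝ (Fin n)))) :
    Integrable (fun z => ‖z‖ * F ⟪‖z‖⁻¹ • z, v⟫) (stdGaussian (EuclideanSpace ℝ (Fin n))) := by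
  obtain ⟨f, hf⟩ : ∃ f : EuclideanSpace ℝ (Fin n) ≃ₗᵢ[ℝ] EuclideanSpace ℝ (Fin n), f u = v :=
    ⟨((ℝ ∙ (u - v))ᗮ).reflection, Submodule.reflection_sub (hu.trans hv.symm)⟩
  have h1 := stdGaussian_map f
  have hme : MeasurableEmbedding f := f.toHomeomorph.measurableEmbedding
  rw [← h1, hme.integrable_map_iff]
  refine h.congr (Filter.Eventually.of_forall fun z => ?_)
  simp only [Function.comp_apply]
  rw [f.norm_map, ← hf, ← map_smul, f.inner_map_map]

/-- Average of `x² cosh (t x)` over a Rademacher sum. -/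
lemma avg_cosh {n : ℕ} (hn : 0 < n) (c : Fin n → ℝ) (hc : ∑ a, c a ^ 2 ≤ 1 / n) (t : ℝ) :
    (𝔼 s : Fin n → Bool, (∑ a, sg (s a) * c a) ^ 2 * Real.cosh (t * ∑ a, sg (s a) * c a)) ≤
      10 / n * Real.exp (t ^ 2 / n) := by
  have hn' : (0 : ℝ) < n := by exact_mod_cast hn
  set E0 : ℝ := Real.exp (t ^ 2 / n) with hE0
  have hE0p : 0 < E0 := Real.exp_pos _
  set α : ℝ := n / 10 * E0 with hα
  have hαp : 0 < α := by positivity
  have hpt : ∀ s : Fin n → Bool,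
      (∑ a, sg (s a) * c a) ^ 2 * Real.cosh (t * ∑ a, sg (s a) * c a) ≤
      α / 2 * (∑ a, sg (s a) * c a) ^ (2 * 2) + (4 * α)⁻¹ * (Real.exp (∑ a, sg (s a) * (2 * t * c a))
        + Real.exp (∑ a, sg (s a) * (-(2 * t) * c a))) := by
    intro s
    set x : ℝ := ∑ a, sg (s a) * c a with hx
    have h1 : ∑ a, sg (s a) * (2 * t * c a) = 2 * (t * x) := by
      rw [hx, Finset.mul_sum, Finset.mul_sum]
      exact Finset.sum_congr rfl fun a _ => by ring
    have h2 : ∑ a, sg (s a) * (-(2 * t) * c a) = -(2 * (t * x)) := by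
      rw [hx, Finset.mul_sum, Finset.mul_sum, ← Finset.sum_neg_distrib]
      exact Finset.sum_congr rfl fun a _ => by ring
    rw [h1, h2]
    have h3 : Real.exp (2 * (t * x)) + Real.exp (-(2 * (t * x))) = 2 * Real.cosh (2 * (t * x)) := by
      rw [Real.cosh_eq]; ring
    rw [h3, Real.cosh_two_mul]
    have h4 := Real.cosh_sq (t * x)
    set y := Real.cosh (t * x) with hy
    have h5 : 0 ≤ (α * x ^ 2 - y) ^ 2 / (2 * α) := by positivity
    have h6 : (α * x ^ 2 - y) ^ 2 / (2 * α) = α / 2 * x ^ (2 * 2) + y ^ 2 / (2 * α) - x ^ 2 * y := by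
      field_simp
      ring
    have h7 : y ^ 2 / (2 * α) ≤ (4 * α)⁻¹ * (2 * (y ^ 2 + Real.sinh (t * x) ^ 2)) := by
      have h8 : (4 * α)⁻¹ * (2 * (y ^ 2 + Real.sinh (t * x) ^ 2)) =
          y ^ 2 / (2 * α) + Real.sinh (t * x) ^ 2 / (2 * α) := by
        field_simp
        ring
      rw [h8]
      have : 0 ≤ Real.sinh (t * x) ^ 2 / (2 * α) := by positivity
      linarith
    linarith
  have hexp : ∀ r : ℝ, r ^ 2 = (2 * t) ^ 2 →
      (𝔼 s : Fin n → Bool, Real.exp (∑ a, sg (s a) * (r * c a))) ≤ E0 ^ 2 := by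
    intro r hr
    refine (expect_exp_le (fun a => r * c a)).trans ?_
    rw [hE0, ← Real.exp_nat_mul]
    apply Real.exp_le_exp.2
    have h1 : ∑ a, (r * c a) ^ 2 = (2 * t) ^ 2 * ∑ a, c a ^ 2 := by
      rw [Finset.mul_sum, ← hr]
      exact Finset.sum_congr rfl fun a _ => by ring
    rw [h1]
    have h2 : (2 * t) ^ 2 * ∑ a, c a ^ 2 ≤ (2 * t) ^ 2 * (1 / n) :=
      mul_le_mul_of_nonneg_left hc (sq_nonneg _)
    have h3 : ((2 : ℕ) : ℝ) * (t ^ 2 / n) = (2 * t) ^ 2 * (1 / n) / 2 := by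
      push_cast
      ring
    rw [h3]
    linarith
  have hk := khintchine c 2
  have hK : Kc 2 = 96 := by unfold Kc; norm_num [Nat.factorial]
  have hc0 : 0 ≤ ∑ a, c a ^ 2 := Finset.sum_nonneg fun a _ => sq_nonneg _
  have hk2 : (𝔼 s : Fin n → Bool, (∑ a, sg (s a) * c a) ^ (2 * 2)) ≤ 96 * (1 / n) ^ 2 := by
    refine hk.trans ?_
    rw [hK]
    gcongr
  calc (𝔼 s : Fin n → Bool, (∑ a, sg (s a) * c a) ^ 2 * Real.cosh (t * ∑ a, sg (s a) * c a))
      ≤ 𝔼 s : Fin n → Bool, (α / 2 * (∑ a, sg (s a) * c a) ^ (2 * 2) +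
        (4 * α)⁻¹ * (Real.exp (∑ a, sg (s a) * (2 * t * c a))
        + Real.exp (∑ a, sg (s a) * (-(2 * t) * c a)))) := expect_mono hpt
    _ = α / 2 * (𝔼 s : Fin n → Bool, (∑ a, sg (s a) * c a) ^ (2 * 2)) +
        (4 * α)⁻¹ * ((𝔼 s : Fin n → Bool, Real.exp (∑ a, sg (s a) * (2 * t * c a)))
        + 𝔼 s : Fin n → Bool, Real.exp (∑ a, sg (s a) * (-(2 * t) * c a))) := by
        rw [Finset.expect_add_distrib, ← Finset.mul_expect, ← Finset.mul_expect,
          Finset.expect_add_distrib]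
    _ ≤ α / 2 * (96 * (1 / n) ^ 2) + (4 * α)⁻¹ * (E0 ^ 2 + E0 ^ 2) := by
        gcongr
        · exact hexp (2 * t) rfl
        · exact hexp (-(2 * t)) (by ring)
    _ = (48 / 10 + 5) / n * E0 := by
        rw [hα]
        field_simp
        ring
    _ ≤ 10 / n * E0 := by
        gcongr
        norm_num

/-- Rademacher average of the kernel. -/
lemma avg_kk {n : ℕ} (hn : 0 < n) (c : Fin n → ℝ) (hc : ∑ a, c a ^ 2 ≤ 1 / n)
    (h1 : ∀ s : Fin n → Bool, |∑ a, sg (s a) * c a| ≤ 1) (lam : ℝ) (hlam : lam ^ 2 ≤ n / 4) :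
    (𝔼 s : Fin n → Bool, (∑ a, sg (s a) * c a) * kk lam (∑ a, sg (s a) * c a)) ≤
      cst⁻¹ * (10 / n * (lam ^ 2 * Real.exp (-lam ^ 2 / 2)) * Real.sqrt (Real.pi / (1 / 2))) := by
  have hn' : (0 : ℝ) < n := by exact_mod_cast hn
  have hcst := cst_pos
  set x : (Fin n → Bool) → ℝ := fun s => ∑ a, sg (s a) * c a with hx
  have e1 : (𝔼 s : Fin n → Bool, x s * kk lam (x s)) =
      cst⁻¹ * ∫ ω : ℝ, 𝔼 s : Fin n → Bool, x s * kint lam (x s) ω := by
    have e2 : ∀ s, x s * kk lam (x s) = cst⁻¹ * ∫ ω : ℝ, x s * kint lam (x s) ω := by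
      intro s
      rw [kk_eq, integral_const_mul]
      ring
    have hi : ∀ s, Integrable (fun ω : ℝ => x s * kint lam (x s) ω) := fun s =>
      (integrable_kk lam (x s) (h1 s)).const_mul (x s)
    simp_rw [e2, Fintype.expect_eq_sum_div_card]
    rw [integral_div, integral_finsetSum _ fun s _ => hi s, ← Finset.mul_sum]
    ring
  have e3 : ∀ ω : ℝ, (𝔼 s : Fin n → Bool, x s * kint lam (x s) ω) ≤
      10 / n * (lam ^ 2 * Real.exp (-lam ^ 2 / 2)) * Real.exp (-(1 / 2) * ω ^ 2) := by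
    intro ω
    have e4 : ∀ s, x s * kint lam (x s) ω ≤ Real.exp (-ω ^ 2 / 2) *
        Real.exp (-(lam ^ 2 * (ω ^ 2 + 1)) / 2) * lam ^ 2 *
        (x s ^ 2 * Real.cosh (lam ^ 2 * ω * x s)) := by
      intro s
      have h6 : x s * kint lam (x s) ω = Real.exp (-ω ^ 2 / 2) *
          Real.exp (-(lam ^ 2 * (ω ^ 2 + 1)) / 2) * (x s * (Real.sinh (lam ^ 2 * ω * x s) / ω)) := by
        unfold kint
        ring
      rw [h6, mul_assoc _ (lam ^ 2) _]
      apply mul_le_mul_of_nonneg_left _ (by positivity)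
      have hcosh : 0 < Real.cosh (lam ^ 2 * ω * x s) := Real.cosh_pos _
      rcases eq_or_ne ω 0 with h | h
      · subst h
        simp only [div_zero, mul_zero]
        positivity
      · rcases eq_or_ne lam 0 with h' | h'
        · subst h'
          simp
        · have h7 := mul_sinh_le (lam ^ 2 * ω * x s)
          have h8 : 0 < lam ^ 2 * ω ^ 2 := by positivity
          have h9 : x s * (Real.sinh (lam ^ 2 * ω * x s) / ω) =
              (lam ^ 2 * ω * x s * Real.sinh (lam ^ 2 * ω * x s)) / (lam ^ 2 * ω ^ 2) := by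
            field_simp
          rw [h9, div_le_iff₀ h8]
          refine h7.trans (le_of_eq ?_)
          ring
    have e5 := expect_mono e4
    rw [← Finset.mul_expect] at e5
    refine e5.trans ?_
    have e6 := avg_cosh hn c hc (lam ^ 2 * ω)
    have e7 : Real.exp ((lam ^ 2 * ω) ^ 2 / n) ≤ Real.exp (lam ^ 2 * ω ^ 2 / 4) := by
      apply Real.exp_le_exp.2
      rw [div_le_div_iff₀ hn' (by norm_num)]
      have h2 : lam ^ 2 * (lam ^ 2 * ω ^ 2) ≤ n / 4 * (lam ^ 2 * ω ^ 2) :=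
        mul_le_mul_of_nonneg_right hlam (by positivity)
      nlinarith
    have e8 : (𝔼 s : Fin n → Bool, (x s) ^ 2 * Real.cosh (lam ^ 2 * ω * x s)) ≤
        10 / n * Real.exp (lam ^ 2 * ω ^ 2 / 4) :=
      e6.trans (mul_le_mul_of_nonneg_left e7 (by positivity))
    refine (mul_le_mul_of_nonneg_left e8 (by positivity)).trans ?_
    have e9 : Real.exp (-(lam ^ 2 * (ω ^ 2 + 1)) / 2) * Real.exp (lam ^ 2 * ω ^ 2 / 4) ≤
        Real.exp (-lam ^ 2 / 2) := by
      rw [← Real.exp_add]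
      apply Real.exp_le_exp.2
      nlinarith [mul_nonneg (sq_nonneg lam) (sq_nonneg ω)]
    have e10 : Real.exp (-(1 / 2) * ω ^ 2) = Real.exp (-ω ^ 2 / 2) := by
      congr 1
      ring
    rw [e10]
    calc Real.exp (-ω ^ 2 / 2) * Real.exp (-(lam ^ 2 * (ω ^ 2 + 1)) / 2) * lam ^ 2 *
        (10 / n * Real.exp (lam ^ 2 * ω ^ 2 / 4))
        = (10 / n * lam ^ 2 * Real.exp (-ω ^ 2 / 2)) *
          (Real.exp (-(lam ^ 2 * (ω ^ 2 + 1)) / 2) * Real.exp (lam ^ 2 * ω ^ 2 / 4)) := by ring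
      _ ≤ (10 / n * lam ^ 2 * Real.exp (-ω ^ 2 / 2)) * Real.exp (-lam ^ 2 / 2) :=
          mul_le_mul_of_nonneg_left e9 (by positivity)
      _ = _ := by ring
  have hL : Integrable (fun ω : ℝ => 𝔼 s : Fin n → Bool, x s * kint lam (x s) ω) := by
    simp_rw [Fintype.expect_eq_sum_div_card]
    exact (integrable_finsetSum _ fun s _ =>
      (integrable_kk lam (x s) (h1 s)).const_mul (x s)).div_const _
  have hR : Integrable (fun ω : ℝ => 10 / n * (lam ^ 2 * Real.exp (-lam ^ 2 / 2)) *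
      Real.exp (-(1 / 2) * ω ^ 2)) :=
    (integrable_exp_neg_mul_sq (by norm_num : (0 : ℝ) < 1 / 2)).const_mul _
  have e11 := integral_mono hL hR e3
  rw [integral_const_mul, integral_gaussian] at e11
  rw [e1]
  exact mul_le_mul_of_nonneg_left e11 (inv_pos.2 hcst).le

/-- The isotropic average of the kernel is exponentially small. -/
theorem iso_kk : ∃ C : ℝ, 0 < C ∧ ∀ (n : ℕ) (_ : 0 < n) (lam : ℝ) (_ : 1 ≤ lam)
    (_ : lam ^ 2 ≤ n / 4) (u : EuclideanSpace ℝ (Fin n)) (_ : ‖u‖ = 1),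
    ∫ z, ‖z‖ * (⟪‖z‖⁻¹ • z, u⟫ * kk lam ⟪‖z‖⁻¹ • z, u⟫)
        ∂(stdGaussian (EuclideanSpace ℝ (Fin n)))
      ≤ C * lam ^ 2 * Real.exp (-lam ^ 2 / 2) / Real.sqrt n := by
  have hcst := cst_pos
  refine ⟨cst⁻¹ * 10 * Real.sqrt (Real.pi / (1 / 2)), by positivity, ?_⟩
  intro n hn lam hlam hlam2 u hu
  have hn' : (0 : ℝ) < n := by exact_mod_cast hn
  set F : ℝ → ℝ := fun ρ => ρ * kk lam ρ with hF
  set μ := stdGaussian (EuclideanSpace ℝ (Fin n)) with hμ
  by_cases hint : Integrable (fun z => ‖z‖ * F ⟪‖z‖⁻¹ • z, u⟫) μ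
  swap
  · have h0 : ∫ z, ‖z‖ * (⟪‖z‖⁻¹ • z, u⟫ * kk lam ⟪‖z‖⁻¹ • z, u⟫) ∂μ = 0 :=
      integral_undef hint
    rw [h0]
    positivity
  set e := EuclideanSpace.basisFun (Fin n) ℝ with he
  have hsn : Real.sqrt n ≠ 0 := by positivity
  set v : (Fin n → Bool) → EuclideanSpace ℝ (Fin n) := fun s => (Real.sqrt n)⁻¹ • rv e univ s with hv
  have hvn : ∀ s, ‖v s‖ = 1 := by
    intro s
    rw [hv]
    simp only
    rw [norm_smul, norm_rv, Finset.card_univ, Fintype.card_fin, norm_inv,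
      Real.norm_of_nonneg (Real.sqrt_nonneg _), inv_mul_cancel₀ hsn]
  have hinner : ∀ (z : EuclideanSpace ℝ (Fin n)) s,
      ⟪z, v s⟫ = ∑ a, sg (s a) * ((Real.sqrt n)⁻¹ * ⟪e a, z⟫) := by
    intro z s
    rw [hv]
    simp only
    rw [inner_smul_right, real_inner_comm, inner_rv, Finset.mul_sum]
    exact Finset.sum_congr rfl fun a _ => by ring
  have h1 : ∫ z, ‖z‖ * F ⟪‖z‖⁻¹ • z, u⟫ ∂μ =
      ∫ z, 𝔼 s : Fin n → Bool, ‖z‖ * F ⟪‖z‖⁻¹ • z, v s⟫ ∂μ := by
    simp_rw [Fintype.expect_eq_sum_div_card]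
    rw [integral_div, integral_finsetSum _ fun s _ => integrable_norm_mul_comp F u (v s) hu (hvn s) hint]
    rw [Finset.sum_congr rfl fun s _ => (integral_norm_mul_comp_eq F u (v s) hu (hvn s)).symm]
    rw [Finset.sum_const, Finset.card_univ, nsmul_eq_mul, mul_comm, mul_div_assoc,
      div_self (by simp), mul_one]
  have h2 : ∀ z : EuclideanSpace ℝ (Fin n), (𝔼 s : Fin n → Bool, ‖z‖ * F ⟪‖z‖⁻¹ • z, v s⟫) ≤
      ‖z‖ * (cst⁻¹ * (10 / n * (lam ^ 2 * Real.exp (-lam ^ 2 / 2)) *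
        Real.sqrt (Real.pi / (1 / 2)))) := by
    intro z
    rw [← Finset.mul_expect]
    apply mul_le_mul_of_nonneg_left _ (norm_nonneg z)
    set w : EuclideanSpace ℝ (Fin n) := ‖z‖⁻¹ • z with hw
    have hwn : ‖w‖ ≤ 1 := by
      rcases eq_or_ne z 0 with h | h
      · simp [hw, h]
      · rw [hw, norm_smul, norm_inv, norm_norm, inv_mul_cancel₀ (norm_ne_zero_iff.2 h)]
    have h3 : ∑ a, ((Real.sqrt n)⁻¹ * ⟪e a, w⟫) ^ 2 ≤ 1 / n := by
      have h4 : ∑ a, ((Real.sqrt n)⁻¹ * ⟪e a, w⟫) ^ 2 = (1 / n) * ∑ a, ⟪e a, w⟫ ^ 2 := by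
        rw [Finset.mul_sum]
        refine Finset.sum_congr rfl fun a _ => ?_
        rw [mul_pow, inv_pow, Real.sq_sqrt hn'.le]
        ring
      rw [h4, ← norm_sq_eq_sum e w]
      have h5 : ‖w‖ ^ 2 ≤ 1 := pow_le_one₀ (norm_nonneg _) hwn
      have h6 : (0 : ℝ) ≤ 1 / n := by positivity
      nlinarith
    have h7 : ∀ s : Fin n → Bool, |∑ a, sg (s a) * ((Real.sqrt n)⁻¹ * ⟪e a, w⟫)| ≤ 1 := by
      intro s
      rw [← hinner]
      calc |⟪w, v s⟫| ≤ ‖w‖ * ‖v s‖ := abs_real_inner_le_norm _ _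
        _ ≤ 1 * 1 := by
          rw [hvn s]
          linarith
        _ = 1 := by norm_num
    have h8 := avg_kk hn (fun a => (Real.sqrt n)⁻¹ * ⟪e a, w⟫) h3 h7 lam hlam2
    simp only [← hinner] at h8
    exact h8
  have hL : Integrable (fun z => 𝔼 s : Fin n → Bool, ‖z‖ * F ⟪‖z‖⁻¹ • z, v s⟫) μ := by
    simp_rw [Fintype.expect_eq_sum_div_card]
    exact (integrable_finsetSum _ fun s _ =>
      integrable_norm_mul_comp F u (v s) hu (hvn s) hint).div_const _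
  have hR0 : Integrable (fun z : EuclideanSpace ℝ (Fin n) => ‖z‖) μ := by
    simpa using integrable_norm_add (0 : EuclideanSpace ℝ (Fin n))
  have h9 := integral_mono hL (hR0.mul_const (cst⁻¹ * (10 / n * (lam ^ 2 * Real.exp (-lam ^ 2 / 2)) *
        Real.sqrt (Real.pi / (1 / 2))))) h2
  rw [integral_mul_const] at h9
  have h10 : ∫ z : EuclideanSpace ℝ (Fin n), ‖z‖ ∂μ ≤ Real.sqrt n := by
    have := integral_norm_le (E := EuclideanSpace ℝ (Fin n))
    rwa [finrank_euclideanSpace_fin] at this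
  have h11 : ∫ z, ‖z‖ * (⟪‖z‖⁻¹ • z, u⟫ * kk lam ⟪‖z‖⁻¹ • z, u⟫) ∂μ =
      ∫ z, ‖z‖ * F ⟪‖z‖⁻¹ • z, u⟫ ∂μ := rfl
  rw [h11, h1]
  refine h9.trans ?_
  refine (mul_le_mul_of_nonneg_right h10 (by positivity)).trans (le_of_eq ?_)
  have h12 : Real.sqrt n * Real.sqrt n = n := Real.mul_self_sqrt hn'.le
  field_simp
  rw [sq, h12]

end Pool.Agent.Helper24.Zono
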