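import Pool.Agent.Helper24.Zono.Pair2
import Pool.Agent.Helper24.Zono.Grad2

/-!
# Pairing the discrepancy with a random vector field
-/

open Finset MeasureTheory ProbabilityTheory
open scoped BigOperators RealInnerProductSpace Nat

namespace Pool.Agent.Helper24.Zono

variable {n N : ℕ}

/-- The vector field. -/
noncomputable def vf (x : Fin N → EuclideanSpace ℝ (Fin n)) (lam : ℝ)
    (Y : EuclideanSpace ℝ (Fin n)) : EuclideanSpace ℝ (Fin n) :=
  ∑ l, (wt x l * Real.sin (lam * ⟪dir x l, Y⟫)) • dir x l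

lemma continuous_vf (x : Fin N → EuclideanSpace ℝ (Fin n)) (lam : ℝ) :
    Continuous (vf x lam) := by
  unfold vf; fun_prop

lemma norm_vf_le (x : Fin N → EuclideanSpace ℝ (Fin n)) (lam : ℝ)
    (Y : EuclideanSpace ℝ (Fin n)) : ‖vf x lam Y‖ ≤ ∑ j, wt x j := by
  unfold vf
  refine (norm_sum_le _ _).trans (Finset.sum_le_sum fun j _ => ?_)
  rw [norm_smul, norm_mul, Real.norm_of_nonneg (wt_nonneg x j), Real.norm_eq_abs]
  calc wt x j * |Real.sin (lam * ⟪dir x j, Y⟫)| * ‖dir x j‖ ≤ wt x j * 1 * 1 := by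
        have := wt_nonneg x j
        gcongr
        · exact Real.abs_sin_le_one _
        · exact norm_dir_le x j
    _ = wt x j := by ring

lemma inner_vf (x : Fin N → EuclideanSpace ℝ (Fin n)) (lam : ℝ)
    (u Y : EuclideanSpace ℝ (Fin n)) :
    ⟪u, vf x lam Y⟫ = ∑ l, wt x l * Real.sin (lam * ⟪dir x l, Y⟫) * ⟪u, dir x l⟫ := by
  unfold vf
  rw [inner_sum]
  exact Finset.sum_congr rfl fun l _ => by rw [inner_smul_right]

/-- The energy. -/
noncomputable def QQ (x : Fin N → EuclideanSpace ℝ (Fin n)) (lam : ℝ) : ℝ :=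
  ∑ j, ∑ l, wt x j * wt x l *
    (⟪dir x j, dir x l⟫ * (Real.exp (-lam ^ 2) * Real.sinh (lam ^ 2 * ⟪dir x j, dir x l⟫)))

lemma integrable_of_cont_bdd (F : EuclideanSpace ℝ (Fin n) → ℝ) (hF : Measurable F) (B : ℝ)
    (hB : ∀ Y, |F Y| ≤ B) : Integrable F (stdGaussian (EuclideanSpace ℝ (Fin n))) :=
  Integrable.mono' (integrable_const B) hF.aestronglyMeasurable
    (Filter.Eventually.of_forall fun Y => by rw [Real.norm_eq_abs]; exact hB Y)

lemma integral_norm_vf_sq (x : Fin N → EuclideanSpace ℝ (Fin n)) (lam : ℝ) :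
    ∫ Y, ‖vf x lam Y‖ ^ 2 ∂(stdGaussian (EuclideanSpace ℝ (Fin n))) = QQ x lam := by
  have h1 : ∀ Y, ‖vf x lam Y‖ ^ 2 = ∑ j, ∑ l, wt x j * wt x l * ⟪dir x j, dir x l⟫ *
      (Real.sin (lam * ⟪dir x j, Y⟫) * Real.sin (lam * ⟪dir x l, Y⟫)) := by
    intro Y
    rw [← real_inner_self_eq_norm_sq, inner_vf]
    refine (Finset.sum_congr rfl fun l _ => ?_).trans Finset.sum_comm
    rw [real_inner_comm (dir x l) (vf x lam Y), inner_vf, Finset.mul_sum]
    exact Finset.sum_congr rfl fun j _ => by rw [real_inner_comm (dir x j) (dir x l)]; ring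
  have hint : ∀ j l, Integrable (fun Y : EuclideanSpace ℝ (Fin n) =>
      wt x j * wt x l * ⟪dir x j, dir x l⟫ *
      (Real.sin (lam * ⟪dir x j, Y⟫) * Real.sin (lam * ⟪dir x l, Y⟫))) (stdGaussian _) := by
    intro j l
    refine (integrable_of_cont_bdd _ ?_ 1 ?_).const_mul _
    · exact (by fun_prop : Continuous fun Y : EuclideanSpace ℝ (Fin n) =>
        Real.sin (lam * ⟪dir x j, Y⟫) * Real.sin (lam * ⟪dir x l, Y⟫)).measurable
    · intro Y
      rw [abs_mul]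
      exact mul_le_one₀ (Real.abs_sin_le_one _) (abs_nonneg _) (Real.abs_sin_le_one _)
  simp only [h1]
  rw [integral_finsetSum _ (fun j _ => integrable_finsetSum _ fun l _ => hint j l)]
  refine Finset.sum_congr rfl fun j _ => ?_
  rw [integral_finsetSum _ (fun l _ => hint j l)]
  refine Finset.sum_congr rfl fun l _ => ?_
  rw [integral_const_mul]
  rcases wt_or x j with hj | hj
  · rw [hj]; ring
  · rcases wt_or x l with hl | hl
    · rw [hl]; ring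
    · rw [integral_sin_mul_sin lam _ _ hj hl]; ring

lemma sinh_mul_nonneg (a ρ : ℝ) (ha : 0 ≤ a) : 0 ≤ ρ * Real.sinh (a * ρ) := by
  rcases le_total 0 ρ with h | h
  · exact mul_nonneg h (Real.sinh_nonneg_iff.2 (by positivity))
  · have h1 : Real.sinh (a * ρ) ≤ 0 := Real.sinh_nonpos_iff.2 (mul_nonpos_of_nonneg_of_nonpos ha h)
    nlinarith

lemma QQ_ge (x : Fin N → EuclideanSpace ℝ (Fin n)) (lam : ℝ) (hlam : 1 ≤ lam) :
    (∑ j, wt x j ^ 2) / 4 ≤ QQ x lam := by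
  unfold QQ
  rw [Finset.sum_div]
  refine Finset.sum_le_sum fun j _ => ?_
  have hnn : ∀ l, 0 ≤ wt x j * wt x l *
    (⟪dir x j, dir x l⟫ * (Real.exp (-lam ^ 2) * Real.sinh (lam ^ 2 * ⟪dir x j, dir x l⟫))) := by
    intro l
    have h1 := sinh_mul_nonneg (lam ^ 2) ⟪dir x j, dir x l⟫ (sq_nonneg _)
    have h2 : 0 ≤ Real.exp (-lam ^ 2) * (⟪dir x j, dir x l⟫ * Real.sinh (lam ^ 2 * ⟪dir x j, dir x l⟫)) :=
      mul_nonneg (Real.exp_pos _).le h1
    have h3 := mul_nonneg (wt_nonneg x j) (wt_nonneg x l)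
    have h4 := mul_nonneg h3 h2
    refine h4.trans (le_of_eq (by ring))
  refine le_trans ?_ (Finset.single_le_sum (f := fun l => wt x j * wt x l *
    (⟪dir x j, dir x l⟫ * (Real.exp (-lam ^ 2) * Real.sinh (lam ^ 2 * ⟪dir x j, dir x l⟫))))
    (fun l _ => hnn l) (Finset.mem_univ j))
  rcases wt_or x j with hj | hj
  · rw [hj]; simp
  · rw [real_inner_self_eq_norm_sq, hj, one_pow, one_mul, mul_one]
    have h5 : 1 / 4 ≤ Real.exp (-lam ^ 2) * Real.sinh (lam ^ 2) := by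
      rw [Real.sinh_eq, mul_div_assoc', mul_sub, ← Real.exp_add, ← Real.exp_add]
      have h6 : -lam ^ 2 + lam ^ 2 = 0 := by ring
      rw [h6, Real.exp_zero]
      have h7 : Real.exp (-lam ^ 2 + -lam ^ 2) ≤ 1 / 2 := by
        have h8 : Real.exp (-lam ^ 2 + -lam ^ 2) ≤ Real.exp (-1) := by
          apply Real.exp_le_exp.2; nlinarith
        have h9 : Real.exp (-1) ≤ 1 / 2 := by
          rw [Real.exp_neg, one_div]
          exact inv_anti₀ (by norm_num) (by linarith [Real.exp_one_gt_d9])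
        linarith
      linarith
    have h6 : 0 ≤ wt x j ^ 2 := sq_nonneg _
    nlinarith

lemma integral_norm_sq :
    ∫ g : EuclideanSpace ℝ (Fin n), ‖g‖ ^ 2 ∂(stdGaussian (EuclideanSpace ℝ (Fin n))) = n := by
  set b := EuclideanSpace.basisFun (Fin n) ℝ with hb
  have e1 : ∀ g : EuclideanSpace ℝ (Fin n), ‖g‖ ^ 2 = ∑ i, ⟪b i, g⟫ ^ 2 :=
    fun g => (b.sum_sq_inner_right g).symm
  have hmi : ∀ i, MemLp (fun g : EuclideanSpace ℝ (Fin n) => ⟪b i, g⟫) 2 (stdGaussian _) :=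
    fun i => (IsGaussian.memLp_two_id (μ := stdGaussian (EuclideanSpace ℝ (Fin n)))).const_inner (b i)
  simp_rw [e1]
  rw [integral_finsetSum _ fun i _ => (hmi i).integrable_sq]
  have e2 : ∀ i, ∫ g : EuclideanSpace ℝ (Fin n), ⟪b i, g⟫ ^ 2 ∂(stdGaussian _) = 1 := by
    intro i
    have h3 := variance_dual_stdGaussian (innerSL ℝ (b i))
    have h4 := integral_strongDual_stdGaussian (innerSL ℝ (b i))
    have h5 : ⇑(innerSL ℝ (b i)) = fun g : EuclideanSpace ℝ (Fin n) => ⟪b i, g⟫ := rfl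
    rw [innerSL_apply_norm, b.norm_eq_one, h5, variance_eq_sub (hmi i)] at h3
    rw [h5] at h4
    rw [h4] at h3
    simpa using h3
  simp [e2]

lemma integrable_norm_sq :
    Integrable (fun g : EuclideanSpace ℝ (Fin n) => ‖g‖ ^ 2) (stdGaussian _) := by
  have hm : MemLp (fun g : EuclideanSpace ℝ (Fin n) => ‖g‖) 2 (stdGaussian _) :=
    IsGaussian.memLp_two_id.norm
  exact hm.integrable_sq

/-- The atomic part of the pairing. -/
noncomputable def AA (x : Fin N → EuclideanSpace ℝ (Fin n)) (lam : ℝ) : ℝ :=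
  ∑ j, ∑ l, wt x j * wt x l * (⟪dir x j, dir x l⟫ * kk lam ⟪dir x j, dir x l⟫)

lemma AA_ge (x : Fin N → EuclideanSpace ℝ (Fin n)) (lam c : ℝ)
    (h : ∀ ρ : ℝ, |ρ| ≤ 1 →
      c * (lam ^ 2)⁻¹ * (Real.exp (-lam ^ 2) * (ρ * Real.sinh (lam ^ 2 * ρ))) ≤ ρ * kk lam ρ) :
    c * (lam ^ 2)⁻¹ * QQ x lam ≤ AA x lam := by
  unfold QQ AA
  rw [Finset.mul_sum]
  refine Finset.sum_le_sum fun j _ => ?_
  rw [Finset.mul_sum]
  refine Finset.sum_le_sum fun l _ => ?_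
  have h1 : |⟪dir x j, dir x l⟫| ≤ 1 := (abs_real_inner_le_norm _ _).trans
    (mul_le_one₀ (norm_dir_le x j) (norm_nonneg _) (norm_dir_le x l))
  have h2 := mul_le_mul_of_nonneg_left (h _ h1) (mul_nonneg (wt_nonneg x j) (wt_nonneg x l))
  refine le_trans (le_of_eq ?_) h2
  ring

lemma measurable_dPsi_inner (lam : ℝ) (u : EuclideanSpace ℝ (Fin n)) :
    Measurable (fun Y : EuclideanSpace ℝ (Fin n) => dPsi (lam * ⟪u, Y⟫)) :=
  measurable_dPsi.comp (by fun_prop)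

lemma integrable_dPsi_sin (lam : ℝ) (u v : EuclideanSpace ℝ (Fin n)) :
    Integrable (fun Y : EuclideanSpace ℝ (Fin n) =>
      dPsi (lam * ⟪u, Y⟫) * Real.sin (lam * ⟪v, Y⟫)) (stdGaussian _) := by
  refine integrable_of_cont_bdd _ ?_ 1 ?_
  · exact (measurable_dPsi_inner lam u).mul (by fun_prop)
  · intro Y
    rw [abs_mul]
    exact mul_le_one₀ (abs_dPsi_le _) (abs_nonneg _) (Real.abs_sin_le_one _)

lemma integral_atoms (x : Fin N → EuclideanSpace ℝ (Fin n)) (lam : ℝ) :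
    ∫ Y, ∑ j, wt x j * (dPsi ⟪dir x j, lam • Y⟫ * ⟪dir x j, vf x lam Y⟫)
      ∂(stdGaussian (EuclideanSpace ℝ (Fin n))) = AA x lam := by
  have h1 : ∀ Y, ∑ j, wt x j * (dPsi ⟪dir x j, lam • Y⟫ * ⟪dir x j, vf x lam Y⟫)
      = ∑ j, ∑ l, wt x j * wt x l * ⟪dir x j, dir x l⟫ *
      (dPsi (lam * ⟪dir x j, Y⟫) * Real.sin (lam * ⟪dir x l, Y⟫)) := by
    intro Y
    refine Finset.sum_congr rfl fun j _ => ?_
    rw [inner_vf, inner_smul_right, Finset.mul_sum, Finset.mul_sum]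
    exact Finset.sum_congr rfl fun l _ => by ring
  have hint : ∀ j l, Integrable (fun Y : EuclideanSpace ℝ (Fin n) =>
      wt x j * wt x l * ⟪dir x j, dir x l⟫ *
      (dPsi (lam * ⟪dir x j, Y⟫) * Real.sin (lam * ⟪dir x l, Y⟫))) (stdGaussian _) :=
    fun j l => (integrable_dPsi_sin lam _ _).const_mul _
  simp only [h1]
  rw [integral_finsetSum _ (fun j _ => integrable_finsetSum _ fun l _ => hint j l)]
  refine Finset.sum_congr rfl fun j _ => ?_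
  rw [integral_finsetSum _ (fun l _ => hint j l)]
  refine Finset.sum_congr rfl fun l _ => ?_
  rw [integral_const_mul]
  rcases wt_or x j with hj | hj
  · rw [hj]; ring
  · rcases wt_or x l with hl | hl
    · rw [hl]; ring
    · rw [integral_dPsi_mul_sin lam _ _ hj hl]; ring

lemma measurable_iso_kernel (lam : ℝ) (u : EuclideanSpace ℝ (Fin n)) :
    Measurable (fun q : EuclideanSpace ℝ (Fin n) × EuclideanSpace ℝ (Fin n) =>
      Real.sin (lam * ⟪u, q.1⟫) * (‖q.2‖ * (dPsi (lam * ⟪‖q.2‖⁻¹ • q.2, q.1⟫)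
        * ⟪‖q.2‖⁻¹ • q.2, u⟫))) := by
  have h1 : Measurable (fun q : EuclideanSpace ℝ (Fin n) × EuclideanSpace ℝ (Fin n) =>
      ‖q.2‖⁻¹ • q.2) := measurable_hat.comp measurable_snd
  have h2 : Measurable (fun q : EuclideanSpace ℝ (Fin n) × EuclideanSpace ℝ (Fin n) =>
      dPsi (lam * ⟪‖q.2‖⁻¹ • q.2, q.1⟫)) :=
    measurable_dPsi.comp ((h1.inner measurable_fst).const_mul lam)
  have h3 : Measurable (fun q : EuclideanSpace ℝ (Fin n) × EuclideanSpace ℝ (Fin n) =>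
      ⟪‖q.2‖⁻¹ • q.2, u⟫) := h1.inner measurable_const
  have h4 : Measurable (fun q : EuclideanSpace ℝ (Fin n) × EuclideanSpace ℝ (Fin n) =>
      Real.sin (lam * ⟪u, q.1⟫)) := by fun_prop
  exact h4.mul ((measurable_snd.norm).mul (h2.mul h3))

lemma integrable_iso_kernel (lam : ℝ) (u : EuclideanSpace ℝ (Fin n)) (hu : ‖u‖ ≤ 1) :
    Integrable (fun q : EuclideanSpace ℝ (Fin n) × EuclideanSpace ℝ (Fin n) =>
      Real.sin (lam * ⟪u, q.1⟫) * (‖q.2‖ * (dPsi (lam * ⟪‖q.2‖⁻¹ • q.2, q.1⟫)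
        * ⟪‖q.2‖⁻¹ • q.2, u⟫))) ((stdGaussian _).prod (stdGaussian _)) := by
  have h1 : Integrable (fun q : EuclideanSpace ℝ (Fin n) × EuclideanSpace ℝ (Fin n) =>
      (1 : ℝ) * ‖q.2‖) ((stdGaussian _).prod (stdGaussian _)) :=
    (integrable_const (1 : ℝ)).mul_prod integrable_norm'
  refine h1.mono' (measurable_iso_kernel lam u).aestronglyMeasurable
    (Filter.Eventually.of_forall fun q => ?_)
  rw [norm_mul, norm_mul, norm_mul, norm_norm, Real.norm_eq_abs, Real.norm_eq_abs, Real.norm_eq_abs]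
  have h2 : |⟪‖q.2‖⁻¹ • q.2, u⟫| ≤ 1 := (abs_real_inner_le_norm _ _).trans
    (mul_le_one₀ (norm_hat_le _) (norm_nonneg _) hu)
  calc |Real.sin (lam * ⟪u, q.1⟫)| * (‖q.2‖ * (|dPsi (lam * ⟪‖q.2‖⁻¹ • q.2, q.1⟫)|
        * |⟪‖q.2‖⁻¹ • q.2, u⟫|))
      ≤ 1 * (‖q.2‖ * (1 * 1)) := by
        gcongr
        · exact Real.abs_sin_le_one _
        · exact abs_dPsi_le _
    _ = 1 * ‖q.2‖ := by ring

lemma iso_pair (lam : ℝ) (u : EuclideanSpace ℝ (Fin n)) (hu : ‖u‖ = 1) :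
    ∫ Y, Real.sin (lam * ⟪u, Y⟫) * (∫ z, ‖z‖ * (dPsi (lam * ⟪‖z‖⁻¹ • z, Y⟫) * ⟪‖z‖⁻¹ • z, u⟫)
        ∂(stdGaussian (EuclideanSpace ℝ (Fin n)))) ∂(stdGaussian (EuclideanSpace ℝ (Fin n)))
      = ∫ z, ‖z‖ * (⟪‖z‖⁻¹ • z, u⟫ * kk lam ⟪‖z‖⁻¹ • z, u⟫)
        ∂(stdGaussian (EuclideanSpace ℝ (Fin n))) := by
  simp only [← integral_const_mul]
  rw [integral_integral_swap (integrable_iso_kernel lam u hu.le)]
  refine integral_congr_ae (Filter.Eventually.of_forall fun z => ?_)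
  simp only
  rcases eq_or_ne z 0 with h | h
  · subst h; simp
  · have hz : ‖‖z‖⁻¹ • z‖ = 1 := by
      rw [norm_smul, norm_inv, norm_norm, inv_mul_cancel₀ (norm_ne_zero_iff.2 h)]
    have h1 : ∀ Y : EuclideanSpace ℝ (Fin n), Real.sin (lam * ⟪u, Y⟫) *
        (‖z‖ * (dPsi (lam * ⟪‖z‖⁻¹ • z, Y⟫) * ⟪‖z‖⁻¹ • z, u⟫))
        = (‖z‖ * ⟪‖z‖⁻¹ • z, u⟫) * (dPsi (lam * ⟪‖z‖⁻¹ • z, Y⟫) * Real.sin (lam * ⟪u, Y⟫)) :=
      fun Y => by ring
    simp only [h1]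
    rw [integral_const_mul, integral_dPsi_mul_sin lam _ _ hz hu]
    ring

lemma nice_dPsi' (lam : ℝ) (Y u : EuclideanSpace ℝ (Fin n)) :
    Nice (fun z : EuclideanSpace ℝ (Fin n) => dPsi (lam * ⟪z, Y⟫) * ⟪z, u⟫) := by
  refine nice_of_bdd _ ?_ ‖u‖ ?_
  · exact (measurable_dPsi.comp (by fun_prop)).mul (by fun_prop)
  · intro z hz
    rw [abs_mul]
    calc |dPsi (lam * ⟪z, Y⟫)| * |⟪z, u⟫| ≤ 1 * (‖z‖ * ‖u‖) := by
          gcongr
          · exact abs_dPsi_le _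
          · exact abs_real_inner_le_norm _ _
      _ ≤ 1 * (1 * ‖u‖) := by gcongr
      _ = ‖u‖ := by ring

lemma isoI_vf (x : Fin N → EuclideanSpace ℝ (Fin n)) (lam : ℝ) (Y : EuclideanSpace ℝ (Fin n)) :
    isoI (fun u => dPsi ⟪u, lam • Y⟫ * ⟪u, vf x lam Y⟫)
      = (Psi 0)⁻¹ * ∑ l, wt x l * (Real.sin (lam * ⟪dir x l, Y⟫) *
        ∫ z, ‖z‖ * (dPsi (lam * ⟪‖z‖⁻¹ • z, Y⟫) * ⟪‖z‖⁻¹ • z, dir x l⟫)
        ∂(stdGaussian (EuclideanSpace ℝ (Fin n)))) := by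
  have h1 : (fun u : EuclideanSpace ℝ (Fin n) => dPsi ⟪u, lam • Y⟫ * ⟪u, vf x lam Y⟫)
      = fun u => ∑ l, (wt x l * Real.sin (lam * ⟪dir x l, Y⟫)) *
        (dPsi (lam * ⟪u, Y⟫) * ⟪u, dir x l⟫) := by
    funext u
    rw [inner_vf, inner_smul_right, Finset.mul_sum]
    exact Finset.sum_congr rfl fun l _ => by ring
  rw [h1, isoI_sum (F := fun l u => (wt x l * Real.sin (lam * ⟪dir x l, Y⟫)) *
        (dPsi (lam * ⟪u, Y⟫) * ⟪u, dir x l⟫)) (fun l => (nice_dPsi' lam Y _).const_mul _),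
    Finset.mul_sum]
  refine Finset.sum_congr rfl fun l _ => ?_
  rw [isoI_const_mul]
  unfold isoI
  ring

lemma integral_iso (x : Fin N → EuclideanSpace ℝ (Fin n)) (lam B : ℝ)
    (hB : ∀ u : EuclideanSpace ℝ (Fin n), ‖u‖ = 1 →
      ∫ z, ‖z‖ * (⟪‖z‖⁻¹ • z, u⟫ * kk lam ⟪‖z‖⁻¹ • z, u⟫)
        ∂(stdGaussian (EuclideanSpace ℝ (Fin n))) ≤ B) :
    ∫ Y, isoI (fun u => dPsi ⟪u, lam • Y⟫ * ⟪u, vf x lam Y⟫)
      ∂(stdGaussian (EuclideanSpace ℝ (Fin n))) ≤ (Psi 0)⁻¹ * ((∑ l, wt x l) * B) := by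
  simp only [isoI_vf]
  have hint : ∀ l, Integrable (fun Y : EuclideanSpace ℝ (Fin n) =>
      wt x l * (Real.sin (lam * ⟪dir x l, Y⟫) *
        ∫ z, ‖z‖ * (dPsi (lam * ⟪‖z‖⁻¹ • z, Y⟫) * ⟪‖z‖⁻¹ • z, dir x l⟫)
        ∂(stdGaussian (EuclideanSpace ℝ (Fin n))))) (stdGaussian _) := by
    intro l
    refine Integrable.const_mul ?_ _
    have h := (integrable_iso_kernel lam (dir x l) (norm_dir_le x l)).integral_prod_left
    refine h.congr (Filter.Eventually.of_forall fun Y => ?_)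
    simp only
    rw [integral_const_mul]
  rw [integral_const_mul, integral_finsetSum _ (fun l _ => hint l)]
  refine mul_le_mul_of_nonneg_left ?_ (inv_pos.2 Psi_zero_pos).le
  rw [Finset.sum_mul]
  refine Finset.sum_le_sum fun l _ => ?_
  rw [integral_const_mul]
  rcases wt_or x l with hl | hl
  · rw [hl]; simp
  · rw [iso_pair lam _ hl]
    exact mul_le_mul_of_nonneg_left (hB _ hl) (wt_nonneg x l)

end Pool.Agent.Helper24.Zono
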