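import Mathlib

/-!
# Gaussian smoothing of the absolute value and of the norm
-/

open MeasureTheory ProbabilityTheory
open scoped RealInnerProductSpace

namespace Pool.Agent.Helper24.Zono

/-- The constant `∫ (1 - cos ω) / ω² dω` (it equals `π`, which is not needed). -/
noncomputable def cst : ℝ := ∫ ω : ℝ, (1 - Real.cos ω) / ω ^ 2

lemma ker_nonneg (s ω : ℝ) : 0 ≤ (1 - Real.cos (ω * s)) / ω ^ 2 :=
  div_nonneg (by linarith [Real.cos_le_one (ω * s)]) (sq_nonneg ω)

lemma ker_le (s ω : ℝ) : (1 - Real.cos (ω * s)) / ω ^ 2 ≤ (s ^ 2 / 2 + 2) * (1 + ω ^ 2)⁻¹ := by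
  rcases eq_or_ne ω 0 with h | h
  · subst h
    simp
    positivity
  · have h0 : 0 < ω ^ 2 := by positivity
    rw [← div_eq_mul_inv, div_le_div_iff₀ h0 (by positivity)]
    have h1 := Real.one_sub_sq_div_two_le_cos (x := ω * s)
    have h2 := Real.neg_one_le_cos (ω * s)
    nlinarith

lemma ker_integrable (s : ℝ) : Integrable (fun ω : ℝ => (1 - Real.cos (ω * s)) / ω ^ 2) := by
  refine (integrable_inv_one_add_sq.const_mul (s ^ 2 / 2 + 2)).mono'
    (by fun_prop : Measurable fun ω : ℝ => (1 - Real.cos (ω * s)) / ω ^ 2).aestronglyMeasurable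
    (Filter.Eventually.of_forall fun ω => ?_)
  rw [Real.norm_of_nonneg (ker_nonneg s ω)]
  exact ker_le s ω

lemma one_sub_cos_pos {ω : ℝ} (h0 : 0 < ω) (h1 : ω < 1) : 0 < 1 - Real.cos ω := by
  have h2 := Real.cos_lt_one_div_sqrt_sq_add_one (x := ω) (by linarith [Real.pi_gt_three])
    (by linarith [Real.pi_gt_three]) h0.ne'
  have h3 : 1 / Real.sqrt (ω ^ 2 + 1) ≤ 1 := by
    rw [div_le_one (by positivity)]
    exact Real.one_le_sqrt.2 (by nlinarith)
  linarith

theorem cst_pos : 0 < cst := by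
  have hi : Integrable (fun ω : ℝ => (1 - Real.cos ω) / ω ^ 2) := by
    simpa using ker_integrable 1
  have hn : 0 ≤ fun ω : ℝ => (1 - Real.cos ω) / ω ^ 2 := fun ω => by
    simpa using ker_nonneg 1 ω
  unfold cst
  rw [integral_pos_iff_support_of_nonneg hn hi]
  refine lt_of_lt_of_le ?_ (measure_mono (s := Set.Ioo 0 1) fun ω hω => ?_)
  · simp
  · rw [Function.mem_support]
    exact (div_pos (one_sub_cos_pos hω.1 hω.2) (pow_pos hω.1 2)).ne'

lemma ker_integral (s : ℝ) : ∫ ω : ℝ, (1 - Real.cos (ω * s)) / ω ^ 2 = |s| * cst := by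
  rcases eq_or_ne s 0 with h | h
  · subst h; simp
  · have h1 : (fun ω : ℝ => (1 - Real.cos (ω * s)) / ω ^ 2) =
        fun ω : ℝ => s ^ 2 * ((fun t : ℝ => (1 - Real.cos t) / t ^ 2) (ω * s)) := by
      funext ω
      simp only
      rcases eq_or_ne ω 0 with h' | h'
      · subst h'; simp
      · field_simp
    have h3 := Measure.integral_comp_mul_right (fun t : ℝ => (1 - Real.cos t) / t ^ 2) s
    rw [h1, integral_const_mul, h3, smul_eq_mul, abs_inv, ← sq_abs]
    have h2 : |s| ≠ 0 := abs_ne_zero.2 h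
    unfold cst
    field_simp

/-- `Ψ(s) = E |g + s|`, `g` standard normal, in its Fourier form. -/
noncomputable def Psi (s : ℝ) : ℝ :=
  cst⁻¹ * ∫ ω : ℝ, (1 - Real.exp (-ω ^ 2 / 2) * Real.cos (ω * s)) / ω ^ 2

lemma psi_nonneg (s ω : ℝ) : 0 ≤ (1 - Real.exp (-ω ^ 2 / 2) * Real.cos (ω * s)) / ω ^ 2 := by
  apply div_nonneg _ (sq_nonneg ω)
  have h1 : Real.exp (-ω ^ 2 / 2) ≤ 1 := Real.exp_le_one_iff.2 (by nlinarith [sq_nonneg ω])
  have h2 := Real.exp_pos (-ω ^ 2 / 2)
  have h3 := Real.cos_le_one (ω * s)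
  nlinarith

lemma psi_le (s ω : ℝ) : (1 - Real.exp (-ω ^ 2 / 2) * Real.cos (ω * s)) / ω ^ 2 ≤
    (s ^ 2 / 2 + 4) * (1 + ω ^ 2)⁻¹ := by
  rcases eq_or_ne ω 0 with h | h
  · subst h
    simp
    positivity
  · have h0 : 0 < ω ^ 2 := by positivity
    rw [← div_eq_mul_inv, div_le_div_iff₀ h0 (by positivity)]
    have h1 := Real.one_sub_sq_div_two_le_cos (x := ω * s)
    have h2 := Real.neg_one_le_cos (ω * s)
    have h2' := Real.cos_le_one (ω * s)
    have h3 : Real.exp (-ω ^ 2 / 2) ≤ 1 := Real.exp_le_one_iff.2 (by nlinarith [sq_nonneg ω])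
    have h4 := Real.exp_pos (-ω ^ 2 / 2)
    have h5 := Real.add_one_le_exp (-ω ^ 2 / 2)
    have e1 : 1 - Real.exp (-ω ^ 2 / 2) * Real.cos (ω * s) ≤ ω ^ 2 * (s ^ 2 / 2 + 1 / 2) := by
      nlinarith
    have e2 : 1 - Real.exp (-ω ^ 2 / 2) * Real.cos (ω * s) ≤ 2 := by
      nlinarith
    nlinarith

/-- The integrand of `Psi` is integrable. -/
theorem integrable_Psi (s : ℝ) :
    Integrable (fun ω : ℝ => (1 - Real.exp (-ω ^ 2 / 2) * Real.cos (ω * s)) / ω ^ 2) := by
  refine (integrable_inv_one_add_sq.const_mul (s ^ 2 / 2 + 4)).mono'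
    (by fun_prop : Measurable fun ω : ℝ =>
      (1 - Real.exp (-ω ^ 2 / 2) * Real.cos (ω * s)) / ω ^ 2).aestronglyMeasurable
    (Filter.Eventually.of_forall fun ω => ?_)
  rw [Real.norm_of_nonneg (psi_nonneg s ω)]
  exact psi_le s ω

variable {E : Type*} [NormedAddCommGroup E] [InnerProductSpace ℝ E] [FiniteDimensional ℝ E]
  [MeasurableSpace E] [BorelSpace E]

lemma integral_cos (t : E) (c : ℝ) :
    ∫ g, Real.cos (⟪g, t⟫ + c) ∂(stdGaussian E) = Real.exp (-‖t‖ ^ 2 / 2) * Real.cos c := by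
  have h1 := charFun_stdGaussian t
  rw [charFun_apply] at h1
  have hint : Integrable (fun g : E => Complex.exp (⟪g, t⟫ * Complex.I) *
      Complex.exp (c * Complex.I)) (stdGaussian E) := by
    refine Integrable.mono' (integrable_const (1 : ℝ)) (Measurable.aestronglyMeasurable (by fun_prop))
      (Filter.Eventually.of_forall fun g => ?_)
    rw [norm_mul, Complex.norm_exp_ofReal_mul_I, Complex.norm_exp_ofReal_mul_I, one_mul]
  have h2 : ∫ g, Complex.exp (⟪g, t⟫ * Complex.I) * Complex.exp (c * Complex.I) ∂(stdGaussian E) =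
      Complex.exp (-‖t‖ ^ 2 / 2) * Complex.exp (c * Complex.I) := by
    rw [integral_mul_const, h1]
  have h3 := congrArg Complex.re h2
  have h4 := integral_re hint
  simp only [RCLike.re_to_complex] at h4
  rw [← h4] at h3
  have h5 : ∀ g : E, (Complex.exp (⟪g, t⟫ * Complex.I) * Complex.exp (c * Complex.I)).re =
      Real.cos (⟪g, t⟫ + c) := by
    intro g
    rw [← Complex.exp_add, ← add_mul, ← Complex.ofReal_add, Complex.exp_ofReal_mul_I_re]
  simp_rw [h5] at h3
  rw [h3]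
  have h6 : Complex.exp (-‖t‖ ^ 2 / 2) = ((Real.exp (-‖t‖ ^ 2 / 2) : ℝ) : ℂ) := by
    push_cast; rfl
  rw [h6, Complex.re_ofReal_mul, Complex.exp_ofReal_mul_I_re]

lemma integrable_norm_add' (y : E) : Integrable (fun g : E => ‖g + y‖) (stdGaussian E) :=
  (IsGaussian.integrable_id.add (integrable_const y)).norm

lemma integrable_abs_inner (v y : E) : Integrable (fun g : E => |⟪v, g + y⟫|) (stdGaussian E) := by
  refine ((integrable_norm_add' y).const_mul ‖v‖).mono'
    (Measurable.aestronglyMeasurable (by fun_prop)) (Filter.Eventually.of_forall fun g => ?_)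
  rw [Real.norm_eq_abs, abs_abs]
  exact abs_real_inner_le_norm v (g + y)

theorem integral_abs_inner_add (v : E) (hv : ‖v‖ = 1) (y : E) :
    ∫ g, |⟪v, g + y⟫| ∂(stdGaussian E) = Psi ⟪v, y⟫ := by
  have hc := cst_pos
  have h1 : ∫ g, |⟪v, g + y⟫| ∂(stdGaussian E) = cst⁻¹ *
      ∫ g, (∫ ω : ℝ, (1 - Real.cos (ω * ⟪v, g + y⟫)) / ω ^ 2) ∂(stdGaussian E) := by
    simp_rw [ker_integral]
    rw [integral_mul_const]
    field_simp
  have hint : Integrable (fun q : E × ℝ => (1 - Real.cos (q.2 * ⟪v, q.1 + y⟫)) / q.2 ^ 2)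
      ((stdGaussian E).prod volume) := by
    have hm : Measurable (fun q : E × ℝ => (1 - Real.cos (q.2 * ⟪v, q.1 + y⟫)) / q.2 ^ 2) := by
      fun_prop
    rw [integrable_prod_iff hm.aestronglyMeasurable]
    constructor
    · refine Filter.Eventually.of_forall fun g => ?_
      have h2 := ker_integrable ⟪v, g + y⟫
      exact h2
    · have : (fun g : E => ∫ ω : ℝ, ‖(1 - Real.cos (ω * ⟪v, g + y⟫)) / ω ^ 2‖) =
          fun g => |⟪v, g + y⟫| * cst := by
        funext g
        rw [← ker_integral]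
        refine integral_congr_ae (Filter.Eventually.of_forall fun ω => ?_)
        exact Real.norm_of_nonneg (ker_nonneg _ ω)
      have h3 : Integrable (fun g : E => ∫ ω : ℝ, ‖(1 - Real.cos (ω * ⟪v, g + y⟫)) / ω ^ 2‖)
          (stdGaussian E) := by
        rw [this]
        exact (integrable_abs_inner v y).mul_const _
      exact h3
  rw [h1, integral_integral_swap hint]
  unfold Psi
  congr 1
  refine integral_congr_ae (Filter.Eventually.of_forall fun ω => ?_)
  simp only
  rw [integral_div]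
  congr 1
  have hb : Integrable (fun g : E => Real.cos (ω * ⟪v, g + y⟫)) (stdGaussian E) := by
    refine Integrable.mono' (integrable_const (1 : ℝ)) (Measurable.aestronglyMeasurable (by fun_prop))
      (Filter.Eventually.of_forall fun g => ?_)
    exact Real.abs_cos_le_one _
  rw [integral_sub (integrable_const _) hb]
  have h2 : ∫ g, Real.cos (ω * ⟪v, g + y⟫) ∂(stdGaussian E) =
      Real.exp (-ω ^ 2 / 2) * Real.cos (ω * ⟪v, y⟫) := by
    have h3 := integral_cos (ω • v) (ω * ⟪v, y⟫)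
    rw [norm_smul, hv, mul_one, Real.norm_eq_abs, sq_abs] at h3
    rw [← h3]
    refine integral_congr_ae (Filter.Eventually.of_forall fun g => ?_)
    simp only
    rw [inner_add_right, inner_smul_right, real_inner_comm v g]
    congr 1
    ring
  rw [h2]
  simp

theorem Psi_zero_pos : 0 < Psi 0 := by
  unfold Psi
  apply mul_pos (inv_pos.2 cst_pos)
  rw [integral_pos_iff_support_of_nonneg (fun ω => psi_nonneg 0 ω) (integrable_Psi 0)]
  refine lt_of_lt_of_le ?_ (measure_mono (s := Set.Ioo 0 1) fun ω hω => ?_)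
  · simp
  · rw [Function.mem_support]
    have h1 : Real.exp (-ω ^ 2 / 2) < 1 := by
      rw [Real.exp_lt_one_iff]
      have := pow_pos hω.1 2
      linarith
    have h2 : 0 < (1 - Real.exp (-ω ^ 2 / 2) * Real.cos (ω * 0)) / ω ^ 2 := by
      rw [mul_zero, Real.cos_zero, mul_one]
      exact div_pos (by linarith) (pow_pos hω.1 2)
    exact h2.ne'

theorem integrable_norm_add (y : E) : Integrable (fun g : E => ‖g + y‖) (stdGaussian E) :=
  integrable_norm_add' y

theorem integral_norm_le : ∫ g, ‖g‖ ∂(stdGaussian E) ≤ Real.sqrt (Module.finrank ℝ E) := by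
  have hm : MemLp (fun g : E => ‖g‖) 2 (stdGaussian E) := IsGaussian.memLp_two_id.norm
  have hv := variance_nonneg (fun g : E => ‖g‖) (stdGaussian E)
  rw [variance_eq_sub hm] at hv
  have h2 : ∫ g : E, ‖g‖ ^ 2 ∂(stdGaussian E) = Module.finrank ℝ E := by
    set b := stdOrthonormalBasis ℝ E with hb
    have e1 : ∀ g : E, ‖g‖ ^ 2 = ∑ i, ⟪b i, g⟫ ^ 2 := fun g => (b.sum_sq_inner_right g).symm
    have hmi : ∀ i, MemLp (fun g : E => ⟪b i, g⟫) 2 (stdGaussian E) := fun i =>
      (IsGaussian.memLp_two_id (μ := stdGaussian E)).const_inner (b i)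
    simp_rw [e1]
    rw [integral_finsetSum _ fun i _ => (hmi i).integrable_sq]
    have e2 : ∀ i, ∫ g : E, ⟪b i, g⟫ ^ 2 ∂(stdGaussian E) = 1 := by
      intro i
      have h3 := variance_dual_stdGaussian (innerSL ℝ (b i))
      have h4 := integral_strongDual_stdGaussian (innerSL ℝ (b i))
      have h5 : ⇑(innerSL ℝ (b i)) = fun g : E => ⟪b i, g⟫ := rfl
      rw [innerSL_apply_norm, b.norm_eq_one, h5, variance_eq_sub (hmi i)] at h3
      rw [h5] at h4
      rw [h4] at h3
      simpa using h3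
    simp [e2]
  have h3 : (∫ g, ‖g‖ ∂(stdGaussian E)) ^ 2 ≤ Module.finrank ℝ E := by
    have e3 : (stdGaussian E)[(fun g : E => ‖g‖) ^ 2] = ∫ g : E, ‖g‖ ^ 2 ∂(stdGaussian E) := rfl
    rw [e3, h2] at hv
    linarith
  exact Real.le_sqrt_of_sq_le h3

lemma integral_inner_z (z y : E) :
    ∫ g, |⟪z, g + y⟫| ∂(stdGaussian E) = ‖z‖ * Psi ⟪‖z‖⁻¹ • z, y⟫ := by
  rcases eq_or_ne z 0 with h | h
  · subst h; simp
  · have hz : ‖z‖ ≠ 0 := norm_ne_zero_iff.2 h
    have hn : ‖‖z‖⁻¹ • z‖ = 1 := by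
      rw [norm_smul, norm_inv, norm_norm, inv_mul_cancel₀ hz]
    rw [← integral_abs_inner_add _ hn, ← integral_const_mul]
    refine integral_congr_ae (Filter.Eventually.of_forall fun g => ?_)
    simp only
    rw [inner_smul_left, abs_mul]
    simp only [conj_trivial, abs_inv, abs_norm]
    rw [← mul_assoc, mul_inv_cancel₀ hz, one_mul]

lemma prod_int (y : E) : Integrable (fun q : E × E => |⟪q.2, q.1 + y⟫|)
    ((stdGaussian E).prod (stdGaussian E)) := by
  have h1 := (integrable_norm_add' y).mul_prod (integrable_norm_add' (0 : E))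
  refine h1.mono' (Measurable.aestronglyMeasurable (by fun_prop))
    (Filter.Eventually.of_forall fun q => ?_)
  rw [Real.norm_eq_abs, abs_abs, add_zero, mul_comm]
  exact abs_real_inner_le_norm _ _

/-- Smoothing of the norm. -/
theorem integral_norm_add (y : E) :
    ∫ g, ‖g + y‖ ∂(stdGaussian E) =
      (Psi 0)⁻¹ * ∫ z, ‖z‖ * Psi ⟪‖z‖⁻¹ • z, y⟫ ∂(stdGaussian E) := by
  have hP := Psi_zero_pos
  have h1 : ∀ x : E, ‖x‖ * Psi 0 = ∫ z, |⟪z, x⟫| ∂(stdGaussian E) := by
    intro x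
    have h2 := integral_inner_z x (0 : E)
    rw [inner_zero_right] at h2
    rw [← h2]
    refine integral_congr_ae (Filter.Eventually.of_forall fun g => ?_)
    simp only
    rw [add_zero, real_inner_comm]
  have h3 : ∫ g, ‖g + y‖ ∂(stdGaussian E) =
      (Psi 0)⁻¹ * ∫ g, ∫ z, |⟪z, g + y⟫| ∂(stdGaussian E) ∂(stdGaussian E) := by
    simp_rw [← h1]
    rw [integral_mul_const]
    field_simp
  rw [h3, integral_integral_swap (prod_int y)]
  congr 1
  refine integral_congr_ae (Filter.Eventually.of_forall fun z => ?_)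
  exact integral_inner_z z y

theorem integrable_norm_mul_Psi (y : E) :
    Integrable (fun z : E => ‖z‖ * Psi ⟪‖z‖⁻¹ • z, y⟫) (stdGaussian E) := by
  have h1 := (prod_int y).integral_prod_right
  refine h1.congr (Filter.Eventually.of_forall fun z => ?_)
  exact integral_inner_z z y

/-- Rotation invariance: the angular moments do not depend on the direction. -/
theorem integral_norm_mul_pow_eq (m : ℕ) (u v : E) (hu : ‖u‖ = 1) (hv : ‖v‖ = 1) :
    ∫ z, ‖z‖ * |⟪‖z‖⁻¹ • z, u⟫| ^ m ∂(stdGaussian E) =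
      ∫ z, ‖z‖ * |⟪‖z‖⁻¹ • z, v⟫| ^ m ∂(stdGaussian E) := by
  obtain ⟨f, hf⟩ : ∃ f : E ≃ₗᵢ[ℝ] E, f u = v :=
    ⟨((ℝ ∙ (u - v))ᗮ).reflection, Submodule.reflection_sub (hu.trans hv.symm)⟩
  have h1 := stdGaussian_map f
  have hme : MeasurableEmbedding f := f.toHomeomorph.measurableEmbedding
  conv_rhs => rw [← h1]
  rw [hme.integral_map]
  refine integral_congr_ae (Filter.Eventually.of_forall fun z => ?_)
  simp only
  rw [f.norm_map, ← hf, ← map_smul, f.inner_map_map]

end Pool.Agent.Helper24.Zono
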