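import Mathlib

/-!
# Rademacher averages: Khintchine inequality for sums and for multilinear forms
-/

open Finset
open scoped BigOperators Nat

namespace Pool.Agent.Helper24.Zono

/-- The sign `±1` of a Boolean. -/
noncomputable def sg (b : Bool) : ℝ := if b then 1 else -1

@[simp] lemma sg_true : sg true = 1 := by simp [sg]
@[simp] lemma sg_false : sg false = -1 := by simp [sg]
lemma sg_sq (b : Bool) : sg b ^ 2 = 1 := by cases b <;> simp
lemma sg_mul_self (b : Bool) : sg b * sg b = 1 := by cases b <;> simp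
lemma abs_sg (b : Bool) : |sg b| = 1 := by cases b <;> simp

/-- Independence: the average of a product of functions of the coordinates. -/
lemma expect_prod_pi {ι Ω : Type*} [Fintype ι] [DecidableEq ι] [Fintype Ω] (F : ι → Ω → ℝ) :
    (𝔼 Y : ι → Ω, ∏ i, F i (Y i)) = ∏ i, 𝔼 ω, F i ω := by
  simp only [Fintype.expect_eq_sum_div_card]
  rw [Finset.prod_div_distrib, Finset.prod_univ_sum]
  simp [Fintype.piFinset_univ]

lemma expect_mono {Ω : Type*} [Fintype Ω] {f g : Ω → ℝ} (h : ∀ ω, f ω ≤ g ω) :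
    (𝔼 ω, f ω) ≤ 𝔼 ω, g ω := by
  simp only [Fintype.expect_eq_sum_div_card]
  exact div_le_div_of_nonneg_right (Finset.sum_le_sum fun i _ => h i) (by positivity)

lemma expect_nonneg' {Ω : Type*} [Fintype Ω] {f : Ω → ℝ} (h : ∀ ω, 0 ≤ f ω) :
    0 ≤ 𝔼 ω, f ω := by
  simp only [Fintype.expect_eq_sum_div_card]
  exact div_nonneg (Finset.sum_nonneg fun i _ => h i) (by positivity)

lemma abs_expect_le {Ω : Type*} [Fintype Ω] (f : Ω → ℝ) : |𝔼 ω, f ω| ≤ 𝔼 ω, |f ω| := by
  simp only [Fintype.expect_eq_sum_div_card]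
  rw [abs_div, abs_of_nonneg (by positivity : (0 : ℝ) ≤ Fintype.card Ω)]
  exact div_le_div_of_nonneg_right (Finset.abs_sum_le_sum_abs _ _) (by positivity)

/-- A one-coordinate marginal. -/
lemma expect_pi_eval {ι Ω : Type*} [Fintype ι] [DecidableEq ι] [Fintype Ω] [Nonempty Ω]
    (i₀ : ι) (F : Ω → ℝ) :
    (𝔼 Y : ι → Ω, F (Y i₀)) = 𝔼 ω, F ω := by
  have h := expect_prod_pi (ι := ι) (fun i ω => if i = i₀ then F ω else 1)
  have h1 : ∀ Y : ι → Ω, ∏ i, (if i = i₀ then F (Y i) else 1) = F (Y i₀) := by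
    intro Y
    rw [Finset.prod_eq_single i₀]
    · simp
    · intro b _ hb; simp [hb]
    · intro hb; simp at hb
  have h2 : ∏ i, (𝔼 ω : Ω, (if i = i₀ then F ω else 1)) = 𝔼 ω, F ω := by
    rw [Finset.prod_eq_single i₀]
    · simp
    · intro b _ hb; simp [hb]
    · intro hb; simp at hb
  simp only [h1, h2] at h
  exact h

/-- The exponential moment of a Rademacher sum. -/
lemma expect_exp_le {ι : Type*} [Fintype ι] [DecidableEq ι] (c : ι → ℝ) :
    (𝔼 s : ι → Bool, Real.exp (∑ a, sg (s a) * c a)) ≤ Real.exp ((∑ a, c a ^ 2) / 2) := by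
  have h1 : (𝔼 s : ι → Bool, Real.exp (∑ a, sg (s a) * c a))
      = ∏ a, 𝔼 b : Bool, Real.exp (sg b * c a) := by
    rw [← expect_prod_pi]
    congr 1
    ext s
    rw [Real.exp_sum]
  rw [h1]
  have h2 : ∀ a, (𝔼 b : Bool, Real.exp (sg b * c a)) ≤ Real.exp (c a ^ 2 / 2) := by
    intro a
    rw [Fintype.expect_eq_sum_div_card]
    have : (∑ b : Bool, Real.exp (sg b * c a)) / (Fintype.card Bool : ℝ) = Real.cosh (c a) := by
      rw [Real.cosh_eq]
      simp
    rw [this]
    exact Real.cosh_le_exp_half_sq _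
  calc ∏ a, 𝔼 b : Bool, Real.exp (sg b * c a) ≤ ∏ a, Real.exp (c a ^ 2 / 2) :=
        Finset.prod_le_prod (fun a _ => expect_nonneg' fun b => (Real.exp_pos _).le)
          (fun a _ => h2 a)
    _ = Real.exp ((∑ a, c a ^ 2) / 2) := by
        rw [← Real.exp_sum, Finset.sum_div]

/-- The moment constant. -/
noncomputable def Kc (q : ℕ) : ℝ := 4 * ((2 * q)! : ℝ)

lemma Kc_one_le (q : ℕ) : 1 ≤ Kc q := by
  unfold Kc
  have : (1 : ℝ) ≤ ((2 * q)! : ℝ) := by exact_mod_cast Nat.one_le_iff_ne_zero.mpr (Nat.factorial_ne_zero _)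
  linarith

lemma Kc_pos (q : ℕ) : 0 < Kc q := lt_of_lt_of_le one_pos (Kc_one_le q)

/-- Scalar Khintchine inequality (even moments, crude constant). -/
lemma khintchine {ι : Type*} [Fintype ι] [DecidableEq ι] (c : ι → ℝ) (q : ℕ) :
    (𝔼 s : ι → Bool, (∑ a, sg (s a) * c a) ^ (2 * q)) ≤ Kc q * (∑ a, c a ^ 2) ^ q := by
  set S : ℝ := ∑ a, c a ^ 2 with hS
  have hS0 : 0 ≤ S := Finset.sum_nonneg fun a _ => sq_nonneg _
  rcases hS0.eq_or_lt with h0 | hpos
  · have hc : ∀ a, c a = 0 := by
      intro a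
      have := (Finset.sum_eq_zero_iff_of_nonneg (fun a _ => sq_nonneg (c a))).1 (hS.symm.trans h0.symm) a
        (Finset.mem_univ a)
      exact pow_eq_zero_iff (two_ne_zero) |>.1 this
    simp only [hc, mul_zero, Finset.sum_const_zero]
    rw [← h0]
    rcases Nat.eq_zero_or_pos q with rfl | hq
    · simp
      exact Kc_one_le 0
    · rw [zero_pow (by omega), zero_pow (by omega)]
      simp
  · set t : ℝ := Real.sqrt S with ht
    have htpos : 0 < t := Real.sqrt_pos.2 hpos
    have htsq : t ^ 2 = S := Real.sq_sqrt hS0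
    have hnorm : ∑ a, (c a / t) ^ 2 = 1 := by
      simp only [div_pow]
      rw [← Finset.sum_div, htsq, ← hS, div_self hpos.ne']
    have hpt : ∀ s : ι → Bool, (∑ a, sg (s a) * c a) ^ (2 * q)
        ≤ S ^ q * ((2 * q)! : ℝ) * (Real.exp (∑ a, sg (s a) * (c a / t))
          + Real.exp (∑ a, sg (s a) * (-(c a / t)))) := by
      intro s
      set x : ℝ := ∑ a, sg (s a) * c a with hx
      have hx' : ∑ a, sg (s a) * (c a / t) = x / t := by
        rw [hx, Finset.sum_div]; exact Finset.sum_congr rfl fun a _ => by ring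
      have hx'' : ∑ a, sg (s a) * (-(c a / t)) = -(x / t) := by
        rw [← hx', ← Finset.sum_neg_distrib]; exact Finset.sum_congr rfl fun a _ => by ring
      rw [hx', hx'']
      have h1 : |x / t| ^ (2 * q) / ((2 * q)! : ℝ) ≤ Real.exp |x / t| :=
        Real.pow_div_factorial_le_exp _ (abs_nonneg _) _
      have h2 : Real.exp |x / t| ≤ Real.exp (x / t) + Real.exp (-(x / t)) := by
        rcases abs_choice (x / t) with h | h <;> rw [h]
        · linarith [Real.exp_pos (-(x / t))]
        · linarith [Real.exp_pos (x / t)]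
      have hf : (0 : ℝ) < ((2 * q)! : ℝ) := by exact_mod_cast Nat.factorial_pos _
      have h3 : |x / t| ^ (2 * q) ≤ ((2 * q)! : ℝ) * (Real.exp (x / t) + Real.exp (-(x / t))) := by
        rw [div_le_iff₀ hf] at h1
        calc _ ≤ _ := h1
          _ ≤ (Real.exp (x / t) + Real.exp (-(x / t))) * ((2 * q)! : ℝ) := by gcongr
          _ = _ := by ring
      have h4 : x ^ (2 * q) = S ^ q * |x / t| ^ (2 * q) := by
        rw [pow_mul |x / t|, sq_abs, div_pow, htsq, div_pow, pow_mul x]
        field_simp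
      rw [h4, mul_assoc]
      exact mul_le_mul_of_nonneg_left h3 (by positivity)
    have h5 := expect_exp_le (fun a => c a / t)
    have h6 := expect_exp_le (fun a => -(c a / t))
    rw [hnorm] at h5
    have hnorm' : ∑ a, (-(c a / t)) ^ 2 = 1 := by simpa [neg_sq] using hnorm
    rw [hnorm'] at h6
    have hexp : Real.exp (1 / 2) ≤ 2 := by
      have := Real.exp_one_lt_d9
      have h7 : Real.exp (1 / 2) ^ 2 = Real.exp 1 := by
        rw [← Real.exp_nat_mul]; norm_num
      nlinarith [Real.exp_pos (1 / 2 : ℝ)]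
    calc (𝔼 s : ι → Bool, (∑ a, sg (s a) * c a) ^ (2 * q))
        ≤ 𝔼 s : ι → Bool, S ^ q * ((2 * q)! : ℝ) * (Real.exp (∑ a, sg (s a) * (c a / t))
          + Real.exp (∑ a, sg (s a) * (-(c a / t)))) := expect_mono hpt
      _ = S ^ q * ((2 * q)! : ℝ) * ((𝔼 s : ι → Bool, Real.exp (∑ a, sg (s a) * (c a / t)))
          + 𝔼 s : ι → Bool, Real.exp (∑ a, sg (s a) * (-(c a / t)))) := by
          rw [← Finset.mul_expect, Finset.expect_add_distrib]
      _ ≤ S ^ q * ((2 * q)! : ℝ) * (2 + 2) := by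
          gcongr
          · exact h5.trans hexp
          · exact h6.trans hexp
      _ = Kc q * S ^ q := by unfold Kc; ring

/-- Khintchine inequality for a sum of squares of Rademacher sums. -/
lemma khintchine_vec {ι R : Type*} [Fintype ι] [DecidableEq ι] [Fintype R]
    (c : R → ι → ℝ) (q : ℕ) :
    (𝔼 s : ι → Bool, (∑ r, (∑ a, sg (s a) * c r a) ^ 2) ^ q)
      ≤ Kc q * (∑ r, ∑ a, c r a ^ 2) ^ q := by
  set S : ℝ := ∑ r, ∑ a, c r a ^ 2 with hS
  have hr0 : ∀ r, 0 ≤ ∑ a, c r a ^ 2 := fun r => Finset.sum_nonneg fun a _ => sq_nonneg _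
  have hS0 : 0 ≤ S := Finset.sum_nonneg fun r _ => hr0 r
  rcases hS0.eq_or_lt with h0 | hpos
  · have hc : ∀ r a, c r a = 0 := by
      intro r a
      have h1 := (Finset.sum_eq_zero_iff_of_nonneg (fun r _ => hr0 r)).1 (hS.symm.trans h0.symm) r
        (Finset.mem_univ r)
      have h2 := (Finset.sum_eq_zero_iff_of_nonneg (fun a _ => sq_nonneg (c r a))).1 h1 a
        (Finset.mem_univ a)
      exact pow_eq_zero_iff (two_ne_zero) |>.1 h2
    simp only [hc, mul_zero, Finset.sum_const_zero]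
    rw [← h0]
    rcases Nat.eq_zero_or_pos q with rfl | hq
    · simp
      exact Kc_one_le 0
    · have : ((0 : ℝ) ^ 2) = 0 := by norm_num
      rw [this, Finset.sum_const_zero, zero_pow (by omega)]
      simp
  · set p : R → ℝ := fun r => (∑ a, c r a ^ 2) / S with hp
    have hp0 : ∀ r, 0 ≤ p r := fun r => div_nonneg (hr0 r) hS0
    have hp1 : ∑ r, p r = 1 := by
      rw [hp, ← Finset.sum_div, ← hS, div_self hpos.ne']
    -- X r s = square of the r-th sum
    have hX : ∀ s : ι → Bool, ∀ r, (∑ a, sg (s a) * c r a) ^ 2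
        = p r * ((∑ a, sg (s a) * c r a) ^ 2 / p r) := by
      intro s r
      rcases (hp0 r).eq_or_lt with h | h
      · have h1 : ∑ a, c r a ^ 2 = 0 := by
          have : (∑ a, c r a ^ 2) / S = 0 := h.symm
          rcases div_eq_zero_iff.1 this with h2 | h2
          · exact h2
          · exact absurd h2 hpos.ne'
        have h2 : ∀ a, c r a = 0 := fun a => by
          have := (Finset.sum_eq_zero_iff_of_nonneg (fun a _ => sq_nonneg (c r a))).1 h1 a
            (Finset.mem_univ a)
          exact pow_eq_zero_iff (two_ne_zero) |>.1 this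
        simp [h2, ← h]
      · field_simp
    have hpt : ∀ s : ι → Bool, (∑ r, (∑ a, sg (s a) * c r a) ^ 2) ^ q
        ≤ ∑ r, p r * ((∑ a, sg (s a) * c r a) ^ 2 / p r) ^ q := by
      intro s
      calc (∑ r, (∑ a, sg (s a) * c r a) ^ 2) ^ q
          = (∑ r, p r * ((∑ a, sg (s a) * c r a) ^ 2 / p r)) ^ q := by
            congr 1; exact Finset.sum_congr rfl fun r _ => hX s r
        _ ≤ _ := Real.pow_arith_mean_le_arith_mean_pow _ _ _ (fun r _ => hp0 r) hp1
            (fun r _ => div_nonneg (sq_nonneg _) (hp0 r)) q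
    calc (𝔼 s : ι → Bool, (∑ r, (∑ a, sg (s a) * c r a) ^ 2) ^ q)
        ≤ 𝔼 s : ι → Bool, ∑ r, p r * ((∑ a, sg (s a) * c r a) ^ 2 / p r) ^ q := expect_mono hpt
      _ = ∑ r, p r * (1 / p r ^ q * 𝔼 s : ι → Bool, (∑ a, sg (s a) * c r a) ^ (2 * q)) := by
          rw [Finset.expect_sum_comm]
          refine Finset.sum_congr rfl fun r _ => ?_
          rw [Finset.mul_expect, Finset.mul_expect]
          refine Finset.expect_congr rfl fun s _ => ?_
          rw [div_pow, ← pow_mul]
          ring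
      _ ≤ ∑ r, p r * (Kc q * S ^ q) := by
          refine Finset.sum_le_sum fun r _ => ?_
          refine mul_le_mul_of_nonneg_left ?_ (hp0 r)
          rcases (hp0 r).eq_or_lt with h | h
          · have h1 : ∑ a, c r a ^ 2 = 0 := by
              have : (∑ a, c r a ^ 2) / S = 0 := h.symm
              rcases div_eq_zero_iff.1 this with h2 | h2
              · exact h2
              · exact absurd h2 hpos.ne'
            have h2 : ∀ a, c r a = 0 := fun a => by
              have := (Finset.sum_eq_zero_iff_of_nonneg (fun a _ => sq_nonneg (c r a))).1 h1 a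
                (Finset.mem_univ a)
              exact pow_eq_zero_iff (two_ne_zero) |>.1 this
            rw [← h]
            simp only [h2, mul_zero, Finset.sum_const_zero]
            rcases Nat.eq_zero_or_pos q with rfl | hq
            · simp
              exact Kc_one_le 0
            · rw [zero_pow (by omega), zero_pow (by omega)]
              simp
              have := Kc_pos q
              positivity
          · have hk := khintchine (c r) q
            have hpr : ∑ a, c r a ^ 2 = p r * S := by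
              simp only [hp]; field_simp
            calc 1 / p r ^ q * 𝔼 s : ι → Bool, (∑ a, sg (s a) * c r a) ^ (2 * q)
                ≤ 1 / p r ^ q * (Kc q * (∑ a, c r a ^ 2) ^ q) := by gcongr
              _ = Kc q * S ^ q := by
                  rw [hpr, mul_pow]; field_simp
      _ = Kc q * S ^ q := by rw [← Finset.sum_mul, hp1, one_mul]

lemma expect_cons {Ω : Type*} [Fintype Ω] (d : ℕ) (F : (Fin (d + 1) → Ω) → ℝ) :
    (𝔼 Y : Fin (d + 1) → Ω, F Y) = 𝔼 s : Ω, 𝔼 Y : Fin d → Ω, F (Fin.cons s Y) := by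
  rw [← Fintype.expect_equiv (Fin.consEquiv (fun _ : Fin (d + 1) => Ω))
    (fun p => F (Fin.cons p.1 p.2)) F (fun p => rfl)]
  rw [← Finset.univ_product_univ, Finset.expect_product]

lemma sum_cons {Ω : Type*} [Fintype Ω] (d : ℕ) (F : (Fin (d + 1) → Ω) → ℝ) :
    (∑ Y : Fin (d + 1) → Ω, F Y) = ∑ s : Ω, ∑ Y : Fin d → Ω, F (Fin.cons s Y) := by
  rw [← Fintype.sum_equiv (Fin.consEquiv (fun _ : Fin (d + 1) => Ω))
    (fun p => F (Fin.cons p.1 p.2)) F (fun p => rfl)]
  rw [← Finset.univ_product_univ, Finset.sum_product]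

/-- Even moments of (families of) multilinear forms in independent Rademacher vectors. -/
theorem chaos_moment {ι : Type} [Fintype ι] [DecidableEq ι] (q d : ℕ) :
    ∀ {R : Type} [Fintype R] (β : R → (Fin d → ι) → ℝ),
      (𝔼 Y : Fin d → ι → Bool, (∑ r, (∑ b, β r b * ∏ i, sg (Y i (b i))) ^ 2) ^ q)
        ≤ Kc q ^ d * (∑ r, ∑ b, β r b ^ 2) ^ q := by
  induction d with
  | zero =>
    intro R _ β
    simp
  | succ d ih =>
    intro R _ β
    rw [expect_cons]
    have hinner : ∀ s : ι → Bool, ∀ Y : Fin d → ι → Bool, ∀ r,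
        (∑ b : Fin (d + 1) → ι, β r b * ∏ i, sg ((Fin.cons s Y : Fin (d + 1) → ι → Bool) i (b i)))
        = ∑ b : Fin d → ι, (∑ a, sg (s a) * β r (Fin.cons a b)) * ∏ i, sg (Y i (b i)) := by
      intro s Y r
      rw [sum_cons, Finset.sum_comm]
      refine Finset.sum_congr rfl fun b _ => ?_
      rw [Finset.sum_mul]
      refine Finset.sum_congr rfl fun a _ => ?_
      rw [Fin.prod_univ_succ]
      simp only [Fin.cons_zero, Fin.cons_succ]
      ring
    calc (𝔼 s : ι → Bool, 𝔼 Y : Fin d → ι → Bool, (∑ r, (∑ b : Fin (d + 1) → ι,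
            β r b * ∏ i, sg ((Fin.cons s Y : Fin (d + 1) → ι → Bool) i (b i))) ^ 2) ^ q)
        = 𝔼 s : ι → Bool, 𝔼 Y : Fin d → ι → Bool, (∑ r, (∑ b : Fin d → ι,
            (∑ a, sg (s a) * β r (Fin.cons a b)) * ∏ i, sg (Y i (b i))) ^ 2) ^ q := by
          simp only [hinner]
      _ ≤ 𝔼 s : ι → Bool, Kc q ^ d * (∑ r, ∑ b : Fin d → ι,
            (∑ a, sg (s a) * β r (Fin.cons a b)) ^ 2) ^ q :=
          expect_mono fun s => ih (fun r b => ∑ a, sg (s a) * β r (Fin.cons a b))
      _ = Kc q ^ d * 𝔼 s : ι → Bool, (∑ p : R × (Fin d → ι),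
            (∑ a, sg (s a) * β p.1 (Fin.cons a p.2)) ^ 2) ^ q := by
          rw [Finset.mul_expect]
          refine Finset.expect_congr rfl fun s _ => ?_
          rw [← Finset.univ_product_univ, Finset.sum_product]
      _ ≤ Kc q ^ d * (Kc q * (∑ p : R × (Fin d → ι), ∑ a, β p.1 (Fin.cons a p.2) ^ 2) ^ q) := by
          refine mul_le_mul_of_nonneg_left ?_ (pow_nonneg (Kc_pos q).le _)
          exact khintchine_vec (fun (p : R × (Fin d → ι)) a => β p.1 (Fin.cons a p.2)) q
      _ = Kc q ^ (d + 1) * (∑ r, ∑ b : Fin (d + 1) → ι, β r b ^ 2) ^ q := by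
          have : (∑ p : R × (Fin d → ι), ∑ a, β p.1 (Fin.cons a p.2) ^ 2)
              = ∑ r, ∑ b : Fin (d + 1) → ι, β r b ^ 2 := by
            rw [← Finset.univ_product_univ, Finset.sum_product]
            refine Finset.sum_congr rfl fun r _ => ?_
            rw [sum_cons, Finset.sum_comm]
          rw [this]; ring

/-- Scalar version: a linear combination of products of Rademacher sums. -/
theorem chaos_moment_prod {ι L : Type} [Fintype ι] [DecidableEq ι] [Fintype L] (q d : ℕ)
    (α : L → ℝ) (u : L → ι → ℝ) :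
    (𝔼 Y : Fin d → ι → Bool, (∑ l, α l * ∏ i, ∑ a, sg (Y i a) * u l a) ^ (2 * q))
      ≤ Kc q ^ d * (∑ l, ∑ l', α l * α l' * (∑ a, u l a * u l' a) ^ d) ^ q := by
  have h := chaos_moment (ι := ι) q d (R := Unit) (fun _ b => ∑ l, α l * ∏ i, u l (b i))
  have h1 : ∀ Y : Fin d → ι → Bool,
      (∑ b : Fin d → ι, (∑ l, α l * ∏ i, u l (b i)) * ∏ i, sg (Y i (b i)))
        = ∑ l, α l * ∏ i, ∑ a, sg (Y i a) * u l a := by
    intro Y
    have h2 : ∀ l, ∏ i, ∑ a, sg (Y i a) * u l a
        = ∑ b : Fin d → ι, ∏ i, (sg (Y i (b i)) * u l (b i)) := by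
      intro l
      rw [Finset.prod_univ_sum, Fintype.piFinset_univ]
    simp only [h2, Finset.mul_sum, Finset.sum_mul]
    rw [Finset.sum_comm]
    refine Finset.sum_congr rfl fun l _ => Finset.sum_congr rfl fun b _ => ?_
    rw [Finset.prod_mul_distrib]; ring
  have h3 : (∑ b : Fin d → ι, (∑ l, α l * ∏ i, u l (b i)) ^ 2)
      = ∑ l, ∑ l', α l * α l' * (∑ a, u l a * u l' a) ^ d := by
    have h4 : ∀ l l', (∑ a, u l a * u l' a) ^ d
        = ∑ b : Fin d → ι, ∏ i, (u l (b i) * u l' (b i)) := by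
      intro l l'
      have h5 := Finset.prod_univ_sum (fun _ : Fin d => (univ : Finset ι))
        (fun _ a => u l a * u l' a)
      rw [Finset.prod_const, Finset.card_univ, Fintype.card_fin, Fintype.piFinset_univ] at h5
      exact h5
    calc (∑ b : Fin d → ι, (∑ l, α l * ∏ i, u l (b i)) ^ 2)
        = ∑ b : Fin d → ι, ∑ l, ∑ l', (α l * ∏ i, u l (b i)) * (α l' * ∏ i, u l' (b i)) := by
          refine Finset.sum_congr rfl fun b _ => ?_
          rw [sq, Finset.sum_mul_sum]
      _ = ∑ l, ∑ l', ∑ b : Fin d → ι, (α l * ∏ i, u l (b i)) * (α l' * ∏ i, u l' (b i)) := by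
          rw [Finset.sum_comm]
          refine Finset.sum_congr rfl fun l _ => ?_
          rw [Finset.sum_comm]
      _ = _ := by
          refine Finset.sum_congr rfl fun l _ => Finset.sum_congr rfl fun l' _ => ?_
          rw [h4, Finset.mul_sum]
          refine Finset.sum_congr rfl fun b _ => ?_
          rw [Finset.prod_mul_distrib]; ring
  simp only [Finset.univ_unique, Finset.sum_singleton, h1, h3] at h
  simpa only [pow_mul] using h

/-- Covariance identity: the average of a product of pairs of Rademacher sums. -/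
lemma expect_prod_pair {ι : Type*} [Fintype ι] [DecidableEq ι] (d : ℕ) (u v : ι → ℝ) :
    (𝔼 Y : Fin d → ι → Bool, ∏ i, ((∑ a, sg (Y i a) * u a) * (∑ a, sg (Y i a) * v a)))
      = (∑ a, u a * v a) ^ d := by
  have h := expect_prod_pi (ι := Fin d) (Ω := ι → Bool)
    (fun _ s => (∑ a, sg (s a) * u a) * (∑ a, sg (s a) * v a))
  rw [h, Finset.prod_const, Finset.card_univ, Fintype.card_fin]
  congr 1
  -- covariance of one vector
  simp only [Finset.sum_mul_sum]
  rw [Finset.expect_sum_comm]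
  refine Finset.sum_congr rfl fun a _ => ?_
  rw [Finset.expect_sum_comm, Finset.sum_eq_single a]
  · have : ∀ s : ι → Bool, sg (s a) * u a * (sg (s a) * v a) = u a * v a := by
      intro s
      have := sg_mul_self (s a)
      calc sg (s a) * u a * (sg (s a) * v a) = (sg (s a) * sg (s a)) * (u a * v a) := by ring
        _ = _ := by rw [this, one_mul]
    simp only [this]
    exact Fintype.expect_const _
  · intro b _ hb
    -- independence of coordinates a and b
    have h2 := expect_prod_pi (ι := ι) (Ω := Bool)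
      (fun i x => (if i = a then sg x else 1) * (if i = b then sg x else 1))
    have h3 : ∀ s : ι → Bool, (∏ i, (if i = a then sg (s i) else 1) * (if i = b then sg (s i) else 1))
        = sg (s a) * sg (s b) := by
      intro s
      rw [Finset.prod_mul_distrib]
      simp
    have h4 : (∏ i, 𝔼 x : Bool, (if i = a then sg x else 1) * (if i = b then sg x else 1)) = 0 := by
      refine Finset.prod_eq_zero (Finset.mem_univ a) ?_
      have : ¬ a = b := fun h => hb h.symm
      simp only [if_true, this, if_false, mul_one]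
      rw [Fintype.expect_eq_sum_div_card]
      simp
    simp only [h3, h4] at h2
    have h5 : ∀ s : ι → Bool, sg (s a) * u a * (sg (s b) * v b)
        = (sg (s a) * sg (s b)) * (u a * v b) := fun s => by ring
    simp only [h5]
    rw [← Finset.expect_mul, h2, zero_mul]
  · intro h; exact absurd (Finset.mem_univ a) h

/-- Second moment of a Rademacher sum. -/
lemma expect_sq {ι : Type*} [Fintype ι] [DecidableEq ι] (u : ι → ℝ) :
    (𝔼 s : ι → Bool, (∑ a, sg (s a) * u a) ^ 2) = ∑ a, u a ^ 2 := by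
  have h := expect_prod_pair (ι := ι) 1 u u
  rw [pow_one] at h
  have h2 := expect_pi_eval (ι := Fin 1) (Ω := ι → Bool) 0 (fun s => (∑ a, sg (s a) * u a) ^ 2)
  rw [← h2]
  simp only [Fin.prod_univ_one] at h
  simp only [sq]
  exact h

/-- Lower Khintchine inequality in `L¹`. -/
lemma khintchine_L1 {ι : Type*} [Fintype ι] [DecidableEq ι] (c : ι → ℝ) :
    Real.sqrt (∑ a, c a ^ 2) ≤ 10 * 𝔼 s : ι → Bool, |∑ a, sg (s a) * c a| := by
  set S : ℝ := ∑ a, c a ^ 2 with hS
  have hS0 : 0 ≤ S := Finset.sum_nonneg fun a _ => sq_nonneg _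
  rcases hS0.eq_or_lt with h0 | hpos
  · rw [← h0, Real.sqrt_zero]
    have := expect_nonneg' (fun s : ι → Bool => abs_nonneg (∑ a, sg (s a) * c a))
    linarith
  · set t : ℝ := Real.sqrt S with ht
    have htpos : 0 < t := Real.sqrt_pos.2 hpos
    have htsq : t ^ 2 = S := Real.sq_sqrt hS0
    -- pointwise |x| ≥ (3 x² / lam - x⁴ / lam³)/2, lam = 10 t
    set lam : ℝ := 10 * t with hlam
    have hlampos : 0 < lam := by positivity
    have hpt : ∀ x : ℝ, (3 * x ^ 2 / lam - x ^ 4 / lam ^ 3) / 2 ≤ |x| := by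
      intro x
      have h1 : (3 * |x| ^ 2 / lam - |x| ^ 4 / lam ^ 3) / 2 ≤ |x| := by
        set z := |x| with hz
        have hz0 : 0 ≤ z := abs_nonneg x
        have h2 : z - (3 * z ^ 2 / lam - z ^ 4 / lam ^ 3) / 2
            = z / (2 * lam ^ 3) * ((lam - z) ^ 2 * (2 * lam + z)) := by
          field_simp
          ring
        have h3 : 0 ≤ z / (2 * lam ^ 3) * ((lam - z) ^ 2 * (2 * lam + z)) := by positivity
        linarith
      have h4 : |x| ^ 2 = x ^ 2 := sq_abs x
      have h5 : |x| ^ 4 = x ^ 4 := by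
        rw [show (4 : ℕ) = 2 * 2 from rfl, pow_mul, pow_mul, h4]
      rwa [h4, h5] at h1
    have h2 := expect_sq (ι := ι) c
    have h4 := khintchine (ι := ι) c 2
    have hK : Kc 2 = 96 := by unfold Kc; norm_num [Nat.factorial]
    have h5 : (𝔼 s : ι → Bool, (3 * (∑ a, sg (s a) * c a) ^ 2 / lam
        - (∑ a, sg (s a) * c a) ^ 4 / lam ^ 3) / 2) ≤ 𝔼 s : ι → Bool, |∑ a, sg (s a) * c a| :=
      expect_mono fun s => hpt _
    have h6 : (𝔼 s : ι → Bool, (3 * (∑ a, sg (s a) * c a) ^ 2 / lam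
        - (∑ a, sg (s a) * c a) ^ 4 / lam ^ 3) / 2)
        = (3 * (𝔼 s : ι → Bool, (∑ a, sg (s a) * c a) ^ 2) / lam
          - (𝔼 s : ι → Bool, (∑ a, sg (s a) * c a) ^ 4) / lam ^ 3) / 2 := by
      rw [← Finset.expect_div, Finset.expect_sub_distrib, ← Finset.expect_div,
        ← Finset.expect_div, ← Finset.mul_expect]
    rw [h6, h2, ← hS] at h5
    have h7 : (𝔼 s : ι → Bool, (∑ a, sg (s a) * c a) ^ 4) ≤ 96 * S ^ 2 := by
      rw [hK] at h4; simpa using h4
    have h8 : (3 * S / lam - 96 * S ^ 2 / lam ^ 3) / 2 ≤ 𝔼 s : ι → Bool, |∑ a, sg (s a) * c a| := by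
      refine le_trans ?_ h5
      have : (𝔼 s : ι → Bool, (∑ a, sg (s a) * c a) ^ 4) / lam ^ 3 ≤ 96 * S ^ 2 / lam ^ 3 :=
        div_le_div_of_nonneg_right h7 (by positivity)
      linarith
    have h9 : (3 * S / lam - 96 * S ^ 2 / lam ^ 3) / 2 = (3 / 10 - 96 / 1000) / 2 * t := by
      rw [← htsq, hlam]
      field_simp
      ring
    rw [h9] at h8
    linarith

end Pool.Agent.Helper24.Zono
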