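import Pool.Agent.Helper24.Zono.Func

/-!
# Applying the functional to the approximation inequality
-/

open Finset MeasureTheory ProbabilityTheory
open scoped BigOperators RealInnerProductSpace

namespace Pool.Agent.Helper24.Zono

variable {n N : ℕ}

lemma integrable_abs_inner_add (v y : EuclideanSpace ℝ (Fin n)) :
    Integrable (fun g : EuclideanSpace ℝ (Fin n) => |⟪v, g + y⟫|) (stdGaussian _) := by
  refine Integrable.mono' ((integrable_norm_add y).const_mul ‖v‖) ?_ ?_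
  · exact (by fun_prop : Continuous fun g : EuclideanSpace ℝ (Fin n) =>
      |⟪v, g + y⟫|).aestronglyMeasurable
  · refine Filter.Eventually.of_forall fun g => ?_
    rw [Real.norm_of_nonneg (abs_nonneg _)]
    exact abs_real_inner_le_norm _ _

lemma smooth_ineq (x : Fin N → EuclideanSpace ℝ (Fin n)) (ε : ℝ) (hε : 0 ≤ ε)
    (hlow : ∀ y, (1 - ε) * ‖y‖ ≤ ∑ j, |⟪y, x j⟫|)
    (hup : ∀ y, ∑ j, |⟪y, x j⟫| ≤ (1 + ε) * ‖y‖) (y : EuclideanSpace ℝ (Fin n)) :
    |∑ j, wt x j * Psi ⟪dir x j, y⟫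
        - (Psi 0)⁻¹ * ∫ z, ‖z‖ * Psi ⟪‖z‖⁻¹ • z, y⟫ ∂(stdGaussian (EuclideanSpace ℝ (Fin n)))|
      ≤ ε * (Real.sqrt n + ‖y‖) := by
  rw [← integral_norm_add]
  have h1 : ∑ j, wt x j * Psi ⟪dir x j, y⟫
      = ∫ g, ∑ j, |⟪g + y, x j⟫| ∂(stdGaussian (EuclideanSpace ℝ (Fin n))) := by
    rw [integral_finsetSum]
    · refine Finset.sum_congr rfl fun j _ => ?_
      simp only [abs_inner_eq]
      rw [integral_const_mul]
      rcases wt_or x j with h | h
      · rw [h]; simp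
      · rw [integral_abs_inner_add _ h]
    · intro j _
      simp only [abs_inner_eq]
      exact (integrable_abs_inner_add _ _).const_mul _
  have hint : Integrable (fun g : EuclideanSpace ℝ (Fin n) => ∑ j, |⟪g + y, x j⟫|)
      (stdGaussian _) := by
    refine integrable_finsetSum _ fun j _ => ?_
    simp only [abs_inner_eq]
    exact (integrable_abs_inner_add _ _).const_mul _
  rw [h1, ← integral_sub hint (integrable_norm_add y)]
  have h2 : ∫ g : EuclideanSpace ℝ (Fin n), ‖g + y‖ ∂(stdGaussian _) ≤ Real.sqrt n + ‖y‖ := by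
    have h0 : Integrable (fun g : EuclideanSpace ℝ (Fin n) => ‖g‖) (stdGaussian _) := by
      simpa using integrable_norm_add (0 : EuclideanSpace ℝ (Fin n))
    calc ∫ g : EuclideanSpace ℝ (Fin n), ‖g + y‖ ∂(stdGaussian _)
        ≤ ∫ g : EuclideanSpace ℝ (Fin n), (‖g‖ + ‖y‖) ∂(stdGaussian _) :=
          integral_mono (integrable_norm_add y) (h0.add (integrable_const _))
            (fun g => norm_add_le _ _)
      _ = (∫ g : EuclideanSpace ℝ (Fin n), ‖g‖ ∂(stdGaussian _)) + ‖y‖ := by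
          rw [integral_add h0 (integrable_const _)]; simp
      _ ≤ Real.sqrt n + ‖y‖ := by
          have := integral_norm_le (E := EuclideanSpace ℝ (Fin n))
          rw [finrank_euclideanSpace_fin] at this
          linarith
  calc |∫ g, (∑ j, |⟪g + y, x j⟫| - ‖g + y‖) ∂(stdGaussian (EuclideanSpace ℝ (Fin n)))|
      ≤ ∫ g : EuclideanSpace ℝ (Fin n), ε * ‖g + y‖ ∂(stdGaussian _) := by
        rw [← Real.norm_eq_abs]
        refine norm_integral_le_of_norm_le ((integrable_norm_add y).const_mul ε) ?_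
        refine Filter.Eventually.of_forall fun g => ?_
        rw [Real.norm_eq_abs, abs_le]
        have h3 := hlow (g + y)
        have h4 := hup (g + y)
        constructor <;> linarith
    _ = ε * ∫ g : EuclideanSpace ℝ (Fin n), ‖g + y‖ ∂(stdGaussian _) := integral_const_mul _ _
    _ ≤ ε * (Real.sqrt n + ‖y‖) := mul_le_mul_of_nonneg_left h2 hε

lemma sum_prod_abs_eq {J : Type} [Fintype J] (α : J → ℝ) (m : ℕ) :
    ∑ p : Fin m → J, ∏ i, |α (p i)| = (∑ j, |α j|) ^ m := by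
  classical
  have h := Finset.prod_univ_sum (fun _ : Fin m => (univ : Finset J)) (fun _ j => |α j|)
  rw [Fintype.piFinset_univ, Finset.prod_const, Finset.card_univ, Fintype.card_fin] at h
  exact h.symm

lemma sum_prod_abs_mul_le {J : Type} [Fintype J] (α τ : J → ℝ) (C : ℝ)
    (hα : ∑ j, |α j| ≤ C) (hτ : ∑ j, |α j| * |τ j| ≤ C) (m : ℕ) (l : Fin m) :
    ∑ p : Fin m → J, (∏ i, |α (p i)|) * |τ (p l)| ≤ C ^ m := by
  classical
  have h := Finset.prod_univ_sum (fun _ : Fin m => (univ : Finset J))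
    (fun i j => |α j| * (if i = l then |τ j| else 1))
  rw [Fintype.piFinset_univ] at h
  have h1 : ∀ p : Fin m → J, ∏ i, |α (p i)| * (if i = l then |τ (p i)| else 1)
      = (∏ i, |α (p i)|) * |τ (p l)| := by
    intro p
    rw [Finset.prod_mul_distrib]
    simp
  simp only [h1] at h
  rw [← h]
  calc ∏ i : Fin m, ∑ j, |α j| * (if i = l then |τ j| else 1)
      ≤ ∏ _i : Fin m, C := by
        refine Finset.prod_le_prod (fun i _ => Finset.sum_nonneg fun j _ => ?_) (fun i _ => ?_)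
        · split_ifs <;> positivity
        · by_cases hi : i = l
          · simp only [hi, if_true]; exact hτ
          · simp only [hi, if_false, mul_one]; exact hα
    _ = C ^ m := by rw [Finset.prod_const, Finset.card_univ, Fintype.card_fin]

theorem functional_ineq {J : Type} [Fintype J] (α τ : J → ℝ) (C κ : ℝ) (hC : 1 ≤ C)
    (hκ : 0 ≤ κ) (hκ1 : κ ≤ 1)
    (hα : ∑ j, |α j| ≤ C) (hτ : ∑ j, |α j| * |τ j| ≤ C) (k : ℕ)
    (x : Fin N → EuclideanSpace ℝ (Fin n)) (ε : ℝ) (hε : 0 ≤ ε)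
    (hlow : ∀ y, (1 - ε) * ‖y‖ ≤ ∑ j, |⟪y, x j⟫|)
    (hup : ∀ y, ∑ j, |⟪y, x j⟫| ≤ (1 + ε) * ‖y‖) (K : ℝ)
    (D : (Fin (2 * k + 1) → Fin n → Bool) → Fin (2 * k + 2) → EuclideanSpace ℝ (Fin n))
    (hD : ∀ i, (𝔼 Y : Fin (2 * k + 1) → Fin n → Bool, ‖D Y i‖) ≤ K * Real.sqrt n) :
    |∑ j, wt x j * Rv α τ κ k D (dir x j)
        - (Psi 0)⁻¹ * ∫ z, ‖z‖ * Rv α τ κ k D (‖z‖⁻¹ • z) ∂(stdGaussian (EuclideanSpace ℝ (Fin n)))|
      ≤ ε * (C ^ (2 * k + 2) * (1 + ((2 * k + 2 : ℕ) : ℝ) * K) * Real.sqrt n) := by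
  set pt : (Fin (2 * k + 1) → Fin n → Bool) → (Fin (2 * k + 2) → J) → EuclideanSpace ℝ (Fin n) :=
    fun Y p => κ • ∑ i, τ (p i) • D Y i with hpt
  set G : EuclideanSpace ℝ (Fin n) → ℝ := fun y => ∑ j, wt x j * Psi ⟪dir x j, y⟫
        - (Psi 0)⁻¹ * ∫ z, ‖z‖ * Psi ⟪‖z‖⁻¹ • z, y⟫ ∂(stdGaussian (EuclideanSpace ℝ (Fin n))) with hG
  have hRv : ∀ v, Rv α τ κ k D v = 𝔼 Y : Fin (2 * k + 1) → Fin n → Bool,
      ∑ p : Fin (2 * k + 2) → J, (∏ i, α (p i)) * Psi ⟪v, pt Y p⟫ := fun v => rfl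
  have h1 : ∑ j, wt x j * Rv α τ κ k D (dir x j)
      = 𝔼 Y : Fin (2 * k + 1) → Fin n → Bool, ∑ p : Fin (2 * k + 2) → J, (∏ i, α (p i)) *
        ∑ j, wt x j * Psi ⟪dir x j, pt Y p⟫ := by
    simp only [hRv]
    simp only [Finset.mul_expect]
    rw [← Finset.expect_sum_comm]
    refine Finset.expect_congr rfl fun Y _ => ?_
    simp only [Finset.mul_sum]
    rw [Finset.sum_comm]
    exact Finset.sum_congr rfl fun p _ => Finset.sum_congr rfl fun j _ => by ring
  have h2 : ∫ z, ‖z‖ * Rv α τ κ k D (‖z‖⁻¹ • z) ∂(stdGaussian (EuclideanSpace ℝ (Fin n)))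
      = 𝔼 Y : Fin (2 * k + 1) → Fin n → Bool, ∑ p : Fin (2 * k + 2) → J, (∏ i, α (p i)) *
        ∫ z, ‖z‖ * Psi ⟪‖z‖⁻¹ • z, pt Y p⟫ ∂(stdGaussian (EuclideanSpace ℝ (Fin n))) := by
    simp only [hRv, Fintype.expect_eq_sum_div_card]
    have h3 : ∀ z : EuclideanSpace ℝ (Fin n), ‖z‖ * ((∑ Y : Fin (2 * k + 1) → Fin n → Bool,
        ∑ p : Fin (2 * k + 2) → J, (∏ i, α (p i)) * Psi ⟪‖z‖⁻¹ • z, pt Y p⟫)
          / (Fintype.card (Fin (2 * k + 1) → Fin n → Bool) : ℝ))
        = (∑ Y : Fin (2 * k + 1) → Fin n → Bool,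
        ∑ p : Fin (2 * k + 2) → J, (∏ i, α (p i)) * (‖z‖ * Psi ⟪‖z‖⁻¹ • z, pt Y p⟫))
          / (Fintype.card (Fin (2 * k + 1) → Fin n → Bool) : ℝ) := by
      intro z
      rw [← mul_div_assoc, Finset.mul_sum]
      congr 1
      refine Finset.sum_congr rfl fun Y _ => ?_
      rw [Finset.mul_sum]
      exact Finset.sum_congr rfl fun p _ => by ring
    simp only [h3]
    rw [integral_div, integral_finsetSum]
    · congr 1
      refine Finset.sum_congr rfl fun Y _ => ?_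
      rw [integral_finsetSum]
      · exact Finset.sum_congr rfl fun p _ => integral_const_mul _ _
      · exact fun p _ => (integrable_norm_mul_Psi _).const_mul _
    · exact fun Y _ => integrable_finsetSum _ fun p _ => (integrable_norm_mul_Psi _).const_mul _
  have h4 : ∑ j, wt x j * Rv α τ κ k D (dir x j)
        - (Psi 0)⁻¹ * ∫ z, ‖z‖ * Rv α τ κ k D (‖z‖⁻¹ • z) ∂(stdGaussian (EuclideanSpace ℝ (Fin n)))
      = 𝔼 Y : Fin (2 * k + 1) → Fin n → Bool, ∑ p : Fin (2 * k + 2) → J, (∏ i, α (p i)) *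
        G (pt Y p) := by
    rw [h1, h2, Finset.mul_expect, ← Finset.expect_sub_distrib]
    refine Finset.expect_congr rfl fun Y _ => ?_
    rw [Finset.mul_sum, ← Finset.sum_sub_distrib]
    exact Finset.sum_congr rfl fun p _ => by simp only [hG]; ring
  rw [h4]
  refine (abs_expect_le _).trans ?_
  have hC0 : (0 : ℝ) ≤ C := by linarith
  have h5 : ∀ Y : Fin (2 * k + 1) → Fin n → Bool,
      |∑ p : Fin (2 * k + 2) → J, (∏ i, α (p i)) * G (pt Y p)|
        ≤ ε * (C ^ (2 * k + 2) * (Real.sqrt n + ∑ i, ‖D Y i‖)) := by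
    intro Y
    calc |∑ p : Fin (2 * k + 2) → J, (∏ i, α (p i)) * G (pt Y p)|
        ≤ ∑ p : Fin (2 * k + 2) → J, |(∏ i, α (p i)) * G (pt Y p)| :=
          Finset.abs_sum_le_sum_abs _ _
      _ ≤ ∑ p : Fin (2 * k + 2) → J, (∏ i, |α (p i)|) *
            (ε * (Real.sqrt n + ∑ l, |τ (p l)| * ‖D Y l‖)) := by
          refine Finset.sum_le_sum fun p _ => ?_
          rw [abs_mul, Finset.abs_prod]
          refine mul_le_mul_of_nonneg_left ?_ (Finset.prod_nonneg fun i _ => abs_nonneg _)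
          refine (smooth_ineq x ε hε hlow hup (pt Y p)).trans ?_
          refine mul_le_mul_of_nonneg_left ?_ hε
          have h6 : ‖pt Y p‖ ≤ ∑ l, |τ (p l)| * ‖D Y l‖ := by
            simp only [hpt]
            rw [norm_smul, Real.norm_of_nonneg hκ]
            calc κ * ‖∑ i, τ (p i) • D Y i‖ ≤ 1 * ‖∑ i, τ (p i) • D Y i‖ := by
                  gcongr
              _ = ‖∑ i, τ (p i) • D Y i‖ := one_mul _
              _ ≤ ∑ i, ‖τ (p i) • D Y i‖ := norm_sum_le _ _
              _ = _ := Finset.sum_congr rfl fun i _ => by rw [norm_smul, Real.norm_eq_abs]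
          linarith
      _ = ε * ((∑ p : Fin (2 * k + 2) → J, ∏ i, |α (p i)|) * Real.sqrt n
            + ∑ l, (∑ p : Fin (2 * k + 2) → J, (∏ i, |α (p i)|) * |τ (p l)|) * ‖D Y l‖) := by
          have h7 : ∀ p : Fin (2 * k + 2) → J, (∏ i, |α (p i)|) *
              (ε * (Real.sqrt n + ∑ l, |τ (p l)| * ‖D Y l‖))
              = ε * ((∏ i, |α (p i)|) * Real.sqrt n)
                + ε * ∑ l, (∏ i, |α (p i)|) * |τ (p l)| * ‖D Y l‖ := by
            intro p
            have h8 : ∑ l, (∏ i, |α (p i)|) * |τ (p l)| * ‖D Y l‖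
                = (∏ i, |α (p i)|) * ∑ l, |τ (p l)| * ‖D Y l‖ := by
              rw [Finset.mul_sum]
              exact Finset.sum_congr rfl fun l _ => by ring
            rw [h8]; ring
          simp only [h7]
          rw [Finset.sum_add_distrib, ← Finset.mul_sum, ← Finset.mul_sum, ← mul_add,
            ← Finset.sum_mul, Finset.sum_comm]
          simp only [Finset.sum_mul]
      _ ≤ ε * (C ^ (2 * k + 2) * Real.sqrt n + ∑ l, C ^ (2 * k + 2) * ‖D Y l‖) := by
          refine mul_le_mul_of_nonneg_left ?_ hε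
          refine add_le_add ?_ ?_
          · refine mul_le_mul_of_nonneg_right ?_ (Real.sqrt_nonneg _)
            rw [sum_prod_abs_eq]
            exact pow_le_pow_left₀ (Finset.sum_nonneg fun j _ => abs_nonneg _) hα _
          · exact Finset.sum_le_sum fun l _ => mul_le_mul_of_nonneg_right
              (sum_prod_abs_mul_le α τ C hα hτ _ l) (norm_nonneg _)
      _ = _ := by rw [← Finset.mul_sum]; ring
  refine (expect_mono h5).trans ?_
  rw [← Finset.mul_expect, ← Finset.mul_expect, Finset.expect_add_distrib, Fintype.expect_const,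
    Finset.expect_sum_comm]
  refine mul_le_mul_of_nonneg_left ?_ hε
  rw [mul_assoc]
  refine mul_le_mul_of_nonneg_left ?_ (by positivity)
  calc Real.sqrt n + ∑ i, (𝔼 Y : Fin (2 * k + 1) → Fin n → Bool, ‖D Y i‖)
      ≤ Real.sqrt n + ∑ _i : Fin (2 * k + 2), K * Real.sqrt n := by
        gcongr with i _; exact hD i
    _ = (1 + ((2 * k + 2 : ℕ) : ℝ) * K) * Real.sqrt n := by
        rw [Finset.sum_const, Finset.card_univ, Fintype.card_fin, nsmul_eq_mul]; ring

end Pool.Agent.Helper24.Zono
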